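import Mathlib

/-!
An interior-point method for `max c·x` subject to `A x ≤ b` with `b > 0`, using the logarithmic
barrier and starting at `x = 0`: Taylor predictor of order `p`, a line search with a bounded number
of trials, and a Newton corrector.
-/

namespace Pool.Agent.Work.MP_6af739_lc.Stmt

open Matrix Finset

variable {m n : ℕ} (A : Matrix (Fin m) (Fin n) ℝ) (b : Fin m → ℝ) (c : Fin n → ℝ)

/-- The slack vector `s = b - A x`. -/
def slack (x : Fin n → ℝ) : Fin m → ℝ := b - A *ᵥ x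

/-- Gradient of the logarithmic barrier `-∑ log s_j`. -/
noncomputable def grad (x : Fin n → ℝ) : Fin n → ℝ := Aᵀ *ᵥ fun j => (slack A b x j)⁻¹

/-- Hessian of the logarithmic barrier. -/
noncomputable def hess (x : Fin n → ℝ) : Matrix (Fin n) (Fin n) ℝ :=
  Aᵀ * diagonal (fun j => (slack A b x j)⁻¹ ^ 2) * A

/-- Predictor direction at the state `q = (λ, x)`: the solution of `H(x) z = λ c`. -/
noncomputable def dir (q : ℝ × (Fin n → ℝ)) : Fin n → ℝ := (hess A b q.2)⁻¹ *ᵥ (q.1 • c)

/-- Corrector: one Newton step for the equation `grad x - grad 0 = λ c`. -/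
noncomputable def correct (q : ℝ × (Fin n → ℝ)) : ℝ × (Fin n → ℝ) :=
  (q.1, q.2 - (hess A b q.2)⁻¹ *ᵥ (grad A b q.2 - grad A b 0 - q.1 • c))

/-- The relative decrease `(A z) / s` of the slacks at `x` along `z`. -/
noncomputable def rel (x z : Fin n → ℝ) : Fin m → ℝ := fun k => (A *ᵥ z) k / slack A b x k

/-- The solution `z` of `H(x) z = -Aᵀ (y / s)`. -/
noncomputable def back (x : Fin n → ℝ) (y : Fin m → ℝ) : Fin n → ℝ :=
  -((hess A b x)⁻¹ *ᵥ (Aᵀ *ᵥ fun k => y k / slack A b x k))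

/-- The pair `(z, y + (A z) / s)` with `z = back x y`. -/
noncomputable def next (x : Fin n → ℝ) (y : Fin m → ℝ) : (Fin n → ℝ) × (Fin m → ℝ) :=
  (back A b x y, y + rel A b x (back A b x y))

/-- Taylor coefficients `(z_j, f_j)` of order `j + 1` at the state `q = (λ, x)`: of the point and of
the relative change of `1 / s`. -/
noncomputable def tay (q : ℝ × (Fin n → ℝ)) : ℕ → (Fin n → ℝ) × (Fin m → ℝ)
  | 0 => (dir A b c q, rel A b q.2 (dir A b c q))
  | j + 1 => next A b q.2 (∑ i : Fin (j + 1), rel A b q.2 (tay q i).1 * (tay q (j - i)).2)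

/-- The predicted point `x + ∑_{j < p} a^(j+1) z_j`. -/
noncomputable def point (p : ℕ) (q : ℝ × (Fin n → ℝ)) (a : ℝ) : Fin n → ℝ :=
  q.2 + ∑ j ∈ range p, a ^ (j + 1) • (tay A b c q j).1

/-- The step `a` is accepted: `0 < s' ≤ 2 s` and `|(s'/s) (1 + ∑ a^(j+1) f_j) - 1|_2 ≤ 1/100`. -/
def Fits (p : ℕ) (q : ℝ × (Fin n → ℝ)) (a : ℝ) : Prop :=
  (∀ k, 0 < slack A b (point A b c p q a) k ∧
      slack A b (point A b c p q a) k ≤ 2 * slack A b q.2 k) ∧
    ∑ k, (slack A b (point A b c p q a) k / slack A b q.2 k *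
      (1 + ∑ j ∈ range p, a ^ (j + 1) * (tay A b c q j).2 k) - 1) ^ 2 ≤ 1 / 10 ^ 4

open Classical in
/-- The step length: `1 / 2^k` for the least accepted `k`, if some `k ≤ 30 + ⌈log₂ (p m)⌉` is
accepted, and `0` otherwise. -/
noncomputable def step (p : ℕ) (q : ℝ × (Fin n → ℝ)) : ℝ :=
  if ∃ k ≤ 30 + Nat.clog 2 (p * m), Fits A b c p q (1 / 2 ^ k) then
    1 / 2 ^ sInf {k : ℕ | Fits A b c p q (1 / 2 ^ k)}
  else 0

/-- Predictor step of order `p`. -/
noncomputable def advance (p : ℕ) (q : ℝ × (Fin n → ℝ)) : ℝ × (Fin n → ℝ) :=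
  ((1 + step A b c p q) * q.1, point A b c p q (step A b c p q))

/-- The iterates `(λ_i, x_i)`. -/
noncomputable def run (p : ℕ) : ℕ → ℝ × (Fin n → ℝ)
  | 0 => ((1 / 100) / ∑ j, |(A *ᵥ ((hess A b 0)⁻¹ *ᵥ c)) j / b j|, 0)
  | i + 1 => correct A b c (advance A b c p (run p i))

/-- The diagonal 0-1 matrix of a set of rows. -/
def ind (B : Finset (Fin m)) : Matrix (Fin m) (Fin m) ℝ := diagonal fun j => if j ∈ B then 1 else 0

/-- Primal candidate of a set of rows: the solution of `A_B x = b_B` (normal equations). -/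
noncomputable def candX (B : Finset (Fin m)) : Fin n → ℝ :=
  (Aᵀ * ind B * A)⁻¹ *ᵥ (Aᵀ *ᵥ (ind B *ᵥ b))

/-- Dual candidate of a set of rows: the solution of `A_Bᵀ y = c`, zero off `B`. -/
noncomputable def candY (B : Finset (Fin m)) : Fin m → ℝ :=
  ind B *ᵥ (A *ᵥ ((Aᵀ * ind B * A)⁻¹ *ᵥ c))

/-- The optimality test: primal feasibility, dual feasibility, no duality gap. -/
def Passes (B : Finset (Fin m)) : Prop :=
  (∀ j, (A *ᵥ candX A b B) j ≤ b j) ∧ (∀ j, 0 ≤ candY A c B j) ∧ Aᵀ *ᵥ candY A c B = c ∧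
    b ⬝ᵥ candY A c B = c ⬝ᵥ candX A b B

open Classical in
/-- The rows with the `n` smallest slacks at `x`. -/
noncomputable def guess (x : Fin n → ℝ) : Finset (Fin m) :=
  univ.filter fun j => (univ.filter fun i => slack A b x i ≤ slack A b x j).card ≤ n

/-- Iteration `i` stops: the rows with the smallest slacks pass the test, or the safeguard
set `e i` passes the test, or all `n`-sets of rows have been tried. -/
def Halts (p : ℕ) (e : ℕ → Finset (Fin m)) (i : ℕ) : Prop :=
  Passes A b c (guess A b (run A b c p i).2) ∨ Passes A b c (e i) ∨ i = m.choose n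

/-- The first iteration that stops. -/
noncomputable def haltTime (p : ℕ) (e : ℕ → Finset (Fin m)) : ℕ := sInf {i | Halts A b c p e i}

open Classical in
/-- The output: an optimal point, or `none` for unbounded. -/
noncomputable def answer (p : ℕ) (e : ℕ → Finset (Fin m)) : Option (Fin n → ℝ) :=
  if Passes A b c (guess A b (run A b c p (haltTime A b c p e)).2) then
    some (candX A b (guess A b (run A b c p (haltTime A b c p e)).2))
  else if Passes A b c (e (haltTime A b c p e)) then some (candX A b (e (haltTime A b c p e)))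
  else none

/-- A correct answer: an optimal feasible point, or `none` when the objective is unbounded. -/
def Correct : Option (Fin n → ℝ) → Prop
  | some x => (∀ j, (A *ᵥ x) j ≤ b j) ∧
      ∀ x' : Fin n → ℝ, (∀ j, (A *ᵥ x') j ≤ b j) → c ⬝ᵥ x' ≤ c ⬝ᵥ x
  | none => ∀ M : ℝ, ∃ x : Fin n → ℝ, (∀ j, (A *ᵥ x) j ≤ b j) ∧ M < c ⬝ᵥ x

end Pool.Agent.Work.MP_6af739_lc.Stmt
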