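import Pool.Agent.Work.MP_6af739_lc.HO.Pred
import Pool.Agent.Work.MP_6af739_lc.HO.Stmt

-- merged part: Pool.Agent.Work.MP_6af739_lc.HO.Close
section
/-!
Closure (C of the write-up). Rep lemmas: apply the definition; rep_node uses φ.comp of the linear maps
x ↦ Q (D (x * val τ')) and x' ↦ Q (D (x * x')) (LinearMap.mulRight, mulLeft, Matrix.mulVecLin, Seminorm.comp).
rep_norm: φ = normSeminorm, t = 1 (norm_val_le, nt_eq). rep_ff: φ x = |(D ψ) · x| (normSeminorm ℝ ℝ composed with the linear form).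
Fix d, D = sg d, Pd = flip d P, so D * (Pd v) = P (D * v), D * co Pd v = (1 - P)(D * v) (flip_apply, co_flip), (D x) * (D y) = x * y,
nrm (D * x) = nrm x, ‖D * x‖ = ‖x‖. E1 = v0·v1, h = co Pd ψ, θ = nrm h/σ, Z = σ Λ/(h·h), T = 1 + Z.
one_step: for e with Q e = e, f with Q (f - t v0) = 0, y = e + f = yp + yh:
D e = P (D y) - (bet U) val0 + (alp V) val1 + (gam σ) val3 and D f = (1-P)(D y) + (bet U) val0 - (alp V) val1 - (gam σ) val3,
alp = v0·e/E1, bet = ψ·f/E1, gam (h·h) = h·y - alp V ff(leaf 1) - bet U ff(leaf 2), h·y = (Dψ)·(1-P)(D yp) + h·yh.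
Induction claim at j with c_j = M^(2j+1) catalan j, M = 11 K^4 Θ B, for e_j = -(tg j).1 and f_j = (tg j).2:
both twisted vectors are u + v, Rep pure j u (c_j T^j), Rep all j v (c_j T^(j+1)), nrm v ≤ θ c_j T^(j+1), and
nrm e_j, nrm f_j ≤ √m c_j T^j. Here y_(j+1) = sum over i of (tg i).1 * (tg (j-i)).2 = -sum (D e_i) * (D f_(j-i)).
Finally ‖g_j‖ + ‖f_j‖ ≤ 4 c_j T^(j+1) ≤ (16 M^2 T)^(j+1) and Phi_le.
-/

namespace Pool.Agent.Work.MP_6af739_lc.HO

open Matrix Finset MeasureTheory ProbabilityTheory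
open Pool.Agent.Work.MP_6a50bc_pr
open Pool.Agent.Work.MP_5c5849_an (sg av)
open scoped ENNReal Polynomial

variable {m : ℕ} {P : Matrix (Fin m) (Fin m) ℝ} {cv : Fin 4 → Fin m → ℝ} {K : ℝ}
  {d : Fin m → Fin 2}

theorem rep_zero (S : Tr → Prop) (j : ℕ) : Rep P cv K d S j 0 0 := fun φ t _ _ => by
  rw [map_zero, mul_zero]

theorem rep_add {S : Tr → Prop} {j : ℕ} {x y : Fin m → ℝ} {a c : ℝ} (hx : Rep P cv K d S j x a)
    (hy : Rep P cv K d S j y c) : Rep P cv K d S j (x + y) (a + c) := fun φ t ht h => by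
  have := map_add_le_add φ x y
  have := hx φ t ht h
  have := hy φ t ht h
  linarith [mul_add t a c]

theorem rep_neg {S : Tr → Prop} {j : ℕ} {x : Fin m → ℝ} {a : ℝ} (hx : Rep P cv K d S j x a) :
    Rep P cv K d S j (-x) a := fun φ t ht h => by
  rw [map_neg_eq_map]
  exact hx φ t ht h

theorem rep_mono {S S' : Tr → Prop} {j j' : ℕ} {x : Fin m → ℝ} {a a' : ℝ}
    (hx : Rep P cv K d S j x a) (hS : ∀ τ, S τ → S' τ) (hj : j ≤ j') (ha : a ≤ a') :
    Rep P cv K d S' j' x a' := fun φ t ht h =>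
  (hx φ t ht fun τ h1 h2 => h τ (hS τ h1) (h2.trans hj)).trans (mul_le_mul_of_nonneg_left ha ht)

theorem rep_leaf {S : Tr → Prop} (j : ℕ) {i : Fin 4} (hS : S (.leaf i)) (c : ℝ) :
    Rep P cv K d S j (c • val P cv (.leaf i) d) (|c| * K) := fun φ t _ h => by
  have h1 := h _ hS (Nat.zero_le j)
  rw [show (Tr.leaf i).wt = 1 from rfl, pow_one] at h1
  rw [map_smul_eq_mul, Real.norm_eq_abs, mul_left_comm]
  exact mul_le_mul_of_nonneg_left h1 (abs_nonneg c)

theorem rep_node (hK : 0 ≤ K) {S S' S'' : Tr → Prop} {j j' : ℕ} {x y : Fin m → ℝ} {a c : ℝ}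
    (ha : 0 ≤ a) (hx : Rep P cv K d S j x a) (hy : Rep P cv K d S' j' y c) (s : Bool)
    (hS : ∀ τ τ', S τ → S' τ' → S'' (.node s τ τ')) :
    Rep P cv K d S'' (j + j' + 1) (qm P s *ᵥ (sg d * (x * y))) (K * a * c) := fun φ t ht h => by
  have h1 := hy (φ.comp ((qm P s).mulVecLin ∘ₗ LinearMap.mulLeft ℝ (sg d) ∘ₗ LinearMap.mulLeft ℝ x))
    (t * K * a) (by positivity) fun τ' s1 s2 => by
      have h2 := hx (φ.comp ((qm P s).mulVecLin ∘ₗ LinearMap.mulLeft ℝ (sg d) ∘ₗ
        LinearMap.mulRight ℝ (val P cv τ' d))) (t * K * K ^ τ'.wt) (by positivity)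
        fun τ s3 s4 => by
          have h3 := h _ (hS τ τ' s3 s1) (by simp only [Tr.nodes]; omega)
          rw [show (Tr.node s τ τ').wt = 1 + τ'.wt + τ.wt by simp only [Tr.wt, Tr.nodes]; omega,
            pow_add, pow_add, pow_one] at h3
          exact h3.trans_eq (by ring)
      exact h2.trans_eq (by ring)
  exact h1.trans_eq (by ring)

lemma rep_norm (hP : IsProj P) {S : Tr → Prop} {j : ℕ} {x : Fin m → ℝ} {a : ℝ}
    (hN : ∀ τ : Tr, τ.nodes ≤ j → nt P cv τ d ≤ K ^ τ.wt) (hx : Rep P cv K d S j x a) :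
    ‖x‖ ≤ a := by
  have := hx (normSeminorm ℝ _) 1 zero_le_one fun τ _ h => by
    have h1 := hN τ h
    have h2 := norm_val_le (cv := cv) hP τ d
    have h3 := one_le_nin (P := P) (cv := cv) τ d
    rw [nt_eq] at h1
    show ‖val P cv τ d‖ ≤ _
    linarith
  rwa [one_mul] at this

lemma rep_ff {ψ : Fin m → ℝ} {j : ℕ} {x : Fin m → ℝ} {a L : ℝ} (hL : 0 ≤ L)
    (hF : ∀ τ : Tr, τ.nodes ≤ j → τ.pure → τ.root = false → |ff P cv ψ τ d| ≤ L * K ^ τ.wt)
    (hx : Rep P cv K d (fun τ => τ.pure ∧ τ.root = false) j x a) :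
    |(sg d * ψ) ⬝ᵥ x| ≤ L * a :=
  hx ((normSeminorm ℝ ℝ).comp (dotProductBilin ℝ ℝ (sg d * ψ))) L hL
    fun τ h1 h2 => hF τ h2 h1.1 h1.2

lemma tw_tw (x : Fin m → ℝ) : sg d * (sg d * x) = x := funext fun k => by
  rw [Pi.mul_apply, Pi.mul_apply, ← mul_assoc, MP_5c5849_an.sg_sq, one_mul]

lemma tw_mul (x y : Fin m → ℝ) : sg d * x * (sg d * y) = x * y := by
  rw [mul_comm (sg d) x, mul_assoc, tw_tw]

lemma tw_dot (x y : Fin m → ℝ) : (sg d * x) ⬝ᵥ (sg d * y) = x ⬝ᵥ y :=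
  sum_congr rfl fun k _ => congrFun (tw_mul x y) k

lemma tw_nrm (x : Fin m → ℝ) : nrm (sg d * x) = nrm x := by rw [nrm, tw_dot, nrm]

lemma tw_norm (x : Fin m → ℝ) : ‖x‖ ≤ ‖sg d * x‖ :=
  (pi_norm_le_iff_of_nonneg (norm_nonneg _)).2 fun k => by
    have := norm_le_pi_norm (sg d * x) k
    rwa [Pi.mul_apply, norm_mul, sg, norm_pow, norm_neg, norm_one, one_pow, one_mul] at this

lemma tw_P (P : Matrix (Fin m) (Fin m) ℝ) (v : Fin m → ℝ) :
    sg d * (flip d P *ᵥ v) = P *ᵥ (sg d * v) := by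
  have h : ∀ x : Fin m → ℝ, diagonal (sg d) *ᵥ x = sg d * x := fun x =>
    funext fun k => mulVec_diagonal _ _ k
  rw [flip, ← mulVec_mulVec, ← mulVec_mulVec, h, h, tw_tw]

lemma tw_co (P : Matrix (Fin m) (Fin m) ℝ) (v : Fin m → ℝ) :
    sg d * co (flip d P) v = (1 - P) *ᵥ (sg d * v) := by rw [co_flip, tw_P]

lemma tw_leaf (M : Matrix (Fin m) (Fin m) ℝ) {U : ℝ} (hU : 0 < U) (v : Fin m → ℝ) :
    U • M *ᵥ (sg d * U⁻¹ • v) = M *ᵥ (sg d * v) := by
  rw [mul_smul_comm, mulVec_smul, smul_smul, mul_inv_cancel₀ hU.ne', one_smul]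

variable (P cv K d) in
/-- The induction claim for one vector. -/
def Tw (θ T : ℝ) (J : ℕ) (x : Fin m → ℝ) (a : ℝ) : Prop :=
  (∃ u v, sg d * x = u + v ∧ Rep P cv K d Tr.pure J u a ∧
    Rep P cv K d (fun _ => True) J v (a * T) ∧ nrm v ≤ θ * (a * T)) ∧ nrm x ≤ √m * a

variable (P cv K d) in
/-- The claim for sums of products. -/
def Py (θ T : ℝ) (J : ℕ) (y : Fin m → ℝ) (W : ℝ) : Prop :=
  (∃ yp yh, y = yp + yh ∧
    (∀ s, Rep P cv K d (fun τ => τ.pure ∧ τ.root = s) J (qm P s *ᵥ (sg d * yp)) (K * W) ∧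
      Rep P cv K d (fun _ => True) J (qm P s *ᵥ (sg d * yh)) (3 * K * (W * T))) ∧
    nrm yh ≤ 3 * θ * (W * T)) ∧ nrm y ≤ 2 * (√m * W)

variable {θ T : ℝ}

lemma Tw.mono {J : ℕ} {x : Fin m → ℝ} {a a' : ℝ} (h : Tw P cv K d θ T J x a) (hθ : 0 ≤ θ)
    (hT : 0 ≤ T) (ha : a ≤ a') : Tw P cv K d θ T J x a' := by
  obtain ⟨⟨u, v, h1, h2, h3, h4⟩, h5⟩ := h
  have := mul_le_mul_of_nonneg_right ha hT
  exact ⟨⟨u, v, h1, rep_mono h2 (fun _ h => h) le_rfl ha, rep_mono h3 (fun _ h => h) le_rfl this,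
    h4.trans (mul_le_mul_of_nonneg_left this hθ)⟩,
    h5.trans (mul_le_mul_of_nonneg_left ha (Real.sqrt_nonneg _))⟩

lemma Tw.neg {J : ℕ} {x : Fin m → ℝ} {a : ℝ} (h : Tw P cv K d θ T J x a) :
    Tw P cv K d θ T J (-x) a := by
  obtain ⟨⟨u, v, h1, h2, h3, h4⟩, h5⟩ := h
  exact ⟨⟨-u, -v, by rw [mul_neg, h1, neg_add], rep_neg h2, rep_neg h3, by rwa [nrm_neg]⟩,
    by rwa [nrm_neg]⟩

lemma Tw.norm_le (hP : IsProj P) {J : ℕ} {x : Fin m → ℝ} {a : ℝ}
    (hN : ∀ τ : Tr, τ.nodes ≤ J → nt P cv τ d ≤ K ^ τ.wt) (h : Tw P cv K d θ T J x a)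
    (ha : 0 ≤ a) (hT : 1 ≤ T) : ‖x‖ ≤ 2 * (a * T) := by
  obtain ⟨⟨u, v, h1, h2, h3, -⟩, -⟩ := h
  have := tw_norm (d := d) x
  rw [h1] at this
  linarith [norm_add_le u v, rep_norm hP hN h2, rep_norm hP hN h3, le_mul_of_one_le_right ha hT]

lemma py_zero (J : ℕ) : Py P cv K d θ T J 0 0 :=
  ⟨⟨0, 0, by simp, fun s => by simpa using ⟨rep_zero _ _, rep_zero _ _⟩, by simp⟩, by simp⟩

lemma Py.add {J : ℕ} {y y' : Fin m → ℝ} {W W' : ℝ} (h : Py P cv K d θ T J y W)
    (h' : Py P cv K d θ T J y' W') : Py P cv K d θ T J (y + y') (W + W') := by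
  obtain ⟨⟨u, v, h1, h2, h3⟩, h4⟩ := h
  obtain ⟨⟨u', v', h1', h2', h3'⟩, h4'⟩ := h'
  refine ⟨⟨u + u', v + v', by rw [h1, h1']; abel, fun s => ?_, ?_⟩, ?_⟩
  · rw [mul_add, mul_add (sg d), mulVec_add, mulVec_add]
    exact ⟨rep_mono (rep_add (h2 s).1 (h2' s).1) (fun _ h => h) le_rfl (le_of_eq (by ring)),
      rep_mono (rep_add (h2 s).2 (h2' s).2) (fun _ h => h) le_rfl (le_of_eq (by ring))⟩
  · linarith [nrm_add_le v v']
  · linarith [nrm_add_le y y']

lemma py_sum {J : ℕ} (s : Finset ℕ) {y : ℕ → Fin m → ℝ} {W : ℕ → ℝ}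
    (h : ∀ i ∈ s, Py P cv K d θ T J (y i) (W i)) :
    Py P cv K d θ T J (∑ i ∈ s, y i) (∑ i ∈ s, W i) := by
  induction s using Finset.induction_on with
  | empty => simpa using py_zero J
  | insert i s hi ih =>
    rw [sum_insert hi, sum_insert hi]
    exact (h i (mem_insert_self _ _)).add (ih fun k hk => h k (mem_insert_of_mem hk))

lemma Tw.mul (hP : IsProj P) (hK : 0 ≤ K) (hθ : 0 ≤ θ) (hT : 1 ≤ T) {i j : ℕ} {x y : Fin m → ℝ}
    {a c : ℝ} (hN : ∀ τ : Tr, τ.nodes ≤ i + j → nt P cv τ d ≤ K ^ τ.wt) (ha : 0 ≤ a) (hc : 0 ≤ c)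
    (hx : Tw P cv K d θ T i x a) (hy : Tw P cv K d θ T j y c) :
    Py P cv K d θ T (i + j + 1) (x * y) (a * c * T) := by
  have hNi := fun τ (h : τ.nodes ≤ i) => hN τ (h.trans (Nat.le_add_right _ _))
  have hNj := fun τ (h : τ.nodes ≤ j) => hN τ (h.trans (Nat.le_add_left _ _))
  have n0 := hx.norm_le hP hNi ha hT
  obtain ⟨⟨u, v, h1, h2, h3, h4⟩, -⟩ := hx
  obtain ⟨⟨u', v', h1', h2', h3', h4'⟩, h5'⟩ := hy
  have hT0 : 0 ≤ T := zero_le_one.trans hT
  have hac : 0 ≤ a * c := mul_nonneg ha hc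
  have t1 : a * c ≤ a * c * T := le_mul_of_one_le_right hac hT
  have t2 : a * c * T ≤ a * c * T * T := le_mul_of_one_le_right (by positivity) hT
  refine ⟨⟨u * u', u * v' + (v * u' + v * v'), ?_, fun s => ⟨?_, ?_⟩, ?_⟩, ?_⟩
  · rw [← tw_mul (d := d), h1, h1']
    ring
  · refine rep_mono (rep_node hK ha h2 h2' s fun τ τ' p1 p2 => ⟨⟨p1, p2⟩, rfl⟩) (fun _ h => h)
      le_rfl ?_
    nlinarith [mul_le_mul_of_nonneg_left t1 hK]
  · rw [mul_add, mul_add, mulVec_add, mulVec_add]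
    have haT : 0 ≤ a * T := mul_nonneg ha hT0
    refine rep_mono (rep_add (rep_node hK ha h2 h3' s fun _ _ _ _ => trivial)
      (rep_add (rep_node hK haT h3 h2' s fun _ _ _ _ => trivial)
        (rep_node hK haT h3 h3' s fun _ _ _ _ => trivial))) (fun _ h => h) le_rfl ?_
    nlinarith [mul_le_mul_of_nonneg_left t2 hK]
  · have b1 := (sn_nrm.mul u v').trans
      (mul_le_mul (rep_norm hP hNi h2) h4' (nrm_nonneg _) ha)
    have b2 := (sn_nrm.mul u' v).trans
      (mul_le_mul (rep_norm hP hNj h2') h4 (nrm_nonneg _) hc)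
    have b3 := (sn_nrm.mul v v').trans
      (mul_le_mul (rep_norm hP hNi h3) h4' (nrm_nonneg _) (by positivity))
    rw [mul_comm u' v] at b2
    nlinarith [nrm_add_le (u * v') (v * u' + v * v'), nrm_add_le (v * u') (v * v'),
      mul_le_mul_of_nonneg_left t2 hθ]
  · exact (sn_nrm.mul x y).trans ((mul_le_mul n0 h5' (nrm_nonneg _) (by positivity)).trans_eq
      (by ring))

lemma Close_coef {v x : Fin m → ℝ} {A B E Θ W : ℝ} (hv : ∀ k, |v k| ≤ A) (hA : 0 ≤ A)
    (hx : nrm x ≤ 2 * (√m * W)) (hE : 0 < E) (hB : 0 < B) (hW : 0 ≤ W) (h : m * A * B ≤ Θ * E) :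
    |v ⬝ᵥ x / E * B| ≤ 2 * Θ * W := by
  have h1 := nrm_le_of_abs_le hA hv
  rw [Fintype.card_fin] at h1
  have h2 := (abs_dot_le v x).trans (mul_le_mul h1 hx (nrm_nonneg _) (by positivity))
  have h3 : √(m : ℝ) * √m = m := Real.mul_self_sqrt (Nat.cast_nonneg m)
  rw [abs_mul, abs_div, abs_of_pos hE, abs_of_pos hB, div_mul_eq_mul_div, div_le_iff₀ hE]
  calc _ ≤ _ := mul_le_mul_of_nonneg_right h2 hB.le
    _ = 2 * W * (m * A * B) := by linear_combination (2 * W * A * B) * h3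
    _ ≤ 2 * W * (Θ * E) := mul_le_mul_of_nonneg_left h (by positivity)
    _ = _ := by ring

lemma Close_gam {γ σ N Λ K W Θ x1 x2 a f1 b f2 : ℝ} (hσ : 0 < σ) (hN : 0 < N) (hΛ : 0 ≤ Λ)
    (hK : 1 ≤ K) (hΘ : 1 ≤ Θ) (hW : 0 ≤ W) (h : γ * N ^ 2 = x1 + x2 - a * f1 - b * f2)
    (h1 : |x1| ≤ Λ * K ^ 2 * (K * W))
    (h2 : |x2| ≤ N * (3 * (N / σ) * (W * (1 + σ * Λ / N ^ 2)))) (ha : |a| ≤ 2 * Θ * W)
    (hb : |b| ≤ 2 * Θ * W) (g1 : |f1| ≤ Λ * K ^ 2 * K ^ 1) (g2 : |f2| ≤ Λ * K ^ 2 * K ^ 1) :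
    |γ * σ| ≤ 8 * K ^ 3 * Θ * (W * (1 + σ * Λ / N ^ 2)) := by
  obtain ⟨Z, hZ⟩ : ∃ Z, Z = σ * Λ / N ^ 2 := ⟨_, rfl⟩
  rw [← hZ] at h2 ⊢
  have hZ0 : 0 ≤ Z := by rw [hZ]; positivity
  have hZ1 : σ * Λ = Z * N ^ 2 := by rw [hZ]; field_simp
  have e1 : |a * f1| ≤ 2 * Θ * W * (Λ * K ^ 2 * K ^ 1) := by
    rw [abs_mul]
    exact mul_le_mul ha g1 (abs_nonneg _) (by positivity)
  have e2 : |b * f2| ≤ 2 * Θ * W * (Λ * K ^ 2 * K ^ 1) := by
    rw [abs_mul]
    exact mul_le_mul hb g2 (abs_nonneg _) (by positivity)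
  have e3 : |γ| * N ^ 2 ≤ |x1| + |x2| + |a * f1| + |b * f2| := by
    rw [← abs_of_pos (pow_pos hN 2), ← abs_mul, h]
    linarith [abs_sub (x1 + x2 - a * f1) (b * f2), abs_sub (x1 + x2) (a * f1), abs_add_le x1 x2]
  have e4 : |γ * σ| * N ^ 2 ≤
      (Z * K ^ 3 * W + 3 * (W * (1 + Z)) + 4 * Θ * W * Z * K ^ 3) * N ^ 2 := by
    rw [abs_mul, abs_of_pos hσ]
    calc _ = σ * (|γ| * N ^ 2) := by ring
      _ ≤ σ * (Λ * K ^ 2 * (K * W) + N * (3 * (N / σ) * (W * (1 + Z))) +
          2 * (2 * Θ * W * (Λ * K ^ 2 * K ^ 1))) :=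
        mul_le_mul_of_nonneg_left (by linarith) hσ.le
      _ = σ * Λ * (K ^ 3 * W + 4 * Θ * W * K ^ 3) + 3 * (W * (1 + Z)) * N ^ 2 := by
        field_simp
        ring
      _ = _ := by rw [hZ1]; ring
  have e5 := le_of_mul_le_mul_right e4 (pow_pos hN 2)
  have k3 : 1 ≤ K ^ 3 := one_le_pow₀ hK
  have k4 : 1 ≤ K ^ 3 * Θ := one_le_mul_of_one_le_of_one_le k3 hΘ
  have k5 : K ^ 3 ≤ K ^ 3 * Θ := le_mul_of_one_le_right (by positivity) hΘ
  have w1 : 0 ≤ W * Z := mul_nonneg hW hZ0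
  nlinarith [mul_le_mul_of_nonneg_right k4 w1, mul_le_mul_of_nonneg_right k5 w1,
    mul_le_mul_of_nonneg_right k4 hW]

lemma Close_num {K Θ W T θ r : ℝ} (hK : 1 ≤ K) (hΘ : 1 ≤ Θ) (hW : 0 ≤ W) (hT : 0 ≤ T) (hθ : 0 ≤ θ)
    (hr : 0 ≤ r) : K * W + 4 * (K * Θ) * W ≤ 11 * K ^ 4 * Θ * W ∧
      3 * K * (W * T) + 8 * (K ^ 4 * Θ) * (W * T) ≤ 11 * K ^ 4 * Θ * W * T ∧
      3 * θ * (W * T) + θ * (8 * K ^ 3 * Θ * (W * T)) ≤ θ * (11 * K ^ 4 * Θ * W * T) ∧
      2 * (r * W) ≤ r * (11 * K ^ 4 * Θ * W) := by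
  have hK0 : 0 ≤ K := zero_le_one.trans hK
  have hWT : 0 ≤ W * T := mul_nonneg hW hT
  have k4 : K ^ 3 ≤ K ^ 4 := pow_le_pow_right₀ hK (by norm_num)
  have k5 : K * Θ ≤ K ^ 4 * Θ :=
    mul_le_mul_of_nonneg_right (le_self_pow₀ hK (by norm_num)) (by linarith)
  have k6 : K ≤ K * Θ := le_mul_of_one_le_right hK0 hΘ
  have k7 : K ^ 3 * Θ ≤ K ^ 4 * Θ := mul_le_mul_of_nonneg_right k4 (by linarith)
  have k8 := mul_nonneg hθ hWT
  have k9 := mul_nonneg hr hW
  refine ⟨?_, ?_, ?_, ?_⟩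
  · linarith [mul_le_mul_of_nonneg_right k5 hW, mul_le_mul_of_nonneg_right k6 hW,
      mul_nonneg hK0 hW]
  · linarith [mul_le_mul_of_nonneg_right (k6.trans k5) hWT]
  · linarith [mul_le_mul_of_nonneg_right (hK.trans (k6.trans k5)) k8,
      mul_le_mul_of_nonneg_right k7 k8]
  · linarith [mul_le_mul_of_nonneg_right (hK.trans (k6.trans k5)) k9]

lemma Close_step {Q : Matrix (Fin m) (Fin m) ℝ} (hP : IsProj P) {v0 v1 ψ : Fin m → ℝ}
    {U V Y Θ σ Λ : ℝ} (hW : StructW Q (flip d P) v0 v1 ψ)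
    (hψ : ψ ⬝ᵥ v0 = v0 ⬝ᵥ v1) (hE : 0 < v0 ⬝ᵥ v1) (hU : ∀ k, |v0 k| ≤ U)
    (hY : ∀ k, |ψ k| ≤ Y) (hU0 : 0 < U) (hV0 : 0 < V) (hY0 : 0 ≤ Y) (hσ : 0 < σ) (hΛ : 0 ≤ Λ)
    (h1 : m * U * V ≤ Θ * (v0 ⬝ᵥ v1)) (h2 : m * U * Y ≤ Θ * (v0 ⬝ᵥ v1)) (hK : 1 ≤ K)
    (hΘ : 1 ≤ Θ) (hh : co (flip d P) ψ ≠ 0) (hθ : θ = nrm (co (flip d P) ψ) / σ)
    (hT : T = 1 + σ * Λ / nrm (co (flip d P) ψ) ^ 2) {J : ℕ}
    (hF : ∀ τ : Tr, τ.nodes ≤ J → τ.pure → τ.root = false →
      |ff P (cvec v0 v1 ψ U V σ) ψ τ d| ≤ Λ * K ^ 2 * K ^ τ.wt)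
    (e f : Fin m → ℝ) (W t : ℝ) (hW0 : 0 ≤ W) (he : Q *ᵥ e = e) (hf : Q *ᵥ (f - t • v0) = 0)
    (ne : nrm e ≤ 2 * (√m * W)) (nf : nrm f ≤ 2 * (√m * W))
    (hy : Py P (cvec v0 v1 ψ U V σ) K d θ T J (e + f) W) :
    Tw P (cvec v0 v1 ψ U V σ) K d θ T J e (11 * K ^ 4 * Θ * W) ∧
      Tw P (cvec v0 v1 ψ U V σ) K d θ T J f (11 * K ^ 4 * Θ * W) := by
  obtain ⟨γ, hγ⟩ := hW.1 e he
  have hβ := hW.2 f t hf
  have ha := Close_coef hU hU0.le ne hE hV0 hW0 h1
  have hb := Close_coef hY hY0 nf hE hU0 hW0 (by rwa [mul_right_comm])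
  have hβ' : ψ ⬝ᵥ f = ψ ⬝ᵥ f / (v0 ⬝ᵥ v1) * (ψ ⬝ᵥ v0) := by rw [hψ, div_mul_cancel₀ _ hE.ne']
  generalize v0 ⬝ᵥ e / (v0 ⬝ᵥ v1) = α at hγ ha
  generalize ψ ⬝ᵥ f / (v0 ⬝ᵥ v1) = β at hβ hb hβ'
  obtain ⟨⟨yp, yh, hy, hR, hn⟩, -⟩ := hy
  have hD := hP.flip d
  have l0 : U • val P (cvec v0 v1 ψ U V σ) (.leaf 0) d = sg d * (flip d P *ᵥ v0) :=
    (tw_leaf P hU0 v0).trans (tw_P P v0).symm
  have l1 : V • val P (cvec v0 v1 ψ U V σ) (.leaf 1) d = sg d * co (flip d P) v1 :=
    (tw_leaf (1 - P) hV0 v1).trans (tw_co P v1).symm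
  have l2 : U • val P (cvec v0 v1 ψ U V σ) (.leaf 2) d = sg d * co (flip d P) v0 :=
    (tw_leaf (1 - P) hU0 v0).trans (tw_co P v0).symm
  have l3 : σ • val P (cvec v0 v1 ψ U V σ) (.leaf 3) d = sg d * co (flip d P) ψ :=
    (tw_leaf (1 - P) hσ ψ).trans (tw_co P ψ).symm
  have g1 := hF (.leaf 1) (Nat.zero_le _) (by simp [Tr.pure]) rfl
  have g2 := hF (.leaf 2) (Nat.zero_le _) (by simp [Tr.pure]) rfl
  have f1 : V * ff P (cvec v0 v1 ψ U V σ) ψ (.leaf 1) d = ψ ⬝ᵥ co (flip d P) v1 := by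
    rw [ff, ← smul_eq_mul, ← dotProduct_smul, l1, tw_dot]
  have f2 : U * ff P (cvec v0 v1 ψ U V σ) ψ (.leaf 2) d = ψ ⬝ᵥ co (flip d P) v0 := by
    rw [ff, ← smul_eq_mul, ← dotProduct_smul, l2, tw_dot]
  have x1 := rep_ff (by positivity) hF (hR false).1
  have x1' : (sg d * ψ) ⬝ᵥ qm P false *ᵥ (sg d * yp) = ψ ⬝ᵥ co (flip d P) yp := by
    rw [← tw_dot (d := d) ψ, tw_co]
    rfl
  have x2 := (abs_dot_le (co (flip d P) ψ) yh).trans (mul_le_mul_of_nonneg_left hn (nrm_nonneg _))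
  have x2' : co (flip d P) ψ ⬝ᵥ yh = ψ ⬝ᵥ co (flip d P) yh := by
    rw [dotProduct_comm, ← hD.co_dot_co, dotProduct_comm, hD.co_dot_co]
  have ee : e = flip d P *ᵥ yp + flip d P *ᵥ yh - β • flip d P *ᵥ v0 + α • co (flip d P) v1 +
      γ • co (flip d P) ψ := by
    rw [← mulVec_add, ← hy, ← hβ, mulVec_add, add_assoc, ← hγ, co]
    abel
  have ef : f = co (flip d P) yp + co (flip d P) yh + β • flip d P *ᵥ v0 - α • co (flip d P) v1 -
      γ • co (flip d P) ψ := by
    rw [eq_sub_of_add_eq' hy, ee, co.eq_1 _ yp, co.eq_1 _ yh]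
    abel
  have hg : γ * nrm (co (flip d P) ψ) ^ 2 = ψ ⬝ᵥ co (flip d P) yp + ψ ⬝ᵥ co (flip d P) yh -
      α * V * ff P (cvec v0 v1 ψ U V σ) ψ (.leaf 1) d -
      β * U * ff P (cvec v0 v1 ψ U V σ) ψ (.leaf 2) d := by
    have i1 := congrArg (ψ ⬝ᵥ ·) ef
    have i2 : ψ ⬝ᵥ co (flip d P) v0 = ψ ⬝ᵥ v0 - ψ ⬝ᵥ flip d P *ᵥ v0 := by rw [co, dotProduct_sub]
    simp only [dotProduct_sub, dotProduct_add, dotProduct_smul, smul_eq_mul] at i1
    rw [nrm_sq, hD.co_dot_co, mul_assoc, mul_assoc, f1, f2, i2]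
    linear_combination i1 - hβ'
  rw [x1'] at x1
  rw [x2', hθ, hT] at x2
  have hc := Close_gam hσ (nrm_pos hh) hΛ hK hΘ hW0 hg x1 x2 ha hb g1 g2
  rw [← hT] at hc
  have hK0 : 0 ≤ K := zero_le_one.trans hK
  have hθ0 : 0 ≤ θ := by rw [hθ]; exact div_nonneg (nrm_nonneg _) hσ.le
  have hT0 : 0 ≤ T := by rw [hT]; positivity
  have r0 : Rep P (cvec v0 v1 ψ U V σ) K d Tr.pure J
      (α • (sg d * co (flip d P) v1) - β • (sg d * (flip d P *ᵥ v0))) (4 * (K * Θ) * W) := by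
    rw [← l0, ← l1, smul_smul, smul_smul, sub_eq_add_neg]
    refine rep_mono (rep_add (rep_leaf J (by simp [Tr.pure]) _)
      (rep_neg (rep_leaf J (by simp [Tr.pure]) _))) (fun _ h => h) le_rfl ?_
    linarith [mul_le_mul_of_nonneg_right ha hK0, mul_le_mul_of_nonneg_right hb hK0]
  have r3 : Rep P (cvec v0 v1 ψ U V σ) K d (fun _ => True) J
      (γ • (sg d * co (flip d P) ψ)) (8 * (K ^ 4 * Θ) * (W * T)) := by
    rw [← l3, smul_smul]
    exact rep_mono (rep_leaf J trivial _) (fun _ h => h) le_rfl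
      ((mul_le_mul_of_nonneg_right hc hK0).trans_eq (by ring))
  have n3 : nrm (γ • (sg d * co (flip d P) ψ)) ≤ θ * (8 * K ^ 3 * Θ * (W * T)) := by
    rw [nrm_smul, tw_nrm]
    refine le_trans (le_of_eq ?_) (mul_le_mul_of_nonneg_left hc hθ0)
    rw [hθ, abs_mul, abs_of_pos hσ]
    field_simp
  have n4 : ∀ s, nrm (qm P s *ᵥ (sg d * yh)) ≤ 3 * θ * (W * T) := fun s =>
    ((isProj_qm hP s).nrm_le _).trans ((tw_nrm yh).trans_le hn)
  obtain ⟨b1, b2, b3, b4⟩ := Close_num hK hΘ hW0 hT0 hθ0 (Real.sqrt_nonneg m)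
  refine ⟨⟨⟨_, _, ?_, rep_mono (rep_add (rep_mono (hR true).1 (fun _ h => h.1) le_rfl le_rfl) r0)
      (fun _ h => h) le_rfl b1, rep_mono (rep_add (hR true).2 r3) (fun _ h => h) le_rfl b2,
      (nrm_add_le _ _).trans ((add_le_add (n4 true) n3).trans b3)⟩, ne.trans b4⟩,
    ⟨⟨_, _, ?_, rep_mono (rep_add (rep_mono (hR false).1 (fun _ h => h.1) le_rfl le_rfl)
      (rep_neg r0)) (fun _ h => h) le_rfl b1,
      rep_mono (rep_add (hR false).2 (rep_neg r3)) (fun _ h => h) le_rfl b2,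
      (nrm_add_le _ _).trans ((add_le_add (n4 false) ((nrm_neg _).trans_le n3)).trans b3)⟩,
      nf.trans b4⟩⟩
  · rw [show qm P true = P from rfl, ← tw_P, ← tw_P]
    conv_lhs => rw [ee]
    simp only [mul_add, mul_sub, mul_smul_comm]
    abel
  · rw [show qm P false = 1 - P from rfl, ← tw_co, ← tw_co]
    conv_lhs => rw [ef]
    simp only [mul_add, mul_sub, mul_smul_comm]
    abel

theorem closure {Q : Matrix (Fin m) (Fin m) ℝ} (hP : IsProj P) (hQ : IsProj Q)
    {v0 v1 ψ : Fin m → ℝ} {U V Y Θ B : ℝ} {p : ℕ} (hW : StructW Q (flip d P) v0 v1 ψ)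
    (hψ : ψ ⬝ᵥ v0 = v0 ⬝ᵥ v1) (hE : 0 < v0 ⬝ᵥ v1) (hU : ∀ k, |v0 k| ≤ U) (hV : ∀ k, |v1 k| ≤ V)
    (hY : ∀ k, |ψ k| ≤ Y) (hU0 : 0 < U) (hV0 : 0 < V) (hM : 0 < mpsi P ψ)
    (h1 : m * U * V ≤ Θ * (v0 ⬝ᵥ v1)) (h2 : m * U * Y ≤ Θ * (v0 ⬝ᵥ v1)) (hUB : U ≤ B)
    (hB : 1 ≤ B) (hK : 1 ≤ K) (hΘ : 1 ≤ Θ) (hh : co (flip d P) ψ ≠ 0)
    (hG : GoodD P (cvec v0 v1 ψ U V (sgm P ψ Y)) ψ p K d) :
    Phi p Q (Q *ᵥ v0) ≤ 16 * p * (11 * K ^ 4 * Θ * B) ^ 2 *
      (1 + sgm P ψ Y * lm P ψ / (co (flip d P) ψ ⬝ᵥ co (flip d P) ψ)) := by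
  have hY0 : 0 < Y := by
    by_contra h
    have h0 : ψ = 0 := funext fun k => abs_nonpos_iff.1 ((hY k).trans (not_lt.1 h))
    simp [h0, mpsi] at hM
  have hσ : 0 < sgm P ψ Y := lt_min hY0 (Real.sqrt_pos.2 hM)
  have hΛ : 0 ≤ lm P ψ := add_nonneg (sum_nonneg fun k _ =>
    mul_nonneg (sub_nonneg.2 (hP.diag_le_one k)) (abs_nonneg _)) (Real.sqrt_nonneg _)
  rw [← nrm_sq]
  obtain ⟨T, hT⟩ : ∃ T, T = 1 + sgm P ψ Y * lm P ψ / nrm (co (flip d P) ψ) ^ 2 := ⟨_, rfl⟩
  obtain ⟨θ, hθ⟩ : ∃ θ, θ = nrm (co (flip d P) ψ) / sgm P ψ Y := ⟨_, rfl⟩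
  have hθ0 : 0 ≤ θ := by rw [hθ]; exact div_nonneg (nrm_nonneg _) hσ.le
  have hT1 : 1 ≤ T := by rw [hT]; exact le_add_of_nonneg_right (by positivity)
  have hT0 : 0 ≤ T := zero_le_one.trans hT1
  have hK0 : 0 ≤ K := zero_le_one.trans hK
  have st := fun J (hJ : J < p) => Close_step hP hW hψ hE hU hY hU0 hV0 hY0.le hσ hΛ h1 h2 hK hΘ
    hh hθ hT (J := J) fun τ h => (hG τ (h.trans_lt hJ)).2
  have hN := fun J (hJ : J < p) (τ : Tr) (h : τ.nodes ≤ J) => (hG τ (h.trans_lt hJ)).1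
  rw [← hT]
  obtain ⟨M, hM⟩ : ∃ M, M = 11 * K ^ 4 * Θ * B := ⟨_, rfl⟩
  have hM0 : 11 * K ^ 4 * Θ ≤ M := hM ▸ le_mul_of_one_le_right (by positivity) hB
  have hM1 : 1 ≤ M := by
    nlinarith [one_le_mul_of_one_le_of_one_le (one_le_pow₀ hK : 1 ≤ K ^ 4) hΘ]
  rw [← hM]
  have a0 : ∀ j : ℕ, 0 ≤ M ^ (2 * j + 1) * catalan j * T ^ j := fun j => by positivity
  have key : ∀ j < p, Tw P (cvec v0 v1 ψ U V (sgm P ψ Y)) K d θ T j (-(tg Q (Q *ᵥ v0) j).1)
        (M ^ (2 * j + 1) * catalan j * T ^ j) ∧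
      Tw P (cvec v0 v1 ψ U V (sgm P ψ Y)) K d θ T j (tg Q (Q *ᵥ v0) j).2
        (M ^ (2 * j + 1) * catalan j * T ^ j) := by
    intro j
    induction j using Nat.strong_induction_on with
    | _ j ih =>
      intro hj
      rcases j with _ | j
      · have n0 : nrm (Q *ᵥ v0) ≤ 2 * (√m * B) := by
          have i1 := nrm_le_of_abs_le hU0.le hU
          rw [Fintype.card_fin] at i1
          nlinarith [hQ.nrm_le v0, mul_le_mul_of_nonneg_left hUB (Real.sqrt_nonneg m),
            Real.sqrt_nonneg m]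
        have := st 0 hj (-(Q *ᵥ v0)) (Q *ᵥ v0) B 1 (by linarith)
          (by rw [mulVec_neg, hQ.mulVec_idem]) (by rw [one_smul, mulVec_sub, hQ.mulVec_idem, sub_self])
          (by rwa [nrm_neg]) n0 (by
            rw [neg_add_cancel]
            exact ⟨⟨0, 0, by simp, fun s => by
              simpa using ⟨rep_mono (rep_zero _ _) (fun _ h => h) le_rfl (by positivity),
                rep_mono (rep_zero _ _) (fun _ h => h) le_rfl (by positivity)⟩,
              by rw [nrm_zero]; positivity⟩, by rw [nrm_zero]; positivity⟩)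
        simpa [tg_zero, hM] using this
      · have hy : Py P (cvec v0 v1 ψ U V (sgm P ψ Y)) K d θ T (j + 1) (ty Q (Q *ᵥ v0) j)
            (∑ i ∈ range (j + 1), M ^ (2 * i + 1) * catalan i * T ^ i *
              (M ^ (2 * (j - i) + 1) * catalan (j - i) * T ^ (j - i)) * T) := by
          refine py_sum _ fun i hi => ?_
          have hi' := Nat.lt_succ_iff.1 (mem_range.1 hi)
          have := Tw.mul hP hK0 hθ0 hT1 (hN (i + (j - i)) (by omega)) (a0 _) (a0 _)
            (ih i (by omega) (by omega)).1.neg (ih (j - i) (by omega) (by omega)).2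
          rwa [neg_neg, Nat.add_sub_cancel' hi'] at this
        have hs : ∑ i ∈ range (j + 1), M ^ (2 * i + 1) * catalan i * T ^ i *
            (M ^ (2 * (j - i) + 1) * catalan (j - i) * T ^ (j - i)) * T =
            M ^ (2 * j + 2) * catalan (j + 1) * T ^ (j + 1) := by
          rw [catalan_rec, mul_sum, sum_mul]
          refine sum_congr rfl fun i hi => ?_
          obtain ⟨k, rfl⟩ := Nat.exists_eq_add_of_le (Nat.lt_succ_iff.1 (mem_range.1 hi))
          rw [Nat.add_sub_cancel_left]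
          ring
        rw [hs] at hy
        have := st (j + 1) hj (Q *ᵥ ty Q (Q *ᵥ v0) j)
          (ty Q (Q *ᵥ v0) j - Q *ᵥ ty Q (Q *ᵥ v0) j)
          (M ^ (2 * j + 2) * catalan (j + 1) * T ^ (j + 1)) 0 (by positivity)
          (hQ.mulVec_idem _) (by rw [zero_smul, sub_zero, mulVec_sub, hQ.mulVec_idem, sub_self])
          ((hQ.nrm_le _).trans hy.2)
          ((Real.sqrt_le_sqrt (hQ.co_dot_self_le _)).trans hy.2) (by rwa [add_sub_cancel])
        have hle : 11 * K ^ 4 * Θ * (M ^ (2 * j + 2) * catalan (j + 1) * T ^ (j + 1)) ≤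
            M ^ (2 * (j + 1) + 1) * catalan (j + 1) * T ^ (j + 1) :=
          (mul_le_mul_of_nonneg_right hM0 (by positivity)).trans_eq (by ring)
        rw [tg_succ, neg_neg]
        exact ⟨this.1.mono hθ0 hT0 hle, this.2.mono hθ0 hT0 hle⟩
  refine (Phi_le (ρ := 16 * M ^ 2 * T) (by positivity) fun j hj => ?_).trans_eq (by ring)
  have i1 := (key j hj).1.norm_le hP (hN j hj) (a0 j) hT1
  have i2 := (key j hj).2.norm_le hP (hN j hj) (a0 j) hT1
  rw [norm_neg] at i1
  calc _ ≤ 4 * (M ^ (2 * j + 1) * catalan j * T ^ j * T) := by linarith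
    _ ≤ 16 * (M ^ (2 * j + 2) * 16 ^ j * T ^ j * T) := by
      gcongr
      · norm_num
      · omega
      · exact (catalan_le j).trans (pow_le_pow_left₀ (by norm_num) (by norm_num) j)
    _ = _ := by rw [mul_pow, mul_pow, ← pow_mul]; ring

end Pool.Agent.Work.MP_6af739_lc.HO
end

-- merged part: Pool.Agent.Work.MP_6af739_lc.HO.SignI
section
/-!
Sign averaging under the integral in G (S of the write-up); model: SignInt_two and sign_int in Final.lean.
sign_cube is the statement on the cube. Put U = R^2 a, V = R^5 α, Y = R^12 α, Θ = R^16, B = R^2, K = R^6, so that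
16 p (11 K^4 Θ B)^2 ≤ R^86. If mpsi = 0 then co (flip d P) ψ = 0 for all d (av_bil) and rho = 0 (rho_le, rho_nonneg). Otherwise CH holds
for cvec. For d with rho ≠ 0 we have h = co (flip d P) ψ ≠ 0. On GoodD: Phi rho ≤ R^86 (rho + σ Λ 5 |v0|^2 |v1|^2), σ Λ ≤ Y nut + mpsi
≤ 2 Y nut, |v0|^2 |v1|^2 ≤ (m U V)^2 ≤ (Θ E1)^2. Off GoodD: Phi ≤ 4 p nrm v0 ≤ 4 R √m R^2 (Phi_crude), rho ≤ 5 (h·h) (Θ E1)^2 and
av (1_bad (h·h)) ≤ √(1/(3m)) √3 mpsi (av_mul_le, cube_bad, av_self_sq, co_flip).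
sign_int2: SignInt_avg with mp_flip; hdet (D G) = det X/(r^2 E1^2) rho (flip D P) (as e1 in SignInt_two), Q D = proj (sc (hA (D G))) = proj mM
(hat_sc), qv = Q h0 (hat_vz), structW_mM, QF_psi_dot; det X (1 - P_kk) = det (hXk) (det_mul_diag), which is invariant under flips
because the left side is (gram_flip, proj_flip, flip_diag).
-/

namespace Pool.Agent.Work.MP_6af739_lc.HO

open Matrix Finset MeasureTheory ProbabilityTheory
open Pool.Agent.Work.MP_6a50bc_pr
open Pool.Agent.Work.MP_5c5849_an (sg av av_add av_const av_const_mul av_mono av_mul_le av_le_of_sq)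
open scoped ENNReal Polynomial

variable {m n : ℕ}

lemma signi_dot {v : Fin m → ℝ} {U : ℝ} (hU : ∀ k, |v k| ≤ U) : v ⬝ᵥ v ≤ m * U ^ 2 := by
  refine (sum_le_card_nsmul univ (fun k => v k * v k) (U ^ 2) fun k _ => ?_).trans_eq ?_
  · rw [← sq]
    exact sq_le_sq' (abs_le.1 (hU k)).1 (abs_le.1 (hU k)).2
  · simp

lemma signi_sq {P : Matrix (Fin m) (Fin m) ℝ} (hP : IsProj P) (ψ : Fin m → ℝ) :
    av (fun d => (co (flip d P) ψ ⬝ᵥ co (flip d P) ψ) ^ 2) ≤ (2 * mpsi P ψ) ^ 2 := by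
  have k := av_self_sq hP.one_sub ψ
  have e : ∑ k, (1 - P) k k * ψ k ^ 2 = mpsi P ψ := sum_congr rfl fun k _ => by simp
  simp only [fun d => (hP.flip d).co_dot_co ψ ψ]
  simp only [co_flip]
  rw [e] at k
  nlinarith [sq_nonneg (mpsi P ψ)]

lemma signi_mpsi {P : Matrix (Fin m) (Fin m) ℝ} (hP : IsProj P) {ψ : Fin m → ℝ} {Y : ℝ}
    (hY : ∀ k, |ψ k| ≤ Y) : 0 ≤ mpsi P ψ ∧ mpsi P ψ ≤ Y * nut P ψ := by
  refine ⟨sum_nonneg fun k _ => mul_nonneg (sub_nonneg.2 (hP.diag_le_one k)) (sq_nonneg _), ?_⟩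
  rw [nut, mul_sum]
  refine sum_le_sum fun k _ => ?_
  rw [mul_left_comm, ← sq_abs, sq]
  exact mul_le_mul_of_nonneg_left (mul_le_mul_of_nonneg_right (hY k) (abs_nonneg _))
    (sub_nonneg.2 (hP.diag_le_one k))

lemma signi_bad {P : Matrix (Fin m) (Fin m) ℝ} (hP : IsProj P) (v0 v1 ψ : Fin m → ℝ)
    {U V Y R : ℝ} {p : ℕ} (hR : 10 ^ 20 ≤ R) (hp : (p : ℝ) ≤ R)
    (hm : (m : ℝ) ^ 24 ≤ Real.exp R) (hm0 : (0 : ℝ) < m) (hU : ∀ k, |v0 k| ≤ U)
    (hV : ∀ k, |v1 k| ≤ V) (hY : ∀ k, |ψ k| ≤ Y) (hU0 : 0 < U) (hV0 : 0 < V) :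
    ∃ f : (Fin m → Fin 2) → ℝ,
      av (fun d => f d * (co (flip d P) ψ ⬝ᵥ co (flip d P) ψ)) ≤ (√m)⁻¹ * (2 * mpsi P ψ) ∧
      ∀ d, f d = 1 ∨ f d = 0 ∧ 0 < mpsi P ψ ∧
        GoodD P (cvec v0 v1 ψ U V (sgm P ψ Y)) ψ p (R ^ 6) d := by
  classical
  have q := signi_sq hP ψ
  rcases (signi_mpsi hP hY).1.eq_or_lt with h0 | h0
  · refine ⟨fun _ => 1, ?_, fun _ => Or.inl rfl⟩
    simp only [one_mul]
    refine (av_le_of_sq _ (by rw [← h0]; norm_num) q).trans_eq ?_
    rw [← h0]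
    ring
  have u : ∀ {v : Fin m → ℝ} {U : ℝ}, (∀ k, |v k| ≤ U) → 0 < U → ∀ k, |(U⁻¹ • v) k| ≤ 1 :=
    fun hU hU0 k => by
      rw [Pi.smul_apply, smul_eq_mul, abs_mul, abs_of_pos (inv_pos.2 hU0), inv_mul_le_iff₀ hU0,
        mul_one]
      exact hU k
  have c : CH P (cvec v0 v1 ψ U V (sgm P ψ Y)) ψ Y := by
    refine ⟨hP, fun i hi => ?_, hY, h0, rfl⟩
    fin_cases i
    · exact u hU hU0
    · exact u hV hV0
    · exact u hU hU0
    · exact absurd rfl hi
  have b := cube_bad c hR hp hm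
  refine ⟨fun d => if GoodD P (cvec v0 v1 ψ U V (sgm P ψ Y)) ψ p (R ^ 6) d then 0 else 1,
    av_mul_le _ _ (by positivity) (by positivity) ?_ q, fun d => ?_⟩
  · rw [inv_pow, Real.sq_sqrt hm0.le]
    refine le_trans (av_mono fun d => ?_) (b.trans ?_)
    · split_ifs <;> norm_num
    · rw [one_div]
      exact inv_anti₀ hm0 (by linarith)
  · by_cases k : GoodD P (cvec v0 v1 ψ U V (sgm P ψ Y)) ψ p (R ^ 6) d
    · exact Or.inr ⟨if_pos k, h0, k⟩
    · exact Or.inl (if_neg k)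

theorem sign_cube {P : Matrix (Fin m) (Fin m) ℝ} (hP : IsProj P)
    {Q : (Fin m → Fin 2) → Matrix (Fin m) (Fin m) ℝ} (hQ : ∀ d, IsProj (Q d))
    {v0 v1 ψ : Fin m → ℝ} {U V Y R : ℝ} {p : ℕ} (hR : 10 ^ 20 ≤ R) (hp : (p : ℝ) ≤ R)
    (hm : (m : ℝ) ^ 24 ≤ Real.exp R)
    (hW : ∀ d, rho (flip d P) v0 v1 ψ ≠ 0 → StructW (Q d) (flip d P) v0 v1 ψ)
    (hψ : ψ ⬝ᵥ v0 = v0 ⬝ᵥ v1) (hE : 0 < v0 ⬝ᵥ v1) (hU : ∀ k, |v0 k| ≤ U) (hV : ∀ k, |v1 k| ≤ V)
    (hY : ∀ k, |ψ k| ≤ Y) (hU0 : 0 < U) (hV0 : 0 < V)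
    (h1 : m * U * V ≤ R ^ 16 * (v0 ⬝ᵥ v1)) (h2 : m * U * Y ≤ R ^ 16 * (v0 ⬝ᵥ v1))
    (hUB : U ≤ R ^ 2) :
    av (fun d => Phi p (Q d) (Q d *ᵥ v0) * rho (flip d P) v0 v1 ψ) ≤
      R ^ 86 * av (fun d => rho (flip d P) v0 v1 ψ) +
        R ^ 119 * (Y * nut P ψ * (v0 ⬝ᵥ v1) ^ 2) := by
  have hm0 : (0 : ℝ) < m := by
    rcases Nat.eq_zero_or_pos m with rfl | k
    · simp [dotProduct] at hE
    · exact_mod_cast k
  have R1 : 1 ≤ R := le_trans (by norm_num) hR
  have R0 : 0 < R := by linarith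
  have s0 : 0 < √(m : ℝ) := Real.sqrt_pos.2 hm0
  obtain ⟨M0, M1⟩ := signi_mpsi hP hY
  have Y0 : 0 ≤ Y := (abs_nonneg _).trans (hY ⟨0, by exact_mod_cast hm0⟩)
  have N0 : 0 ≤ nut P ψ :=
    sum_nonneg fun k _ => mul_nonneg (sub_nonneg.2 (hP.diag_le_one k)) (abs_nonneg _)
  obtain ⟨f, f1, f2⟩ := signi_bad hP v0 v1 ψ hR hp hm hm0 hU hV hY hU0 hV0
  have w : (v0 ⬝ᵥ v0) * (v1 ⬝ᵥ v1) ≤ R ^ 32 * (v0 ⬝ᵥ v1) ^ 2 := by
    refine (mul_le_mul (signi_dot hU) (signi_dot hV) (dot_self_nonneg _) (by positivity)).trans ?_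
    calc _ = (m * U * V) ^ 2 := by ring
      _ ≤ (R ^ 16 * (v0 ⬝ᵥ v1)) ^ 2 := pow_le_pow_left₀ (by positivity) h1 2
      _ = _ := by ring
  have sl : sgm P ψ Y * lm P ψ ≤ 2 * (Y * nut P ψ) := by
    have a1 : sgm P ψ Y * nut P ψ ≤ Y * nut P ψ := mul_le_mul_of_nonneg_right (min_le_left _ _) N0
    have a2 : sgm P ψ Y * √(mpsi P ψ) ≤ √(mpsi P ψ) * √(mpsi P ψ) :=
      mul_le_mul_of_nonneg_right (min_le_right _ _) (Real.sqrt_nonneg _)
    rw [Real.mul_self_sqrt M0] at a2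
    rw [lm, mul_add]
    linarith
  have nv : nrm v0 ≤ √m * R ^ 2 := by
    rw [nrm_le_iff (by positivity), mul_pow, Real.sq_sqrt hm0.le]
    exact (signi_dot hU).trans
      (mul_le_mul_of_nonneg_left (pow_le_pow_left₀ hU0.le hUB 2) hm0.le)
  generalize hW' : R ^ 32 * (v0 ⬝ᵥ v1) ^ 2 = W at w
  have W0 : 0 ≤ W := by rw [← hW']; positivity
  have key : ∀ d, Phi p (Q d) (Q d *ᵥ v0) * rho (flip d P) v0 v1 ψ ≤
      R ^ 86 * rho (flip d P) v0 v1 ψ + (R ^ 86 * (10 * (Y * nut P ψ) * W) +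
        20 * R ^ 3 * √m * W * (f d * (co (flip d P) ψ ⬝ᵥ co (flip d P) ψ))) := fun d => by
    have r0 := rho_nonneg (hP.flip d) v0 v1 ψ
    have h0 := dot_self_nonneg (co (flip d P) ψ)
    have r1 := (rho_le (hP.flip d) v0 v1 ψ).trans (mul_le_mul_of_nonneg_left w (by positivity))
    have t1 : 0 ≤ R ^ 86 * rho (flip d P) v0 v1 ψ := by positivity
    have t2 : 0 ≤ R ^ 86 * (10 * (Y * nut P ψ) * W) := by positivity
    rcases f2 d with k | ⟨k, k1, k2⟩
    · have c : Phi p (Q d) (Q d *ᵥ v0) ≤ 4 * R * (√m * R ^ 2) :=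
        (Phi_crude (hQ d) p _).trans (mul_le_mul (by linarith) (((hQ d).nrm_le _).trans nv)
          (nrm_nonneg _) (by positivity))
      have c1 := mul_le_mul c r1 r0 (by positivity)
      rw [k]
      linarith
    rw [k, zero_mul, mul_zero, add_zero]
    by_cases k3 : rho (flip d P) v0 v1 ψ = 0
    · rw [k3, mul_zero]
      positivity
    have h3 : co (flip d P) ψ ⬝ᵥ co (flip d P) ψ ≠ 0 := fun e => k3 (le_antisymm (by
      rw [e] at r1
      linarith) r0)
    have h4 := h0.lt_of_ne' h3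
    have c := closure hP (hQ d) (hW d k3) hψ hE hU hV hY hU0 hV0 k1 h1 h2 hUB
      (one_le_pow₀ R1) (one_le_pow₀ R1) (one_le_pow₀ R1) (fun e => h3 (by rw [e]; simp)) k2
    have g0 : 0 ≤ sgm P ψ Y * lm P ψ :=
      mul_nonneg (le_min Y0 (Real.sqrt_nonneg _)) (add_nonneg N0 (Real.sqrt_nonneg _))
    have c2 : 16 * p * (11 * (R ^ 6) ^ 4 * R ^ 16 * R ^ 2) ^ 2 ≤ R ^ 86 := by
      calc _ = 1936 * p * R ^ 84 := by ring
        _ ≤ R * R * R ^ 84 := mul_le_mul_of_nonneg_right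
          (mul_le_mul (le_trans (by norm_num) hR) hp (Nat.cast_nonneg _) R0.le) (by positivity)
        _ = _ := by ring
    have c3 := mul_le_mul_of_nonneg_right
      (c.trans (mul_le_mul_of_nonneg_right c2 (by positivity))) r0
    have c4 : sgm P ψ Y * lm P ψ / (co (flip d P) ψ ⬝ᵥ co (flip d P) ψ) *
        rho (flip d P) v0 v1 ψ ≤ 10 * (Y * nut P ψ) * W := by
      rw [div_mul_eq_mul_div, div_le_iff₀ h4]
      refine (mul_le_mul sl r1 r0 (by positivity)).trans_eq (by ring)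
    have c5 := mul_le_mul_of_nonneg_left c4 (by positivity : 0 ≤ R ^ 86)
    linarith
  refine (av_mono key).trans ?_
  rw [av_add, av_add, av_const_mul, av_const, av_const_mul]
  refine add_le_add_right ?_ _
  have e1 : 20 * R ^ 3 * √m * W * av (fun d => f d * (co (flip d P) ψ ⬝ᵥ co (flip d P) ψ)) ≤
      40 * R ^ 3 * W * (Y * nut P ψ) := by
    refine (mul_le_mul_of_nonneg_left (f1.trans (mul_le_mul_of_nonneg_left
      (mul_le_mul_of_nonneg_left M1 zero_le_two) (by positivity))) (by positivity)).trans_eq ?_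
    field_simp
    ring
  have e2 : 10 * R ^ 86 + 40 * R ^ 3 ≤ R ^ 87 := by
    have a : R ^ 3 ≤ R ^ 86 := pow_le_pow_right₀ R1 (by norm_num)
    have b : 50 * R ^ 86 ≤ R * R ^ 86 :=
      mul_le_mul_of_nonneg_right (le_trans (by norm_num) hR) (by positivity)
    calc _ ≤ R * R ^ 86 := by linarith
      _ = _ := by ring
  calc _ ≤ (10 * R ^ 86 + 40 * R ^ 3) * (W * (Y * nut P ψ)) := by linarith
    _ ≤ R ^ 87 * (W * (Y * nut P ψ)) := mul_le_mul_of_nonneg_right e2 (by positivity)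
    _ = _ := by rw [← hW']; ring

lemma signi_xk (b : Fin m → ℝ) (z : ℝ × (Fin m → ℝ)) (G : Matrix (Fin m) (Fin n) ℝ)
    (D : Fin m → Fin 2) (k : Fin m) : (hXk b z (diagonal (sg D) * G) k).det =
      ((hG b z G)ᵀ * hG b z G).det * (1 - proj (hG b z G) k k) := by
  rw [hXk, ← det_mul_diag, hG_flip, gram_flip, proj_flip, flip_diag]

lemma signi_two {b : Fin m → ℝ} {lam P : ℝ} {z : ℝ × (Fin m → ℝ)} {p : ℕ}
    (hP : Par m (n + 1) P) (hp : (p : ℝ) ≤ P) (hb : Box b) (hl : 0 < lam) (h : EP n P lam b z)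
    (G : Matrix (Fin m) (Fin n) ℝ) :
    ∑ D : Fin m → Fin 2, Ph p (Matrix.of (hA b lam z (diagonal (sg D) * G))) b (hx n z) *
        hdet b lam z (diagonal (sg D) * G) ≤
      ∑ D : Fin m → Fin 2, (P ^ 86 * hdet b lam z (diagonal (sg D) * G) + P ^ 119 *
        ∑ k, P ^ 12 * al m (n + 1) lam * |hpsi b lam z k| / z.1 ^ 2 *
          (hXk b z (diagonal (sg D) * G) k).det) := by
  have hb0 : ∀ j, 0 < b j := fun j => one_pos.trans_le (hb j).1
  have P8 : 8 ≤ P := le_trans (by norm_num) hP.big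
  have P1 : 1 ≤ P := by linarith
  have P0 : 0 < P := by linarith
  have hm0 : (0 : ℝ) < m := by
    have := hP.mn
    exact_mod_cast (by omega : 0 < m)
  have a0 : 0 < al m (n + 1) lam := by
    unfold al
    positivity
  have a1 : 0 < min (al m (n + 1) lam) 1 := lt_min a0 one_pos
  have hd : ∀ G' : Matrix (Fin m) (Fin n) ℝ, hdet b lam z G' =
      ((mM z.1 (hth b lam z) (hG b z G') (h0 b z) (h1 b z) (h2 b z))ᵀ *
        mM z.1 (hth b lam z) (hG b z G') (h0 b z) (h1 b z) (h2 b z)).det := fun G' => by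
    rw [hdet, hess_eq, hat_sc hb0 h.adm]
  simp only [signi_xk]
  by_cases hG0 : ((hG b z G)ᵀ * hG b z G).det = 0
  · have : ∀ D : Fin m → Fin 2, hdet b lam z (diagonal (sg D) * G) = 0 := fun D => by
      rw [hd]
      exact det_zero_of (by rwa [hG_flip, gram_flip])
    simp [this, hG0]
  have hE : 0 < h0 b z ⬝ᵥ h1 b z := lt_of_lt_of_le (by positivity) h.elo
  have hr : 0 < z.1 := h.adm.1
  have hκ : 0 < ((hG b z G)ᵀ * hG b z G).det / (z.1 ^ 2 * (h0 b z ⬝ᵥ h1 b z) ^ 2) :=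
    div_pos ((gram_det_nonneg _).lt_of_ne' hG0) (by positivity)
  have hGD : ∀ D : Fin m → Fin 2,
      ((hG b z (diagonal (sg D) * G))ᵀ * hG b z (diagonal (sg D) * G)).det ≠ 0 :=
    fun D => by rwa [hG_flip, gram_flip]
  have hθ := hat_theta hb0 h.adm hl
  have e1 : ∀ D : Fin m → Fin 2, hdet b lam z (diagonal (sg D) * G) =
      ((hG b z G)ᵀ * hG b z G).det / (z.1 ^ 2 * (h0 b z ⬝ᵥ h1 b z) ^ 2) *
        rho (flip D (proj (hG b z G))) (h0 b z) (h1 b z) (hpsi b lam z) := fun D => by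
    have k := det_formula hr.ne' (hGD D) hθ (v1 := h1 b z)
    rw [← hd, hG_flip, gram_flip, proj_flip] at k
    rw [div_mul_eq_mul_div, eq_div_iff (by positivity)]
    exact k
  have el : m * al m (n + 1) lam * min (al m (n + 1) lam) 1 ≤ 8 * P * (h0 b z ⬝ᵥ h1 b z) := by
    have := h.elo
    rwa [div_le_iff₀' (by positivity)] at this
  have e3 : m * (P ^ 2 * min (al m (n + 1) lam) 1) * (P ^ 12 * al m (n + 1) lam) ≤
      P ^ 16 * (h0 b z ⬝ᵥ h1 b z) := by
    calc _ = P ^ 14 * (m * al m (n + 1) lam * min (al m (n + 1) lam) 1) := by ring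
      _ ≤ P ^ 14 * (P * P * (h0 b z ⬝ᵥ h1 b z)) := mul_le_mul_of_nonneg_left (el.trans
        (mul_le_mul_of_nonneg_right (mul_le_mul_of_nonneg_right P8 P0.le) hE.le)) (by positivity)
      _ = _ := by ring
  have k := sign_cube (isProj_proj (hG b z G))
    (Q := fun D => proj (mM z.1 (hth b lam z) (hG b z (diagonal (sg D) * G)) (h0 b z) (h1 b z)
      (h2 b z))) (fun D => isProj_proj _) (v0 := h0 b z) (v1 := h1 b z) (ψ := hpsi b lam z)
    (U := P ^ 2 * min (al m (n + 1) lam) 1) (V := P ^ 5 * al m (n + 1) lam)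
    (Y := P ^ 12 * al m (n + 1) lam) hP.big hp hP.log
    (fun D hD => by
      have k := structW_mM (v1 := h1 b z) hr.ne' (hGD D) hθ hE.ne' (by
        rw [← hd, e1]
        exact mul_ne_zero hκ.ne' hD)
      rwa [show proj (hG b z (diagonal (sg D) * G)) = flip D (proj (hG b z G)) by
        rw [hG_flip, proj_flip]] at k)
    (QF_psi_dot hθ) hE
    (fun k => by
      rw [h0, abs_div, abs_of_pos (hb0 k)]
      exact (div_le_self (abs_nonneg _) (hb k).1).trans (h.u k))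
    h.v1
    (fun k => (h.psi k).trans ((mul_le_mul_of_nonneg_left (h.v1 k) (by positivity)).trans_eq
      (by ring)))
    (by positivity) (by positivity)
    (le_trans (mul_le_mul_of_nonneg_left (mul_le_mul_of_nonneg_right
      (pow_le_pow_right₀ P1 (by norm_num)) a0.le) (by positivity)) e3) e3
    (mul_le_of_le_one_right (by positivity) (min_le_right _ _))
  have e2 : ∀ D : Fin m → Fin 2, Ph p (Matrix.of (hA b lam z (diagonal (sg D) * G))) b (hx n z) =
      Phi p (proj (mM z.1 (hth b lam z) (hG b z (diagonal (sg D) * G)) (h0 b z) (h1 b z) (h2 b z)))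
        (proj (mM z.1 (hth b lam z) (hG b z (diagonal (sg D) * G)) (h0 b z) (h1 b z) (h2 b z)) *ᵥ
          h0 b z) := fun D => by
    rw [Ph, qv, hat_vz, hat_sc hb0 h.adm]
  have e4 : ∑ k, P ^ 12 * al m (n + 1) lam * |hpsi b lam z k| / z.1 ^ 2 *
      (((hG b z G)ᵀ * hG b z G).det * (1 - proj (hG b z G) k k)) =
      ((hG b z G)ᵀ * hG b z G).det / (z.1 ^ 2 * (h0 b z ⬝ᵥ h1 b z) ^ 2) *
        (P ^ 12 * al m (n + 1) lam * nut (proj (hG b z G)) (hpsi b lam z) *
          (h0 b z ⬝ᵥ h1 b z) ^ 2) := by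
    rw [nut, mul_sum, sum_mul, mul_sum]
    refine sum_congr rfl fun k _ => ?_
    field_simp
  simp only [e1, e2, e4]
  rw [← av_const_mul, ← av_const (m := m) (P ^ 119 * _), ← av_add, av, av,
    div_le_div_iff_of_pos_right (by positivity)] at k
  have k2 := mul_le_mul_of_nonneg_left k hκ.le
  rw [mul_sum, mul_sum] at k2
  exact le_trans (sum_congr rfl fun D _ => by ring).le
    (k2.trans (sum_congr rfl fun D _ => by ring).le)

theorem sign_int2 {b : Fin m → ℝ} {lam P : ℝ} {z : ℝ × (Fin m → ℝ)} {p : ℕ}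
    (hP : Par m (n + 1) P) (hp : (p : ℝ) ≤ P) (hb : Box b) (hl : 0 < lam) (h : EP n P lam b z) :
    ∫⁻ a, ENNReal.ofReal (Ph p (Matrix.of (hA b lam z (Matrix.of a))) b (hx n z)) *
        ENNReal.ofReal (hdet b lam z (Matrix.of a)) ∂(gm (Fin m) (Fin n)) ≤
      ENNReal.ofReal (P ^ 86) *
          ∫⁻ a, ENNReal.ofReal (hdet b lam z (Matrix.of a)) ∂(gm (Fin m) (Fin n)) +
        ENNReal.ofReal (P ^ 119) * ∑ k, wl n P lam b k z * pik n b z k := by
  have P0 : 0 ≤ P := le_trans (by norm_num) hP.big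
  have a0 : 0 ≤ al m (n + 1) lam := by
    unfold al
    positivity
  have mA : Measurable fun a : Fin m → Fin n → ℝ => hA b lam z (Matrix.of a) :=
    measurable_hA b lam measurable_const measurable_id
  have mD : Measurable fun a : Fin m → Fin n → ℝ => ENNReal.ofReal (hdet b lam z (Matrix.of a)) :=
    (measurable_hdet b lam measurable_const measurable_id).ennreal_ofReal
  have mX : ∀ k, Measurable fun a : Fin m → Fin n → ℝ =>
      ENNReal.ofReal (hXk b z (Matrix.of a) k).det := fun k => by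
    have h1 : MM fun a : Fin m → Fin n → ℝ => zr (hG b z (Matrix.of a)) k :=
      (mm_hG b measurable_const measurable_id).upd k (MV.const 0)
    exact (h1.tr.mul h1).det.ennreal_ofReal
  have mS : Measurable fun a : Fin m → Fin n → ℝ =>
      ∑ k, wl n P lam b k z * ENNReal.ofReal (hXk b z (Matrix.of a) k).det :=
    Finset.measurable_sum _ fun k _ => (mX k).const_mul _
  have e : ∑ k, wl n P lam b k z * pik n b z k =
      ∫⁻ a, ∑ k, wl n P lam b k z * ENNReal.ofReal (hXk b z (Matrix.of a) k).det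
        ∂(gm (Fin m) (Fin n)) := by
    rw [lintegral_finsetSum _ fun k _ => (mX k).const_mul _]
    exact sum_congr rfl fun k _ => (lintegral_const_mul _ (mX k)).symm
  rw [e, ← lintegral_const_mul _ mD, ← lintegral_const_mul _ mS,
    ← lintegral_add_left (mD.const_mul _)]
  refine SignInt_avg _ mp_flip ((measurable_Ph p b mA measurable_const).ennreal_ofReal.mul mD)
    ((mD.const_mul _).add (mS.const_mul _)) fun a => ?_
  have c0 : ∀ (G : Matrix (Fin m) (Fin n) ℝ) k,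
      0 ≤ P ^ 12 * al m (n + 1) lam * |hpsi b lam z k| / z.1 ^ 2 * (hXk b z G k).det :=
    fun G k => mul_nonneg (by positivity) (gram_det_nonneg _)
  have c1 : ∀ G : Matrix (Fin m) (Fin n) ℝ, ENNReal.ofReal (P ^ 86) * ENNReal.ofReal (hdet b lam z G) +
      ENNReal.ofReal (P ^ 119) * ∑ k, wl n P lam b k z * ENNReal.ofReal (hXk b z G k).det =
      ENNReal.ofReal (P ^ 86 * hdet b lam z G + P ^ 119 *
        ∑ k, P ^ 12 * al m (n + 1) lam * |hpsi b lam z k| / z.1 ^ 2 * (hXk b z G k).det) :=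
    fun G => by
      rw [ENNReal.ofReal_add (mul_nonneg (by positivity) (SignInt_det _))
          (mul_nonneg (by positivity) (sum_nonneg fun k _ => c0 G k)),
        ENNReal.ofReal_mul (by positivity), ENNReal.ofReal_mul (by positivity),
        ENNReal.ofReal_sum_of_nonneg fun k _ => c0 G k]
      congr 2
      refine sum_congr rfl fun k _ => ?_
      rw [wl, Set.indicator_of_mem (show z ∈ {z | EP n P lam b z} from h),
        ← ENNReal.ofReal_mul (by positivity)]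
  change ∑ D : Fin m → Fin 2, ENNReal.ofReal (Ph p (Matrix.of (hA b lam z
        (diagonal (sg D) * Matrix.of a))) b (hx n z)) *
        ENNReal.ofReal (hdet b lam z (diagonal (sg D) * Matrix.of a)) ≤
      ∑ D : Fin m → Fin 2, (ENNReal.ofReal (P ^ 86) *
        ENNReal.ofReal (hdet b lam z (diagonal (sg D) * Matrix.of a)) +
        ENNReal.ofReal (P ^ 119) * ∑ k, wl n P lam b k z *
          ENNReal.ofReal (hXk b z (diagonal (sg D) * Matrix.of a) k).det)
  simp only [c1, ← ENNReal.ofReal_mul (Ph_nonneg _ _ _ _)]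
  rw [← ENNReal.ofReal_sum_of_nonneg fun D _ => mul_nonneg (Ph_nonneg _ _ _ _) (SignInt_det _),
    ← ENNReal.ofReal_sum_of_nonneg fun D _ => add_nonneg
      (mul_nonneg (by positivity) (SignInt_det _))
      (mul_nonneg (by positivity) (sum_nonneg fun k _ => c0 _ k))]
  exact ENNReal.ofReal_le_ofReal (signi_two hP hp hb hl h _)

end Pool.Agent.Work.MP_6af739_lc.HO
end

-- merged part: Pool.Agent.Work.MP_6af739_lc.HO.Low
section
/-!
Lower bound on the mean of det H (L of the write-up). ω = hw, η = (ω·ω)⁻¹ • Gᵀ ω, G0 = G - ω ηᵀ, ε = hsig⁻¹ ∈ (0, 1].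
hB G = G0 + ε ω ηᵀ (hat_theta_w; both cases ω = 0 and ω ≠ 0), Rf = 1 - (2/(ω·ω)) ω ωᵀ satisfies Rf Rfᵀ = 1, hB Rf G = G0 - ε ω ηᵀ.
two_det: Tilt_gram and Tilt_det write det at t • a as c + sum l_i (p_i + t q_i)^2. With M0 = S⁻¹ [a0 | G0], z = S⁻¹ ω, a = cons 0 η:
hdet G + hdet (Rf G) ≥ ε^2 det Gram (S⁻¹ [a0 | G]), the last matrix is mM r 0 (hG) h1 h1 h2, and det_formula with θ = 0, ε = 1, v0 = v1 = h1 gives
det Gram r^2 = det X (co P h1 · co P h1) (if h1 = 0 the claim is trivial; if det X = 0 then det (hXk) = 0 by det_mul_diag).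
Integrate (mp_left), then SignInt_avg with mp_flip and av_bil, co_flip, det_mul_diag.
-/

namespace Pool.Agent.Work.MP_6af739_lc.HO

open Matrix Finset MeasureTheory ProbabilityTheory
open Pool.Agent.Work.MP_6a50bc_pr
open Pool.Agent.Work.MP_5c5849_an (sg av)
open scoped ENNReal Polynomial

variable {m n : ℕ}

theorem two_det {ι κ : Type*} [Fintype ι] [Fintype κ] [DecidableEq κ] (M0 : Matrix ι κ ℝ)
    (z : ι → ℝ) (a : κ → ℝ) {ε : ℝ} (h1 : ε ^ 2 ≤ 1) :
    ε ^ 2 * ((M0 + vecMulVec z a)ᵀ * (M0 + vecMulVec z a)).det ≤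
      ((M0 + vecMulVec z (ε • a))ᵀ * (M0 + vecMulVec z (ε • a))).det +
        ((M0 + vecMulVec z ((-ε) • a))ᵀ * (M0 + vecMulVec z ((-ε) • a))).det := by
  obtain ⟨N, p, t, hN⟩ := Tilt_gram M0 z
  obtain ⟨U, c, l, hc, hl, hU⟩ := Tilt_det (gram_posSemidef' N)
  rw [hN, hN, hN, hU, hU, hU]
  have k : ∀ i ∈ (univ : Finset κ), ε ^ 2 * (l i * (U *ᵥ (p + t • a)) i ^ 2) ≤
      l i * (U *ᵥ (p + t • ε • a)) i ^ 2 + l i * (U *ᵥ (p + t • (-ε) • a)) i ^ 2 := fun i _ => by
    simp only [mulVec_add, mulVec_smul, Pi.add_apply, Pi.smul_apply, smul_eq_mul]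
    generalize (U *ᵥ p) i = x
    generalize (U *ᵥ a) i = y
    have a1 := mul_nonneg (hl i) (mul_nonneg (sq_nonneg ε) (sq_nonneg (x - t * y)))
    have a2 := mul_nonneg (hl i) (mul_nonneg (sub_nonneg.2 h1) (sq_nonneg x))
    linarith
  have s := sum_le_sum k
  rw [sum_add_distrib, ← mul_sum] at s
  have a3 := mul_le_mul_of_nonneg_right h1 hc
  linarith

/-- The projection on the line of `w`. -/
noncomputable def low_pm (w : Fin m → ℝ) : Matrix (Fin m) (Fin m) ℝ := (w ⬝ᵥ w)⁻¹ • vecMulVec w w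

lemma low_smul_pm (w : Fin m → ℝ) : (w ⬝ᵥ w) • low_pm w = vecMulVec w w := by
  by_cases h : w ⬝ᵥ w = 0
  · rw [dotProduct_self_eq_zero.1 h]
    simp
  · rw [low_pm, smul_smul, mul_inv_cancel₀ h, one_smul]

lemma low_pm_mul (w : Fin m → ℝ) : low_pm w * low_pm w = low_pm w := by
  have e : vecMulVec w w * low_pm w = vecMulVec w w := by
    rw [low_pm, Matrix.mul_smul, vecMulVec_mul_vecMulVec, vecMulVec_smul, smul_comm]
    exact low_smul_pm w
  conv_lhs => lhs; rw [low_pm]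
  rw [Matrix.smul_mul, e, low_pm]

lemma low_pm_tr (w : Fin m → ℝ) : (low_pm w)ᵀ = low_pm w := by
  rw [low_pm, transpose_smul, transpose_vecMulVec]

/-- The reflection in `w`. -/
noncomputable def low_rf (w : Fin m → ℝ) : Matrix (Fin m) (Fin m) ℝ := 1 - (2 : ℝ) • low_pm w

lemma low_rf_orth (w : Fin m → ℝ) : low_rf w * (low_rf w)ᵀ = 1 := by
  rw [low_rf, transpose_sub, transpose_one, transpose_smul, low_pm_tr]
  simp only [Matrix.sub_mul, Matrix.mul_sub, Matrix.one_mul, Matrix.mul_one, Matrix.smul_mul,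
    Matrix.mul_smul, low_pm_mul]
  module

section

variable {b : Fin m → ℝ} {lam : ℝ} {z : ℝ × (Fin m → ℝ)}

lemma low_hB (hl : 0 < lam) :
    hB b lam z = 1 - low_pm (hw b z) + (hsig b lam z)⁻¹ • low_pm (hw b z) := by
  have e : (hsig b lam z)⁻¹ = 1 - hth b lam z * (hw b z ⬝ᵥ hw b z) := by
    linarith [hat_theta_w (b := b) (p := z) hl]
  rw [hB, ← low_smul_pm, e]
  module

lemma low_hB_rf (hl : 0 < lam) :
    hB b lam z * low_rf (hw b z) =
      1 - low_pm (hw b z) + (-(hsig b lam z)⁻¹) • low_pm (hw b z) := by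
  rw [low_hB hl, low_rf]
  simp only [Matrix.add_mul, Matrix.sub_mul, Matrix.mul_sub, Matrix.one_mul, Matrix.mul_one,
    Matrix.smul_mul, Matrix.mul_smul, low_pm_mul]
  module

/-- The matrix with first column `a0` and remaining columns `G`, scaled by the slacks. -/
noncomputable def low_full (b : Fin m → ℝ) (z : ℝ × (Fin m → ℝ)) (G : Matrix (Fin m) (Fin n) ℝ) :
    Matrix (Fin m) (Fin (n + 1)) ℝ :=
  diagonal (fun j => (hs b z j)⁻¹) * Matrix.of fun j => Fin.cons (z.2 j) (G j)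

lemma low_hdet (G : Matrix (Fin m) (Fin n) ℝ) : hdet b lam z G =
    ((low_full b z (hB b lam z * G))ᵀ * low_full b z (hB b lam z * G)).det := by
  rw [hdet, hess_eq, sc, hat_slack]
  rfl

lemma low_full_add (G : Matrix (Fin m) (Fin n) ℝ) (w : Fin m → ℝ) (t : ℝ) :
    low_full b z ((1 - low_pm w + t • low_pm w) * G) =
      low_full b z ((1 - low_pm w) * G) + vecMulVec (fun j => (hs b z j)⁻¹ * w j)
        (t • Fin.cons 0 ((w ⬝ᵥ w)⁻¹ • (w ᵥ* G))) := by
  ext j i
  rw [low_full, low_full, Matrix.add_apply, diagonal_mul, diagonal_mul, vecMulVec_apply, mul_assoc,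
    ← mul_add]
  congr 1
  refine Fin.cases ?_ (fun i => ?_) i
  · simp
  · have e : low_pm w * G = (w ⬝ᵥ w)⁻¹ • vecMulVec w (w ᵥ* G) := by
      rw [low_pm, Matrix.smul_mul, vecMulVec_mul]
    rw [Matrix.add_mul, Matrix.smul_mul, e]
    simp only [of_apply, Fin.cons_succ, Matrix.add_apply, Matrix.smul_apply, vecMulVec_apply,
      Pi.smul_apply, smul_eq_mul]
    ring

lemma low_full_eq (hz : Adm b z) (G : Matrix (Fin m) (Fin n) ℝ) :
    low_full b z G = mM z.1 0 (hG b z G) (h1 b z) (h1 b z) (h1 b z) := by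
  ext j i
  rw [low_full, diagonal_mul]
  refine Fin.cases ?_ (fun i => ?_) i
  · have h := hz.1.ne'
    simp only [mM, of_apply, Fin.cons_zero, h1]
    field_simp
  · simp only [mM, of_apply, Fin.cons_succ, zero_smul, sub_zero, hG, diagonal_mul]

lemma low_refl (hl : 0 < lam) (G : Matrix (Fin m) (Fin n) ℝ) :
    (hsig b lam z)⁻¹ ^ 2 * ((low_full b z G)ᵀ * low_full b z G).det ≤
      hdet b lam z G + hdet b lam z (low_rf (hw b z) * G) := by
  have e : G = (1 - low_pm (hw b z) + (1 : ℝ) • low_pm (hw b z)) * G := by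
    rw [one_smul, sub_add_cancel, Matrix.one_mul]
  have h0 : 0 ≤ (hsig b lam z)⁻¹ := inv_nonneg.2 (zero_le_one.trans one_le_hsig)
  have h1 : (hsig b lam z)⁻¹ ^ 2 ≤ 1 := pow_le_one₀ h0 (inv_le_one_of_one_le₀ one_le_hsig)
  rw [low_hdet, low_hdet, ← Matrix.mul_assoc, low_hB_rf hl, low_hB hl, low_full_add, low_full_add]
  conv_lhs => rw [e, low_full_add, one_smul]
  exact two_det _ _ _ h1

lemma low_gram (hz : Adm b z) (G : Matrix (Fin m) (Fin n) ℝ) :
    ((hG b z G)ᵀ * hG b z G).det * (h1 b z ⬝ᵥ co (proj (hG b z G)) (h1 b z)) ≤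
      z.1 ^ 2 * ((low_full b z G)ᵀ * low_full b z G).det := by
  have h0 : 0 ≤ z.1 ^ 2 * ((low_full b z G)ᵀ * low_full b z G).det :=
    mul_nonneg (sq_nonneg _) (gram_det_nonneg _)
  by_cases hG0 : ((hG b z G)ᵀ * hG b z G).det = 0
  · rwa [hG0, zero_mul]
  by_cases hv : h1 b z ⬝ᵥ h1 b z = 0
  · rwa [dotProduct_self_eq_zero.1 hv, zero_dotProduct, mul_zero]
  have k := det_formula (v0 := h1 b z) (v1 := h1 b z) (v2 := h1 b z) (θ := 0) (ε := 1) hz.1.ne' hG0
    (by ring)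
  rw [← low_full_eq hz, zero_mul, zero_smul, one_smul, add_zero] at k
  have hP := isProj_proj (hG b z G)
  generalize proj (hG b z G) = P at k hP ⊢
  generalize h1 b z = v at k hv ⊢
  have e : rho P v v v = (v ⬝ᵥ v) ^ 2 * (v ⬝ᵥ co P v) := by
    have e1 : b01 P v v + nu P v v = v ⬝ᵥ v := by
      rw [b01, nu, dotProduct_comm (co P v), co, dotProduct_sub]
      ring
    rw [rho, ← add_smul, e1, smul_dotProduct, dotProduct_smul, hP.co_dot_co, smul_eq_mul,
      smul_eq_mul]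
    ring
  rw [e] at k
  refine le_of_eq (mul_right_cancel₀ (pow_ne_zero 2 hv) ?_)
  linear_combination -k

lemma low_avg (hl : 0 < lam) (hz : Adm b z) (G : Matrix (Fin m) (Fin n) ℝ) :
    ∑ D : Fin m → Fin 2, ∑ k, ((hsig b lam z)⁻¹ * h1 b z k) ^ 2 / z.1 ^ 2 *
        (hXk b z (diagonal (sg D) * G) k).det ≤
      ∑ D : Fin m → Fin 2, (hdet b lam z (diagonal (sg D) * G) +
        hdet b lam z (low_rf (hw b z) * (diagonal (sg D) * G))) := by
  have hr : 0 < z.1 ^ 2 := pow_pos hz.1 2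
  have e1 : ∀ (D : Fin m → Fin 2) (k : Fin m), (hXk b z (diagonal (sg D) * G) k).det =
      ((hG b z G)ᵀ * hG b z G).det * (1 - proj (hG b z G)) k k := fun D k => by
    rw [hXk, ← det_mul_diag, hG_flip, gram_flip, proj_flip, flip_diag, Matrix.sub_apply,
      one_apply_eq]
  have e2 := av_bil (1 - proj (hG b z G)) (h1 b z) (h1 b z)
  rw [av, div_eq_iff (by positivity)] at e2
  have e3 : ∀ D ∈ (univ : Finset (Fin m → Fin 2)),
      (hsig b lam z)⁻¹ ^ 2 / z.1 ^ 2 * ((hG b z G)ᵀ * hG b z G).det *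
        (h1 b z ⬝ᵥ flip D (1 - proj (hG b z G)) *ᵥ h1 b z) ≤
      hdet b lam z (diagonal (sg D) * G) +
        hdet b lam z (low_rf (hw b z) * (diagonal (sg D) * G)) := fun D _ => by
    have k := low_gram hz (diagonal (sg D) * G)
    rw [hG_flip, gram_flip, proj_flip, co_flip] at k
    refine le_trans ?_ (low_refl hl _)
    rw [mul_assoc, div_mul_eq_mul_div, mul_div_assoc]
    exact mul_le_mul_of_nonneg_left ((div_le_iff₀' hr).2 k) (sq_nonneg _)
  refine le_trans (le_of_eq ?_) (sum_le_sum e3)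
  rw [← mul_sum, e2]
  simp only [e1, sum_const, card_univ, Fintype.card_fun, Fintype.card_fin, nsmul_eq_mul]
  push_cast
  rw [← mul_assoc, mul_comm, mul_sum]
  congr 1
  exact sum_congr rfl fun k _ => by ring

end

theorem low_int {b : Fin m → ℝ} {lam : ℝ} {z : ℝ × (Fin m → ℝ)} (hb : ∀ j, 0 < b j)
    (hl : 0 < lam) (hz : Adm b z) :
    ∑ k, wr lam b k z * pik n b z k ≤
      2 * ∫⁻ a, ENNReal.ofReal (hdet b lam z (Matrix.of a)) ∂(gm (Fin m) (Fin n)) := by
  have mD : Measurable fun a : Fin m → Fin n → ℝ => ENNReal.ofReal (hdet b lam z (Matrix.of a)) :=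
    (measurable_hdet b lam measurable_const measurable_id).ennreal_ofReal
  have mX : ∀ k, Measurable fun a : Fin m → Fin n → ℝ =>
      ENNReal.ofReal (hXk b z (Matrix.of a) k).det := fun k => by
    have h1 : MM fun a : Fin m → Fin n → ℝ => zr (hG b z (Matrix.of a)) k :=
      (mm_hG b measurable_const measurable_id).upd k (MV.const 0)
    exact (h1.tr.mul h1).det.ennreal_ofReal
  have hR := mp_left (κ := Fin n) (low_rf_orth (hw b z))
  have key := SignInt_avg _ (mp_flip (m := m) (n := n))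
    (Φ := fun a => ∑ k, wr lam b k z * ENNReal.ofReal (hXk b z (Matrix.of a) k).det)
    (Ψ := fun a => ENNReal.ofReal (hdet b lam z (Matrix.of a)) +
      ENNReal.ofReal (hdet b lam z (low_rf (hw b z) * Matrix.of a)))
    (Finset.measurable_sum _ fun k _ => (mX k).const_mul _) (mD.add (mD.comp hR.measurable))
    fun a => ?_
  · rw [lintegral_finsetSum _ fun k _ => (mX k).const_mul _, lintegral_add_left mD] at key
    simp only [fun k => lintegral_const_mul (μ := gm (Fin m) (Fin n)) (wr lam b k z) (mX k)] at key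
    rw [two_mul]
    exact key.trans_eq (congrArg _ (hR.lintegral_comp mD))
  · change ∑ D : Fin m → Fin 2, ∑ k, wr lam b k z *
        ENNReal.ofReal (hXk b z (diagonal (sg D) * Matrix.of a) k).det ≤
      ∑ D : Fin m → Fin 2, (ENNReal.ofReal (hdet b lam z (diagonal (sg D) * Matrix.of a)) +
        ENNReal.ofReal (hdet b lam z (low_rf (hw b z) * (diagonal (sg D) * Matrix.of a))))
    have p0 : ∀ k, 0 ≤ ((hsig b lam z)⁻¹ * h1 b z k) ^ 2 / z.1 ^ 2 := fun k => by positivity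
    have p1 : ∀ (G : Matrix (Fin m) (Fin n) ℝ) k,
        0 ≤ ((hsig b lam z)⁻¹ * h1 b z k) ^ 2 / z.1 ^ 2 * (hXk b z G k).det := fun G k =>
      mul_nonneg (p0 k) (gram_det_nonneg _)
    simp only [wr, ← ENNReal.ofReal_mul (p0 _), ← ENNReal.ofReal_add (SignInt_det _) (SignInt_det _),
      ← ENNReal.ofReal_sum_of_nonneg fun k _ => p1 _ k]
    rw [← ENNReal.ofReal_sum_of_nonneg fun D _ => sum_nonneg fun k _ => p1 _ k,
      ← ENNReal.ofReal_sum_of_nonneg fun D _ => add_nonneg (SignInt_det _) (SignInt_det _)]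
    exact ENNReal.ofReal_le_ofReal (low_avg hl hz _)

end Pool.Agent.Work.MP_6af739_lc.HO
end

-- merged part: Pool.Agent.Work.MP_6af739_lc.HO.Mast
section
/-!
The master formula with its explicit measure, the Gaussian normalisation, and measurability.
master2: copy the proof of master (Final.lean); for OneP use lintegral_withDensity_eq_lintegral_mul, lintegral_map,
lintegral_prod and lintegral_mono. dens_mean: columns of g are independent (mp_transpose, lintegral_fintype_prod_eq_pow or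
the integral version), for one column g·y has the law of nrm y times a standard Gaussian (mp_dot; y = 0 separately), and
integral_exp_sq with b = -(y·y)/2. Measurability: MM, MV helpers of GenPosAE.lean (mv_hs, mv_hw, ...), lintegral_prod_right'.
pik_update: zr (hG ..) k does not depend on hs at k.
-/

namespace Pool.Agent.Work.MP_6af739_lc.HO

open Matrix Finset MeasureTheory ProbabilityTheory
open Pool.Agent.Work.MP_6a50bc_pr
open Pool.Agent.Work.MP_5c5849_an (sg av)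
open scoped ENNReal Polynomial

variable {m n : ℕ}

theorem master2 {b : Fin m → ℝ} (hb : ∀ j, 0 < b j) {lam : ℝ} (hl : 0 < lam) :
    ∃ ν : Measure (ℝ × (Fin m → ℝ)), MasterP n b lam ν ∧ OneP n b lam ν := by
  have hφ : Measurable fun q : (Fin (n + 1) → ℝ) × (Fin m → ℝ) => (nrm q.1, q.2) :=
    (MV.of measurable_fst).nrm.prodMk measurable_snd
  refine ⟨(((volume : Measure (Fin (n + 1) → ℝ)).prod (gv (Fin m))).map
    fun q => (nrm q.1, q.2)).withDensity (Master_wt n b lam), ⟨?_, fun F hF hI => ?_⟩,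
      fun Φ Ψ hΦ hΨ h => ?_⟩
  · rw [ae_withDensity_iff (Master_wt_meas n b lam)]
    have h0 : ∀ᵐ x ∂(volume : Measure (Fin (n + 1) → ℝ)), x ≠ 0 :=
      compl_mem_ae_iff.2 (measure_singleton 0)
    have h1 : ∀ᵐ q ∂((volume : Measure (Fin (n + 1) → ℝ)).prod (gv (Fin m))), q.1 ≠ 0 :=
      Measure.quasiMeasurePreserving_fst.ae h0
    have h2 : ∀ᵐ p ∂(((volume : Measure (Fin (n + 1) → ℝ)).prod (gv (Fin m))).map
        fun q => (nrm q.1, q.2)), 0 < p.1 :=
      (ae_map_iff hφ.aemeasurable (measurableSet_lt measurable_const measurable_fst)).2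
        (h1.mono fun q hq => nrm_pos hq)
    refine h2.mono fun p hp hw => ⟨hp, ?_⟩
    by_contra h
    exact hw (Set.indicator_of_notMem (s := {p : ℝ × (Fin m → ℝ) | ∀ j, 0 < hs b p j}) h _)
  · have hR : Measurable fun p : ℝ × (Fin m → ℝ) => ∫⁻ a, F (hA b lam p (Matrix.of a), hx n p) *
        ENNReal.ofReal (hdet b lam p (Matrix.of a)) ∂(gm (Fin m) (Fin n)) :=
      Measurable.lintegral_prod_right' (f := fun q : (ℝ × (Fin m → ℝ)) × (Fin m → Fin n → ℝ) =>
        F (hA b lam q.1 (Matrix.of q.2), hx n q.1) *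
          ENNReal.ofReal (hdet b lam q.1 (Matrix.of q.2)))
        ((hF.comp ((measurable_hA b lam measurable_fst measurable_snd).prodMk
          (measurable_hx measurable_fst))).mul
          (ENNReal.measurable_ofReal.comp (measurable_hdet b lam measurable_fst measurable_snd)))
    have hFW : Measurable fun q => F q * Master_W b lam q := hF.mul (Master_W_meas b lam)
    have hInv : Invar fun q => F q * Master_W b lam q := fun O hO a x => by
      simp only [hI O hO a x, Master_W_invar b lam O hO a x]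
    have hm := (Master_wt_meas n b lam).mul hR
    rw [Master_step1 hl hF, lintegral_withDensity_eq_lintegral_mul _ (Master_wt_meas n b lam) hR]
    refine Eq.symm ((lintegral_map hm hφ).trans ?_)
    refine (lintegral_prod _ (hm.comp hφ).aemeasurable).trans (lintegral_congr fun x => ?_)
    have hn : nrm x = nrm (hx n (nrm x, (0 : Fin m → ℝ))) :=
      (nrm_hx (n := n) (p := (nrm x, (0 : Fin m → ℝ))) (nrm_nonneg x)).symm
    have hy : Measurable fun a => F (a, hx n (nrm x, (0 : Fin m → ℝ))) *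
        Master_W b lam (a, hx n (nrm x, (0 : Fin m → ℝ))) :=
      hFW.comp (measurable_id.prodMk measurable_const)
    refine Eq.symm ((lintegral_rot hInv (hFW.comp (measurable_id.prodMk measurable_const))
      hn).trans (((mp_cons m n).lintegral_comp hy).symm.trans
        ((lintegral_prod _ (hy.comp (mp_cons m n).measurable).aemeasurable).trans ?_)))
    exact lintegral_congr fun a0 => Master_step3 hl hF (nrm x, a0)
  · have k : ∀ Θ : ℝ × (Fin m → ℝ) → ℝ≥0∞, Measurable Θ →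
        ∫⁻ z, Θ z ∂((((volume : Measure (Fin (n + 1) → ℝ)).prod (gv (Fin m))).map
          fun q => (nrm q.1, q.2)).withDensity (Master_wt n b lam)) =
        ∫⁻ x : Fin (n + 1) → ℝ, ∫⁻ a, Master_wt n b lam (nrm x, a) * Θ (nrm x, a)
          ∂(gv (Fin m)) := fun Θ hΘ => by
      have hm := (Master_wt_meas n b lam).mul hΘ
      rw [lintegral_withDensity_eq_lintegral_mul _ (Master_wt_meas n b lam) hΘ]
      exact (lintegral_map hm hφ).trans (lintegral_prod _ (hm.comp hφ).aemeasurable)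
    rw [k Φ hΦ, k Ψ hΨ]
    exact lintegral_mono fun x => h (nrm x)

lemma mast_one (y : Fin m → ℝ) :
    ∫ x, gaussianPDFReal 0 1 (x ⬝ᵥ y) ∂(gv (Fin m)) =
      (√(2 * Real.pi))⁻¹ * (√(1 + y ⬝ᵥ y))⁻¹ := by
  have pd : ∀ t : ℝ, gaussianPDFReal 0 1 t = (√(2 * Real.pi))⁻¹ * Real.exp (-t ^ 2 / 2) :=
    fun t => by simp [gaussianPDFReal]
  by_cases hy : y = 0
  · subst hy
    simp [pd]
  · have hp := nrm_pos hy
    have hq := nrm_sq y
    have hu : ((nrm y)⁻¹ • y) ⬝ᵥ ((nrm y)⁻¹ • y) = 1 := by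
      rw [smul_dotProduct, dotProduct_smul, ← hq, smul_eq_mul, smul_eq_mul]
      field_simp
    have e : ∀ x : Fin m → ℝ, gaussianPDFReal 0 1 (x ⬝ᵥ y) = (√(2 * Real.pi))⁻¹ *
        Real.exp (-(y ⬝ᵥ y) / 2 * (((nrm y)⁻¹ • y) ⬝ᵥ x) ^ 2) := fun x => by
      rw [pd, smul_dotProduct, smul_eq_mul, dotProduct_comm x y, ← hq]
      congr 2
      field_simp
    have hc : Continuous fun z : ℝ => Real.exp (-(y ⬝ᵥ y) / 2 * z ^ 2) := by fun_prop
    have h1 := integral_map (μ := gv (Fin m)) (mp_dot hu).measurable.aemeasurable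
      (f := fun z : ℝ => Real.exp (-(y ⬝ᵥ y) / 2 * z ^ 2)) hc.aestronglyMeasurable
    rw [(mp_dot hu).map_eq, integral_exp_sq (by nlinarith [sq_nonneg (nrm y)])] at h1
    simp only [e]
    rw [integral_const_mul, ← h1, ← Real.sqrt_inv (1 + y ⬝ᵥ y)]
    congr 2
    rw [one_div]
    congr 1
    ring

theorem dens_mean (y : Fin m → ℝ) :
    ∫⁻ g, ENNReal.ofReal (dens ((Matrix.of g)ᵀ *ᵥ y)) ∂(gm (Fin m) (Fin n)) =
      ENNReal.ofReal (((√(2 * Real.pi))⁻¹ * (√(1 + y ⬝ᵥ y))⁻¹) ^ n) := by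
  have hm : Measurable fun x : Fin m → ℝ => gaussianPDFReal 0 1 (x ⬝ᵥ y) :=
    (measurable_gaussianPDFReal 0 1).comp ((MV.of measurable_id).dot (MV.const y))
  have hi : Integrable (fun x : Fin m → ℝ => gaussianPDFReal 0 1 (x ⬝ᵥ y)) (gv (Fin m)) := by
    refine Integrable.of_integral_ne_zero ?_
    rw [mast_one]
    have := Real.pi_pos
    have := dot_self_nonneg y
    positivity
  have hF : Measurable fun t : Fin n → Fin m → ℝ =>
      ENNReal.ofReal (∏ i, gaussianPDFReal 0 1 (t i ⬝ᵥ y)) :=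
    (Finset.measurable_prod _ fun i _ => hm.comp (measurable_pi_apply i)).ennreal_ofReal
  have h1 := (mp_transpose (ι := Fin m) (κ := Fin n)).lintegral_comp hF
  have h2 := integral_fintype_prod_eq_pow (ι := Fin n) (μ := gv (Fin m))
    fun x : Fin m → ℝ => gaussianPDFReal 0 1 (x ⬝ᵥ y)
  rw [mast_one, Fintype.card_fin] at h2
  rw [← h2, ofReal_integral_eq_lintegral_ofReal (Integrable.fintype_prod fun _ => hi)
    (Filter.Eventually.of_forall fun t => prod_nonneg fun _ _ => gaussianPDFReal_nonneg _ _ _)]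
  exact h1

theorem wt_eq {b : Fin m → ℝ} {lam : ℝ} (hl : 0 < lam) {z : ℝ × (Fin m → ℝ)}
    (hz : ∀ j, 0 < hs b z j) :
    Master_wt n b lam z = ENNReal.ofReal (gaussianPDFReal 0 1 (z.2 ⬝ᵥ hw b z / lam) *
      lam⁻¹ ^ (n + 1) * ((√(2 * Real.pi))⁻¹ * (hsig b lam z)⁻¹) ^ n) := by
  have e : 1 + (lam⁻¹ • hw b z) ⬝ᵥ (lam⁻¹ • hw b z) = 1 + hw b z ⬝ᵥ hw b z / lam ^ 2 := by
    rw [smul_dotProduct, dotProduct_smul, smul_eq_mul, smul_eq_mul]
    field_simp
  rw [Master_wt, Set.indicator_of_mem (s := {p : ℝ × (Fin m → ℝ) | ∀ j, 0 < hs b p j}) hz,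
    dens_mean, ← ENNReal.ofReal_mul
      (mul_nonneg (gaussianPDFReal_nonneg _ _ _) (pow_nonneg (inv_nonneg.2 hl.le) _)), e,
    dotProduct_smul, smul_eq_mul, ← div_eq_inv_mul, hsig]

theorem measurableSet_EP (n : ℕ) (P lam : ℝ) (b : Fin m → ℝ) :
    MeasurableSet {z | EP n P lam b z} := by
  have i : Measurable fun z : ℝ × (Fin m → ℝ) => z := measurable_id
  have d := (mv_h0 b i).dot (mv_h1 b i)
  refine ms_iff (ms_and (ms_and (measurableSet_lt (measurable_const (a := (0 : ℝ))) i.fst)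
    (ms_all fun j => measurableSet_lt (measurable_const (a := (0 : ℝ))) (mv_hs b i j)))
    (ms_and (ms_all fun k => measurableSet_le (i.fst.mul (mv_p2 i k)).abs
      (measurable_const (a := P ^ 2 * min (al m (n + 1) lam) 1)))
    (ms_and (ms_all fun k => measurableSet_le (mv_hs b i k).inv
      (measurable_const (a := 1 + P ^ 4 * al m (n + 1) lam)))
    (ms_and (ms_all fun k => measurableSet_le (mv_h1 b i k).abs
      (measurable_const (a := P ^ 5 * al m (n + 1) lam)))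
    (ms_and (ms_all fun k => measurableSet_le (mv_hpsi b lam i k).abs
      ((mv_h1 b i k).abs.const_mul (P ^ 7)))
    (ms_and (measurableSet_le
      (measurable_const (a := m * al m (n + 1) lam * min (al m (n + 1) lam) 1 / (8 * P))) d)
    (ms_and (measurableSet_le d (i.fst.const_mul (2 * (lam * √(n + 1 : ℕ)))))
    (ms_and (measurableSet_le (m_hsig b lam i) (measurable_const (a := P ^ 4)))
    (ms_and (measurableSet_le (measurable_const (a := min (al m (n + 1) lam) 1 / (4 * P))) i.fst)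
    (ms_imp (q := P ^ 2 ≤ al m (n + 1) lam) (measurableSet_le (measurable_const (a := (1 : ℝ)))
      ((i.fst.pow_const 2).const_mul (400 * Real.log P))))))))))))) fun z => ?_
  exact ⟨fun ⟨a1, a2, a3, a4, a5, a6, a7, a8, a9, a10⟩ => ⟨a1, a2, a3, a4, a5, a6, a7, a8, a9, a10⟩,
    fun h => ⟨h.adm, h.u, h.sinv, h.v1, h.psi, h.elo, h.ehi, h.sig, h.rlo, h.rad⟩⟩

theorem measurable_wl (n : ℕ) (P lam : ℝ) (b : Fin m → ℝ) (k : Fin m) :
    Measurable (wl n P lam b k) := by
  exact (((mv_hpsi b lam measurable_id k).abs.const_mul _).div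
    (measurable_fst.pow_const 2)).ennreal_ofReal.indicator (measurableSet_EP n P lam b)

theorem measurable_wr (lam : ℝ) (b : Fin m → ℝ) (k : Fin m) : Measurable (wr lam b k) := by
  exact ((((m_hsig b lam measurable_id).inv.mul (mv_h1 b measurable_id k)).pow_const 2).div
    (measurable_fst.pow_const 2)).ennreal_ofReal

theorem measurable_pik (n : ℕ) (b : Fin m → ℝ) (k : Fin m) : Measurable fun z => pik n b z k := by
  have h : MM fun q : (ℝ × (Fin m → ℝ)) × (Fin m → Fin n → ℝ) =>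
      zr (hG b q.1 (Matrix.of q.2)) k :=
    (mm_hG b measurable_fst measurable_snd).upd k (MV.const 0)
  exact Measurable.lintegral_prod_right'
    (f := fun q : (ℝ × (Fin m → ℝ)) × (Fin m → Fin n → ℝ) =>
      ENNReal.ofReal (hXk b q.1 (Matrix.of q.2) k).det) (h.tr.mul h).det.ennreal_ofReal

theorem pik_update (b : Fin m → ℝ) (r t : ℝ) (a : Fin m → ℝ) (k : Fin m) :
    pik n b (r, Function.update a k t) k = pik n b (r, a) k := by
  have h : ∀ G : Matrix (Fin m) (Fin n) ℝ,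
      zr (hG b (r, Function.update a k t) G) k = zr (hG b (r, a) G) k := fun G => by
    ext j i
    by_cases e : j = k
    · simp [zr, e]
    · simp [zr, hG, hs, updateRow_ne e, Function.update_of_ne e]
  simp only [pik, hXk, h]

end Pool.Agent.Work.MP_6af739_lc.HO
end

-- merged part: Pool.Agent.Work.MP_6af739_lc.HO.OneA
section
/-!
The window and the pointwise comparison of weights. win_facts: s = β - r t lies between β/(1 + 2wβ) and β/(1 + wβ).
wt_cmp: z = (r, a0), z' = (r, update a0 k t'), N = n + 1, w0 = α/P^4, ω' = hw z' k ∈ [w0, 2 w0], hs z' j = hs z j for j ≠ k.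
t'^2 ≤ 3600 log P: if α < P^2 use r t' ≤ 18 w0 and EP.rlo (cases α ≤ 1, α > 1), giving t' ≤ 1; else r t' ≤ 3 and EP.rad.
x = a0·hw/lam = (h0·h1)/(r lam) ∈ [0, 2 √N] (hat_h0_div, EP.ehi), all terms a0_j hw_j ≥ 0, so 0 ≤ x' ≤ x + δ, δ = t' ω'/lam ≤ 2 t' √N/(m P^4)
(lam √N = m α), x'^2/2 ≤ x^2/2 + 1/2 + t'^2. hsig z'^2 ≤ hsig z^2 (1 + 4 N/(m^2 P^8)) so (hsig z')^n ≤ e (hsig z)^n and
hsig z'^2 ≤ 2 P^8. pdf t ≤ pdf 0 = pdf t' exp (t'^2/2). Total factor 2 P^8 e^2 exp (1.5 t'^2) ≤ P^5409.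
-/

namespace Pool.Agent.Work.MP_6af739_lc.HO

open Matrix Finset MeasureTheory ProbabilityTheory
open Pool.Agent.Work.MP_6a50bc_pr
open Pool.Agent.Work.MP_5c5849_an (sg av)
open scoped ENNReal Polynomial

variable {m n : ℕ}

theorem win_facts {w β r t : ℝ} (hw : 0 < w) (h1 : 1 ≤ β) (h3 : β ≤ 3) (hr : 0 < r)
    (ht : t ∈ win w β r) :
    0 < β - r * t ∧ w ≤ (β - r * t)⁻¹ - β⁻¹ ∧ (β - r * t)⁻¹ - β⁻¹ ≤ 2 * w ∧ 0 ≤ t ∧
      r * t ≤ 18 * w ∧ r * t ≤ 3 ∧ w ≤ r * t / (β - r * t) := by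
  obtain ⟨a1, a2⟩ := ht
  have hβ : 0 < β := by linarith
  have p1 : 0 < 1 + w * β := by positivity
  have p2 : 0 < 1 + 2 * w * β := by positivity
  rw [div_le_iff₀ hr, uu, div_le_iff₀ p1, mul_comm t r] at a1
  rw [le_div_iff₀ hr, uu, le_div_iff₀ p2, mul_comm t r] at a2
  have hu : 0 ≤ r * t := by
    by_contra hc
    have := mul_neg_of_neg_of_pos (not_le.1 hc) p1
    have : 0 < w * β ^ 2 := by positivity
    linarith
  have ht0 : 0 ≤ t := by
    by_contra hc
    have := mul_neg_of_pos_of_neg hr (not_le.1 hc)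
    linarith
  generalize r * t = u at a1 a2 hu ⊢
  have b1 : (β - u) * (1 + w * β) ≤ β := by nlinarith
  have b2 : β ≤ (β - u) * (1 + 2 * w * β) := by nlinarith
  have hs : 0 < β - u := by
    by_contra hc
    have := mul_nonpos_of_nonpos_of_nonneg (not_lt.1 hc) p2.le
    linarith
  have e : (β - u)⁻¹ - β⁻¹ = u / ((β - u) * β) := by
    field_simp
    ring
  have hsb : 0 < (β - u) * β := mul_pos hs hβ
  have c1 : w * ((β - u) * β) ≤ u := by nlinarith
  have c2 : u ≤ 2 * w * ((β - u) * β) := by nlinarith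
  have hwu : 0 ≤ u * (w * β) := by positivity
  have hb9 : β ^ 2 ≤ 9 := by nlinarith
  have c3 : w * β ^ 2 ≤ w * 9 := mul_le_mul_of_nonneg_left hb9 hw.le
  have c4 : w * (β - u) * 1 ≤ w * (β - u) * β := mul_le_mul_of_nonneg_left h1 (by positivity)
  refine ⟨hs, ?_, ?_, ht0, by nlinarith, by linarith, ?_⟩
  · rw [e, le_div_iff₀ hsb]
    exact c1
  · rw [e, div_le_iff₀ hsb]
    exact c2
  · rw [le_div_iff₀ hs]
    nlinarith

lemma onea_pdf (t : ℝ) :
    gaussianPDFReal 0 1 t = (√(2 * Real.pi))⁻¹ * Real.exp (-t ^ 2 / 2) := by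
  simp [gaussianPDFReal]

lemma onea_fac {t P : ℝ} (hP : 100 ≤ P) (ht : t ^ 2 ≤ 3600 * Real.log P) :
    Real.exp (1 / 2 + t ^ 2) * Real.exp 1 * Real.exp (t ^ 2 / 2) * (2 * P ^ 8) ≤ P ^ 5409 := by
  have hP0 : 0 < P := by linarith
  have e1 : Real.exp 1 ≤ 3 := Real.exp_one_lt_d9.le.trans (by norm_num)
  have e2 : Real.exp (1 / 2 + t ^ 2) * Real.exp (t ^ 2 / 2) ≤ Real.exp 1 * P ^ 5400 := by
    have e : P ^ 5400 = Real.exp (((5400 : ℕ) : ℝ) * Real.log P) := by
      rw [Real.exp_nat_mul, Real.exp_log hP0]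
    rw [e, ← Real.exp_add, ← Real.exp_add]
    refine Real.exp_le_exp.2 ?_
    push_cast
    linarith
  have hq : 0 ≤ P ^ 5400 := by positivity
  have e3 : Real.exp (1 / 2 + t ^ 2) * Real.exp (t ^ 2 / 2) ≤ 3 * P ^ 5400 :=
    e2.trans (mul_le_mul_of_nonneg_right e1 hq)
  have e4 : P ^ 5409 = P * (P ^ 5400 * P ^ 8) := by
    rw [← pow_add, ← pow_succ']
  have hq2 : 0 ≤ P ^ 5400 * P ^ 8 := by positivity
  calc Real.exp (1 / 2 + t ^ 2) * Real.exp 1 * Real.exp (t ^ 2 / 2) * (2 * P ^ 8)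
      = Real.exp (1 / 2 + t ^ 2) * Real.exp (t ^ 2 / 2) * Real.exp 1 * (2 * P ^ 8) := by
        rw [mul_right_comm (Real.exp (1 / 2 + t ^ 2))]
    _ ≤ 3 * P ^ 5400 * 3 * (2 * P ^ 8) := by gcongr
    _ = 18 * (P ^ 5400 * P ^ 8) := by
        generalize P ^ 5400 = A
        generalize P ^ 8 = B
        ring
    _ ≤ P ^ 5409 := by
        rw [e4]
        exact mul_le_mul_of_nonneg_right (by linarith) hq2

lemma onea_real {x y a t σ τ P c L : ℝ} (n : ℕ) (hP : 100 ≤ P) (hc : 0 ≤ c) (hL : 0 ≤ L)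
    (hσ : 0 < σ) (hτ : 0 < τ) (hx : y ^ 2 ≤ x ^ 2 + 1 + 2 * t ^ 2)
    (hn : τ ^ n ≤ Real.exp 1 * σ ^ n) (h2 : τ ^ 2 ≤ 2 * P ^ 8)
    (ht : t ^ 2 ≤ 3600 * Real.log P) :
    c * Real.exp (-x ^ 2 / 2) * L * (c * σ⁻¹) ^ n * (c * Real.exp (-a ^ 2 / 2)) ≤
      P ^ 5409 * (c * Real.exp (-y ^ 2 / 2) * L * (c * τ⁻¹) ^ n * (c * Real.exp (-t ^ 2 / 2)) *
        τ⁻¹ ^ 2) := by
  have e1 : Real.exp (-x ^ 2 / 2) ≤ Real.exp (1 / 2 + t ^ 2) * Real.exp (-y ^ 2 / 2) := by
    rw [← Real.exp_add]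
    exact Real.exp_le_exp.2 (by linarith)
  have e2 : σ⁻¹ ^ n ≤ Real.exp 1 * τ⁻¹ ^ n := by
    rw [inv_pow, inv_pow, ← div_eq_mul_inv, inv_eq_one_div, div_le_div_iff₀ (pow_pos hσ n)
      (pow_pos hτ n), one_mul]
    exact hn
  have e3 : Real.exp (-a ^ 2 / 2) ≤ Real.exp (t ^ 2 / 2) * Real.exp (-t ^ 2 / 2) := by
    rw [← Real.exp_add]
    exact Real.exp_le_exp.2 (by nlinarith [sq_nonneg a])
  have e4 : 1 ≤ 2 * P ^ 8 * τ⁻¹ ^ 2 := by
    rw [inv_pow, ← div_eq_mul_inv, le_div_iff₀ (pow_pos hτ 2), one_mul]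
    exact h2
  have e5 := onea_fac hP ht
  generalize P ^ 5409 = C at e5 ⊢
  generalize 2 * P ^ 8 = D at e4 e5
  calc c * Real.exp (-x ^ 2 / 2) * L * (c * σ⁻¹) ^ n * (c * Real.exp (-a ^ 2 / 2))
      = c * L * c ^ n * c * (Real.exp (-x ^ 2 / 2) * σ⁻¹ ^ n * Real.exp (-a ^ 2 / 2) * 1) := by
        rw [mul_pow]
        ring
    _ ≤ c * L * c ^ n * c * ((Real.exp (1 / 2 + t ^ 2) * Real.exp (-y ^ 2 / 2)) *
          (Real.exp 1 * τ⁻¹ ^ n) * (Real.exp (t ^ 2 / 2) * Real.exp (-t ^ 2 / 2)) *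
          (D * τ⁻¹ ^ 2)) := by
        gcongr
    _ = Real.exp (1 / 2 + t ^ 2) * Real.exp 1 * Real.exp (t ^ 2 / 2) * D *
          (c * Real.exp (-y ^ 2 / 2) * L * (c * τ⁻¹) ^ n * (c * Real.exp (-t ^ 2 / 2)) *
            τ⁻¹ ^ 2) := by
        rw [mul_pow]
        ring
    _ ≤ _ := mul_le_mul_of_nonneg_right e5 (by positivity)

lemma onea_t {α P r t : ℝ} (hP : 100 ≤ P) (hα : 0 < α) (hr : 0 < r) (ht : 0 ≤ t)
    (h1 : r * t ≤ 18 * (α / P ^ 4)) (h2 : r * t ≤ 3) (h3 : min α 1 / (4 * P) ≤ r)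
    (h4 : P ^ 2 ≤ α → 1 ≤ 400 * Real.log P * r ^ 2) : t ^ 2 ≤ 3600 * Real.log P := by
  have hP0 : 0 < P := by linarith
  have hl : 1 ≤ Real.log P := by
    rw [Real.le_log_iff_exp_le hP0]
    exact Real.exp_one_lt_d9.le.trans (by linarith)
  by_cases hc : P ^ 2 ≤ α
  · have h5 := mul_le_mul_of_nonneg_right (h4 hc) (sq_nonneg t)
    have h6 : (r * t) ^ 2 ≤ 3 ^ 2 := pow_le_pow_left₀ (by positivity) h2 2
    have h7 := mul_le_mul_of_nonneg_left h6 (by linarith : 0 ≤ 400 * Real.log P)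
    nlinarith
  · have hc := not_le.1 hc
    have h5 : α ≤ P ^ 2 * min α 1 := by
      have : 1 ≤ P ^ 2 := one_le_pow₀ (by linarith)
      rcases le_total α 1 with h | h
      · rw [min_eq_left h]
        nlinarith
      · rw [min_eq_right h]
        linarith
    rw [div_le_iff₀ (by positivity)] at h3
    have h6 : α / P ^ 4 * 18 ≤ r := by
      rw [div_mul_eq_mul_div, div_le_iff₀ (by positivity)]
      have h7 : P ^ 2 * min α 1 ≤ P ^ 2 * (r * (4 * P)) :=
        mul_le_mul_of_nonneg_left h3 (by positivity)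
      have h8 : 72 * (r * P ^ 3) ≤ P * (r * P ^ 3) :=
        mul_le_mul_of_nonneg_right (by linarith) (by positivity)
      nlinarith
    have h7 : t ≤ 1 := by
      by_contra hh
      have := mul_lt_mul_of_pos_left (not_le.1 hh) hr
      linarith
    nlinarith

lemma onea_dot (f g f' g' : Fin m → ℝ) (k : Fin m) (h : ∀ j, j ≠ k → f' j * g' j = f j * g j)
    (hk : 0 ≤ f k * g k) : f' ⬝ᵥ g' ≤ f ⬝ᵥ g + f' k * g' k := by
  unfold dotProduct
  rw [← add_sum_erase _ _ (mem_univ k), ← add_sum_erase _ (fun j => f j * g j) (mem_univ k),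
    sum_congr rfl fun j hj => h j (ne_of_mem_erase hj)]
  linarith

lemma onea_term {b : Fin m → ℝ} (hb : ∀ j, 0 < b j) {z : ℝ × (Fin m → ℝ)} (hz : Adm b z)
    (j : Fin m) : 0 ≤ z.2 j * hw b z j := by
  have e : z.2 j * hw b z j = z.1 * z.2 j ^ 2 / (b j * hs b z j) := by
    have := (hb j).ne'
    have := (hz.2 j).ne'
    rw [← hat_h0_div hb hz j, h0]
    field_simp
  have := hb j
  have := hz.2 j
  have := hz.1
  rw [e]
  positivity

lemma onea_x {b : Fin m → ℝ} (hb : ∀ j, 0 < b j) {z : ℝ × (Fin m → ℝ)} (hz : Adm b z) :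
    h0 b z ⬝ᵥ h1 b z = z.2 ⬝ᵥ hw b z * z.1 := by
  unfold dotProduct
  rw [sum_mul]
  refine sum_congr rfl fun j _ => ?_
  rw [← hat_h0_div hb hz j, h1]
  ring

theorem wt_cmp {b : Fin m → ℝ} {lam P : ℝ} (hP : Par m (n + 1) P) (hb : Box b) (hl : 0 < lam)
    {z : ℝ × (Fin m → ℝ)} (h : EP n P lam b z) (k : Fin m) {t : ℝ}
    (ht : t ∈ win (al m (n + 1) lam / P ^ 4) (b k) z.1) :
    Master_wt n b lam z * ENNReal.ofReal (gaussianPDFReal 0 1 (z.2 k)) ≤
      ENNReal.ofReal (P ^ 5409) * (Master_wt n b lam (z.1, Function.update z.2 k t) *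
        ENNReal.ofReal (gaussianPDFReal 0 1 t) *
        ENNReal.ofReal ((hsig b lam (z.1, Function.update z.2 k t))⁻¹ ^ 2)) := by
  have hP1 : (100 : ℝ) ≤ P := le_trans (by norm_num) hP.big
  have hP0 : 0 < P := by linarith
  have hb0 : ∀ j, 0 < b j := fun j => one_pos.trans_le (hb j).1
  have hN : (0 : ℝ) < (n + 1 : ℕ) := by positivity
  have hNm : ((n + 1 : ℕ) : ℝ) ≤ m := by
    have := hP.mn
    exact_mod_cast (by omega : n + 1 ≤ m)
  have hm : (0 : ℝ) < m := hN.trans_le hNm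
  have hn1 : (n : ℝ) ≤ (n + 1 : ℕ) := by exact_mod_cast Nat.le_succ n
  have hN1 : (1 : ℝ) ≤ (n + 1 : ℕ) := by exact_mod_cast Nat.succ_pos n
  have hS : 0 < √((n + 1 : ℕ) : ℝ) := Real.sqrt_pos.2 hN
  have hSS : √((n + 1 : ℕ) : ℝ) ^ 2 = (n + 1 : ℕ) := Real.sq_sqrt hN.le
  have hα : 0 < al m (n + 1) lam := by
    unfold al
    positivity
  have hr := h.adm.1
  obtain ⟨f1, f2, f3, f4, f5, f6, -⟩ := win_facts (by positivity) (hb k).1 (hb k).2 hr ht
  have hT := onea_t hP1 hα hr f4 f5 f6 h.rlo h.rad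
  set z' : ℝ × (Fin m → ℝ) := (z.1, Function.update z.2 k t) with hz'
  have s1 : ∀ j, j ≠ k → z'.2 j = z.2 j := fun j hj => Function.update_of_ne hj _ _
  have s2 : ∀ j, j ≠ k → hs b z' j = hs b z j := fun j hj => by
    rw [hs, hs, s1 j hj]
  have s3 : ∀ j, j ≠ k → hw b z' j = hw b z j := fun j hj => by
    rw [hw, hw, s2 j hj]
  have s4 : z'.2 k = t := Function.update_self _ _ _
  have s5 : hs b z' k = b k - z.1 * t := by
    rw [hs, s4]
  have s6 : hw b z' k = (b k - z.1 * t)⁻¹ - (b k)⁻¹ := by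
    rw [hw, s5]
  have adm : Adm b z' := ⟨hr, fun j => by
    by_cases hj : j = k
    · rw [hj, s5]
      exact f1
    · rw [s2 j hj]
      exact h.adm.2 j⟩
  rw [← s6] at f2 f3
  have w0 : 0 ≤ hw b z' k := le_trans (by positivity) f2
  have hP4 : 8 ≤ P ^ 4 := by
    have : (100 : ℝ) ^ 4 ≤ P ^ 4 := pow_le_pow_left₀ (by norm_num) hP1 4
    linarith
  obtain ⟨η, hη⟩ : ∃ η, η = hw b z' k / lam := ⟨_, rfl⟩
  have η0 : 0 ≤ η := by
    rw [hη]
    positivity
  have η1 : η * m ≤ √((n + 1 : ℕ) : ℝ) / 4 := by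
    have e : 2 * (al m (n + 1) lam / P ^ 4) / lam * m = 2 * √((n + 1 : ℕ) : ℝ) / P ^ 4 := by
      unfold al
      field_simp
    have e2 : η * m ≤ 2 * (al m (n + 1) lam / P ^ 4) / lam * m := by
      rw [hη]
      gcongr
    rw [e] at e2
    refine e2.trans ?_
    rw [div_le_div_iff₀ (by positivity) (by norm_num)]
    nlinarith
  have η2 : η * √((n + 1 : ℕ) : ℝ) ≤ 1 / 4 := by
    have e1 : η * √((n + 1 : ℕ) : ℝ) ^ 2 ≤ η * m := by
      rw [hSS]
      exact mul_le_mul_of_nonneg_left hNm η0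
    refine le_of_mul_le_mul_right ?_ hS
    nlinarith
  have η3 : η ^ 2 * (n + 1 : ℕ) ≤ 1 := by
    have := pow_le_pow_left₀ (by positivity) η2 2
    rw [mul_pow, hSS] at this
    linarith
  have η4 : η ^ 2 ≤ 1 := by nlinarith [sq_nonneg η]
  have x0 : 0 ≤ z.2 ⬝ᵥ hw b z / lam :=
    div_nonneg (sum_nonneg fun j _ => onea_term hb0 h.adm j) hl.le
  have x1 : z.2 ⬝ᵥ hw b z / lam ≤ 2 * √((n + 1 : ℕ) : ℝ) := by
    have e := h.ehi
    rw [onea_x hb0 h.adm] at e
    rw [div_le_iff₀ hl]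
    linarith [le_of_mul_le_mul_right e hr]
  have y0 : 0 ≤ z'.2 ⬝ᵥ hw b z' / lam :=
    div_nonneg (sum_nonneg fun j _ => onea_term hb0 adm j) hl.le
  have y1 : z'.2 ⬝ᵥ hw b z' / lam ≤ z.2 ⬝ᵥ hw b z / lam + t * η := by
    rw [hη, ← mul_div_assoc, ← add_div, ← s4]
    exact div_le_div_of_nonneg_right (onea_dot _ _ _ _ k (fun j hj => by rw [s1 j hj, s3 j hj])
      (onea_term hb0 h.adm k)) hl.le
  have y2 : (z'.2 ⬝ᵥ hw b z' / lam) ^ 2 ≤ (z.2 ⬝ᵥ hw b z / lam) ^ 2 + 1 + 2 * t ^ 2 := by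
    refine (pow_le_pow_left₀ y0 y1 2).trans ?_
    generalize z.2 ⬝ᵥ hw b z / lam = x at x0 x1
    have a1 : x * η ≤ 1 / 2 := by nlinarith [mul_le_mul_of_nonneg_right x1 η0]
    have a2 := mul_le_mul_of_nonneg_left a1 f4
    have a3 := mul_le_mul_of_nonneg_left η4 (sq_nonneg t)
    nlinarith [sq_nonneg (t - 1)]
  have σ1 : 1 ≤ hsig b lam z := one_le_hsig
  have τ1 : 1 ≤ hsig b lam z' := one_le_hsig
  have g1 : hsig b lam z' ^ 2 ≤ hsig b lam z ^ 2 + η ^ 2 := by
    rw [hsig_sq, hsig_sq, hη, div_pow, add_assoc, ← add_div, sq (hw b z' k)]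
    exact add_le_add_right (div_le_div_of_nonneg_right (onea_dot _ _ _ _ k
      (fun j hj => by rw [s3 j hj]) (mul_self_nonneg _)) (sq_nonneg _)) _
  have g2 : hsig b lam z' ≤ Real.exp (η ^ 2) * hsig b lam z := by
    have a1 : η ^ 2 + 1 ≤ Real.exp (η ^ 2) := Real.add_one_le_exp _
    have a2 : hsig b lam z' ≤ (η ^ 2 + 1) * hsig b lam z := by
      refine abs_le_of_sq_le_sq' ?_ (by positivity) |>.2
      have a3 : η ^ 2 * 1 ≤ η ^ 2 * hsig b lam z ^ 2 :=
        mul_le_mul_of_nonneg_left (one_le_pow₀ σ1) (sq_nonneg η)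
      have a4 : 0 ≤ η ^ 2 * η ^ 2 * hsig b lam z ^ 2 := by positivity
      nlinarith [sq_nonneg η]
    exact a2.trans (mul_le_mul_of_nonneg_right a1 (by linarith))
  have g3 : hsig b lam z' ^ n ≤ Real.exp 1 * hsig b lam z ^ n := by
    refine (pow_le_pow_left₀ (by linarith) g2 n).trans ?_
    rw [mul_pow, ← Real.exp_nat_mul]
    refine mul_le_mul_of_nonneg_right (Real.exp_le_exp.2 ?_) (by positivity)
    nlinarith [mul_le_mul_of_nonneg_left hn1 (sq_nonneg η)]
  have g4 : hsig b lam z' ^ 2 ≤ 2 * P ^ 8 := by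
    have a1 : hsig b lam z ^ 2 ≤ (P ^ 4) ^ 2 := pow_le_pow_left₀ (by linarith) h.sig 2
    have a2 : 1 ≤ P ^ 8 := one_le_pow₀ (by linarith)
    nlinarith
  have hc : 0 ≤ (√(2 * Real.pi))⁻¹ := by positivity
  have key := onea_real (a := z.2 k) n hP1 hc (pow_nonneg (inv_nonneg.2 hl.le) (n + 1))
    (by linarith) (by linarith) y2 g3 g4 hT
  rw [wt_eq hl h.adm.2, wt_eq hl adm.2, onea_pdf, onea_pdf, onea_pdf, onea_pdf,
    ← ENNReal.ofReal_mul (by positivity), ← ENNReal.ofReal_mul (by positivity),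
    ← ENNReal.ofReal_mul (by positivity), ← ENNReal.ofReal_mul (by positivity)]
  exact ENNReal.ofReal_le_ofReal key

end Pool.Agent.Work.MP_6af739_lc.HO
end

-- merged part: Pool.Agent.Work.MP_6af739_lc.HO.OneB
section
/-!
Two elementary integrals. int_left: if α ≤ 1 bound the integrand by P^2 α 2 P^4 on an interval of length 2 P^2 α/r.
If α > 1 the set lies in Icc (-P^2/r) ((β - s0)/r), s0 = 1/(1 + P^4 α) < β, the integrand is at most P^2/(β - r t), whose integral
is (P^2/r) log ((β + P^2)/s0) (intervalIntegral.integral_eq_sub_of_hasDerivAt, ofReal_integral_eq_lintegral_ofReal), and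
log ((3 + P^2)(1 + P^4 α)) ≤ log (4 P^6) + log α ≤ P^7. win_len: the length is w β^2/((1 + wβ)(1 + 2wβ) r) ≥ w/((1+3w)(1+6w) r);
cases w ≤ 1 and w ≥ 1.
-/

namespace Pool.Agent.Work.MP_6af739_lc.HO

open Matrix Finset MeasureTheory ProbabilityTheory
open Pool.Agent.Work.MP_6a50bc_pr
open Pool.Agent.Work.MP_5c5849_an (sg av)
open scoped ENNReal Polynomial

theorem oneb_log {c β r a b : ℝ} (hc : 0 ≤ c) (hr : 0 < r) (hab : a ≤ b) (hb : 0 < β - r * b) :
    ∫⁻ t in Set.Icc a b, ENNReal.ofReal (c / (β - r * t)) =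
      ENNReal.ofReal (c / r * (Real.log (β - r * a) - Real.log (β - r * b))) := by
  have p : ∀ t ∈ Set.Icc a b, 0 < β - r * t := fun t ht => by nlinarith [ht.2]
  have ct : ContinuousOn (fun t => c / (β - r * t)) (Set.Icc a b) :=
    continuousOn_const.div (by fun_prop) fun t ht => (p t ht).ne'
  rw [← ofReal_integral_eq_lintegral_ofReal ct.integrableOn_Icc
    ((ae_restrict_iff' measurableSet_Icc).2 (.of_forall fun t ht => div_nonneg hc (p t ht).le)),
    integral_Icc_eq_integral_Ioc, ← intervalIntegral.integral_of_le hab,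
    intervalIntegral.integral_eq_sub_of_hasDerivAt (f := fun t => -(c / r) * Real.log (β - r * t))
      (fun t ht => ?_) (ct.intervalIntegrable_of_Icc hab)]
  · congr 1
    ring
  · rw [Set.uIcc_of_le hab] at ht
    have q := (p t ht).ne'
    refine ((((hasDerivAt_id' t).const_mul r).const_sub β).log q).const_mul (-(c / r))
      |>.congr_deriv ?_
    field_simp

theorem int_left {P α β r : ℝ} (hP : 10 ^ 20 ≤ P) (hα : 0 < α) (hlog : Real.log α ≤ P)
    (h1 : 1 ≤ β) (h3 : β ≤ 3) (hr : 0 < r) :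
    ∫⁻ t in {t : ℝ | |r * t| ≤ P ^ 2 * min α 1 ∧ 0 < β - r * t ∧ (β - r * t)⁻¹ ≤ 1 + P ^ 4 * α},
        ENNReal.ofReal |r * t / (β - r * t)| ≤ ENNReal.ofReal (P ^ 9 * min α 1 ^ 2 / r) := by
  have P4 : 10 ≤ P := le_trans (by norm_num) hP
  have P0 : 0 < P := by linarith
  have P1 : 1 ≤ P := by linarith
  have e4 : 1 ≤ P ^ 4 := one_le_pow₀ P1
  rcases le_total α 1 with h | h
  · rw [min_eq_left h]
    refine (setLIntegral_mono (g := fun _ => ENNReal.ofReal (P ^ 2 * α * (2 * P ^ 4)))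
      measurable_const fun t ht => ENNReal.ofReal_le_ofReal ?_).trans
      ((lintegral_mono_set (t := Set.Icc (-(P ^ 2 * α) / r) (P ^ 2 * α / r)) fun t ht => ?_).trans ?_)
    · rw [abs_div, abs_of_pos ht.2.1, div_eq_mul_inv]
      refine mul_le_mul ht.1 (ht.2.2.trans ?_) (inv_pos.2 ht.2.1).le (by positivity)
      nlinarith
    · obtain ⟨a, b⟩ := abs_le.1 ht.1
      exact ⟨by rw [div_le_iff₀ hr]; linarith, by rw [le_div_iff₀ hr]; linarith⟩
    · rw [setLIntegral_const, Real.volume_Icc, ← ENNReal.ofReal_mul (by positivity)]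
      refine ENNReal.ofReal_le_ofReal ?_
      rw [← sub_div, ← mul_div_assoc]
      refine div_le_div_of_nonneg_right ?_ hr.le
      nlinarith [mul_nonneg (show 0 ≤ P - 4 by linarith) (show 0 ≤ P ^ 8 * α ^ 2 by positivity)]
  · rw [min_eq_right h]
    have s1 : 1 ≤ P ^ 4 * α := one_le_mul_of_one_le_of_one_le e4 h
    have s0 : 0 < 1 + P ^ 4 * α := by linarith
    have s2 : (1 + P ^ 4 * α)⁻¹ ≤ 1 := inv_le_one_of_one_le₀ (by linarith)
    have ea : β - r * (-P ^ 2 / r) = β + P ^ 2 := by field_simp; ring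
    have eb : β - r * ((β - (1 + P ^ 4 * α)⁻¹) / r) = (1 + P ^ 4 * α)⁻¹ := by
      rw [mul_div_cancel₀ _ hr.ne', sub_sub_cancel]
    refine (setLIntegral_mono (g := fun t => ENNReal.ofReal (P ^ 2 / (β - r * t)))
      (by fun_prop) fun t ht => ENNReal.ofReal_le_ofReal ?_).trans
      ((lintegral_mono_set (t := Set.Icc (-P ^ 2 / r) ((β - (1 + P ^ 4 * α)⁻¹) / r))
        fun t ht => ?_).trans ?_)
    · rw [abs_div, abs_of_pos ht.2.1]
      exact div_le_div_of_nonneg_right (by simpa using ht.1) ht.2.1.le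
    · obtain ⟨a, b⟩ := abs_le.1 ht.1
      have := (inv_le_comm₀ ht.2.1 s0).1 ht.2.2
      exact ⟨by rw [div_le_iff₀ hr]; linarith, by rw [le_div_iff₀ hr]; linarith⟩
    · rw [oneb_log (by positivity) hr (div_le_div_of_nonneg_right (by nlinarith) hr.le)
        (by rw [eb]; positivity), ea, eb, Real.log_inv, sub_neg_eq_add]
      refine ENNReal.ofReal_le_ofReal ?_
      rw [div_mul_eq_mul_div]
      refine div_le_div_of_nonneg_right ?_ hr.le
      have l1 : Real.log (β + P ^ 2) ≤ β + P ^ 2 := Real.log_le_self (by positivity)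
      have l2 : Real.log (1 + P ^ 4 * α) ≤ Real.log (2 * P ^ 4) + Real.log α := by
        rw [← Real.log_mul (by positivity) hα.ne']
        exact Real.log_le_log s0 (by linarith)
      have l3 : Real.log (2 * P ^ 4) ≤ 2 * P ^ 4 := Real.log_le_self (by positivity)
      have f1 : P ^ 1 ≤ P ^ 6 := pow_le_pow_right₀ P1 (by norm_num)
      have f2 : P ^ 2 ≤ P ^ 6 := pow_le_pow_right₀ P1 (by norm_num)
      have f4 : P ^ 4 ≤ P ^ 6 := pow_le_pow_right₀ P1 (by norm_num)
      have f7 : 10 * P ^ 6 ≤ P * P ^ 6 := mul_le_mul_of_nonneg_right P4 (by positivity)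
      have l4 : Real.log (β + P ^ 2) + Real.log (1 + P ^ 4 * α) ≤ P * P ^ 6 := by
        rw [pow_one] at f1
        linarith
      exact (mul_le_mul_of_nonneg_left l4 (by positivity)).trans (le_of_eq (by ring))

theorem win_len {P α β r : ℝ} (hP : 1 ≤ P) (hα : 0 < α) (h1 : 1 ≤ β) (h3 : β ≤ 3) (hr : 0 < r) :
    ENNReal.ofReal (α * min α 1 ^ 2 / (28 * P ^ 12 * r)) ≤
      ENNReal.ofReal ((α / P ^ 4) ^ 2) * volume (win (α / P ^ 4) β r) := by
  have P0 : 0 < P := by linarith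
  have b0 : 0 < β := by linarith
  rw [win, Real.volume_Icc, ← ENNReal.ofReal_mul (by positivity)]
  refine ENNReal.ofReal_le_ofReal ?_
  have w1 : α / P ^ 4 ≤ α := div_le_self hα.le (one_le_pow₀ hP)
  have w0 : 0 < α / P ^ 4 := by positivity
  have e : α = α / P ^ 4 * P ^ 4 := by field_simp
  have m0 : 0 < min α 1 := lt_min hα one_pos
  have m1 := min_le_left α 1
  have m2 := min_le_right α 1
  generalize min α 1 = μ at *
  generalize α / P ^ 4 = w at *
  have a0 : μ * (w * β) ≤ 1 * (α * β) :=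
    mul_le_mul m2 (mul_le_mul_of_nonneg_right w1 b0.le) (by positivity) zero_le_one
  have a1 : α * 1 ≤ α * β := mul_le_mul_of_nonneg_left h1 hα.le
  have a2 : μ * (1 + w * β) * (μ * (1 + 2 * w * β)) ≤ 2 * (α * β) * (3 * (α * β)) :=
    mul_le_mul (by linarith) (by linarith) (by positivity) (by positivity)
  have e2 : w ^ 2 * (uu (2 * w) β / r - uu w β / r) =
      w ^ 3 * β ^ 2 / ((1 + w * β) * (1 + 2 * w * β) * r) := by
    simp only [uu]
    field_simp
    ring
  have e3 : w ^ 3 * P ^ 12 = α ^ 3 := by rw [e]; ring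
  rw [e2, div_le_div_iff₀ (by positivity) (by positivity)]
  have a3 := mul_le_mul_of_nonneg_left a2 (mul_pos hα hr).le
  have a4 : 0 ≤ α ^ 3 * β ^ 2 * r := by positivity
  calc _ = α * r * (μ * (1 + w * β) * (μ * (1 + 2 * w * β))) := by ring
    _ ≤ 28 * (α ^ 3 * β ^ 2 * r) := by linarith
    _ = _ := by rw [← e3]; ring

end Pool.Agent.Work.MP_6af739_lc.HO
end

-- merged part: Pool.Agent.Work.MP_6af739_lc.HO.OneC
section
/-!
The one-coordinate comparison (O of the write-up). one_coord: if r ≤ 0 the left side vanishes (EP.adm). Write both integrals against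
Lebesgue measure (gaussianReal_of_var_ne_zero, lintegral_withDensity_eq_lintegral_mul). Let G t' = wt t' * pdf t' * ofReal (hsig⁻¹^2).
For t' in the window and every t: left integrand ≤ C * 1_I(t) ofReal |r t/(β - r t)| * G t' with C = P^5409 P^19 α/r^2 (wt_cmp,
Function.update_idem, EP.psi, EP.u, EP.sinv), so Left ≤ C ofReal (P^9 a^2/r) G t' (int_left). On the window the right integrand is
≥ G t' ofReal (w0^2/r^2) (win_facts). Integrate over the window, use win_len and cancel the positive finite factor.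
one_int: mp_update_gv, lintegral_prod, pik_update.
-/

namespace Pool.Agent.Work.MP_6af739_lc.HO

open Matrix Finset MeasureTheory ProbabilityTheory
open Pool.Agent.Work.MP_6a50bc_pr
open Pool.Agent.Work.MP_5c5849_an (sg av)
open scoped ENNReal Polynomial

variable {m n : ℕ} {b : Fin m → ℝ} {lam P : ℝ}

lemma onec_avg {L K D c : ℝ≥0∞} {G F : ℝ → ℝ≥0∞} {W : Set ℝ} (hW : MeasurableSet W)
    (h1 : ∀ t ∈ W, L ≤ K * D * G t) (h2 : ∀ t ∈ W, G t * c ≤ F t) (h3 : D ≤ c * volume W)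
    (hD0 : D ≠ 0) (hD : D ≠ ⊤) (hK : K ≠ ⊤) : L ≤ K * ∫⁻ t, F t := by
  have key : D * L ≤ D * (K * ∫⁻ t, F t) := by
    calc D * L ≤ c * volume W * L := by gcongr
      _ = ∫⁻ _ in W, L * c := by
        rw [setLIntegral_const]
        ring
      _ ≤ ∫⁻ t in W, K * D * F t := by
        refine setLIntegral_mono' hW fun t ht => ?_
        calc L * c ≤ K * D * G t * c := by gcongr; exact h1 t ht
          _ = K * D * (G t * c) := by ring
          _ ≤ K * D * F t := by gcongr; exact h2 t ht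
      _ ≤ ∫⁻ t, K * D * F t := setLIntegral_le_lintegral _ _
      _ = D * (K * ∫⁻ t, F t) := by
        rw [lintegral_const_mul' _ _ (ENNReal.mul_ne_top hK hD)]
        ring
  exact (ENNReal.mul_le_mul_iff_right hD0 hD).1 key

lemma onec_gauss {f : ℝ → ℝ≥0∞} (hf : Measurable f) :
    ∫⁻ t, f t ∂(gaussianReal 0 1) = ∫⁻ t, ENNReal.ofReal (gaussianPDFReal 0 1 t) * f t := by
  rw [gaussianReal_of_var_ne_zero 0 one_ne_zero,
    lintegral_withDensity_eq_lintegral_mul _ (measurable_gaussianPDF 0 1) hf]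
  rfl

lemma onec_al_pos (hP : Par m (n + 1) P) (hl : 0 < lam) : 0 < al m (n + 1) lam := by
  have hm : 0 < m := lt_of_lt_of_le (by positivity) hP.mn
  unfold al
  positivity

lemma onec_hs (r t : ℝ) (k : Fin m) (a : Fin m → ℝ) :
    hs b (r, Function.update a k t) k = b k - r * t := by
  simp only [hs, Function.update_self]

lemma onec_h1 (r t : ℝ) (k : Fin m) (a : Fin m → ℝ) :
    h1 b (r, Function.update a k t) k = r * t / (b k - r * t) := by
  simp only [h1, hs, Function.update_self]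

/-- The comparison weight. -/
noncomputable def onec_G (n : ℕ) (b : Fin m → ℝ) (lam r : ℝ) (k : Fin m) (a : Fin m → ℝ) (t : ℝ) :
    ℝ≥0∞ :=
  Master_wt n b lam (r, Function.update a k t) * ENNReal.ofReal (gaussianPDFReal 0 1 t) *
    ENNReal.ofReal ((hsig b lam (r, Function.update a k t))⁻¹ ^ 2)

lemma onec_pt (hP : Par m (n + 1) P) (hb : Box b) (hl : 0 < lam) {r : ℝ} (k : Fin m)
    (a : Fin m → ℝ) {s : ℝ} (hs' : s ∈ win (al m (n + 1) lam / P ^ 4) (b k) r) (t : ℝ) :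
    ENNReal.ofReal (gaussianPDFReal 0 1 t) * (Master_wt n b lam (r, Function.update a k t) *
        wl n P lam b k (r, Function.update a k t)) ≤
      ENNReal.ofReal (P ^ 5409) * onec_G n b lam r k a s *
          ENNReal.ofReal (P ^ 19 * al m (n + 1) lam / r ^ 2) *
        {t : ℝ | |r * t| ≤ P ^ 2 * min (al m (n + 1) lam) 1 ∧ 0 < b k - r * t ∧
          (b k - r * t)⁻¹ ≤ 1 + P ^ 4 * al m (n + 1) lam}.indicator
            (fun t => ENNReal.ofReal |r * t / (b k - r * t)|) t := by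
  by_cases h : EP n P lam b (r, Function.update a k t)
  · have hP0 : 0 < P := lt_of_lt_of_le (by norm_num) hP.big
    have hα := onec_al_pos hP hl
    have h0 := wt_cmp hP hb hl h k (t := s) hs'
    simp only [Function.update_self, Function.update_idem] at h0
    have hu := h.u k
    have ha := h.adm.2 k
    have hsi := h.sinv k
    have hps := h.psi k
    simp only [Function.update_self] at hu
    rw [onec_hs] at ha hsi
    rw [onec_h1] at hps
    have hw : wl n P lam b k (r, Function.update a k t) ≤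
        ENNReal.ofReal (P ^ 19 * al m (n + 1) lam / r ^ 2) *
          ENNReal.ofReal |r * t / (b k - r * t)| := by
      rw [wl, Set.indicator_of_mem (s := {z | EP n P lam b z}) h,
        ← ENNReal.ofReal_mul (by positivity)]
      refine ENNReal.ofReal_le_ofReal ?_
      calc P ^ 12 * al m (n + 1) lam * |hpsi b lam (r, Function.update a k t) k| / r ^ 2
          ≤ P ^ 12 * al m (n + 1) lam * (P ^ 7 * |r * t / (b k - r * t)|) / r ^ 2 := by gcongr
        _ = _ := by ring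
    rw [Set.indicator_of_mem (s := {t : ℝ | |r * t| ≤ P ^ 2 * min (al m (n + 1) lam) 1 ∧
      0 < b k - r * t ∧ (b k - r * t)⁻¹ ≤ 1 + P ^ 4 * al m (n + 1) lam}) ⟨hu, ha, hsi⟩]
    calc _ = Master_wt n b lam (r, Function.update a k t) *
          ENNReal.ofReal (gaussianPDFReal 0 1 t) * wl n P lam b k (r, Function.update a k t) := by
          ring
      _ ≤ ENNReal.ofReal (P ^ 5409) * onec_G n b lam r k a s *
          (ENNReal.ofReal (P ^ 19 * al m (n + 1) lam / r ^ 2) *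
            ENNReal.ofReal |r * t / (b k - r * t)|) := mul_le_mul' h0 hw
      _ = _ := by ring
  · rw [wl, Set.indicator_of_notMem (s := {z | EP n P lam b z}) h, mul_zero, mul_zero]
    exact zero_le

lemma onec_left (hP : Par m (n + 1) P) (hb : Box b) (hl : 0 < lam)
    (hlog : Real.log (al m (n + 1) lam) ≤ P) {r : ℝ} (hr : 0 < r) (k : Fin m)
    (a : Fin m → ℝ) {s : ℝ} (hs' : s ∈ win (al m (n + 1) lam / P ^ 4) (b k) r) :
    ∫⁻ t, ENNReal.ofReal (gaussianPDFReal 0 1 t) * (Master_wt n b lam (r, Function.update a k t) *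
        wl n P lam b k (r, Function.update a k t)) ≤
      ENNReal.ofReal (P ^ 5450) * (ENNReal.ofReal (r ^ 2)⁻¹ * ENNReal.ofReal (al m (n + 1) lam *
        min (al m (n + 1) lam) 1 ^ 2 / (28 * P ^ 12 * r))) * onec_G n b lam r k a s := by
  have hP0 : 0 < P := lt_of_lt_of_le (by norm_num) hP.big
  have hP1 : 28 ≤ P := le_trans (by norm_num) hP.big
  have hα := onec_al_pos hP hl
  have hI : MeasurableSet {t : ℝ | |r * t| ≤ P ^ 2 * min (al m (n + 1) lam) 1 ∧ 0 < b k - r * t ∧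
      (b k - r * t)⁻¹ ≤ 1 + P ^ 4 * al m (n + 1) lam} := by
    have a1 : Measurable fun t : ℝ => |r * t| := by fun_prop
    have a2 : Measurable fun t : ℝ => b k - r * t := by fun_prop
    exact (measurableSet_le a1 measurable_const).inter
      ((measurableSet_lt measurable_const a2).inter (measurableSet_le a2.inv measurable_const))
  have hf : Measurable fun t : ℝ => ENNReal.ofReal |r * t / (b k - r * t)| := by fun_prop
  refine (lintegral_mono (onec_pt hP hb hl k a hs')).trans ?_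
  rw [lintegral_const_mul _ (hf.indicator hI), lintegral_indicator hI]
  have hnum : ENNReal.ofReal (P ^ 5409) * (ENNReal.ofReal (P ^ 19 * al m (n + 1) lam / r ^ 2) *
      ENNReal.ofReal (P ^ 9 * min (al m (n + 1) lam) 1 ^ 2 / r)) ≤
      ENNReal.ofReal (P ^ 5450) * (ENNReal.ofReal (r ^ 2)⁻¹ * ENNReal.ofReal (al m (n + 1) lam *
        min (al m (n + 1) lam) 1 ^ 2 / (28 * P ^ 12 * r))) := by
    rw [← ENNReal.ofReal_mul (by positivity), ← ENNReal.ofReal_mul (by positivity),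
      ← ENNReal.ofReal_mul (by positivity), ← ENNReal.ofReal_mul (by positivity)]
    refine ENNReal.ofReal_le_ofReal ?_
    have e : P ^ 5450 = P ^ 5409 * (P ^ 40 * P) := by
      rw [← pow_succ, ← pow_add]
    rw [e, mul_assoc (P ^ 5409)]
    refine mul_le_mul_of_nonneg_left ?_ (by positivity)
    calc P ^ 19 * al m (n + 1) lam / r ^ 2 * (P ^ 9 * min (al m (n + 1) lam) 1 ^ 2 / r)
        = P ^ 40 * 28 * ((r ^ 2)⁻¹ * (al m (n + 1) lam *
          min (al m (n + 1) lam) 1 ^ 2 / (28 * P ^ 12 * r))) := by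
          field_simp
      _ ≤ _ := by gcongr
  calc _ ≤ ENNReal.ofReal (P ^ 5409) * onec_G n b lam r k a s *
          ENNReal.ofReal (P ^ 19 * al m (n + 1) lam / r ^ 2) *
        ENNReal.ofReal (P ^ 9 * min (al m (n + 1) lam) 1 ^ 2 / r) :=
        mul_le_mul' le_rfl (int_left hP.big hα hlog (hb k).1 (hb k).2 hr)
    _ = ENNReal.ofReal (P ^ 5409) * (ENNReal.ofReal (P ^ 19 * al m (n + 1) lam / r ^ 2) *
      ENNReal.ofReal (P ^ 9 * min (al m (n + 1) lam) 1 ^ 2 / r)) * onec_G n b lam r k a s := by ring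
    _ ≤ _ := mul_le_mul' hnum le_rfl

lemma onec_right (hb : Box b) {w r : ℝ} (hw : 0 < w) (hr : 0 < r) (k : Fin m)
    (a : Fin m → ℝ) {s : ℝ} (hs' : s ∈ win w (b k) r) :
    onec_G n b lam r k a s * (ENNReal.ofReal (r ^ 2)⁻¹ * ENNReal.ofReal (w ^ 2)) ≤
      ENNReal.ofReal (gaussianPDFReal 0 1 s) * (Master_wt n b lam (r, Function.update a k s) *
        wr lam b k (r, Function.update a k s)) := by
  have h := (win_facts hw (hb k).1 (hb k).2 hr hs').2.2.2.2.2.2
  have hw' : ENNReal.ofReal ((hsig b lam (r, Function.update a k s))⁻¹ ^ 2) *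
      (ENNReal.ofReal (r ^ 2)⁻¹ * ENNReal.ofReal (w ^ 2)) ≤
      wr lam b k (r, Function.update a k s) := by
    rw [wr, onec_h1, ← ENNReal.ofReal_mul (by positivity), ← ENNReal.ofReal_mul (by positivity)]
    refine ENNReal.ofReal_le_ofReal ?_
    calc (hsig b lam (r, Function.update a k s))⁻¹ ^ 2 * ((r ^ 2)⁻¹ * w ^ 2)
        ≤ (hsig b lam (r, Function.update a k s))⁻¹ ^ 2 *
          ((r ^ 2)⁻¹ * (r * s / (b k - r * s)) ^ 2) := by gcongr
      _ = _ := by ring
  calc _ = ENNReal.ofReal (gaussianPDFReal 0 1 s) * (Master_wt n b lam (r, Function.update a k s) *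
        (ENNReal.ofReal ((hsig b lam (r, Function.update a k s))⁻¹ ^ 2) *
          (ENNReal.ofReal (r ^ 2)⁻¹ * ENNReal.ofReal (w ^ 2)))) := by
        rw [onec_G]
        ring
    _ ≤ _ := mul_le_mul' le_rfl (mul_le_mul' le_rfl hw')

lemma onec_meas (r : ℝ) (k : Fin m) (a : Fin m → ℝ) :
    Measurable fun t : ℝ => ((r, Function.update a k t) : ℝ × (Fin m → ℝ)) :=
  measurable_const.prodMk (measurable_update a)

theorem one_coord (hP : Par m (n + 1) P) (hb : Box b) (hl : 0 < lam)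
    (hlog : Real.log (al m (n + 1) lam) ≤ P) (r : ℝ) (k : Fin m) (a : Fin m → ℝ) :
    ∫⁻ t, Master_wt n b lam (r, Function.update a k t) * wl n P lam b k (r, Function.update a k t)
        ∂(gaussianReal 0 1) ≤
      ENNReal.ofReal (P ^ 5450) * ∫⁻ t, Master_wt n b lam (r, Function.update a k t) *
        wr lam b k (r, Function.update a k t) ∂(gaussianReal 0 1) := by
  by_cases hr : 0 < r
  · have hP0 : 0 < P := lt_of_lt_of_le (by norm_num) hP.big
    have hP1 : 1 ≤ P := le_trans (by norm_num) hP.big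
    have hα := onec_al_pos hP hl
    have hmin : 0 < min (al m (n + 1) lam) 1 := lt_min hα one_pos
    have m1 : Measurable fun t : ℝ => Master_wt n b lam (r, Function.update a k t) *
        wl n P lam b k (r, Function.update a k t) :=
      ((Master_wt_meas n b lam).mul (measurable_wl n P lam b k)).comp (onec_meas r k a)
    have m2 : Measurable fun t : ℝ => Master_wt n b lam (r, Function.update a k t) *
        wr lam b k (r, Function.update a k t) :=
      ((Master_wt_meas n b lam).mul (measurable_wr lam b k)).comp (onec_meas r k a)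
    rw [onec_gauss m1, onec_gauss m2]
    refine onec_avg (W := win (al m (n + 1) lam / P ^ 4) (b k) r) measurableSet_Icc
      (fun s hs' => onec_left hP hb hl hlog hr k a hs')
      (fun s hs' => onec_right hb (by positivity) hr k a hs') ?_ ?_
      (ENNReal.mul_ne_top ENNReal.ofReal_ne_top ENNReal.ofReal_ne_top) ENNReal.ofReal_ne_top
    · exact (mul_le_mul' le_rfl (win_len hP1 hα (hb k).1 (hb k).2 hr)).trans_eq
        (mul_assoc _ _ _).symm
    · exact mul_ne_zero (ENNReal.ofReal_pos.2 (by positivity)).ne'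
        (ENNReal.ofReal_pos.2 (by positivity)).ne'
  · have e : ∀ t : ℝ, Master_wt n b lam (r, Function.update a k t) *
        wl n P lam b k (r, Function.update a k t) = 0 := fun t => by
      rw [wl, Set.indicator_of_notMem (s := {z | EP n P lam b z}) (fun h => hr h.adm.1), mul_zero]
    simp only [e, lintegral_zero]
    exact zero_le

lemma onec_row (hP : Par m (n + 1) P) (hb : Box b) (hl : 0 < lam)
    (hlog : Real.log (al m (n + 1) lam) ≤ P) (r : ℝ) (k : Fin m) :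
    ∫⁻ a, Master_wt n b lam (r, a) * wl n P lam b k (r, a) * pik n b (r, a) k ∂(gv (Fin m)) ≤
      ∫⁻ a, ENNReal.ofReal (P ^ 5450) *
        (Master_wt n b lam (r, a) * wr lam b k (r, a) * pik n b (r, a) k) ∂(gv (Fin m)) := by
  have hr : Measurable fun a : Fin m → ℝ => ((r, a) : ℝ × (Fin m → ℝ)) := measurable_prodMk_left
  have m1 : Measurable fun a : Fin m → ℝ =>
      Master_wt n b lam (r, a) * wl n P lam b k (r, a) * pik n b (r, a) k :=
    (((Master_wt_meas n b lam).mul (measurable_wl n P lam b k)).mul (measurable_pik n b k)).comp hr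
  have m2 : Measurable fun a : Fin m → ℝ => ENNReal.ofReal (P ^ 5450) *
      (Master_wt n b lam (r, a) * wr lam b k (r, a) * pik n b (r, a) k) :=
    ((((Master_wt_meas n b lam).mul (measurable_wr lam b k)).mul
      (measurable_pik n b k)).comp hr).const_mul _
  have h := stein0_lift (mp_update_gv k) m1 m2 (R := fun _ => 0) measurable_const fun a => ?_
  · simpa only [lintegral_zero, add_zero] using h
  · have n1 : Measurable fun t : ℝ => Master_wt n b lam (r, Function.update a k t) *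
        wl n P lam b k (r, Function.update a k t) :=
      ((Master_wt_meas n b lam).mul (measurable_wl n P lam b k)).comp (onec_meas r k a)
    have n2 : Measurable fun t : ℝ => Master_wt n b lam (r, Function.update a k t) *
        wr lam b k (r, Function.update a k t) :=
      ((Master_wt_meas n b lam).mul (measurable_wr lam b k)).comp (onec_meas r k a)
    simp only [pik_update, lintegral_zero, add_zero]
    rw [lintegral_const_mul' _ _ ENNReal.ofReal_ne_top, lintegral_mul_const _ n1,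
      lintegral_mul_const _ n2, ← mul_assoc]
    exact mul_le_mul' (one_coord hP hb hl hlog r k a) le_rfl

theorem one_int (hP : Par m (n + 1) P) (hb : Box b) (hl : 0 < lam)
    (hlog : Real.log (al m (n + 1) lam) ≤ P) (r : ℝ) :
    ∫⁻ a, Master_wt n b lam (r, a) * ∑ k, wl n P lam b k (r, a) * pik n b (r, a) k ∂(gv (Fin m)) ≤
      ∫⁻ a, Master_wt n b lam (r, a) *
        (ENNReal.ofReal (P ^ 5450) * ∑ k, wr lam b k (r, a) * pik n b (r, a) k) ∂(gv (Fin m)) := by
  have hr : Measurable fun a : Fin m → ℝ => ((r, a) : ℝ × (Fin m → ℝ)) := measurable_prodMk_left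
  have m1 : ∀ k, Measurable fun a : Fin m → ℝ =>
      Master_wt n b lam (r, a) * wl n P lam b k (r, a) * pik n b (r, a) k := fun k =>
    (((Master_wt_meas n b lam).mul (measurable_wl n P lam b k)).mul (measurable_pik n b k)).comp hr
  have m2 : ∀ k, Measurable fun a : Fin m → ℝ => ENNReal.ofReal (P ^ 5450) *
      (Master_wt n b lam (r, a) * wr lam b k (r, a) * pik n b (r, a) k) := fun k =>
    ((((Master_wt_meas n b lam).mul (measurable_wr lam b k)).mul
      (measurable_pik n b k)).comp hr).const_mul _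
  calc _ = ∫⁻ a, ∑ k, Master_wt n b lam (r, a) * wl n P lam b k (r, a) * pik n b (r, a) k
        ∂(gv (Fin m)) := by
        refine lintegral_congr fun a => ?_
        rw [Finset.mul_sum]
        exact Finset.sum_congr rfl fun k _ => (mul_assoc _ _ _).symm
    _ = ∑ k, ∫⁻ a, Master_wt n b lam (r, a) * wl n P lam b k (r, a) * pik n b (r, a) k
        ∂(gv (Fin m)) := lintegral_finsetSum _ fun k _ => m1 k
    _ ≤ ∑ k, ∫⁻ a, ENNReal.ofReal (P ^ 5450) *
        (Master_wt n b lam (r, a) * wr lam b k (r, a) * pik n b (r, a) k) ∂(gv (Fin m)) :=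
        Finset.sum_le_sum fun k _ => onec_row hP hb hl hlog r k
    _ = ∫⁻ a, ∑ k, ENNReal.ofReal (P ^ 5450) *
        (Master_wt n b lam (r, a) * wr lam b k (r, a) * pik n b (r, a) k) ∂(gv (Fin m)) :=
        (lintegral_finsetSum _ fun k _ => m2 k).symm
    _ = _ := by
        refine lintegral_congr fun a => ?_
        rw [Finset.mul_sum, Finset.mul_sum]
        exact Finset.sum_congr rfl fun k _ => by ring

end Pool.Agent.Work.MP_6af739_lc.HO
end

-- merged part: Pool.Agent.Work.MP_6af739_lc.HO.RadA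
section
/-!
Two probabilistic estimates for sets of rows. choose_le: Nat.choose_le_pow_div and Real.pow_div_factorial_le_exp at x = j.
small_ball: S = sum over k in J of vecMulVec (A k) (A k) is PSD, S = spec U l (exists_spec_nonneg or the eigenvalues); the number of
i with l i ≠ 0 is the rank, at most card J (Matrix.IsHermitian.rank_eq_card_non_zero_eigs, rank_mul_le, or linear independence of columns of U
inside the span). For l i = 0 column i of U is orthogonal to the rows in J, so the sum over these i of (Uᵀ c)_i^2 is ≤ nrm (c - Aᵀ w)^2 < ρ^2.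
mp_orth, Markov for exp (-θ sum), product of one-dimensional integrals (integral_exp_sq with b = -θ).
sub_opn: mp_comp with Subtype.val, opn_tail, nrm_mulVec_le.
-/

namespace Pool.Agent.Work.MP_6af739_lc.HO

open Matrix Finset MeasureTheory ProbabilityTheory
open Pool.Agent.Work.MP_6a50bc_pr
open Pool.Agent.Work.MP_5c5849_an (sg av)
open scoped ENNReal Polynomial

variable {m n : ℕ}

theorem choose_le (m : ℕ) {j : ℕ} (hj : 0 < j) :
    (m.choose j : ℝ) ≤ (Real.exp 1 * m / j) ^ j := by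
  have h0 : (0 : ℝ) < j := by exact_mod_cast hj
  have h := Real.pow_div_factorial_le_exp (j : ℝ) h0.le j
  refine (Nat.choose_le_pow_div j m).trans ?_
  rw [div_pow, mul_pow, Real.exp_one_pow, le_div_iff₀ (by positivity), div_mul_eq_mul_div,
    mul_div_assoc, mul_comm]
  exact mul_le_mul_of_nonneg_right h (by positivity)

lemma rada_ball {κ : Type*} [Fintype κ] {ρ θ : ℝ} (hθ : 0 ≤ θ) :
    gv κ {y | nrm y < ρ} ≤
      ENNReal.ofReal (Real.exp (θ * ρ ^ 2) * (√(1 + 2 * θ))⁻¹ ^ Fintype.card κ) := by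
  have hb : -θ < 1 / 2 := by linarith
  have h := measure_ge_le (μ := gv κ) (f := fun y => ∏ i, Real.exp (-θ * y i ^ 2))
    (Integrable.fintype_prod (f := fun _ z => Real.exp (-θ * z ^ 2)) fun _ => integrable_exp_sq hb)
    (fun y => prod_nonneg fun _ _ => (Real.exp_pos _).le) (Real.exp_pos (-(θ * ρ ^ 2)))
  refine (measure_mono fun y hy => ?_).trans (h.trans_eq ?_)
  · have h1 : nrm y ^ 2 ≤ ρ ^ 2 := pow_le_pow_left₀ (nrm_nonneg y) (le_of_lt hy) 2
    rw [nrm_sq] at h1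
    rw [Set.mem_ofPred_eq, ← Real.exp_sum, ← mul_sum, Real.exp_le_exp, neg_mul, neg_le_neg_iff]
    exact mul_le_mul_of_nonneg_left (by simpa only [dotProduct, sq] using h1) hθ
  · rw [gv, integral_fintype_prod_eq_pow (fun z => Real.exp (-θ * z ^ 2)), integral_exp_sq hb,
      Real.exp_neg, div_inv_eq_mul, mul_comm, one_div, Real.sqrt_inv, mul_neg, sub_neg_eq_add]

theorem small_ball (A : Matrix (Fin m) (Fin n) ℝ) (J : Finset (Fin m)) {ρ θ : ℝ} (hθ : 0 ≤ θ) :
    gv (Fin n) {c | ∃ w : Fin m → ℝ, (∀ k ∉ J, w k = 0) ∧ nrm (c - Aᵀ *ᵥ w) < ρ} ≤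
      ENNReal.ofReal (Real.exp (θ * ρ ^ 2) * (√(1 + 2 * θ))⁻¹ ^ (n - J.card)) := by
  have hS := gram_isHermitian (1 : J → ℝ) fun k => A k
  have hU := orth_eigenvectorUnitary hS
  have hr := hS.rank_eq_card_non_zero_eigs
  have he := eq_spec_eigenvalues hS
  generalize (hS.eigenvectorUnitary : Matrix (Fin n) (Fin n) ℝ) = U at hU he
  generalize hS.eigenvalues = l at hr he
  have hc : n - J.card ≤ Fintype.card {i // l i = 0} := by
    have h1 : Fintype.card {i // ¬ l i = 0} ≤ J.card := by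
      refine hr.symm.trans_le ?_
      rw [gram_one, ← Fintype.card_coe]
      exact (rank_mul_le_left _ _).trans (rank_le_card_width _)
    have h2 := Fintype.card_subtype_compl fun i => l i = 0
    have h3 := Fintype.card_subtype_le fun i => l i = 0
    rw [Fintype.card_fin] at h2 h3
    omega
  let V : Matrix {i // l i = 0} (Fin n) ℝ := Matrix.of fun i => Uᵀ i
  have hV : V * Vᵀ = 1 := by
    ext i j
    rw [one_apply]
    exact (hU.col_dot i j).trans (by simp only [Subtype.val_inj])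
  have hz : ∀ (i : {i // l i = 0}), ∀ k ∈ J, A k ⬝ᵥ Uᵀ i = 0 := fun i k hk => by
    have h1 := qf_spec_col hU l i
    rw [← he, qf_gram, i.2, sum_eq_zero_iff_of_nonneg fun _ _ => by simp [sq_nonneg]] at h1
    simpa using h1 ⟨k, hk⟩ (mem_univ _)
  refine (measure_mono (t := (fun c => V *ᵥ c) ⁻¹' {y | nrm y < ρ}) ?_).trans
    (((mp_mulVec hV).measure_preimage (measurableSet_lt (by fun_prop : Continuous _).measurable
      measurable_const).nullMeasurableSet).trans_le ((rada_ball hθ).trans ?_))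
  · rintro c ⟨w, h1, h2⟩
    have h3 : V *ᵥ Aᵀ *ᵥ w = 0 := by
      funext i
      show Uᵀ i ⬝ᵥ Aᵀ *ᵥ w = 0
      rw [dotProduct_mulVec, vecMul_transpose]
      refine sum_eq_zero fun k _ => ?_
      by_cases hk : k ∈ J
      · exact mul_eq_zero_of_left (hz i k hk) _
      · exact mul_eq_zero_of_right _ (h1 k hk)
    have h4 := Orth.nrm_transpose_mulVec_le (U := Vᵀ) hV (c - Aᵀ *ᵥ w)
    rw [transpose_transpose, mulVec_sub, h3, sub_zero] at h4
    exact h4.trans_lt h2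
  · refine ENNReal.ofReal_le_ofReal (mul_le_mul_of_nonneg_left ?_ (Real.exp_pos _).le)
    exact pow_le_pow_of_le_one (by positivity)
      (inv_le_one_of_one_le₀ (Real.one_le_sqrt.2 (by linarith))) hc

theorem sub_opn (J : Finset (Fin m)) {t : ℝ} (ht : 0 ≤ t) :
    gm (Fin m) (Fin n) {a | ∃ z : Fin n → ℝ, (√(J.card) + √n + 4 + t) ^ 2 * (z ⬝ᵥ z) <
        ∑ k ∈ J, (a k ⬝ᵥ z) ^ 2} ≤ ENNReal.ofReal (2 * Real.exp (-t ^ 2 / 8)) := by
  have h := opn_tail (ι := J) (κ := Fin n) ht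
  rw [Fintype.card_coe, Fintype.card_fin, ← (mp_comp (κ := Fin n)
    (Subtype.val_injective (p := (· ∈ J)))).measure_preimage (measurableSet_le measurable_const
      (by fun_prop : Continuous _).measurable).nullMeasurableSet] at h
  refine (measure_mono ?_).trans h
  rintro a ⟨z, hz⟩
  by_contra hc
  have h1 := nrm_mulVec_le (Matrix.of fun k : J => a k) z
  have h2 := pow_le_pow_left₀ (nrm_nonneg _)
    (h1.trans (mul_le_mul_of_nonneg_right (not_le.1 hc).le (nrm_nonneg z))) 2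
  rw [mul_pow, nrm_sq, nrm_sq] at h2
  refine absurd hz (not_lt.2 (le_of_eq_of_le ?_ h2))
  rw [← sum_coe_sort]
  exact sum_congr rfl fun k _ => sq _

end Pool.Agent.Work.MP_6af739_lc.HO
end

-- merged part: Pool.Agent.Work.MP_6af739_lc.HO.Rad
section
/-!
Lower bound on the radius (R of the write-up). j0 = n / 4 (natural division), n/5 ≤ j0 ≤ n/4, choose m j0 ≤ (5 e P)^(n/4).
The event is contained in the union of: not Good (not_good_le); for J in powersetCard j0 univ the event of sub_opn with t^2 = 8 n log P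
(bound 12 n log P on the square, log P ≥ 46); for such J the event of small_ball with ρ = √n/P, θ = P^2/2 (an open set of pairs, hence
measurable; Measure.prod_apply). rad_det is the deterministic part: x = X solves Aᵀ om = lam c; J0 = rows with om ≥ 1. If card J0 ≤ j0 extend it
(Finset.exists_superset_card_eq), w = lam⁻¹ om on J0, |om| ≤ 1 off J0, Good.opT gives distance ≤ 8 m/lam = 8 √n/α < √n/P. Otherwise take
J ⊆ J0 with j0 elements (exists_subset_card_eq); om ≥ 1 gives (A x)_k ≥ 1/2, so j0/4 ≤ 12 n log P |x|^2.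
Each of the three probabilities is ≤ 1/(3 m) (n ≥ P^10, m ≤ exp (P/24)).
-/

namespace Pool.Agent.Work.MP_6af739_lc.HO

open Matrix Finset MeasureTheory ProbabilityTheory
open Pool.Agent.Work.MP_6a50bc_pr
open Pool.Agent.Work.MP_5c5849_an (sg av)
open scoped ENNReal Polynomial

variable {m n : ℕ} {b : Fin m → ℝ} {lam P : ℝ}

theorem rad_det (hP : Par m n P) (hb : Box b) (hl : 0 < lam) (hα : P ^ 2 ≤ al m n lam)
    {A : Matrix (Fin m) (Fin n) ℝ} {c : Fin n → ℝ} (hG : Good A (45 / 100))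
    (h1 : ∀ J : Finset (Fin m), J.card = n / 4 → ∀ z : Fin n → ℝ,
      ∑ k ∈ J, (A k ⬝ᵥ z) ^ 2 ≤ 12 * n * Real.log P * (z ⬝ᵥ z))
    (h2 : ∀ J : Finset (Fin m), J.card = n / 4 → ∀ w : Fin m → ℝ, (∀ k ∉ J, w k = 0) →
      √n / P ≤ nrm (c - Aᵀ *ᵥ w)) :
    1 ≤ 400 * Real.log P * nrm (X A b (lam • c)) ^ 2 := by
  classical
  have hP1 : (100 : ℝ) ≤ P := le_trans (by norm_num) hP.big
  have hP0 : 0 < P := by linarith
  have hm0 : 0 < m := hP.m_pos
  have hm : (0 : ℝ) < m := by exact_mod_cast hm0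
  have hn : (100 : ℝ) ≤ n := by
    have : P ^ 1 ≤ P ^ 10 := pow_le_pow_right₀ (by linarith) (by norm_num)
    linarith [hP.pow]
  have hn' : 100 ≤ n := by exact_mod_cast hn
  have hS : 0 < √(n : ℝ) := Real.sqrt_pos.2 (by linarith)
  obtain ⟨hx, he⟩ := X_sol ((hG.mono (by norm_num)).dom hm0 hb (lam • c))
  generalize X A b (lam • c) = x at hx he ⊢
  by_cases hc : (univ.filter fun k => 1 ≤ om A b x k).card ≤ n / 4
  · exfalso
    obtain ⟨J, hJ, hJc⟩ := exists_superset_card_eq hc (by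
      have := hP.mn
      rw [Fintype.card_fin]
      omega)
    have h3 := h2 J hJc (fun k => if 1 ≤ om A b x k then lam⁻¹ * om A b x k else 0) fun k hk =>
      if_neg fun h => hk (hJ (mem_filter.2 ⟨mem_univ k, h⟩))
    have e : c - Aᵀ *ᵥ (fun k => if 1 ≤ om A b x k then lam⁻¹ * om A b x k else 0) =
        Aᵀ *ᵥ fun k => if 1 ≤ om A b x k then 0 else lam⁻¹ * om A b x k := by
      have e1 : c = Aᵀ *ᵥ (lam⁻¹ • om A b x) := by
        rw [mulVec_smul, he, smul_smul, inv_mul_cancel₀ hl.ne', one_smul]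
      rw [e1, ← mulVec_sub]
      congr 1
      funext k
      by_cases h : 1 ≤ om A b x k <;> simp [h]
    have h4 : nrm (fun k => if 1 ≤ om A b x k then 0 else lam⁻¹ * om A b x k) ≤ √m * lam⁻¹ := by
      refine abs_le_of_sq_le_sq' ?_ (by positivity) |>.2
      rw [nrm_sq, mul_pow, Real.sq_sqrt hm.le]
      refine (sum_le_card_nsmul _ _ (lam⁻¹ ^ 2) fun k _ => ?_).trans (by simp)
      by_cases h : 1 ≤ om A b x k
      · simp only [h, if_true, mul_zero]
        positivity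
      · simp only [h, if_false]
        have a1 : -1 ≤ om A b x k := by
          have a2 : (b k)⁻¹ ≤ 1 := inv_le_one_of_one_le₀ (hb k).1
          have a3 : 0 < (slack A b x k)⁻¹ := inv_pos.2 (hx k)
          unfold om
          linarith
        have a2 : om A b x k ^ 2 ≤ 1 := by nlinarith [not_le.1 h]
        nlinarith [mul_le_mul_of_nonneg_left a2 (sq_nonneg lam⁻¹)]
    rw [e] at h3
    have h5 := h3.trans ((hG.opT _).trans (mul_le_mul_of_nonneg_left h4 (by positivity)))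
    have h6 : 8 * √(m : ℝ) * (√m * lam⁻¹) = 8 * m / lam := by
      rw [mul_assoc, ← mul_assoc √(m : ℝ), Real.mul_self_sqrt hm.le]
      ring
    rw [h6, div_le_div_iff₀ hP0 hl] at h5
    rw [al, le_div_iff₀ hm] at hα
    nlinarith [mul_pos hP0 hm]
  · obtain ⟨J, hJ, hJc⟩ := exists_subset_card_eq (not_le.1 hc).le
    have h3 := h1 J hJc x
    have h4 : J.card • (1 / 4 : ℝ) ≤ ∑ k ∈ J, (A k ⬝ᵥ x) ^ 2 := by
      refine card_nsmul_le_sum _ _ _ fun k hk => ?_
      have a1 : 1 ≤ (slack A b x k)⁻¹ - (b k)⁻¹ := (mem_filter.1 (hJ hk)).2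
      have a2 := hx k
      have a3 := (hb k).1
      have e : slack A b x k = b k - A k ⬝ᵥ x := rfl
      rw [e] at a1 a2
      generalize A k ⬝ᵥ x = u at a1 a2
      have e2 : (b k - u)⁻¹ - (b k)⁻¹ = u / ((b k - u) * b k) := by
        have := a2.ne'
        field_simp
        ring
      rw [e2, le_div_iff₀ (by positivity)] at a1
      have a4 : (b k - u) * 1 ≤ (b k - u) * b k := mul_le_mul_of_nonneg_left a3 a2.le
      have a5 : 1 / 2 ≤ u := by linarith
      nlinarith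
    have h5 : (n : ℝ) ≤ 5 * (n / 4 : ℕ) := by exact_mod_cast (by omega : n ≤ 5 * (n / 4))
    rw [hJc, nsmul_eq_mul] at h4
    rw [← nrm_sq] at h3
    have hl0 : 0 ≤ Real.log P * nrm x ^ 2 :=
      mul_nonneg (Real.log_nonneg (by linarith)) (sq_nonneg _)
    have h6 : (n : ℝ) * 1 ≤ n * (240 * (Real.log P * nrm x ^ 2)) := by linarith
    have h7 := le_of_mul_le_mul_left h6 (by linarith)
    linarith

lemma rad_sq (hP : Par m n P) :
    (√((n / 4 : ℕ) : ℝ) + √n + 4 + √n * √(8 * Real.log P)) ^ 2 ≤ 12 * n * Real.log P := by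
  have hP1 : (10 : ℝ) ^ 6 ≤ P := le_trans (by norm_num) hP.big
  have hP0 : 0 < P := lt_of_lt_of_le (by norm_num) hP1
  have hn : (100 : ℝ) ≤ n := by
    have : P ^ 1 ≤ P ^ 10 := pow_le_pow_right₀ (by linarith) (by norm_num)
    linarith [hP.pow]
  have hl : 11 ≤ Real.log P := by
    rw [Real.le_log_iff_exp_le hP0]
    have e : Real.exp 11 = Real.exp 1 ^ 11 := by
      rw [Real.exp_one_pow]
      norm_num
    have e1 : Real.exp 1 ≤ 3 := Real.exp_one_lt_d9.le.trans (by norm_num)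
    have e2 := pow_le_pow_left₀ (Real.exp_pos 1).le e1 11
    rw [e]
    linarith
  have h1 : √((n / 4 : ℕ) : ℝ) ≤ √n / 2 := by
    refine Real.sqrt_le_iff.2 ⟨by positivity, ?_⟩
    rw [div_pow, Real.sq_sqrt (by linarith)]
    have : (4 : ℝ) * (n / 4 : ℕ) ≤ n := by exact_mod_cast (by omega : 4 * (n / 4) ≤ n)
    linarith
  have h2 : 8 ≤ √(n : ℝ) := Real.le_sqrt_of_sq_le (by linarith)
  have h3 : 9 ≤ √(8 * Real.log P) := Real.le_sqrt_of_sq_le (by linarith)
  have h4 : √(8 * Real.log P) ^ 2 = 8 * Real.log P := Real.sq_sqrt (by linarith)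
  have h5 : √(n : ℝ) ^ 2 = n := Real.sq_sqrt (by linarith)
  have h6 : √((n / 4 : ℕ) : ℝ) + √n + 4 + √n * √(8 * Real.log P) ≤
      √n * (2 + √(8 * Real.log P)) := by linarith
  refine (pow_le_pow_left₀ (by positivity) h6 2).trans ?_
  rw [mul_pow, h5]
  have h7 : (2 + √(8 * Real.log P)) ^ 2 ≤ 12 * Real.log P := by nlinarith
  nlinarith

lemma rad_pair (J : Finset (Fin m)) {ρ θ : ℝ} (hθ : 0 ≤ θ) :
    ((gm (Fin m) (Fin n)).prod (gv (Fin n)))
        {q | ∃ w : Fin m → ℝ, (∀ k ∉ J, w k = 0) ∧ nrm (q.2 - (Matrix.of q.1)ᵀ *ᵥ w) < ρ} ≤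
      ENNReal.ofReal (Real.exp (θ * ρ ^ 2) * (√(1 + 2 * θ))⁻¹ ^ (n - J.card)) := by
  have ho : IsOpen {q : (Fin m → Fin n → ℝ) × (Fin n → ℝ) |
      ∃ w : Fin m → ℝ, (∀ k ∉ J, w k = 0) ∧ nrm (q.2 - (Matrix.of q.1)ᵀ *ᵥ w) < ρ} := by
    rw [Set.ofPred_exists]
    refine isOpen_iUnion fun w => ?_
    have hc : Continuous fun q : (Fin m → Fin n → ℝ) × (Fin n → ℝ) =>
        nrm (q.2 - (Matrix.of q.1)ᵀ *ᵥ w) := by
      simp only [nrm, dotProduct, mulVec, Pi.sub_apply, transpose_apply, Matrix.of_apply]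
      fun_prop
    exact IsOpen.inter (s := {_q | ∀ k ∉ J, w k = 0}) isOpen_const
      (isOpen_lt hc (continuous_const (y := ρ)))
  rw [Measure.prod_apply ho.measurableSet]
  refine (lintegral_mono fun a => small_ball (Matrix.of a) J hθ).trans ?_
  rw [lintegral_const, measure_univ, mul_one]

theorem rad_le (hP : Par m n P) (hb : Box b) (hl : 0 < lam) (hα : P ^ 2 ≤ al m n lam) :
    ((gm (Fin m) (Fin n)).prod (gv (Fin n)))
        {q | 400 * Real.log P * nrm (X (Matrix.of q.1) b (lam • q.2)) ^ 2 < 1} ≤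
      ENNReal.ofReal (1 / m) := by
  classical
  have hP1 : (100 : ℝ) ≤ P := le_trans (by norm_num) hP.big
  have hP0 : 0 < P := by linarith
  have hm0 : 0 < m := hP.m_pos
  have hm : (1 : ℝ) ≤ m := by exact_mod_cast hm0
  have hn : 10 * P ≤ n := by
    have : P ^ 2 ≤ P ^ 10 := pow_le_pow_right₀ (by linarith) (by norm_num)
    nlinarith [hP.pow]
  have hn' : 100 ≤ n := by exact_mod_cast (by linarith : (100 : ℝ) ≤ n)
  have hmn : (10 : ℝ) ^ 6 * n ≤ m := by exact_mod_cast hP.mn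
  have hsq := rad_sq hP
  obtain ⟨j, hj⟩ : ∃ j, j = n / 4 := ⟨_, rfl⟩
  have j0 : 0 < j := by omega
  have j1 : (n : ℝ) ≤ 5 * j := by exact_mod_cast (by omega : n ≤ 5 * j)
  have j2 : (j : ℝ) ≤ n := by exact_mod_cast (by omega : j ≤ n)
  have j3 : (0 : ℝ) < j := by exact_mod_cast j0
  have e1 : Real.exp 1 ≤ 3 := Real.exp_one_lt_d9.le.trans (by norm_num)
  have hC : (m.choose j : ℝ) ≤ (15 * P) ^ j := by
    refine (choose_le m j0).trans (pow_le_pow_left₀ (by positivity) ?_ j)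
    rw [div_le_iff₀ j3]
    have a1 := mul_le_mul_of_nonneg_left j1 hP0.le
    have a2 := mul_le_mul_of_nonneg_right e1 (by linarith : (0 : ℝ) ≤ m)
    linarith [hP.rat]
  have hi : P⁻¹ ≤ 1 := inv_le_one_of_one_le₀ (by linarith)
  have hB : (15 * P) ^ j * (27 ^ j * P⁻¹ ^ (3 * j)) ≤ Real.exp (-j) := by
    have e : Real.exp (-j) = (Real.exp 1)⁻¹ ^ j := by
      rw [inv_pow, Real.exp_one_pow, Real.exp_neg]
    rw [e, pow_mul, ← mul_pow, ← mul_pow]
    refine pow_le_pow_left₀ (by positivity) ?_ j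
    have e2 : 15 * P * (27 * P⁻¹ ^ 3) = 405 / P ^ 2 := by
      field_simp
      norm_num
    rw [e2, inv_eq_one_div, div_le_div_iff₀ (by positivity) (Real.exp_pos 1)]
    nlinarith
  set μ := (gm (Fin m) (Fin n)).prod (gv (Fin n)) with hμ
  set E1 : Set ((Fin m → Fin n → ℝ) × (Fin n → ℝ)) :=
    Prod.fst ⁻¹' {a | ¬Good (Matrix.of a) (45 / 100)} with hE1
  set E2 : Finset (Fin m) → Set ((Fin m → Fin n → ℝ) × (Fin n → ℝ)) := fun J =>
    Prod.fst ⁻¹' {a | ∃ z : Fin n → ℝ, (√(J.card) + √n + 4 + √n * √(8 * Real.log P)) ^ 2 *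
      (z ⬝ᵥ z) < ∑ k ∈ J, (a k ⬝ᵥ z) ^ 2} with hE2
  set E3 : Finset (Fin m) → Set ((Fin m → Fin n → ℝ) × (Fin n → ℝ)) := fun J =>
    {q | ∃ w : Fin m → ℝ, (∀ k ∉ J, w k = 0) ∧ nrm (q.2 - (Matrix.of q.1)ᵀ *ᵥ w) < √n / P}
    with hE3
  have hsub : {q : (Fin m → Fin n → ℝ) × (Fin n → ℝ) |
      400 * Real.log P * nrm (X (Matrix.of q.1) b (lam • q.2)) ^ 2 < 1} ⊆
      E1 ∪ ⋃ J ∈ powersetCard j (univ : Finset (Fin m)), (E2 J ∪ E3 J) := by
    intro q hq
    by_contra hcon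
    simp only [Set.mem_union, Set.mem_iUnion, not_or, not_exists, hE1, hE2, hE3,
      Set.mem_preimage, Set.mem_ofPred_eq, not_not, not_lt, not_and, mem_powersetCard_univ] at hcon
    refine absurd hq (not_lt.2 (rad_det hP hb hl hα hcon.1 (fun J hJ z => ?_) fun J hJ w hw =>
      (hcon.2 J (hJ.trans hj.symm)).2 w hw))
    refine ((hcon.2 J (hJ.trans hj.symm)).1 z).trans ?_
    rw [hJ]
    exact mul_le_mul_of_nonneg_right hsq (dot_self_nonneg z)
  have b1 : μ E1 ≤ ENNReal.ofReal (Real.exp (-j)) :=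
    (measurePreserving_fst.measure_preimage_le _).trans ((not_good_le (by omega) hP.mn).trans
      (ENNReal.ofReal_le_ofReal (Real.exp_le_exp.2 (by linarith))))
  have hT : (0 : ℝ) ≤ 27 ^ j * P⁻¹ ^ (3 * j) := by positivity
  have b2 : ∀ J, μ (E2 J) ≤ ENNReal.ofReal (2 * (27 ^ j * P⁻¹ ^ (3 * j))) := fun J => by
    refine (measurePreserving_fst.measure_preimage_le _).trans
      ((sub_opn J (by positivity)).trans (ENNReal.ofReal_le_ofReal ?_))
    have e : -(√n * √(8 * Real.log P)) ^ 2 / 8 = n * (-Real.log P) := by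
      rw [mul_pow, Real.sq_sqrt (by positivity),
        Real.sq_sqrt (by linarith [Real.log_nonneg (by linarith : 1 ≤ P)])]
      ring
    rw [e, Real.exp_nat_mul, Real.exp_neg, Real.exp_log hP0]
    refine mul_le_mul_of_nonneg_left ?_ (by norm_num)
    exact (pow_le_pow_of_le_one (by positivity) hi (by omega)).trans
      (le_mul_of_one_le_left (by positivity) (one_le_pow₀ (by norm_num)))
  have b3 : ∀ J : Finset (Fin m), J.card = j →
      μ (E3 J) ≤ ENNReal.ofReal (27 ^ j * P⁻¹ ^ (3 * j)) := fun J hJ => by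
    refine (rad_pair J (θ := P ^ 2 / 2) (by positivity)).trans (ENNReal.ofReal_le_ofReal ?_)
    have e : P ^ 2 / 2 * (√n / P) ^ 2 = n / 2 := by
      rw [div_pow, Real.sq_sqrt (by positivity)]
      field_simp
    have a1 : Real.exp (n / 2) ≤ 27 ^ j := by
      have a2 : Real.exp (n / 2) ≤ Real.exp 1 ^ (3 * j) := by
        rw [Real.exp_one_pow]
        refine Real.exp_le_exp.2 ?_
        push_cast
        linarith
      refine a2.trans ((pow_le_pow_left₀ (Real.exp_pos 1).le e1 _).trans_eq ?_)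
      rw [pow_mul]
      norm_num
    have a2 : (√(1 + 2 * (P ^ 2 / 2)))⁻¹ ≤ P⁻¹ :=
      inv_anti₀ hP0 (Real.le_sqrt_of_sq_le (by linarith))
    rw [e, hJ]
    exact mul_le_mul a1 ((pow_le_pow_left₀ (by positivity) a2 _).trans
      (pow_le_pow_of_le_one (by positivity) hi (by omega))) (by positivity) (by positivity)
  have b4 : μ (⋃ J ∈ powersetCard j (univ : Finset (Fin m)), (E2 J ∪ E3 J)) ≤
      ENNReal.ofReal (3 * Real.exp (-j)) := by
    refine (measure_biUnion_finset_le _ _).trans ((sum_le_card_nsmul _ _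
      (ENNReal.ofReal (3 * (27 ^ j * P⁻¹ ^ (3 * j)))) fun J hJ => ?_).trans ?_)
    · refine (measure_union_le _ _).trans
        ((add_le_add (b2 J) (b3 J (mem_powersetCard_univ.1 hJ))).trans_eq ?_)
      rw [← ENNReal.ofReal_add (by positivity) hT]
      congr 1
      ring
    · rw [card_powersetCard, card_univ, Fintype.card_fin, nsmul_eq_mul, ← ENNReal.ofReal_natCast,
        ← ENNReal.ofReal_mul (by positivity)]
      refine ENNReal.ofReal_le_ofReal ?_
      nlinarith [mul_le_mul_of_nonneg_right hC hT]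
  refine (measure_mono hsub).trans ((measure_union_le _ _).trans ((add_le_add b1 b4).trans ?_))
  rw [← ENNReal.ofReal_add (by positivity) (by positivity)]
  refine ENNReal.ofReal_le_ofReal ?_
  have c1 : (m : ℝ) ≤ Real.exp P :=
    (le_self_pow₀ hm (by norm_num)).trans hP.log
  have c2 : 4 * Real.exp P ≤ Real.exp j := by
    have a1 : 3 + 1 ≤ Real.exp 3 := Real.add_one_le_exp 3
    have a2 : Real.exp 3 * Real.exp P ≤ Real.exp j := by
      rw [← Real.exp_add]
      exact Real.exp_le_exp.2 (by linarith)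
    nlinarith [Real.exp_pos P]
  have c3 : Real.exp (-j) * Real.exp j = 1 := by
    rw [← Real.exp_add, neg_add_cancel, Real.exp_zero]
  rw [le_div_iff₀ (by linarith)]
  nlinarith [Real.exp_pos (-(j : ℝ))]

end Pool.Agent.Work.MP_6af739_lc.HO
end

-- merged part: Pool.Agent.Work.MP_6af739_lc.HO.PerLam
section
/-!
The mean growth rate at a fixed parameter; model: per_lam in Final.lean. ep_of_gg: hat_mulVec, hat_slack, gg_sinv, gg_h1, hpsi_apply with
gg_w, gg_E_lo, h0_dot_h1, GG.hi with dot_le and nrm_hx, gg_hsig, gg_r_lo. With ν from master2 and F = 1_Good ofReal Ph (Ph_rot, measurable_Ph):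
for admissible z, F ≤ crude 1_(not GG) + crude 1_RB + 1_EP(z.1) ofReal Ph, crude = 4800 p √m (Ph_crude), RB = (P^2 ≤ α and 400 log P r^2 < 1).
II_notGG; II of 1_RB ≤ 1/m by PL1_le and rad_le (zero if α < P^2). Last term: sign_int2, II_one, OneP with one_int, low_int almost everywhere
(MasterP.1), II_one again. log α ≤ P since α ≤ lam √(n+1).
-/

namespace Pool.Agent.Work.MP_6af739_lc.HO

open Matrix Finset MeasureTheory ProbabilityTheory
open Pool.Agent.Work.MP_6a50bc_pr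
open Pool.Agent.Work.MP_5c5849_an (sg av)
open scoped ENNReal Polynomial

variable {m n : ℕ} {b : Fin m → ℝ} {lam P : ℝ}

theorem ep_of_gg (hP : Par m (n + 1) P) (hb : Box b) (hl : 0 < lam) {z : ℝ × (Fin m → ℝ)}
    (hz : Adm b z) {G : Matrix (Fin m) (Fin n) ℝ}
    (h : GG P lam b (Matrix.of (hA b lam z G)) (hx n z))
    (hr : P ^ 2 ≤ al m (n + 1) lam → 1 ≤ 400 * Real.log P * z.1 ^ 2) : EP n P lam b z := by
  have hP1 := ggf_one hP
  have ha := hP.al_pos hl
  have hm : (0 : ℝ) < m := by exact_mod_cast hP.m_pos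
  have hb0 : ∀ j, 0 < b j := fun j => lt_of_lt_of_le one_pos (hb j).1
  have hE := gg_E_lo hP hb hl h
  rw [← h0_dot_h1 hb0 hz] at hE
  refine ⟨hz, fun k => ?_, fun k => ?_, gg_h1 hP hb hl hz h, fun k => ?_, hE, ?_,
    gg_hsig hP hb hl hz h, ?_, hr⟩
  · have e := h.u k
    rwa [hat_mulVec] at e
  · have e := gg_sinv hP hb hl h k
    rwa [hat_slack] at e
  · have hE0 : 0 ≤ h0 b z ⬝ᵥ h1 b z := le_trans (by positivity) hE
    have ht0 := hth_pos (b := b) (p := z) hl
    have hσ0 : 0 ≤ (hsig b lam z)⁻¹ := inv_nonneg.2 (zero_le_one.trans one_le_hsig)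
    have e0 : 0 ≤ (hsig b lam z)⁻¹ + hth b lam z * (h0 b z ⬝ᵥ h1 b z) / (hs b z k * b k) :=
      add_nonneg hσ0 (div_nonneg (mul_nonneg ht0.le hE0) (mul_pos (hz.2 k) (hb0 k)).le)
    rw [hpsi_apply hb0 hz, abs_mul, abs_of_nonneg e0]
    exact mul_le_mul_of_nonneg_right (gg_w hP hb hl hz h k) (abs_nonneg _)
  · rw [h0_dot_h1 (G := G) (lam := lam) hb0 hz]
    refine (dot_le _ _).trans ?_
    rw [nrm_hx hz.1.le]
    exact mul_le_mul_of_nonneg_right h.hi hz.1.le
  · have e := gg_r_lo hP hb hl h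
    rwa [nrm_hx hz.1.le] at e

theorem perlam_rb {ν : Measure (ℝ × (Fin m → ℝ))} (hν : MasterP n b lam ν)
    (hP : Par m (n + 1) P) (hb : Box b) (hl : 0 < lam)
    (hR : MeasurableSet {q : (Fin m → Fin (n + 1) → ℝ) × (Fin (n + 1) → ℝ) |
      P ^ 2 ≤ al m (n + 1) lam ∧ 400 * Real.log P * nrm q.2 ^ 2 < 1}) :
    II b lam ν (fun z => {q : (Fin m → Fin (n + 1) → ℝ) × (Fin (n + 1) → ℝ) |
      P ^ 2 ≤ al m (n + 1) lam ∧ 400 * Real.log P * nrm q.2 ^ 2 < 1}.indicator 1
        (hA b lam z.1 (Matrix.of z.2), hx n z.1)) ≤ ENNReal.ofReal (1 / m) := by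
  classical
  refine (PL1_le hν (measurable_one.indicator hR) fun O hO a x => ?_).trans ?_
  · have e : nrm (Oᵀ *ᵥ x) = nrm x := hO.transpose.nrm_mulVec x
    simp only [Set.indicator_apply, Set.mem_ofPred_eq, e, Pi.one_apply]
  · by_cases hα : P ^ 2 ≤ al m (n + 1) lam
    · refine le_trans (le_trans (le_of_eq ?_) (lintegral_indicator_one_le _)) (rad_le hP hb hl hα)
      refine lintegral_congr fun q => ?_
      simp only [Set.indicator_apply, Set.mem_ofPred_eq, hα, true_and, Pi.one_apply]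
    · simp only [Set.indicator_apply, Set.mem_ofPred_eq, hα, false_and, if_false, lintegral_zero,
        zero_le]

theorem perlam_main {p : ℕ} {ν : Measure (ℝ × (Fin m → ℝ))} (hν : MasterP n b lam ν)
    (hO : OneP n b lam ν) (hP : Par m (n + 1) P) (hp : (p : ℝ) ≤ P) (hb : Box b) (hl : 0 < lam)
    (hlog : Real.log (al m (n + 1) lam) ≤ P) :
    II b lam ν (fun z => {w | EP n P lam b w}.indicator (fun w =>
      ENNReal.ofReal (Ph p (Matrix.of (hA b lam w (Matrix.of z.2))) b (hx n w))) z.1) ≤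
      ENNReal.ofReal (P ^ 86) + ENNReal.ofReal (P ^ 119) * (ENNReal.ofReal (P ^ 5450) * 2) := by
  have hb0 : ∀ j, 0 < b j := fun j => zero_lt_one.trans_le (hb j).1
  obtain ⟨D, hD⟩ : ∃ D : ℝ × (Fin m → ℝ) → ℝ≥0∞, D = fun w =>
      ∫⁻ a, ENNReal.ofReal (hdet b lam w (Matrix.of a)) ∂(gm (Fin m) (Fin n)) := ⟨_, rfl⟩
  have hDm : Measurable D := by
    rw [hD]
    exact (measurable_hdet b lam (n := n) measurable_fst
      measurable_snd).ennreal_ofReal.lintegral_prod_right'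
  have hD1 : ∫⁻ w, D w ∂ν ≤ 1 := by
    refine le_trans (le_of_eq ?_) (II_one hν)
    simp only [II, one_mul, hD]
  have s1 : II b lam ν (fun z => {w | EP n P lam b w}.indicator (fun w =>
      ENNReal.ofReal (Ph p (Matrix.of (hA b lam w (Matrix.of z.2))) b (hx n w))) z.1) ≤
      ∫⁻ w, (ENNReal.ofReal (P ^ 86) * D w +
        ENNReal.ofReal (P ^ 119) * ∑ k, wl n P lam b k w * pik n b w k) ∂ν := by
    refine lintegral_mono fun w => ?_
    by_cases h : EP n P lam b w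
    · simp only [Set.indicator_of_mem (s := {w | EP n P lam b w}) h, hD]
      exact sign_int2 hP hp hb hl h
    · simp only [Set.indicator_of_notMem (s := {w | EP n P lam b w}) h, zero_mul, lintegral_zero,
        zero_le]
  have s2 : ∫⁻ w, ∑ k, wl n P lam b k w * pik n b w k ∂ν ≤
      ∫⁻ w, ENNReal.ofReal (P ^ 5450) * ∑ k, wr lam b k w * pik n b w k ∂ν :=
    hO _ _ (Finset.measurable_fun_sum _ fun k _ =>
        (measurable_wl n P lam b k).mul (measurable_pik n b k))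
      ((Finset.measurable_fun_sum _ fun k _ =>
        (measurable_wr lam b k).mul (measurable_pik n b k)).const_mul _)
      (one_int hP hb hl hlog)
  have s3 : ∫⁻ w, ∑ k, wr lam b k w * pik n b w k ∂ν ≤ 2 := by
    refine (lintegral_mono_ae (g := fun w => 2 * D w) (hν.1.mono fun w hw => ?_)).trans ?_
    · rw [hD]
      exact low_int hb0 hl hw
    · rw [lintegral_const_mul _ hDm]
      exact mul_le_of_le_one_right' hD1
  rw [lintegral_const_mul' _ _ ENNReal.ofReal_ne_top] at s2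
  rw [lintegral_add_left (hDm.const_mul _), lintegral_const_mul _ hDm,
    lintegral_const_mul' _ _ ENNReal.ofReal_ne_top] at s1
  exact s1.trans (add_le_add (mul_le_of_le_one_right' hD1)
    (mul_le_mul_right (s2.trans (mul_le_mul_right s3 _)) _))

theorem per_lam2 {p : ℕ} (hP : Par m (n + 1) P) (hp : (p : ℝ) ≤ P) (hb : Box b) (hl : 0 < lam)
    (hlog : Real.log (3 + 3600 * (lam * √(n + 1 : ℕ))) ≤ P) :
    ∫⁻ q, {q : (Fin m → Fin (n + 1) → ℝ) × (Fin (n + 1) → ℝ) |
        Good (Matrix.of q.1) (45 / 100)}.indicator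
          (fun q => ENNReal.ofReal (Ph p (Matrix.of q.1) b (X (Matrix.of q.1) b (lam • q.2)))) q
        ∂((gm (Fin m) (Fin (n + 1))).prod (gv (Fin (n + 1)))) ≤
      ENNReal.ofReal (P ^ 6000) := by
  have hb0 : ∀ j, 0 < b j := fun j => zero_lt_one.trans_le (hb j).1
  obtain ⟨ν, hν, hO⟩ := master2 (n := n) hb0 hl
  have hP1 : 1 ≤ P := ggf_one hP
  have hm : 0 < m := hP.m_pos
  have hm1 : (1 : ℝ) ≤ m := by exact_mod_cast hm
  have hal := hP.al_pos hl
  have hbig := hP.big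
  have hlog' : Real.log (al m (n + 1) lam) ≤ P := by
    refine le_trans (Real.log_le_log hal ?_) hlog
    have h0 : 0 ≤ lam * √(n + 1 : ℕ) := by positivity
    have h1 : al m (n + 1) lam ≤ lam * √(n + 1 : ℕ) := div_le_self h0 hm1
    linarith only [h0, h1]
  obtain ⟨F, hF⟩ : ∃ F : (Fin m → Fin (n + 1) → ℝ) × (Fin (n + 1) → ℝ) → ℝ≥0∞, F =
      {q : (Fin m → Fin (n + 1) → ℝ) × (Fin (n + 1) → ℝ) | Good (Matrix.of q.1) (45 / 100)}.indicator
        fun q => ENNReal.ofReal (Ph p (Matrix.of q.1) b q.2) := ⟨_, rfl⟩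
  have hF1 : ∀ q, Good (Matrix.of q.1) (45 / 100) →
      F q = ENNReal.ofReal (Ph p (Matrix.of q.1) b q.2) := fun q hq => by
    rw [hF]
    exact Set.indicator_of_mem (s := {q : (Fin m → Fin (n + 1) → ℝ) × (Fin (n + 1) → ℝ) |
      Good (Matrix.of q.1) (45 / 100)}) hq _
  have hF2 : ∀ q, ¬ Good (Matrix.of q.1) (45 / 100) → F q = 0 := fun q hq => by
    rw [hF]
    exact Set.indicator_of_notMem (s := {q : (Fin m → Fin (n + 1) → ℝ) × (Fin (n + 1) → ℝ) |
      Good (Matrix.of q.1) (45 / 100)}) hq _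
  have hFm : Measurable F := by
    rw [hF]
    exact (measurable_Ph p b measurable_fst measurable_snd).ennreal_ofReal.indicator
      (measurableSet_good measurable_fst _)
  have hFi : Invar F := fun O hO a x => by
    by_cases hq : Good (Matrix.of a) (45 / 100)
    · rw [hF1 (a, x) hq, hF1 (rot O a, Oᵀ *ᵥ x) ((good_rot hO _).2 hq)]
      exact congrArg ENNReal.ofReal (Ph_rot hO p x)
    · rw [hF2 (a, x) hq, hF2 (rot O a, Oᵀ *ᵥ x) fun h => hq ((good_rot hO _).1 h)]
  refine le_trans (lintegral_mono fun q => ?_) ((hν.2 F hFm hFi).trans_le ?_)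
  · by_cases hq : Good (Matrix.of q.1) (45 / 100)
    · rw [Set.indicator_of_mem (s := {q : (Fin m → Fin (n + 1) → ℝ) × (Fin (n + 1) → ℝ) |
        Good (Matrix.of q.1) (45 / 100)}) hq,
        Set.indicator_of_mem (s := {q : (Fin m → Fin (n + 1) → ℝ) × (Fin (n + 1) → ℝ) |
        Dom (Matrix.of q.1) b (lam • q.2)}) ((hq.mono (by norm_num)).dom hm hb _),
        hF1 (q.1, X (Matrix.of q.1) b (lam • q.2)) hq]
    · rw [Set.indicator_of_notMem (s := {q : (Fin m → Fin (n + 1) → ℝ) × (Fin (n + 1) → ℝ) |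
        Good (Matrix.of q.1) (45 / 100)}) hq]
      exact zero_le
  have hN : Measurable ((GGs n P lam b)ᶜ.indicator
      (1 : (ℝ × (Fin m → ℝ)) × (Fin m → Fin n → ℝ) → ℝ≥0∞)) :=
    measurable_one.indicator (measurableSet_GGs n P lam b).compl
  have hR : MeasurableSet {q : (Fin m → Fin (n + 1) → ℝ) × (Fin (n + 1) → ℝ) |
      P ^ 2 ≤ al m (n + 1) lam ∧ 400 * Real.log P * nrm q.2 ^ 2 < 1} := by
    have c : Measurable fun q : (Fin m → Fin (n + 1) → ℝ) × (Fin (n + 1) → ℝ) => nrm q.2 :=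
      (continuous_nrm continuous_snd).measurable
    exact (MeasurableSet.const _).inter
      (measurableSet_lt ((c.pow_const 2).const_mul _) measurable_const)
  have hR' : Measurable fun z : (ℝ × (Fin m → ℝ)) × (Fin m → Fin n → ℝ) =>
      {q : (Fin m → Fin (n + 1) → ℝ) × (Fin (n + 1) → ℝ) |
        P ^ 2 ≤ al m (n + 1) lam ∧ 400 * Real.log P * nrm q.2 ^ 2 < 1}.indicator
          (1 : (Fin m → Fin (n + 1) → ℝ) × (Fin (n + 1) → ℝ) → ℝ≥0∞)
          (hA b lam z.1 (Matrix.of z.2), hx n z.1) :=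
    (measurable_one.indicator hR).comp ((measurable_hA b lam measurable_fst measurable_snd).prodMk
      (measurable_hx measurable_fst))
  have s1 : II b lam ν (fun z => F (hA b lam z.1 (Matrix.of z.2), hx n z.1)) ≤
      II b lam ν fun z => ENNReal.ofReal (4800 * p * √m) * (GGs n P lam b)ᶜ.indicator 1 z +
        (ENNReal.ofReal (4800 * p * √m) *
          {q : (Fin m → Fin (n + 1) → ℝ) × (Fin (n + 1) → ℝ) |
            P ^ 2 ≤ al m (n + 1) lam ∧ 400 * Real.log P * nrm q.2 ^ 2 < 1}.indicator 1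
            (hA b lam z.1 (Matrix.of z.2), hx n z.1) +
        {w | EP n P lam b w}.indicator (fun w =>
          ENNReal.ofReal (Ph p (Matrix.of (hA b lam w (Matrix.of z.2))) b (hx n w))) z.1) := by
    refine II_mono hν fun z hz => ?_
    by_cases hq : Good (Matrix.of (hA b lam z.1 (Matrix.of z.2))) (45 / 100)
    · rw [hF1 (hA b lam z.1 (Matrix.of z.2), hx n z.1) hq]
      have hc := ENNReal.ofReal_le_ofReal (Ph_crude hm (hq.mono (by norm_num)) hb (hat_inter hz) p)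
      by_cases hg : z ∈ GGs n P lam b
      · refine le_add_left ?_
        by_cases hr : P ^ 2 ≤ al m (n + 1) lam ∧ 400 * Real.log P * nrm (hx n z.1) ^ 2 < 1
        · refine le_add_right ?_
          rw [Set.indicator_of_mem (s := {q : (Fin m → Fin (n + 1) → ℝ) × (Fin (n + 1) → ℝ) |
            P ^ 2 ≤ al m (n + 1) lam ∧ 400 * Real.log P * nrm q.2 ^ 2 < 1}) hr, Pi.one_apply, mul_one]
          exact hc
        · rw [nrm_hx hz.1.le] at hr
          rw [Set.indicator_of_mem (s := {w | EP n P lam b w})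
            (ep_of_gg hP hb hl hz hg fun h => not_lt.1 fun h' => hr ⟨h, h'⟩)]
          exact le_add_self
      · refine le_add_right ?_
        rw [Set.indicator_of_mem (Set.mem_compl hg), Pi.one_apply, mul_one]
        exact hc
    · rw [hF2 (hA b lam z.1 (Matrix.of z.2), hx n z.1) hq]
      exact zero_le
  rw [II_add (hN.const_mul _), II_add (hR'.const_mul _), II_const_mul, II_const_mul] at s1
  have hsq : √(m : ℝ) ≤ m := Real.sqrt_le_self_iff.2 (Or.inr hm1)
  have hsm : √(m : ℝ) * (1 / m) ≤ 1 := by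
    rw [mul_one_div, div_le_one (by positivity)]
    exact hsq
  have hP0 : 0 < P := one_pos.trans_le hP1
  have hc : 4800 * (p : ℝ) * √m * (1 / m) ≤ P ^ 5999 := by
    rw [mul_assoc]
    refine (mul_le_of_le_one_right (by positivity) hsm).trans ?_
    refine le_trans ?_ (pow_le_pow_right₀ hP1 (show 2 ≤ 5999 by norm_num))
    rw [sq]
    exact mul_le_mul (le_trans (by norm_num) hbig) hp (Nat.cast_nonneg _) hP0.le
  have h3 : ENNReal.ofReal (P ^ 119) * (ENNReal.ofReal (P ^ 5450) * 2) ≤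
      ENNReal.ofReal (P ^ 5999) := by
    refine PerLam_mul (y := P ^ 5451) (pow_pos hP0 _).le (PerLam_mul (y := P) (pow_pos hP0 _).le
      ?_ (pow_succ P 5450).ge) ?_
    · rw [← ENNReal.ofReal_ofNat]
      exact ENNReal.ofReal_le_ofReal (le_trans (by norm_num) hbig)
    · rw [← pow_add]
      exact pow_le_pow_right₀ hP1 (by norm_num)
  have h4 := PerLam_six (K := P ^ 5999) (pow_pos hP0 _).le (le_trans (by norm_num) hbig)
    (PerLam_mul (t := 4800 * p * √m) (by positivity) (II_notGG hν hP hb hl) hc)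
    (PerLam_mul (t := 4800 * p * √m) (by positivity) (perlam_rb hν hP hb hl hR) hc)
    (ENNReal.ofReal_le_ofReal (pow_le_pow_right₀ hP1 (show 86 ≤ 5999 by norm_num))) h3
    (x5 := 0) (x6 := 0) zero_le zero_le
  rw [add_zero, add_zero, ← pow_succ'] at h4
  exact s1.trans ((add_le_add le_rfl (add_le_add le_rfl
    (perlam_main hν hO hP hp hb hl hlog'))).trans h4)

end Pool.Agent.Work.MP_6af739_lc.HO
end

-- merged part: Pool.Agent.Work.MP_6af739_lc.HO.JInt
section
/-!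
Mean of the path integral: copy the part JInt of Final.lean (jiF, jiQ, jiQ_lam, ji_main, lintegral_JJ_le, JJ_le), with Ph in place of
n4 (qv ..), per_lam2, Ph_rot, measurable_Ph, Ph_crude; ji_avg, ji_shell, ji_len, ji_meas_exp are reused as they are.
-/

namespace Pool.Agent.Work.MP_6af739_lc.HO

open Matrix Finset MeasureTheory ProbabilityTheory
open Pool.Agent.Work.MP_6a50bc_pr
open Pool.Agent.Work.MP_5c5849_an (sg av)
open scoped ENNReal Polynomial

variable {m n p : ℕ} {b : Fin m → ℝ} {P : ℝ}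

lemma jint_meas (p : ℕ) (b : Fin m → ℝ) :
    Measurable fun q : (Fin m → Fin n → ℝ) × (Fin n → ℝ) =>
      Ph p (Matrix.of q.1) b (X (Matrix.of q.1) b q.2) :=
  measurable_Ph p b measurable_fst (measurable_X b)

theorem jint_measurable_JP (p : ℕ) (b : Fin m → ℝ) (c : Fin n → ℝ) :
    Measurable fun a : Fin m → Fin n → ℝ => JP p (Matrix.of a) b c := by
  have h : Measurable fun z : (Fin m → Fin n → ℝ) × ℝ => ENNReal.ofReal
      (1 + Ph p (Matrix.of z.1) b (X (Matrix.of z.1) b (Real.exp z.2 • c))) :=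
    (measurable_const.add ((jint_meas p b).comp (measurable_fst.prodMk
      ((ji_meas_exp c).comp measurable_snd)))).ennreal_ofReal
  exact h.lintegral_prod_right'

theorem JP_le (hm : 0 < m) {A : Matrix (Fin m) (Fin n) ℝ} (h : Good A (44 / 100)) (hb : Box b)
    (c : Fin n → ℝ) (hP : 10 ^ 20 ≤ P) (hp : (p : ℝ) ≤ P) (hlog : 24 * Real.log m ≤ P) :
    JP p A b c ≤ ENNReal.ofReal (P ^ 3 * √m) := by
  have h1 : (1 : ℝ) ≤ √m := Real.one_le_sqrt.2 (by exact_mod_cast hm)
  have h2 := ji_len hP hlog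
  have hP1 : 1 ≤ P := le_trans (by norm_num) hP
  have h6 : 1 ≤ P * √(m : ℝ) := one_le_mul_of_one_le_of_one_le hP1 h1
  have h7 : (p : ℝ) * √(m : ℝ) ≤ P * √(m : ℝ) := by gcongr
  have h3 : JP p A b c ≤ ∫⁻ _ in Set.Ioc (Real.log (1 / 10 ^ 8)) (20 * Real.log m),
      ENNReal.ofReal (4801 * (P * √m)) := by
    refine lintegral_mono fun t => ENNReal.ofReal_le_ofReal ?_
    have := Ph_crude hm h hb (X_sol (h.dom hm hb (Real.exp t • c))).1 p
    linarith only [h6, h7, this]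
  refine h3.trans ?_
  rw [setLIntegral_const, Real.volume_Ioc, ← ENNReal.ofReal_mul (by positivity)]
  refine ENNReal.ofReal_le_ofReal ?_
  calc 4801 * (P * √(m : ℝ)) * (20 * Real.log m - Real.log (1 / 10 ^ 8))
      ≤ 4801 * (P * √m) * P := mul_le_mul_of_nonneg_left (by linarith only [h2]) (by positivity)
    _ ≤ P * (P * √m) * P := by gcongr; linarith only [hP]
    _ = P ^ 3 * √m := by ring

/-- The integrand as a function of the matrix and of the cost. -/
noncomputable def jint_F (p : ℕ) (b : Fin m → ℝ) (q : (Fin m → Fin n → ℝ) × (Fin n → ℝ)) : ℝ≥0∞ :=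
  {q : (Fin m → Fin n → ℝ) × (Fin n → ℝ) | Good (Matrix.of q.1) (45 / 100)}.indicator
    (fun q => ENNReal.ofReal (Ph p (Matrix.of q.1) b (X (Matrix.of q.1) b q.2))) q

lemma jint_F_meas (p : ℕ) (b : Fin m → ℝ) : Measurable (jint_F (n := n) p b) :=
  (jint_meas p b).ennreal_ofReal.indicator (measurableSet_good measurable_fst _)

lemma jint_F_of {a : Fin m → Fin n → ℝ} (h : Good (Matrix.of a) (45 / 100)) (y : Fin n → ℝ) :
    jint_F p b (a, y) = ENNReal.ofReal (Ph p (Matrix.of a) b (X (Matrix.of a) b y)) :=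
  Set.indicator_of_mem (s := {q : (Fin m → Fin n → ℝ) × (Fin n → ℝ) |
    Good (Matrix.of q.1) (45 / 100)}) (a := (a, y)) h _

lemma jint_F_not {a : Fin m → Fin n → ℝ} (h : ¬Good (Matrix.of a) (45 / 100)) (y : Fin n → ℝ) :
    jint_F p b (a, y) = 0 :=
  Set.indicator_of_notMem (s := {q : (Fin m → Fin n → ℝ) × (Fin n → ℝ) |
    Good (Matrix.of q.1) (45 / 100)}) (a := (a, y)) h _

lemma jint_F_invar (p : ℕ) (b : Fin m → ℝ) : Invar (jint_F (n := n) p b) := by
  intro O hO a y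
  by_cases h : Good (Matrix.of a) (45 / 100)
  · have h' : Good (Matrix.of (rot O a)) (45 / 100) := by
      rw [of_rot]
      exact (good_rot hO _).2 h
    rw [jint_F_of h, jint_F_of h', of_rot, X_rot hO, Ph_rot hO]
  · have h' : ¬Good (Matrix.of (rot O a)) (45 / 100) := by
      rw [of_rot]
      exact mt (good_rot hO _).1 h
    rw [jint_F_not h, jint_F_not h']

/-- The integrand averaged over the matrix. -/
noncomputable def jint_Q (p : ℕ) (b : Fin m → ℝ) (y : Fin n → ℝ) : ℝ≥0∞ :=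
  ∫⁻ a, jint_F p b (a, y) ∂(gm (Fin m) (Fin n))

lemma jint_Q_meas (p : ℕ) (b : Fin m → ℝ) : Measurable (jint_Q (n := n) p b) :=
  (jint_F_meas p b).lintegral_prod_left'

lemma jint_Q_rot (p : ℕ) (b : Fin m → ℝ) {x y : Fin n → ℝ} (h : nrm x = nrm y) :
    jint_Q p b x = jint_Q p b y :=
  lintegral_rot (jint_F_invar p b) ((jint_F_meas p b).comp measurable_prodMk_right) h

lemma jint_Q_lam (hP : Par m (n + 1) P) (hp : (p : ℝ) ≤ P) (hb : Box b)
    {s : ℝ} (hs : s ≤ 20 * Real.log m - Real.log (√(n + 1 : ℕ) / 2)) :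
    ∫⁻ y, jint_Q p b (Real.exp s • y) ∂(gv (Fin (n + 1))) ≤ ENNReal.ofReal (P ^ 6000) := by
  have hm : (100 : ℝ) ≤ m := by exact_mod_cast hP.le_m
  have hq := ggf_sq hP
  have h1 : Real.exp s * √(n + 1 : ℕ) ≤ 2 * (m : ℝ) ^ 20 := by
    have e := Real.exp_le_exp.2 hs
    rw [Real.exp_sub, Real.exp_log (by positivity), show (20 : ℝ) = (20 : ℕ) by norm_num,
      Real.exp_nat_mul, Real.exp_log (by linarith only [hm]), le_div_iff₀ (by positivity)] at e
    linarith only [e]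
  have h2 : 3 + 7200 * (m : ℝ) ^ 20 ≤ (m : ℝ) ^ 24 := by
    have b1 : (100 : ℝ) ^ 4 ≤ (m : ℝ) ^ 4 := pow_le_pow_left₀ (by norm_num) hm 4
    have b2 : (1 : ℝ) ≤ (m : ℝ) ^ 20 := one_le_pow₀ (by linarith only [hm])
    have b3 : (100 : ℝ) ^ 4 * (m : ℝ) ^ 20 ≤ (m : ℝ) ^ 4 * (m : ℝ) ^ 20 := by gcongr
    rw [show (m : ℝ) ^ 24 = (m : ℝ) ^ 4 * (m : ℝ) ^ 20 by ring]
    linarith only [b2, b3]
  have h3 : Real.log (3 + 3600 * (Real.exp s * √(n + 1 : ℕ))) ≤ P := by
    rw [Real.log_le_iff_le_exp (by positivity)]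
    linarith only [h1, h2, hP, hP.log]
  refine le_trans (le_of_eq ?_) (per_lam2 hP hp hb (Real.exp_pos s) h3)
  have hme : Measurable fun q : (Fin m → Fin (n + 1) → ℝ) × (Fin (n + 1) → ℝ) =>
      jint_F p b (q.1, Real.exp s • q.2) :=
    (jint_F_meas p b).comp (measurable_fst.prodMk (measurable_snd.const_smul (Real.exp s)))
  refine (lintegral_prod_symm _ hme.aemeasurable).symm.trans (lintegral_congr fun q => ?_)
  by_cases h : Good (Matrix.of q.1) (45 / 100)
  · rw [jint_F_of h, Set.indicator_of_mem (by exact h)]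
  · rw [jint_F_not h, Set.indicator_of_notMem (by exact h)]

lemma jint_main (hP : Par m (n + 1) P) (hp : (p : ℝ) ≤ P) (hb : Box b) {c : Fin (n + 1) → ℝ}
    (hc : nrm c = 1) (hlog : 24 * Real.log m ≤ P) :
    ∫⁻ t in Set.Ioc (Real.log (1 / 10 ^ 8)) (20 * Real.log m), jint_Q p b (Real.exp t • c) ≤
      ENNReal.ofReal (P ^ 6000 * P * 2) := by
  have hq := ggf_sq hP
  have hP0 : 0 < P := lt_of_lt_of_le one_pos (ggf_one hP)
  have hG : Measurable fun z : ℝ × (Fin (n + 1) → ℝ) => jint_Q p b (Real.exp z.1 • z.2) :=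
    (jint_Q_meas p b).comp (measurable_fst.exp.smul measurable_snd)
  have hT : MeasurableSet {y : Fin (n + 1) → ℝ | √(n + 1 : ℕ) / 2 ≤ nrm y ∧
      nrm y ≤ 2 * √(n + 1 : ℕ)} :=
    ms_and (measurableSet_le measurable_const (MV.of measurable_id).nrm)
      (measurableSet_le (MV.of measurable_id).nrm measurable_const)
  have h := ji_avg (ν := gv (Fin (n + 1))) (Q := fun t => jint_Q p b (Real.exp t • c)) hG hT
    (t0 := Real.log (1 / 10 ^ 8)) (t1 := 20 * Real.log m) (r0 := Real.log (√(n + 1 : ℕ) / 2))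
    (r1 := Real.log (2 * √(n + 1 : ℕ))) (K := ENNReal.ofReal (P ^ 6000)) ?_
    fun s hs => jint_Q_lam hP hp hb hs
  · have h1 := (mul_le_mul_right (ji_shell hP) _).trans h
    have h2 : Real.log (2 * √(n + 1 : ℕ)) - Real.log (√(n + 1 : ℕ) / 2) ≤ 3 := by
      rw [← Real.log_div (by positivity) (by positivity),
        show 2 * √(n + 1 : ℕ) / (√(n + 1 : ℕ) / 2) = (4 : ℝ) by field_simp; norm_num]
      linarith only [Real.log_le_sub_one_of_pos (show (0 : ℝ) < 4 by norm_num)]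
    have h3 := ji_len hP.big hlog
    have h5 := h1.trans
      (mul_le_mul_right (ENNReal.ofReal_le_ofReal (by linarith only [h2, h3] : _ ≤ P)) _)
    rwa [mul_one_div, ENNReal.div_le_iff two_ne_zero ENNReal.ofNat_ne_top,
      ← ENNReal.ofReal_mul (by positivity), ← ENNReal.ofReal_ofNat 2,
      ← ENNReal.ofReal_mul (by positivity)] at h5
  · intro y hy
    have hy0 : 0 < nrm y := lt_of_lt_of_le (by positivity) hy.1
    refine ⟨Real.log (nrm y), Real.log_le_log (by positivity) hy.1, Real.log_le_log hy0 hy.2,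
      fun s => jint_Q_rot p b ?_⟩
    rw [nrm_smul, nrm_smul, hc, mul_one, Real.exp_add, Real.exp_log hy0,
      abs_of_pos (Real.exp_pos s), abs_of_pos (mul_pos (Real.exp_pos s) hy0)]

lemma jint_num {P W : ℝ} (hP : 3 ≤ P) (hW : 1 ≤ W) : P + W * P * 2 ≤ W * P ^ 2 := by
  have h1 : P ≤ W * P := le_mul_of_one_le_left (by linarith) hW
  have h2 : W * P * 3 ≤ W * P * P := mul_le_mul_of_nonneg_left hP (by linarith)
  calc P + W * P * 2 ≤ W * P * P := by linarith
    _ = W * P ^ 2 := by ring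

theorem lintegral_JP_le (hP : Par m (n + 1) P) (hp : (p : ℝ) ≤ P) (hb : Box b)
    {c : Fin (n + 1) → ℝ} (hc : nrm c = 1) :
    ∫⁻ a, {a | Good (Matrix.of a) (45 / 100)}.indicator (fun a => JP p (Matrix.of a) b c) a
        ∂(gm (Fin m) (Fin (n + 1))) ≤ ENNReal.ofReal (P ^ 6002) := by
  have hm : (100 : ℝ) ≤ m := by exact_mod_cast hP.le_m
  have h0 := hP.big
  have hP0 : 0 < P := lt_of_lt_of_le one_pos (ggf_one hP)
  have hlog : 24 * Real.log m ≤ P := by
    have := Real.log_le_log (by positivity) hP.log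
    rwa [Real.log_pow, Real.log_exp, Nat.cast_ofNat] at this
  have hme : Measurable fun z : (Fin m → Fin (n + 1) → ℝ) × ℝ =>
      jint_F p b (z.1, Real.exp z.2 • c) :=
    (jint_F_meas p b).comp (measurable_fst.prodMk ((ji_meas_exp c).comp measurable_snd))
  have h1 : ∀ a : Fin m → Fin (n + 1) → ℝ,
      {a | Good (Matrix.of a) (45 / 100)}.indicator (fun a => JP p (Matrix.of a) b c) a ≤
        ENNReal.ofReal P + ∫⁻ t in Set.Ioc (Real.log (1 / 10 ^ 8)) (20 * Real.log m),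
          jint_F p b (a, Real.exp t • c) := by
    intro a
    by_cases h : Good (Matrix.of a) (45 / 100)
    · rw [Set.indicator_of_mem (by exact h)]
      have e : JP p (Matrix.of a) b c =
          ∫⁻ t in Set.Ioc (Real.log (1 / 10 ^ 8)) (20 * Real.log m),
            (1 + jint_F p b (a, Real.exp t • c)) := by
        refine lintegral_congr fun t => ?_
        rw [jint_F_of h, ENNReal.ofReal_add zero_le_one (Ph_nonneg _ _ _ _), ENNReal.ofReal_one]
      rw [e, lintegral_add_left measurable_const, setLIntegral_const, Real.volume_Ioc, one_mul]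
      exact add_le_add_left (ENNReal.ofReal_le_ofReal (by linarith only [ji_len h0 hlog])) _
    · rw [Set.indicator_of_notMem (by exact h)]
      exact zero_le
  refine (lintegral_mono h1).trans ?_
  rw [lintegral_add_left measurable_const, lintegral_const, measure_univ, mul_one,
    lintegral_lintegral_swap (f := fun a t => jint_F p b (a, Real.exp t • c)) hme.aemeasurable]
  refine (add_le_add_right (jint_main hP hp hb hc hlog) _).trans ?_
  rw [← ENNReal.ofReal_add hP0.le (by positivity), show 6002 = 6000 + 2 from rfl, pow_add]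
  exact ENNReal.ofReal_le_ofReal
    (jint_num (by linarith only [h0]) (one_le_pow₀ (ggf_one hP)))

end Pool.Agent.Work.MP_6af739_lc.HO
end

-- merged part: Pool.Agent.Work.MP_6af739_lc.HO.Step
section
/-!
Lower bound on the step length (section 1c of the write-up). Suppose a μ ρ < 1e-4, a = step, ρ = 1 + Ph y. Then a < 1
and Fits fails at β = 2 a (not_fits_double). Write l = (1 + t) lam, 0 ≤ t ≤ a. Starred objects: state (l, y), where
sc y (dir (l, y)) = qv y (qv_eq), Near 0 l y (w = 0). τ0 : ℝ[X] = C (1+t)⁻¹ * (X - C t), τ = τ0.map (algebraMap ℝ _),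
wn norm β J τ ≤ β + t ≤ 3 a =: θ, ρ θ μ ≤ 3e-4. wn_comp with wn_pe, wn_pf, wn_pr (le_Phi_pow): 6e-4, 6e-4, 1.2e-3.
kappa_close: a0 = -t/(1+t), |a0| ≤ θ, ev_le gives sup norm of ev a0 pe ≤ 6e-4 and nrm (ev a0 pr) ≤ 1.2e-3; slack_point,
near_point give Near (2 * 0 + 1.2e-3) lam at x' = point (l, y) a0; close for x and for x' against X A b (lam • c).
κ = s*/s. E = C κ * (1 + e*.comp τ) - 1 = C (κ - 1) + C κ * e*.comp τ, F likewise with κ⁻¹; (1+E)(1+F) = 1 + r*.comp τ.
range_E: every coefficient of E - e is sc x applied to a vector (tay_eq; κ * (sc y z) = sc x z; κ - 1 = sc x (x - y);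
coefficients of τ^i are constants). perp_F: (sc x)ᵀ kills every coefficient of F - f + C w (tr_tg at both states,
(sc x)ᵀ (κ⁻¹ * v) = (sc y)ᵀ v, (sc x)ᵀ (κ⁻¹ - 1) = l c - lam c - (sc x)ᵀ w). Then stab, ev_le, slack_point, fits_iff.
-/

namespace Pool.Agent.Work.MP_6af739_lc.HO

open Matrix Finset MeasureTheory ProbabilityTheory
open Pool.Agent.Work.MP_6a50bc_pr
open Pool.Agent.Work.MP_5c5849_an (sg av)
open scoped ENNReal Polynomial

variable {m n p : ℕ} {A : Matrix (Fin m) (Fin n) ℝ} {b : Fin m → ℝ} {c : Fin n → ℝ}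

lemma Step_coeff_dot {U : (Fin m → ℝ)[X]} {v : Fin m → ℝ} (h : ∀ a, ev a U ⬝ᵥ v = 0) (j : ℕ) :
    U.coeff j ⬝ᵥ v = 0 := by
  have h0 : (∑ k, Polynomial.C (v k) * U.map (Pi.evalRingHom (fun _ => ℝ) k) : ℝ[X]) = 0 := by
    apply Polynomial.funext
    intro a
    have := h a
    rw [dotProduct] at this
    rw [Polynomial.eval_finsetSum, Polynomial.eval_zero, ← this]
    refine sum_congr rfl fun k _ => ?_
    rw [Polynomial.eval_mul, Polynomial.eval_C, Polynomial.eval_map, mul_comm]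
    exact congrArg (· * v k)
      (Polynomial.eval₂_at_apply (Pi.evalRingHom (fun _ => ℝ) k) (p := U) fun _ => a)
  have h1 := congrArg (fun W : ℝ[X] => W.coeff j) h0
  simp only [Polynomial.finsetSum_coeff, Polynomial.coeff_C_mul, Polynomial.coeff_map,
    Polynomial.coeff_zero, Pi.evalRingHom_apply] at h1
  rw [dotProduct, ← h1]
  exact sum_congr rfl fun k _ => mul_comm _ _

lemma Step_orth {U V : (Fin m → ℝ)[X]} (h : ∀ a a', ev a U ⬝ᵥ ev a' V = 0) (j : ℕ) :
    U.coeff j ⬝ᵥ V.coeff j = 0 := by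
  rw [dotProduct_comm]
  refine Step_coeff_dot (fun a' => ?_) j
  rw [dotProduct_comm]
  exact Step_coeff_dot (fun a => h a a') j

/-- The change of variable. -/
noncomputable def Step_tau (m : ℕ) (t : ℝ) : (Fin m → ℝ)[X] :=
  Polynomial.C (fun _ => -t / (1 + t)) + Polynomial.monomial 1 fun _ => 1 / (1 + t)

lemma Step_tau_deg (t : ℝ) : (Step_tau m t).natDegree ≤ 1 :=
  (Polynomial.natDegree_add_le _ _).trans
    (max_le (by rw [Polynomial.natDegree_C]; exact zero_le_one) (Polynomial.natDegree_monomial_le _))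

lemma Step_ev_comp (t a : ℝ) (U : (Fin m → ℝ)[X]) :
    ev a (U.comp (Step_tau m t)) = ev ((a - t) / (1 + t)) U := by
  rw [ev, ev, Polynomial.eval_comp]
  refine congrArg (fun z => U.eval z) ?_
  funext k
  simp only [Step_tau, Polynomial.eval_add, Polynomial.eval_C, Polynomial.eval_monomial, pow_one,
    Pi.add_apply, Pi.mul_apply]
  ring

lemma Step_tau_wn {β t : ℝ} (hβ : 0 ≤ β) (ht : 0 ≤ t) (J : ℕ) :
    wn (fun v => ‖v‖) β J (Step_tau m t) ≤ β + t := by
  have h1 : (1 : ℝ) ≤ 1 + t := by linarith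
  have e1 : ‖(fun _ => -t / (1 + t) : Fin m → ℝ)‖ ≤ t := by
    refine (pi_norm_const_le _).trans ?_
    rw [Real.norm_eq_abs, abs_div, abs_neg, abs_of_nonneg ht, abs_of_nonneg (by linarith)]
    exact div_le_self ht h1
  have e2 : ‖(fun _ => 1 / (1 + t) : Fin m → ℝ)‖ ≤ 1 := by
    refine (pi_norm_const_le _).trans ?_
    rw [Real.norm_eq_abs, abs_of_nonneg (by positivity)]
    exact div_le_self zero_le_one h1
  have e3 : wn (fun v => ‖v‖) β J
      (Polynomial.monomial 1 fun _ => 1 / (1 + t) : (Fin m → ℝ)[X]) ≤ β := by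
    unfold wn
    calc _ ≤ ∑ j ∈ range J, if j = 1 then β else 0 := by
          refine sum_le_sum fun j _ => ?_
          rw [Polynomial.coeff_monomial]
          by_cases hj : j = 1
          · subst hj
            simp only [if_true, pow_one]
            exact mul_le_of_le_one_right hβ e2
          · rw [if_neg hj, if_neg (Ne.symm hj)]
            simp
      _ ≤ β := by
          rw [sum_ite_eq']
          split_ifs
          · exact le_rfl
          · exact hβ
  have e4 := wn_C (m := m) sn_norm β J fun _ => -t / (1 + t)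
  have e5 := wn_add (m := m) sn_norm hβ J (Polynomial.C fun _ => -t / (1 + t))
    (Polynomial.monomial 1 fun _ => 1 / (1 + t))
  unfold Step_tau
  linarith

lemma Step_tr (hp : 1 ≤ p) (hA : Inj A) {s : ℝ × (Fin n → ℝ)} (hx : Inter A b s.2) (a : ℝ) :
    (sc A b s.2)ᵀ *ᵥ ev a (pf p (proj (sc A b s.2)) (sc A b s.2 *ᵥ dir A b c s)) =
      (a * s.1) • c := by
  rw [ev_pf, mulVec_sum]
  simp only [mulVec_smul, tr_tg hA hx]
  rw [sum_eq_single 0]
  · simp [smul_smul]
  · intro j _ hj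
    rw [if_neg hj, smul_zero]
  · intro h
    exact absurd (mem_range.2 hp) h

lemma Step_wn {β : ℝ} (hβ : 0 ≤ β) (J : ℕ) {κ : Fin m → ℝ} (hκ : ∀ k, |κ k - 1| ≤ 125 / 10000)
    {U : (Fin m → ℝ)[X]} (hU : wn (fun v => ‖v‖) β J U ≤ 6 / 10000) :
    wn (fun v => ‖v‖) β J (Polynomial.C (κ - 1) + Polynomial.C κ * U) ≤ 14 / 1000 := by
  have e1 : ‖κ - 1‖ ≤ 125 / 10000 := (pi_norm_le_iff_of_nonneg (by norm_num)).2 hκ
  have e2 : ‖κ‖ ≤ 2 := (pi_norm_le_iff_of_nonneg (by norm_num)).2 fun k => by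
    have := abs_le.1 (hκ k)
    rw [Real.norm_eq_abs, abs_le]
    constructor <;> linarith
  have e3 := wn_add (m := m) sn_norm hβ J (Polynomial.C (κ - 1)) (Polynomial.C κ * U)
  have e4 := wn_C (m := m) sn_norm β J (κ - 1)
  have e5 := wn_C (m := m) sn_norm β J κ
  have e6 := wn_mul (m := m) sn_norm hβ J (Polynomial.C κ) U
  have e7 := wn_nonneg (m := m) sn_norm hβ J U
  have e8 := mul_le_mul (e5.trans e2) hU e7 (by norm_num)
  linarith

lemma Step_kappa {s s0 s1 s2 e : ℝ} (h : 0 < s) (h1 : 0 < s1) (h2 : s2 = s1 * (1 + e))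
    (he : |e| ≤ 6 / 10000) (a1 : |s0 / s - 1| ≤ 1 / 100 / (1 - 1 / 100))
    (a2 : |s0 / s2 - 1| ≤ (2 * 0 + 12 / 10000) / (1 - (2 * 0 + 12 / 10000))) :
    |s1 / s - 1| ≤ 125 / 10000 ∧ |s / s1 - 1| ≤ 125 / 10000 := by
  obtain ⟨he1, he2⟩ := abs_le.1 he
  have h3 : 0 < s2 := h2 ▸ mul_pos h1 (by linarith)
  obtain ⟨a11, a12⟩ := abs_le.1 a1
  obtain ⟨a21, a22⟩ := abs_le.1 a2
  have b1 : 9898 / 10000 * s ≤ s0 := (le_div_iff₀ h).1 (by linarith)
  have b2 : s0 ≤ 10102 / 10000 * s := (div_le_iff₀ h).1 (by linarith)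
  have b3 : 9987 / 10000 * s2 ≤ s0 := (le_div_iff₀ h3).1 (by linarith)
  have b4 : s0 ≤ 10013 / 10000 * s2 := (div_le_iff₀ h3).1 (by linarith)
  have b5 : 9994 / 10000 * s1 ≤ s2 := by nlinarith
  have b6 : s2 ≤ 10006 / 10000 * s1 := by nlinarith
  have c1 : 9875 / 10000 ≤ s1 / s := (le_div_iff₀ h).2 (by linarith)
  have c2 : s1 / s ≤ 10125 / 10000 := (div_le_iff₀ h).2 (by linarith)
  have c3 : 9875 / 10000 ≤ s / s1 := (le_div_iff₀ h1).2 (by linarith)
  have c4 : s / s1 ≤ 10125 / 10000 := (div_le_iff₀ h1).2 (by linarith)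
  exact ⟨abs_le.2 ⟨by linarith, by linarith⟩, abs_le.2 ⟨by linarith, by linarith⟩⟩

lemma Step_abs_le_nrm (v : Fin m → ℝ) (k : Fin m) : |v k| ≤ nrm v :=
  (norm_le_pi_norm v k).trans (norm_le_nrm v)

lemma Step_deg {U : (Fin m → ℝ)[X]} (hU : U.natDegree ≤ p) (t : ℝ) (u v : Fin m → ℝ) :
    (Polynomial.C u + Polynomial.C v * U.comp (Step_tau m t)).natDegree ≤ p := by
  refine (Polynomial.natDegree_add_le _ _).trans (max_le ?_ ?_)
  · rw [Polynomial.natDegree_C]
    exact Nat.zero_le _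
  · refine (Polynomial.natDegree_C_mul_le _ _).trans (Polynomial.natDegree_comp_le.trans ?_)
    simpa using Nat.mul_le_mul hU (Step_tau_deg (m := m) t)

lemma Step_ev_aff (a : ℝ) (u v : Fin m → ℝ) (U W : (Fin m → ℝ)[X]) :
    ev a (Polynomial.C u + Polynomial.C v * U - W) = u + v * ev a U - ev a W := by
  simp only [ev, Polynomial.eval_sub, Polynomial.eval_add, Polynomial.eval_mul, Polynomial.eval_C]

theorem step_low (hp : 1 ≤ p) (hA : Inj A) (hb : ∀ j, 0 < b j) (hD : ∀ l : ℝ, Dom A b (l • c))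
    {lam l μ : ℝ} {x y : Fin n → ℝ} (h : Near A b c (1 / 100) lam x) (h0 : 0 < lam) (h1 : lam ≤ l)
    (h2 : l ≤ (1 + step A b c p (lam, x)) * lam) (hy : Sol A b (l • c) y) (hμ : 1 ≤ μ)
    (hm : μ ^ (2 * p + 2) = m) :
    1 / 10 ^ 4 ≤ step A b c p (lam, x) * (μ * (1 + Ph p A b y)) := by
  by_contra hcon
  rw [not_le] at hcon
  have ha := step_pos (A := A) (b := b) (c := c) (p := p) (lam, x)
  have hnf := not_fits_double (A := A) (b := b) (c := c) (p := p) (s := (lam, x))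
  generalize step A b c p (lam, x) = a at h2 hcon ha hnf
  obtain ⟨t, ht0, hta, rfl⟩ : ∃ t, 0 ≤ t ∧ t ≤ a ∧ l = (1 + t) * lam := by
    refine ⟨l / lam - 1, ?_, ?_, ?_⟩
    · rw [sub_nonneg, le_div_iff₀ h0]
      linarith
    · rw [sub_le_iff_le_add, div_le_iff₀ h0]
      linarith
    · field_simp
      ring
  have hρ1 : 1 ≤ 1 + Ph p A b y := le_add_of_nonneg_right (Ph_nonneg p A b y)
  have hq : qv A b y = sc A b y *ᵥ dir A b c ((1 + t) * lam, y) := qv_eq hA hb hy
  have hρ : ∀ j < p, ‖(tg (proj (sc A b y)) (sc A b y *ᵥ dir A b c ((1 + t) * lam, y)) j).1‖ +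
      ‖(tg (proj (sc A b y)) (sc A b y *ᵥ dir A b c ((1 + t) * lam, y)) j).2‖ ≤
        (1 + Ph p A b y) ^ (j + 1) := fun j hj => by
    rw [← hq]
    exact le_Phi_pow hj
  generalize 1 + Ph p A b y = ρ at hρ hcon hρ1
  have hμρ : 1 ≤ μ * ρ := one_le_mul_of_one_le_of_one_le hμ hρ1
  have ha1 : a < 1 := by nlinarith
  have hθ : 0 ≤ 3 * a := by linarith
  have hβ : 0 ≤ 2 * a := by linarith
  have k1 : ρ * (3 * a) * μ ≤ 3 / 10000 := by nlinarith
  have k2 : ρ * (3 * a) ≤ 3 / 10000 :=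
    (le_mul_of_one_le_right (by positivity) hμ).trans k1
  have we := wn_pe (by linarith : 0 ≤ ρ) hθ (by linarith) hρ (2 * p + 1)
  have wf := wn_pf (by linarith : 0 ≤ ρ) hθ (by linarith) hρ (2 * p + 1)
  have wr := wn_pr (by linarith : 0 ≤ ρ) hθ hμ hm (by norm_num) k1 hρ (2 * p + 1)
  have sy := slack_point (c := c) (p := p) (s := ((1 + t) * lam, y)) hy.1
  have sx := slack_point (c := c) (p := p) (s := (lam, x)) h.1
  have ty := Step_tr (c := c) hp hA (s := ((1 + t) * lam, y)) hy.1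
  have tx := Step_tr (c := c) hp hA (s := (lam, x)) h.1
  have np := fun a0 => near_point (c := c) (δ := 0) (a := a0) (η := 2) (ρ := 12 / 10000) hp hA
    (s := ((1 + t) * lam, y)) ⟨hy.1, 0, by rw [hy.2, sub_self, mulVec_zero], by simp [nrm]⟩
  have fi := fits_iff (c := c) (p := p) (s := (lam, x)) h.1 (2 * a)
  have lo := fun j (hj : j ≤ p) => pr_coeff_low (Q := proj (sc A b x))
    (q := sc A b x *ᵥ dir A b c (lam, x)) hj
  have dr := pr_deg (p := p) (Q := proj (sc A b x)) (q := sc A b x *ᵥ dir A b c (lam, x))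
  have de := pe_deg (p := p) (Q := proj (sc A b x)) (q := sc A b x *ᵥ dir A b c (lam, x))
  have df := pf_deg (p := p) (Q := proj (sc A b x)) (q := sc A b x *ᵥ dir A b c (lam, x))
  have e0 := pe_coeff_zero (p := p) (Q := proj (sc A b x)) (q := sc A b x *ᵥ dir A b c (lam, x))
  have dr' := pr_deg (p := p) (Q := proj (sc A b y))
    (q := sc A b y *ᵥ dir A b c ((1 + t) * lam, y))
  have de' := pe_deg (p := p) (Q := proj (sc A b y))
    (q := sc A b y *ᵥ dir A b c ((1 + t) * lam, y))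
  have df' := pf_deg (p := p) (Q := proj (sc A b y))
    (q := sc A b y *ᵥ dir A b c ((1 + t) * lam, y))
  simp only [pr] at wr np fi lo dr dr'
  dsimp only at sy sx ty tx np fi
  generalize pe p (proj (sc A b x)) (sc A b x *ᵥ dir A b c (lam, x)) = e at *
  generalize pf p (proj (sc A b x)) (sc A b x *ᵥ dir A b c (lam, x)) = f at *
  generalize pe p (proj (sc A b y)) (sc A b y *ᵥ dir A b c ((1 + t) * lam, y)) = e' at *
  generalize pf p (proj (sc A b y)) (sc A b y *ᵥ dir A b c ((1 + t) * lam, y)) = f' at *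
  have ht1 : 0 < 1 + t := by linarith
  have ha0 : |-t / (1 + t)| ≤ 3 * a := by
    rw [abs_div, abs_neg, abs_of_nonneg ht0, abs_of_pos ht1]
    exact (div_le_self ht0 (by linarith)).trans (by linarith)
  have v1 : ∀ k, |ev (-t / (1 + t)) e' k| ≤ 6 / 10000 := fun k =>
    (norm_le_pi_norm _ k).trans ((ev_le sn_norm ha0 (by omega : e'.natDegree < 2 * p + 1)).trans
      (by linarith))
  have v2 := (ev_le sn_nrm ha0 (Nat.lt_succ_of_le dr')).trans wr
  have nx := np (-t / (1 + t))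
    (fun k => by
      rw [sy]
      exact mul_pos (hy.1 k) (by linarith [(abs_le.1 (v1 k)).1]))
    (by norm_num)
    (fun k => by
      rw [sy]
      nlinarith [(abs_le.1 (v1 k)).2, hy.1 k])
    (by linarith)
  rw [show (1 + -t / (1 + t)) * ((1 + t) * lam) = lam by field_simp; ring] at nx
  have c1 := close h (X_sol (hD lam)) (by norm_num)
  have c2 := close nx (X_sol (hD lam)) (by norm_num)
  have hκ := fun k => Step_kappa (h.1 k) (hy.1 k) (sy (-t / (1 + t)) k) (v1 k)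
    ((Step_abs_le_nrm _ k).trans c1) ((Step_abs_le_nrm _ k).trans c2)
  obtain ⟨hx, w, hw, hw1⟩ := h
  have hτ := (Step_tau_wn (m := m) hβ ht0 (2 * p + 1)).trans (by linarith : 2 * a + t ≤ 3 * a)
  have hκκ : ((fun k => slack A b y k / slack A b x k) * fun k => slack A b x k / slack A b y k) =
      (1 : Fin m → ℝ) := funext fun k => by
    have := hx k
    have := hy.1 k
    simp only [Pi.mul_apply, Pi.one_apply]
    field_simp
  have key := stab hβ (p := p) (e := e) (f := f) (w := w)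
    (E := Polynomial.C ((fun k => slack A b y k / slack A b x k) - 1) +
      Polynomial.C (fun k => slack A b y k / slack A b x k) * e'.comp (Step_tau m t))
    (F := Polynomial.C ((fun k => slack A b x k / slack A b y k) - 1) +
      Polynomial.C (fun k => slack A b x k / slack A b y k) * f'.comp (Step_tau m t))
    (R := ((1 + e') * (1 + f') - 1).comp (Step_tau m t)) ?_ lo (Step_deg de' _ _ _)
    (Step_deg df' _ _ _) de df e0 (Step_orth fun a1 a2 => ?_)
    (Step_wn hβ _ (fun k => (hκ k).1)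
      ((wn_comp sn_norm hβ _ (by omega : e'.natDegree < 2 * p + 1) _ hτ).trans (by linarith)))
    (Step_wn hβ _ (fun k => (hκ k).2)
      ((wn_comp sn_norm hβ _ (by omega : f'.natDegree < 2 * p + 1) _ hτ).trans (by linarith)))
    ((wn_comp sn_nrm hβ _ (Nat.lt_succ_of_le dr') _ hτ).trans (by linarith)) hw1
  · have hb2 : |2 * a| ≤ 2 * a := (abs_of_nonneg hβ).le
    have u1 : ∀ k, |ev (2 * a) e k| ≤ 34 / 1000 := fun k =>
      (norm_le_pi_norm _ k).trans ((ev_le sn_norm hb2 (by omega : e.natDegree < 2 * p + 1)).trans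
        key.1)
    refine hnf ha1 (fi.2 ⟨fun k => ?_, (ev_le sn_nrm hb2 (Nat.lt_succ_of_le dr)).trans key.2⟩)
    rw [sx]
    obtain ⟨u2, u3⟩ := abs_le.1 (u1 k)
    exact ⟨mul_pos (hx k) (by linarith), by nlinarith [hx k]⟩
  · have hC := congrArg Polynomial.C hκκ
    rw [Polynomial.C_mul, Polynomial.C_1] at hC
    simp only [Polynomial.C_sub, Polynomial.C_1, Polynomial.sub_comp, Polynomial.mul_comp,
      Polynomial.add_comp, Polynomial.one_comp]
    linear_combination (1 + e'.comp (Step_tau m t)) * (1 + f'.comp (Step_tau m t)) * hC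
  · have r1 : ev a1 (Polynomial.C ((fun k => slack A b y k / slack A b x k) - 1) +
        Polynomial.C (fun k => slack A b y k / slack A b x k) * e'.comp (Step_tau m t) - e) =
        sc A b x *ᵥ (point A b c p (lam, x) a1 -
          point A b c p ((1 + t) * lam, y) ((a1 - t) / (1 + t))) := by
      rw [Step_ev_aff, Step_ev_comp]
      funext k
      have i1 := sx a1 k
      have i2 := sy ((a1 - t) / (1 + t)) k
      rw [slack_apply] at i1 i2
      have := hx k
      rw [sc_mulVec, mulVec_sub, eq_div_iff this.ne']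
      simp only [Pi.sub_apply, Pi.add_apply, Pi.mul_apply, Pi.one_apply]
      field_simp
      linear_combination i1 - i2
    have r2 : (sc A b x)ᵀ *ᵥ ev a2 (Polynomial.C ((fun k => slack A b x k / slack A b y k) - 1) +
        Polynomial.C (fun k => slack A b x k / slack A b y k) * f'.comp (Step_tau m t) - f +
          Polynomial.C w) = 0 := by
      have i0 : ∀ U : (Fin m → ℝ)[X], ev a2 (U + Polynomial.C w) = ev a2 U + w := fun U => by
        simp only [ev, Polynomial.eval_add, Polynomial.eval_C]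
      have i1 : (sc A b x)ᵀ *ᵥ ((fun k => slack A b x k / slack A b y k) - 1) =
          Aᵀ *ᵥ om A b y - Aᵀ *ᵥ om A b x := by
        rw [sc_transpose_mulVec, ← mulVec_sub]
        refine congrArg _ (funext fun k => ?_)
        have := hx k
        have := hy.1 k
        simp only [Pi.sub_apply, Pi.one_apply, om]
        field_simp
        ring
      have i2 : ∀ v : Fin m → ℝ, (sc A b x)ᵀ *ᵥ ((fun k => slack A b x k / slack A b y k) * v) =
          (sc A b y)ᵀ *ᵥ v := fun v => by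
        rw [sc_transpose_mulVec, sc_transpose_mulVec]
        refine congrArg _ (funext fun k => ?_)
        have := hx k
        have := hy.1 k
        simp only [Pi.mul_apply]
        field_simp
      rw [i0, Step_ev_aff, Step_ev_comp, mulVec_add, mulVec_sub, mulVec_add, i1, i2, ty, tx, ← hw,
        hy.2, show (a2 - t) / (1 + t) * ((1 + t) * lam) = (a2 - t) * lam by field_simp]
      module
    rw [r1, dotProduct_comm, dotProduct_mulVec, ← mulVec_transpose, r2, zero_dotProduct]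

end Pool.Agent.Work.MP_6af739_lc.HO
end

-- merged part: Pool.Agent.Work.MP_6af739_lc.HO.Count
section
/-!
Counting iterations: copy the parts Count and Det1 of Final.lean (Count_step, count, stopTime_le, output_correct,
stop_le_of, stop_le), with run, step, near_run, step_low in place of iter, stepLen, near_iter, step_lower.
On Ioc (log lam_i) (log lam_(i+1)) the integrand 1 + Ph is at least 1/(10^4 a μ) and the length is ≥ a/2 (Count_log,
a ≤ 1), so each step contributes 1/(2 10^4 μ). lam0_ge applies since run p 0 = iter 0 by rfl. On the last piece of the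
interval 1 + Ph ≤ 5000 p √m (Ph_crude), and 2 10^4 μ 5000 p √m = (1000 μ p) (10^5 √m).
-/

namespace Pool.Agent.Work.MP_6af739_lc.HO

open Matrix Finset MeasureTheory ProbabilityTheory
open Pool.Agent.Work.MP_6a50bc_pr
open Pool.Agent.Work.MP_5c5849_an (sg av)
open scoped ENNReal Polynomial

variable {m n p : ℕ} {A : Matrix (Fin m) (Fin n) ℝ} {b : Fin m → ℝ} {c : Fin n → ℝ}

theorem count_succ (i : ℕ) :
    (run A b c p (i + 1)).1 = (1 + step A b c p (run A b c p i)) * (run A b c p i).1 := rfl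

theorem count_mono (hp : 1 ≤ p) (hA : Inj A) (hb : ∀ j, 0 < b j) (hc : c ≠ 0) :
    Monotone fun i => (run A b c p i).1 := by
  refine monotone_nat_of_le_succ fun i => ?_
  have h1 := (near_run hp hA hb hc i).1
  have h2 := step_pos (A := A) (b := b) (c := c) (p := p) (run A b c p i)
  rw [count_succ]
  have h3 := mul_pos h2 h1
  linarith only [h3]

theorem count_step (hp : 1 ≤ p) (hA : Inj A) (hb : ∀ j, 0 < b j) (hc : c ≠ 0)
    (hD : ∀ l : ℝ, Dom A b (l • c)) {μ : ℝ} (hμ : 1 ≤ μ) (hμm : μ ^ (2 * p + 2) = m) (i : ℕ) :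
    ENNReal.ofReal (1 / (20000 * μ)) ≤
      ∫⁻ t in Set.Ioc (Real.log (run A b c p i).1) (Real.log (run A b c p (i + 1)).1),
        ENNReal.ofReal (1 + Ph p A b (X A b (Real.exp t • c))) := by
  obtain ⟨h0, hn, -⟩ := near_run hp hA hb hc i
  have ha := step_pos (A := A) (b := b) (c := c) (p := p) (run A b c p i)
  have ha' := step_le_one (A := A) (b := b) (c := c) (p := p) (run A b c p i)
  have hμ0 : 0 < μ := zero_lt_one.trans_le hμ
  rw [count_succ]
  set a := step A b c p (run A b c p i) with hdef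
  have h1 : 0 < (1 + a) * (run A b c p i).1 := by positivity
  refine le_trans ?_ (setLIntegral_mono' (f := fun _ => ENNReal.ofReal (1 / (10000 * a * μ)))
    measurableSet_Ioc fun t ht => ENNReal.ofReal_le_ofReal ?_)
  · rw [setLIntegral_const, Real.volume_Ioc, ← ENNReal.ofReal_mul (by positivity),
      Real.log_mul (by positivity) h0.ne', add_sub_cancel_right]
    refine ENNReal.ofReal_le_ofReal ?_
    have h2 := Count_log ha ha'
    calc 1 / (20000 * μ) = 1 / (10000 * a * μ) * (a / 2) := by field_simp; norm_num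
      _ ≤ _ := mul_le_mul_of_nonneg_left h2 (by positivity)
  · have h2 := step_low (p := p) hp hA hb hD hn h0 (l := Real.exp t)
      ((Real.log_le_iff_le_exp h0).1 ht.1.le) ((Real.le_log_iff_exp_le h1).1 ht.2) (X_sol (hD _))
      hμ hμm
    rw [div_le_iff₀ (by positivity)]
    change 1 / 10 ^ 4 ≤ a * _ at h2
    linarith only [h2]

theorem count_sum (hp : 1 ≤ p) (hA : Inj A) (hb : ∀ j, 0 < b j) (hc : c ≠ 0)
    (hD : ∀ l : ℝ, Dom A b (l • c)) {μ : ℝ} (hμ : 1 ≤ μ) (hμm : μ ^ (2 * p + 2) = m) (N : ℕ) :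
    ENNReal.ofReal (N / (20000 * μ)) ≤
      ∫⁻ t in Set.Ioc (Real.log (run A b c p 0).1) (Real.log (run A b c p N).1),
        ENNReal.ofReal (1 + Ph p A b (X A b (Real.exp t • c))) := by
  have hμ0 : 0 < μ := zero_lt_one.trans_le hμ
  induction N with
  | zero => simp
  | succ N ih =>
    have hm := count_mono (p := p) hp hA hb hc
    have hq : ∀ i, 0 < (run A b c p i).1 := fun i => (near_run hp hA hb hc i).1
    have h1 : Real.log (run A b c p 0).1 ≤ Real.log (run A b c p N).1 :=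
      Real.log_le_log (hq 0) (hm (Nat.zero_le N))
    have h2 : Real.log (run A b c p N).1 ≤ Real.log (run A b c p (N + 1)).1 :=
      Real.log_le_log (hq N) (hm (Nat.le_succ N))
    rw [← Set.Ioc_union_Ioc_eq_Ioc h1 h2,
      lintegral_union measurableSet_Ioc (Set.Ioc_disjoint_Ioc_of_le le_rfl)]
    refine le_trans ?_ (add_le_add ih (count_step hp hA hb hc hD hμ hμm N))
    rw [← ENNReal.ofReal_add (by positivity) (by positivity)]
    refine ENNReal.ofReal_le_ofReal (le_of_eq ?_)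
    push_cast
    ring

theorem haltTime_le (e : ℕ → Finset (Fin m)) : haltTime A b c p e ≤ m.choose n := by
  exact Nat.sInf_le (show Halts A b c p e _ from Or.inr (Or.inr rfl))

theorem answer_correct (hG : GenPos A b c) (hb : ∀ j, 0 < b j) {e : ℕ → Finset (Fin m)}
    (he : ∀ B : Finset (Fin m), B.card = n → ∃ i < m.choose n, e i = B) :
    Correct A b c (answer A b c p e) := by
  have hN : Halts A b c p e (haltTime A b c p e) :=
    Nat.sInf_mem (s := {i | Halts A b c p e i}) ⟨m.choose n, Or.inr (Or.inr rfl)⟩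
  unfold answer
  split_ifs with h1 h2
  · exact passes_correct h1
  · exact passes_correct h2
  · intro M
    by_contra hM
    push Not at hM
    obtain ⟨B, hB⟩ := exists_strict hG (fun j => (hb j).le) ⟨M, hM⟩
    obtain ⟨i, hi, rfl⟩ := he B hB.1.2.1
    have h3 : haltTime A b c p e ≤ i :=
      Nat.sInf_le (show Halts A b c p e i from Or.inr (Or.inl hB.passes))
    rcases hN with h | h | h
    · exact h1 h
    · exact h2 h
    · omega

theorem count_sumD (hm : 0 < m) (h : Good A (44 / 100)) (hb : Box b) {B : Finset (Fin m)}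
    (hB : Strict A b c B) : m + ∑ j, slack A b (candX A b B) j / b j ≤ 1300 * (m : ℝ) := by
  have hb0 : ∀ j, 0 < b j := fun j => zero_lt_one.trans_le (hb j).1
  have hm' : (0 : ℝ) < m := Nat.cast_pos.2 hm
  have h1 : ∑ j, slack A b (candX A b B) j / b j ≤ ∑ j, (1 + |(A *ᵥ candX A b B) j|) := by
    refine sum_le_sum fun j _ => ?_
    rw [div_le_iff₀ (hb0 j), slack_apply]
    have k1 := mul_le_mul_of_nonneg_left (hb j).1 (abs_nonneg ((A *ᵥ candX A b B) j))
    linarith only [k1, neg_abs_le ((A *ᵥ candX A b B) j)]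
  have h2 := sum_abs_le (A *ᵥ candX A b B)
  have h3 := h.op (candX A b B)
  have h4 := h.rad hm hb hB.passes.1
  have h5 : √(m : ℝ) * √(m : ℝ) = m := Real.mul_self_sqrt hm'.le
  have h6 : 0 ≤ √(m : ℝ) := Real.sqrt_nonneg _
  rw [sum_add_distrib, sum_const, card_univ, Fintype.card_fin, nsmul_eq_mul, mul_one] at h1
  rw [Fintype.card_fin] at h2
  have h7 : √(m : ℝ) * nrm (A *ᵥ candX A b B) ≤ √(m : ℝ) * (8 * √(m : ℝ) * 150) :=
    mul_le_mul_of_nonneg_left (h3.trans (mul_le_mul_of_nonneg_left h4 (by positivity))) h6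
  linarith only [hm', h1, h2, h5, h7]

theorem count_le_of (hp : 1 ≤ p) (hm : 0 < m) (h : Good A (44 / 100)) (hb : Box b)
    (hc : nrm c = 1) {B : Finset (Fin m)} (hB : Strict A b c B) {t L : ℝ} (ht : 0 < t)
    (hs : ∀ j ∉ B, t ≤ slack A b (candX A b B) j) (hy : ∀ j ∈ B, t ≤ candY A c B j)
    (hL : 2 * (1300 * (m : ℝ)) ^ 2 ≤ L * t * t) (e : ℕ → Finset (Fin m)) {μ : ℝ} (hμ : 1 ≤ μ)
    (hμm : μ ^ (2 * p + 2) = m) :
    (haltTime A b c p e : ℝ≥0∞) + 1 ≤ 2 + ENNReal.ofReal (20000 * μ) *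
      ∫⁻ s in Set.Ioc (Real.log (1 / 10 ^ 8)) (Real.log L),
        ENNReal.ofReal (1 + Ph p A b (X A b (Real.exp s • c))) := by
  have hb0 : ∀ j, 0 < b j := fun j => zero_lt_one.trans_le (hb j).1
  have hc0 : c ≠ 0 := fun e => by simp [e] at hc
  have hA := h.inj hm
  have hm' : (0 : ℝ) < m := Nat.cast_pos.2 hm
  have hμ0 : 0 < μ := zero_lt_one.trans_le hμ
  rcases hN : haltTime A b c p e with _ | k
  · rw [Nat.cast_zero, zero_add]
    exact le_add_right one_le_two
  have hk : ¬ Halts A b c p e k :=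
    Nat.notMem_of_lt_sInf (s := {i | Halts A b c p e i}) (show k < haltTime A b c p e by omega)
  obtain ⟨h0, hn, -⟩ := near_run hp hA hb0 hc0 k
  have hD := count_sumD hm h hb hB
  have hlt : (run A b c p k).1 ≤ L := by
    by_contra hh
    refine hk (Or.inl ?_)
    rw [guess_eq hb0 hB hn (X_sol (h.dom hm hb _)) h0 ht ht (by positivity) hs hy hD
      (hL.trans (by gcongr; exact (not_le.1 hh).le))]
    exact hB.passes
  have hl0 : 1 / 10 ^ 8 ≤ (run A b c p 0).1 := lam0_ge hm h hb hc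
  have h1 := (count_sum hp hA hb0 hc0 (fun l => h.dom hm hb _) hμ hμm k).trans (lintegral_mono_set
    (Set.Ioc_subset_Ioc (Real.log_le_log (by norm_num) hl0) (Real.log_le_log h0 hlt)))
  have h2 : ENNReal.ofReal (20000 * μ) * ENNReal.ofReal (k / (20000 * μ)) = k := by
    rw [← ENNReal.ofReal_mul (by positivity), mul_div_cancel₀ _ (by positivity),
      ENNReal.ofReal_natCast]
  calc ((k + 1 : ℕ) : ℝ≥0∞) + 1 =
        2 + ENNReal.ofReal (20000 * μ) * ENNReal.ofReal (k / (20000 * μ)) := by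
        rw [h2]; push_cast; ring
    _ ≤ _ := by gcongr

theorem halt_le (hp : 1 ≤ p) (hm : 0 < m) {a : Fin m → Fin n → ℝ}
    (h : Good (Matrix.of a) (45 / 100)) (hb : Box b) (hc : nrm c = 1)
    (hG : GenPos (Matrix.of a) b c) (e : ℕ → Finset (Fin m)) {μ : ℝ} (hμ : 1 ≤ μ)
    (hμm : μ ^ (2 * p + 2) = m) :
    (haltTime (Matrix.of a) b c p e : ℝ≥0∞) + 1 ≤
      2 + ENNReal.ofReal (20000 * μ) * JP p (Matrix.of a) b c +
        ENNReal.ofReal (1000 * μ * p) * (ENNReal.ofReal (10 ^ 5 * √m) * NB b c a) := by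
  classical
  have h' := h.mono (show (44 / 100 : ℝ) ≤ 45 / 100 by norm_num)
  have hm' : (0 : ℝ) < m := Nat.cast_pos.2 hm
  have hm1 : (1 : ℝ) ≤ √m := Real.one_le_sqrt.2 (Nat.one_le_cast.2 hm)
  have hμ0 : 0 < μ := zero_lt_one.trans_le hμ
  have hp1 : (1 : ℝ) ≤ p := Nat.one_le_cast.2 hp
  have hp0 : (0 : ℝ) < p := zero_lt_one.trans_le hp1
  obtain ⟨B, hB⟩ := h'.exists_strict hm hb hG
  by_cases hex : ∃ i, ¬ BadT (Matrix.of a) b c (tt m i)
  swap
  · push Not at hex
    have h1 : NB b c a = ⊤ := by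
      rw [NB, ← ENNReal.tsum_const_eq_top_of_ne_zero (α := ℕ) one_ne_zero]
      exact tsum_congr fun i => Set.indicator_of_mem
        (show a ∈ {a : Fin m → Fin n → ℝ | BadT (Matrix.of a) b c (tt m i)} from hex i) _
    rw [h1, ENNReal.mul_top (ENNReal.ofReal_pos.2 (by positivity)).ne',
      ENNReal.mul_top (ENNReal.ofReal_pos.2 (by positivity)).ne', add_top]
    exact le_top
  have h1 : (Nat.find hex : ℝ≥0∞) ≤ NB b c a := by
    refine le_trans (le_of_eq ?_) (ENNReal.sum_le_tsum (range (Nat.find hex)))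
    rw [sum_congr rfl fun i hi => Set.indicator_of_mem
      (show a ∈ {a : Fin m → Fin n → ℝ | BadT (Matrix.of a) b c (tt m i)} from
        not_not.1 (Nat.find_min hex (mem_range.1 hi))) _]
    simp
  have h2 := Nat.find_spec hex
  generalize Nat.find hex = i at h1 h2
  have ht : 0 < tt m i := by unfold tt; positivity
  have h3 := count_le_of hp hm h' hb hc hB (t := tt m i) (L := (m : ℝ) ^ 20 * Real.exp i) ht
    (fun j hj => le_of_not_ge fun k => h2 ⟨h, B, hB, Or.inl ⟨j, hj, k⟩⟩)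
    (fun j hj => le_of_not_ge fun k => h2 ⟨h, B, hB, Or.inr ⟨j, hj, k⟩⟩) (by
      have e1 : Real.exp i * (Real.exp (-(i : ℝ) / 2) * Real.exp (-(i : ℝ) / 2)) = 1 := by
        rw [← Real.exp_add, ← Real.exp_add, ← Real.exp_zero]; congr 1; ring
      have e2 : (m : ℝ) ^ 20 * Real.exp i * tt m i * tt m i = 2000 ^ 2 * (m : ℝ) ^ 2 *
          (Real.exp i * (Real.exp (-(i : ℝ) / 2) * Real.exp (-(i : ℝ) / 2))) := by
        unfold tt; field_simp
      rw [e2, e1]
      linarith only [sq_nonneg (m : ℝ)]) e hμ hμm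
  rw [Real.log_mul (by positivity) (by positivity), Real.log_pow, Real.log_exp] at h3
  refine h3.trans ?_
  rw [add_assoc]
  refine add_le_add le_rfl ?_
  have h4 : ∫⁻ s in Set.Ioc (20 * Real.log m) (20 * Real.log m + i),
      ENNReal.ofReal (1 + Ph p (Matrix.of a) b (X (Matrix.of a) b (Real.exp s • c))) ≤
      ENNReal.ofReal (5000 * p * √m) * i := by
    refine le_trans (lintegral_mono (g := fun _ => ENNReal.ofReal (5000 * p * √m)) fun s =>
      ENNReal.ofReal_le_ofReal ?_) (le_of_eq ?_)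
    · have k1 := Ph_crude hm h' hb (X_sol (h'.dom hm hb (Real.exp s • c))).1 p
      have k2 : (1 : ℝ) ≤ p * √m := one_le_mul_of_one_le_of_one_le hp1 hm1
      linarith only [k1, k2]
    · rw [setLIntegral_const, Real.volume_Ioc, add_sub_cancel_left, ENNReal.ofReal_natCast]
  have h5 : ENNReal.ofReal (1000 * μ * p) * ENNReal.ofReal (10 ^ 5 * √m) =
      ENNReal.ofReal (20000 * μ) * ENNReal.ofReal (5000 * p * √m) := by
    rw [← ENNReal.ofReal_mul (by positivity), ← ENNReal.ofReal_mul (by positivity)]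
    congr 1; ring
  rw [← mul_assoc, h5, mul_assoc, ← mul_add]
  gcongr
  refine le_trans (lintegral_mono_set (Set.Ioc_subset_Ioc_union_Ioc (b := 20 * Real.log m)))
    ((lintegral_union_le _ _ _).trans (add_le_add le_rfl (h4.trans ?_)))
  gcongr

end Pool.Agent.Work.MP_6af739_lc.HO
end

-- merged part: Pool.Agent.Work.MP_6af739_lc.HO.Scale
section
/-!
Equivariance under scaling: copy the part Scale of Final.lean (slack_scale, hinv_scale, dir_scale, correct_step_scale,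
guess_scale, passes_scale, candX_scale, iter_scale at index 0, correct_scale). rel is invariant, back scales by β/σ,
tay_scale by strong induction, Fits is invariant, hence step.
-/

namespace Pool.Agent.Work.MP_6af739_lc.HO

open Matrix Finset MeasureTheory ProbabilityTheory
open Pool.Agent.Work.MP_6a50bc_pr
open Pool.Agent.Work.MP_5c5849_an (sg av)
open scoped ENNReal Polynomial

variable {m n p : ℕ} {A : Matrix (Fin m) (Fin n) ℝ} {b : Fin m → ℝ} {c : Fin n → ℝ} {σ β τ : ℝ}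
  (hσ : 0 < σ) (hβ : 0 < β) (hτ : 0 < τ)
include hσ hβ hτ

omit hτ in
theorem scale_rel (x z : Fin n → ℝ) :
    rel (σ • A) (β • b) ((β / σ) • x) ((β / σ) • z) = rel A b x z := by
  funext k
  simp only [rel, slack_scale hσ, mulVec_scale hσ, Pi.smul_apply, smul_eq_mul,
    mul_div_mul_left _ _ hβ.ne']

omit hτ in
theorem scale_back (x : Fin n → ℝ) (y : Fin m → ℝ) :
    back (σ • A) (β • b) ((β / σ) • x) y = (β / σ) • back A b x y := by
  have h : ((σ • A)ᵀ *ᵥ fun k => y k / slack (σ • A) (β • b) ((β / σ) • x) k) =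
      (σ / β) • (Aᵀ *ᵥ fun k => y k / slack A b x k) := by
    rw [slack_scale hσ, transpose_smul, smul_mulVec, div_eq_mul_inv σ β, mul_smul,
      ← mulVec_smul _ β⁻¹]
    congr 2
    funext k
    simp only [Pi.smul_apply, smul_eq_mul, div_eq_mul_inv, mul_inv]
    ring
  rw [back, back, h, hinv_scale hσ hβ, smul_neg]

omit hτ in
theorem scale_next (x : Fin n → ℝ) (y : Fin m → ℝ) :
    next (σ • A) (β • b) ((β / σ) • x) y = ((β / σ) • (next A b x y).1, (next A b x y).2) := by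
  simp only [next, scale_back hσ hβ, scale_rel hσ hβ]

theorem scale_tay (s : ℝ × (Fin n → ℝ)) (j : ℕ) :
    tay (σ • A) (β • b) (τ • c) (σ / (β * τ) * s.1, (β / σ) • s.2) j =
      ((β / σ) • (tay A b c s j).1, (tay A b c s j).2) := by
  induction j using Nat.strong_induction_on with
  | _ j ih =>
    cases j with
    | zero => rw [tay, tay, dir_scale hσ hβ hτ, scale_rel hσ hβ]
    | succ j =>
      have h : (∑ i : Fin (j + 1), rel (σ • A) (β • b) ((β / σ) • s.2)
          (tay (σ • A) (β • b) (τ • c) (σ / (β * τ) * s.1, (β / σ) • s.2) i).1 *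
          (tay (σ • A) (β • b) (τ • c) (σ / (β * τ) * s.1, (β / σ) • s.2) (j - i)).2) =
          ∑ i : Fin (j + 1), rel A b s.2 (tay A b c s i).1 * (tay A b c s (j - i)).2 := by
        refine Finset.sum_congr rfl fun i _ => ?_
        rw [ih i i.2, ih (j - i) (Nat.lt_succ_of_le (Nat.sub_le _ _)), scale_rel hσ hβ]
      rw [tay, tay]
      simp only []
      rw [h, scale_next hσ hβ]

theorem scale_point (s : ℝ × (Fin n → ℝ)) (a : ℝ) :
    point (σ • A) (β • b) (τ • c) p (σ / (β * τ) * s.1, (β / σ) • s.2) a =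
      (β / σ) • point A b c p s a := by
  simp only [point, scale_tay hσ hβ hτ, smul_add, Finset.smul_sum, smul_comm (β / σ)]

theorem scale_fits (s : ℝ × (Fin n → ℝ)) (a : ℝ) :
    Fits (σ • A) (β • b) (τ • c) p (σ / (β * τ) * s.1, (β / σ) • s.2) a ↔ Fits A b c p s a := by
  simp only [Fits, scale_point hσ hβ hτ, scale_tay hσ hβ hτ, slack_scale hσ, Pi.smul_apply,
    smul_eq_mul, mul_div_mul_left _ _ hβ.ne', mul_pos_iff_of_pos_left hβ, mul_left_comm 2 β,
    mul_le_mul_iff_right₀ hβ]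

theorem scale_step (s : ℝ × (Fin n → ℝ)) :
    step (σ • A) (β • b) (τ • c) p (σ / (β * τ) * s.1, (β / σ) • s.2) = step A b c p s := by
  simp only [step, scale_fits hσ hβ hτ]

theorem advance_scale (s : ℝ × (Fin n → ℝ)) :
    advance (σ • A) (β • b) (τ • c) p (σ / (β * τ) * s.1, (β / σ) • s.2) =
      (σ / (β * τ) * (advance A b c p s).1, (β / σ) • (advance A b c p s).2) := by
  simp only [advance, scale_step hσ hβ hτ, scale_point hσ hβ hτ, mul_left_comm]

theorem run_scale (i : ℕ) : run (σ • A) (β • b) (τ • c) p i =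
    (σ / (β * τ) * (run A b c p i).1, (β / σ) • (run A b c p i).2) := by
  induction i with
  | zero => exact iter_scale (A := A) (b := b) (c := c) hσ hβ hτ 0
  | succ i ih => rw [run, run, ih, advance_scale hσ hβ hτ, correct_step_scale hσ hβ hτ]

theorem inter_run_scale (i : ℕ) (h : Inter A b (run A b c p i).2) :
    Inter (σ • A) (β • b) (run (σ • A) (β • b) (τ • c) p i).2 := by
  rw [run_scale hσ hβ hτ]
  exact inter_scale hσ hβ h

theorem inter_advance_scale (i : ℕ) (h : Inter A b (advance A b c p (run A b c p i)).2) :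
    Inter (σ • A) (β • b)
      (advance (σ • A) (β • b) (τ • c) p (run (σ • A) (β • b) (τ • c) p i)).2 := by
  rw [run_scale hσ hβ hτ, advance_scale hσ hβ hτ]
  exact inter_scale hσ hβ h

theorem haltTime_scale (e : ℕ → Finset (Fin m)) :
    haltTime (σ • A) (β • b) (τ • c) p e = haltTime A b c p e := by
  simp only [haltTime, Halts, run_scale hσ hβ hτ, guess_scale hσ hβ, passes_scale hσ hβ hτ]

theorem answer_scale (e : ℕ → Finset (Fin m)) (h : Correct A b c (answer A b c p e)) :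
    Correct (σ • A) (β • b) (τ • c) (answer (σ • A) (β • b) (τ • c) p e) := by
  have key : ∀ o : Option (Fin n → ℝ), Correct A b c o →
      Correct (σ • A) (β • b) (τ • c) (o.map fun x => (β / σ) • x) := by
    have h0 : ∀ (x : Fin n → ℝ), (∀ j, ((σ • A) *ᵥ ((β / σ) • x)) j ≤ (β • b) j) ↔
        ∀ j, (A *ᵥ x) j ≤ b j := fun x => by
      simp only [mulVec_scale hσ, Pi.smul_apply, smul_eq_mul, mul_le_mul_iff_right₀ hβ]
    have h1 : ∀ x : Fin n → ℝ, (τ • c) ⬝ᵥ ((β / σ) • x) = τ * (β / σ) * (c ⬝ᵥ x) := fun x => by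
      rw [smul_dotProduct, dotProduct_smul, smul_eq_mul, smul_eq_mul, mul_assoc]
    have h2 : 0 < τ * (β / σ) := by positivity
    rintro (_ | x) ho
    · intro M
      obtain ⟨x, hx, hM⟩ := ho (M / (τ * (β / σ)))
      refine ⟨_, (h0 x).2 hx, ?_⟩
      rwa [h1, ← div_lt_iff₀' h2]
    · refine ⟨(h0 x).2 ho.1, fun x' hx' => ?_⟩
      obtain ⟨y, rfl⟩ : ∃ y, x' = (β / σ) • y :=
        ⟨(β / σ)⁻¹ • x', (smul_inv_smul₀ (by positivity) _).symm⟩
      rw [h1, h1]
      exact mul_le_mul_of_nonneg_left (ho.2 y ((h0 y).1 hx')) h2.le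
  have he : answer (σ • A) (β • b) (τ • c) p e =
      (answer A b c p e).map fun x => (β / σ) • x := by
    unfold answer
    rw [haltTime_scale hσ hβ hτ, run_scale hσ hβ hτ, guess_scale hσ hβ, candX_scale hσ,
      candX_scale hσ]
    by_cases h1 : Passes A b c (guess A b (run A b c p (haltTime A b c p e)).2)
    · rw [if_pos h1, if_pos ((passes_scale hσ hβ hτ _).2 h1)]; rfl
    rw [if_neg h1, if_neg ((passes_scale hσ hβ hτ _).not.2 h1)]
    by_cases h2 : Passes A b c (e (haltTime A b c p e))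
    · rw [if_pos h2, if_pos ((passes_scale hσ hβ hτ _).2 h2)]; rfl
    · rw [if_neg h2, if_neg ((passes_scale hσ hβ hτ _).not.2 h2)]; rfl
  rw [he]
  exact key _ h

end Pool.Agent.Work.MP_6af739_lc.HO
end

-- merged part: Pool.Agent.Work.MP_6af739_lc.HO.Fin
section
/-!
Final assembly: copy J1, J1_of, J1_not, meas_J1, inv_J1, J1_sym, TS, meas_TS, TS_mean, main2 of SymFinal.lean and stop_le_TT of Final.lean,
with JP in place of JJ. P = p (m/n) log m, μ = m^(1/(2p+2)) ≥ 1, μ^(2p+2) = m. Majorant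
2 + ofReal (20000 μ) J1 + ofReal (1000 μ p) (ofReal (10^5 √m) NS) + (choose + 1) 1_SG. Mean of J1 under the shifted law:
≤ E P^6002 + P^3 by sym_bdd with K = P^3 √m if ν ≤ √log m and P^10 ≤ n + 1; otherwise √m ≤ m ≤ E or √m ≤ m ≤ P^11.
NB_sym, choose_sym, ae_gen, mp_split are reused.
-/

namespace Pool.Agent.Work.MP_6af739_lc.HO

open Matrix Finset MeasureTheory ProbabilityTheory
open Pool.Agent.Work.MP_6a50bc_pr
open Pool.Agent.Work.MP_5c5849_an (sg av)
open scoped ENNReal Polynomial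

section

variable {m n : ℕ}

/-- The path integral on good matrices. -/
noncomputable def fin_J (p : ℕ) (b : Fin m → ℝ) (z : Fin (m + 1) → Fin n → ℝ) : ℝ≥0∞ :=
  {a | Good (Matrix.of a) (45 / 100)}.indicator (fun a => JP p (Matrix.of a) b (un (z 0)))
    (Fin.tail z)

lemma fin_J_of {p : ℕ} {b : Fin m → ℝ} {z : Fin (m + 1) → Fin n → ℝ}
    (h : Good (Matrix.of (Fin.tail z)) (45 / 100)) :
    fin_J p b z = JP p (Matrix.of (Fin.tail z)) b (un (z 0)) :=
  Set.indicator_of_mem (s := {a | Good (Matrix.of a) (45 / 100)}) h _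

lemma fin_J_not {p : ℕ} {b : Fin m → ℝ} {z : Fin (m + 1) → Fin n → ℝ}
    (h : ¬Good (Matrix.of (Fin.tail z)) (45 / 100)) : fin_J p b z = 0 :=
  Set.indicator_of_notMem (s := {a | Good (Matrix.of a) (45 / 100)}) h _

lemma fin_meas_J (p : ℕ) (b : Fin m → ℝ) : Measurable (fin_J (n := n) p b) := by
  have h0 : Measurable fun w : (Fin (m + 1) → Fin n → ℝ) × ℝ =>
      X (Matrix.of (Fin.tail w.1)) b (Real.exp w.2 • un (w.1 0)) :=
    (measurable_X b).comp ((meas_tail.comp measurable_fst).prodMk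
      (measurable_snd.exp.smul (meas_un.comp measurable_fst)))
  have h : Measurable fun w : (Fin (m + 1) → Fin n → ℝ) × ℝ => ENNReal.ofReal
      (1 + Ph p (Matrix.of (Fin.tail w.1)) b
        (X (Matrix.of (Fin.tail w.1)) b (Real.exp w.2 • un (w.1 0)))) :=
    (measurable_const.add (measurable_Ph p b (meas_tail.comp measurable_fst) h0)).ennreal_ofReal
  have h1 : Measurable fun z : Fin (m + 1) → Fin n → ℝ =>
      JP p (Matrix.of (Fin.tail z)) b (un (z 0)) := h.lintegral_prod_right'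
  exact h1.indicator (measurableSet_good meas_tail (45 / 100))

lemma fin_inv_J (p : ℕ) (b : Fin m → ℝ) : RInv (fin_J (n := n) p b) := fun O hO z => by
  by_cases h : Good (Matrix.of (Fin.tail z)) (45 / 100)
  · rw [fin_J_of h, fin_J_of (by rw [tail_rot]; exact (good_rot hO _).2 h), tail_rot, un_rot hO]
    simp only [JP, ← mulVec_smul, X_rot hO, Ph_rot hO]
  · rw [fin_J_not h, fin_J_not (by rw [tail_rot]; exact mt (good_rot hO _).1 h)]

lemma fin_J_sym {n p : ℕ} {b : Fin m → ℝ} (hm : 10 ^ 20 * (n + 1) ≤ m) (hb : Box b) {P : ℝ}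
    (hP : 10 ^ 20 ≤ P) (hp : (p : ℝ) ≤ P) (hrat : (m : ℝ) ≤ P * (n + 1 : ℕ))
    (hlog : 24 * Real.log m ≤ P) (N : Matrix (Fin (m + 1)) (Fin (n + 1)) ℝ) {ν : ℝ}
    (hν : ν = fro N ^ 2 / √(n + 1 : ℕ)) :
    ∫⁻ z, fin_J p b (fun j i => N j i + z j i) ∂(gm (Fin (m + 1)) (Fin (n + 1))) ≤
      ENNReal.ofReal (Real.exp (2 * ν ^ 2 + ν * √(Real.log m)) * P ^ 6002 + P ^ 3) := by
  have hm0 : 0 < m := by omega
  have hm1 : (1 : ℝ) < m := by exact_mod_cast (by omega : 1 < m)
  have hm2 : (0 : ℝ) < m := by linarith only [hm1]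
  have hl : 0 < Real.log m := Real.log_pos hm1
  have hP1 : 1 ≤ P := le_trans (by norm_num) hP
  have hP0 : 0 ≤ P := le_trans zero_le_one hP1
  have hν0 : 0 ≤ ν := by rw [hν]; positivity
  have hK : ∀ z : Fin (m + 1) → Fin (n + 1) → ℝ,
      fin_J p b z ≤ ENNReal.ofReal (P ^ 3 * √m) := fun z => by
    by_cases h : Good (Matrix.of (Fin.tail z)) (45 / 100)
    · rw [fin_J_of h]
      exact JP_le hm0 (h.mono (by norm_num)) hb _ hP hp hlog
    · rw [fin_J_not h]
      exact zero_le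
  set E := Real.exp (2 * ν ^ 2 + ν * √(Real.log m)) with hE
  have hE1 : 1 ≤ E := Real.one_le_exp (by positivity)
  have hE0 : 0 ≤ E := le_trans zero_le_one hE1
  have hq : 0 ≤ P ^ 3 := pow_nonneg hP0 _
  have hq' : 0 ≤ P ^ 6002 := pow_nonneg hP0 _
  by_cases hc : ν ≤ √(Real.log m) ∧ P ^ 10 ≤ (n + 1 : ℕ)
  · have h1 := sym_bdd (fin_meas_J p b) (fin_inv_J p b) hK N (Real.sqrt_pos.2 hl) hν hc.1 (by
      refine Real.le_sqrt_of_sq_le ?_
      rw [mul_pow, Real.sq_sqrt hl.le]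
      have : P ≤ P ^ 10 := le_self_pow₀ hP1 (by norm_num)
      linarith only [hP, hlog, hc, this, hc.2])
    have hPar : Par m (n + 1) P := by
      refine ⟨hP, hrat, hc.2, by omega, ?_⟩
      rw [← Real.exp_log (pow_pos hm2 24), Real.log_pow]
      exact Real.exp_le_exp.2 (by exact_mod_cast hlog)
    have h5 : ∫⁻ z, fin_J p b z ∂(gm (Fin (m + 1)) (Fin (n + 1))) ≤ ENNReal.ofReal (P ^ 6002) :=
      null_le (by omega) (fin_meas_J p b) fun c hc => by
        simp only [fin_J, Fin.cons_zero, Fin.tail_cons]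
        exact lintegral_JP_le hPar hp hb (nrm_un hc)
    have h3 : Real.exp (-√(Real.log m) ^ 2 / 2) = (√(m : ℝ))⁻¹ := by
      rw [Real.sq_sqrt hl.le, Real.sqrt_eq_rpow, Real.rpow_def_of_pos hm2, ← Real.exp_neg]
      congr 1; ring
    have hsq : 0 < √(m : ℝ) := Real.sqrt_pos.2 hm2
    refine h1.trans ?_
    rw [ENNReal.ofReal_add (mul_nonneg hE0 hq') hq,
      ← ENNReal.ofReal_mul (mul_nonneg hq hsq.le), h3, mul_assoc,
      mul_inv_cancel₀ hsq.ne', mul_one, ENNReal.ofReal_mul (p := E) hE0]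
    exact add_le_add (mul_le_mul_right h5 _) le_rfl
  · refine (lintegral_mono fun z => hK _).trans ?_
    rw [lintegral_const, measure_univ, mul_one]
    refine ENNReal.ofReal_le_ofReal (le_add_of_le_of_nonneg ?_ hq)
    have h2 : √(m : ℝ) ≤ m := Real.sqrt_le_iff.2 ⟨hm2.le, le_self_pow₀ hm1.le (by norm_num)⟩
    have h11 : 1 ≤ P ^ 11 := one_le_pow₀ hP1
    have h6 : (m : ℝ) ≤ E * P ^ 11 := by
      rcases not_and_or.1 hc with h | h
      · have h7 : Real.log m ≤ ν ^ 2 := by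
          rw [← Real.sq_sqrt hl.le]
          exact pow_le_pow_left₀ (Real.sqrt_nonneg _) (not_le.1 h).le 2
        have h8 : (m : ℝ) ≤ E := by
          rw [← Real.exp_log hm2]
          refine Real.exp_le_exp.2 ?_
          have : 0 ≤ ν * √(Real.log m) := by positivity
          linarith only [hl, h7, this]
        exact h8.trans (le_mul_of_one_le_right hE0 h11)
      · calc (m : ℝ) ≤ P * P ^ 10 := hrat.trans (mul_le_mul_of_nonneg_left (not_le.1 h).le hP0)
          _ = P ^ 11 := by ring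
          _ ≤ E * P ^ 11 := le_mul_of_one_le_left (le_trans zero_le_one h11) hE1
    calc P ^ 3 * √(m : ℝ) ≤ P ^ 3 * (E * P ^ 11) := mul_le_mul_of_nonneg_left (h2.trans h6) hq
      _ = E * P ^ 14 := by ring
      _ ≤ E * P ^ 6002 :=
        mul_le_mul_of_nonneg_left (pow_le_pow_right₀ hP1 (by norm_num)) hE0

/-- The majorant as a function of the stacked matrix. -/
noncomputable def fin_T (p : ℕ) (μ : ℝ) (b : Fin m → ℝ) (z : Fin (m + 1) → Fin n → ℝ) : ℝ≥0∞ :=
  2 + ENNReal.ofReal (20000 * μ) * fin_J p b z + ENNReal.ofReal (1000 * μ * p) *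
    (ENNReal.ofReal (10 ^ 5 * √m) * ∑' i : ℕ, (SB b (tt m i)).indicator 1 z) +
    ((m.choose n : ℝ≥0∞) + 1) * (SG m n).indicator 1 z

lemma fin_meas_T (p : ℕ) (μ : ℝ) (b : Fin m → ℝ) : Measurable (fin_T (n := n) p μ b) :=
  ((measurable_const.add ((fin_meas_J p b).const_mul _)).add
    (((meas_NS b).const_mul _).const_mul _)).add ((measurable_one.indicator ms_SG).const_mul _)

lemma fin_halt_le {p : ℕ} (hp : 1 ≤ p) (hm : 0 < m) {b : Fin m → ℝ} (hb : Box b)
    {z : Fin (m + 1) → Fin n → ℝ} (h0 : z 0 ≠ 0)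
    (hG : GenPos (Matrix.of (Fin.tail z)) b (un (z 0))) (e : ℕ → Finset (Fin m)) {μ : ℝ}
    (hμ : 1 ≤ μ) (hμm : μ ^ (2 * p + 2) = m) :
    (haltTime (Matrix.of (Fin.tail z)) b (un (z 0)) p e : ℝ≥0∞) + 1 ≤ fin_T p μ b z := by
  by_cases h : Good (Matrix.of (Fin.tail z)) (45 / 100)
  · refine (halt_le hp hm h hb (nrm_un h0) hG e hμ hμm).trans ?_
    unfold fin_T
    rw [fin_J_of h]
    exact le_self_add
  · unfold fin_T
    rw [Set.indicator_of_mem (show z ∈ SG m n from h)]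
    refine le_trans ?_ le_add_self
    rw [Pi.one_apply, mul_one]
    gcongr
    exact_mod_cast haltTime_le e

lemma fin_arith {E E0 P μ p : ℝ} (hE0 : E0 ≤ E) (hE1 : 1 ≤ E) (hP : 10 ^ 20 ≤ P) (hμ : 1 ≤ μ)
    (hp : p ≤ P) (h0 : 0 ≤ E0) {R : ℝ} (hR : P ^ 3 ≤ R) :
    2 + 20000 * μ * (E * R + P ^ 3) + 1000 * μ * p * E0 + 2 * E0 ≤ E * μ * (R * P ^ 2) := by
  have hP1 : 1 ≤ P := le_trans (by norm_num) hP
  have a0 : P ≤ P ^ 3 := le_self_pow₀ hP1 (by norm_num)
  have a2 : 1 ≤ R := hP1.trans (a0.trans hR)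
  set W := E * μ * R with hW
  have a3 : μ * P ^ 3 ≤ W := by
    calc μ * P ^ 3 = 1 * μ * P ^ 3 := by ring
      _ ≤ W := by rw [hW]; gcongr
  have a4 : E ≤ W := by
    calc E = E * 1 * 1 := by ring
      _ ≤ W := by rw [hW]; gcongr
  have a6 : μ * p * E0 ≤ W := by
    calc μ * p * E0 ≤ μ * R * E := by gcongr; exact hp.trans (a0.trans hR)
      _ = W := by rw [hW]; ring
  have a5 : 50000 * W ≤ E * μ * (R * P ^ 2) := by
    have h1 : P ≤ P ^ 2 := le_self_pow₀ hP1 (by norm_num)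
    have h2 : (50000 : ℝ) ≤ P ^ 2 := by linarith only [hP, h1]
    have h3 : 0 ≤ W := by linarith only [a4, hE1]
    calc 50000 * W ≤ P ^ 2 * W := mul_le_mul_of_nonneg_right h2 h3
      _ = E * μ * (R * P ^ 2) := by rw [hW]; ring
  have a7 : 20000 * μ * (E * R + P ^ 3) = 20000 * W + 20000 * (μ * P ^ 3) := by rw [hW]; ring
  have a8 : 1000 * μ * p * E0 = 1000 * (μ * p * E0) := by ring
  rw [a7, a8]
  linarith only [hE0, hE1, a3, a4, a5, a6]

lemma fin_T_mean {n p : ℕ} {b : Fin m → ℝ} (hm : 10 ^ 20 * (n + 1) ≤ m) (hb : Box b) {P μ : ℝ}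
    (hP : 10 ^ 20 ≤ P) (hp : (p : ℝ) ≤ P) (hrat : (m : ℝ) ≤ P * (n + 1 : ℕ))
    (hlog : 24 * Real.log m ≤ P) (hμ : 1 ≤ μ) (N : Matrix (Fin (m + 1)) (Fin (n + 1)) ℝ) {ν : ℝ}
    (hν : ν = fro N ^ 2 / √(n + 1 : ℕ)) :
    ∫⁻ z, fin_T p μ b (fun j i => N j i + z j i) ∂(gm (Fin (m + 1)) (Fin (n + 1))) ≤
      ENNReal.ofReal (Real.exp (2 * ν ^ 2 + ν * √(Real.log m)) * μ * P ^ 6004) := by
  have hP1 : 1 ≤ P := le_trans (by norm_num) hP
  have hP0 : 0 ≤ P := le_trans zero_le_one hP1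
  have hμ0 : 0 ≤ μ := le_trans zero_le_one hμ
  have hp0 : (0 : ℝ) ≤ p := p.cast_nonneg
  have hν0 : 0 ≤ ν := by rw [hν]; positivity
  have hs := gaux_meas_add N
  have h4a := fin_J_sym hm hb hP hp hrat hlog N hν
  have h5 := NB_sym (by omega) hm hb N
  have h6 := choose_sym (by omega) hm N
  rw [← hν] at h5 h6
  set E := Real.exp (2 * ν ^ 2 + ν * √(Real.log m)) with hE
  have hE0 : Real.exp (2 * ν ^ 2) ≤ E := Real.exp_le_exp.2 (le_add_of_nonneg_right (by positivity))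
  have hE1 : 1 ≤ E := Real.one_le_exp (by positivity)
  have h7 : ∫⁻ z, (SG m (n + 1)).indicator (1 : (Fin (m + 1) → Fin (n + 1) → ℝ) → ℝ≥0∞)
      (fun j i => N j i + z j i) ∂(gm (Fin (m + 1)) (Fin (n + 1))) =
      gm (Fin (m + 1)) (Fin (n + 1)) {z | (fun j i => N j i + z j i) ∈ SG m (n + 1)} :=
    lintegral_indicator_one (μ := gm (Fin (m + 1)) (Fin (n + 1))) (hs ms_SG)
  have e1 : P ^ 6004 = P ^ 6002 * P ^ 2 := by rw [← pow_add]
  have hR : P ^ 3 ≤ P ^ 6002 := pow_le_pow_right₀ hP1 (by norm_num)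
  rw [e1]
  generalize P ^ 6002 = R at h4a hR ⊢
  have hR0 : 0 ≤ R := (pow_nonneg hP0 3).trans hR
  unfold fin_T
  rw [lintegral_add_left, lintegral_add_left, lintegral_add_left measurable_const, lintegral_const,
    measure_univ, mul_one, lintegral_const_mul' _ _ ENNReal.ofReal_ne_top,
    lintegral_const_mul' _ _ ENNReal.ofReal_ne_top, lintegral_const_mul' _ _ ENNReal.ofReal_ne_top,
    lintegral_const_mul' _ _ (by simp), h7]
  · refine le_trans (add_le_add (add_le_add (add_le_add le_rfl (mul_le_mul_right h4a _))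
      (mul_le_mul_right h5 _)) h6) ?_
    rw [show (2 : ℝ≥0∞) = ENNReal.ofReal 2 by simp,
      ← ENNReal.ofReal_mul (by positivity), ← ENNReal.ofReal_mul (by positivity),
      ← ENNReal.ofReal_add (by norm_num) (by positivity),
      ← ENNReal.ofReal_add (by positivity) (by positivity),
      ← ENNReal.ofReal_add (by positivity) (by positivity)]
    exact ENNReal.ofReal_le_ofReal (fin_arith hE0 hE1 hP hμ hp (Real.exp_pos _).le hR)
  · exact measurable_const.add (((fin_meas_J p b).comp hs).const_mul _)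
  · exact (measurable_const.add (((fin_meas_J p b).comp hs).const_mul _)).add
      ((((meas_NS b).comp hs).const_mul _).const_mul _)

end

theorem main3 : ∃ (C : ℝ) (κ : ℕ), ∀ (p m n : ℕ), 1 ≤ p → 1 ≤ n → C * n ≤ m →
    ∀ e : ℕ → Finset (Fin m), (∀ B : Finset (Fin m), B.card = n → ∃ i < m.choose n, e i = B) →
    ∀ (A₀ : Matrix (Fin m) (Fin n) ℝ) (b : Fin m → ℝ) (c₀ : Fin n → ℝ) (σ β ν : ℝ),
    0 < σ → 0 < β → (∀ j, β ≤ b j ∧ b j ≤ 3 * β) →
    ν = (∑ j, ∑ i, A₀ j i ^ 2 + ∑ i, c₀ i ^ 2) / (σ ^ 2 * √n) →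
    ∃ T : (Fin m → Fin n → ℝ) × (Fin n → ℝ) → ℝ≥0∞, Measurable T ∧
      (∀ᵐ q ∂((Measure.pi fun _ : Fin m => Measure.pi fun _ : Fin n => gaussianReal 0 1).prod
          (Measure.pi fun _ : Fin n => gaussianReal 0 1)),
        ∀ (A : Matrix (Fin m) (Fin n) ℝ) (c : Fin n → ℝ), A = A₀ + σ • Matrix.of q.1 →
          c = c₀ + σ • q.2 →
        (∀ i j, 0 < slack A b (run A b c p i).2 j ∧
          0 < slack A b (advance A b c p (run A b c p i)).2 j) ∧
        Correct A b c (answer A b c p e) ∧ (haltTime A b c p e : ℝ≥0∞) + 1 ≤ T q) ∧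
      ∫⁻ q, T q ∂((Measure.pi fun _ : Fin m => Measure.pi fun _ : Fin n => gaussianReal 0 1).prod
          (Measure.pi fun _ : Fin n => gaussianReal 0 1)) ≤
        ENNReal.ofReal (Real.exp (2 * ν ^ 2 + ν * √(Real.log m)) *
          (m : ℝ) ^ (1 / (2 * p + 2) : ℝ) * (p * ((m : ℝ) / n) * Real.log m) ^ κ) := by
  refine ⟨10 ^ 20, 6004, fun p m n hp hn hm e he A₀ b c₀ σ β ν hσ hβ hb hν => ?_⟩
  obtain ⟨n, rfl⟩ : ∃ k, n = k + 1 := ⟨n - 1, by omega⟩
  have hm' : 10 ^ 20 * (n + 1) ≤ m := by exact_mod_cast hm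
  have hm0 : 0 < m := by omega
  have hm1 : (0 : ℝ) < m := by exact_mod_cast hm0
  have hm2 : (1 : ℝ) ≤ m := by exact_mod_cast hm0
  have hn0 : (0 : ℝ) < (n + 1 : ℕ) := by positivity
  set μ : ℝ := (m : ℝ) ^ (1 / (2 * p + 2) : ℝ) with hμd
  have hμ : 1 ≤ μ := Real.one_le_rpow hm2 (by positivity)
  have hμm : μ ^ (2 * p + 2) = m := by
    rw [hμd, ← Real.rpow_natCast, ← Real.rpow_mul hm1.le]
    push_cast
    rw [one_div_mul_cancel (by positivity), Real.rpow_one]
  set b' : Fin m → ℝ := β⁻¹ • b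
  set N : Matrix (Fin (m + 1)) (Fin (n + 1)) ℝ := σ⁻¹ • Matrix.of (Fin.cons c₀ A₀) with hN
  have hb' : Box b' := fun j => by
    have h := hb j
    simp only [b', Pi.smul_apply, smul_eq_mul]
    constructor
    · rw [le_inv_mul_iff₀ hβ]; linarith only [h, h.1]
    · rw [inv_mul_le_iff₀ hβ]; linarith only [h, h.2]
  have hb0 : ∀ j, 0 < b' j := fun j => lt_of_lt_of_le one_pos (hb' j).1
  have eb : b = β • b' := by simp [b', smul_smul, mul_inv_cancel₀ hβ.ne']
  have hT := (fin_meas_T p μ b').comp (gaux_meas_add N)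
  refine ⟨fun q => fin_T p μ b' fun j i => N j i + (Fin.cons q.2 q.1 : Fin (m + 1) → _) j i,
    hT.comp mp_split.measurable, ?_, ?_⟩
  · have h := mp_split.quasiMeasurePreserving.ae
      (ae_shift N (ae_gen (m := m) hn (by omega) fun j => (hb0 j).ne'))
    filter_upwards [h] with q hq A c hA hc
    set w : Fin (m + 1) → Fin (n + 1) → ℝ :=
      fun j i => N j i + (Fin.cons q.2 q.1 : Fin (m + 1) → _) j i with hw
    obtain ⟨h0, hG⟩ : w 0 ≠ 0 ∧ GenPos (Matrix.of (Fin.tail w)) b' (un (w 0)) := hq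
    have hτ := nrm_pos h0
    have hτ0 : 0 < σ * nrm (w 0) := mul_pos hσ hτ
    have eA : A = σ • Matrix.of (Fin.tail w) := by
      rw [hA]
      ext j i
      simp [hw, hN, Fin.tail, mul_add, ← mul_assoc, mul_inv_cancel₀ hσ.ne']
    have ec : c = (σ * nrm (w 0)) • un (w 0) := by
      rw [un, smul_smul, mul_assoc, mul_inv_cancel₀ hτ.ne', mul_one, hc]
      ext i
      simp [hw, hN, mul_add, ← mul_assoc, mul_inv_cancel₀ hσ.ne']
    rw [eA, eb, ec]
    refine ⟨fun i j => ⟨?_, ?_⟩, ?_, ?_⟩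
    · exact inter_run_scale hσ hβ hτ0 i (near_run hp hG.1 hb0 (un_ne h0) i).2.1.1 j
    · exact inter_advance_scale hσ hβ hτ0 i (near_run hp hG.1 hb0 (un_ne h0) i).2.2 j
    · exact answer_scale hσ hβ hτ0 e (answer_correct hG hb0 he)
    · rw [haltTime_scale hσ hβ hτ0]
      exact fin_halt_le hp hm0 hb' h0 hG e hμ hμm
  · have hρ : (10 : ℝ) ^ 20 ≤ m / (n + 1 : ℕ) := by rw [le_div_iff₀ hn0]; exact hm
    have hl : 1 ≤ Real.log m := by
      rw [Real.le_log_iff_exp_le hm1]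
      have : (3 : ℝ) ≤ m := by exact_mod_cast (by omega : 3 ≤ m)
      linarith only [hm, hn0, this, Real.exp_one_lt_d9]
    have hf : ν = fro N ^ 2 / √(n + 1 : ℕ) := by
      rw [hν, hN, fro_smul, mul_pow, sq_abs, fro_sq, ip, Fin.sum_univ_succ (n := m)]
      simp only [of_apply, Fin.cons_zero, Fin.cons_succ, ← sq]
      field_simp
      ring
    have hp1 : (1 : ℝ) ≤ p := by exact_mod_cast hp
    have hρ1 : (1 : ℝ) ≤ m / (n + 1 : ℕ) := le_trans (by norm_num) hρ
    refine (mp_split.lintegral_comp hT).trans_le (fin_T_mean hm' hb' ?_ ?_ ?_ ?_ hμ N hf)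
    · calc (10 : ℝ) ^ 20 = 1 * 10 ^ 20 * 1 := by ring
        _ ≤ _ := by gcongr
    · calc (p : ℝ) = p * 1 * 1 := by ring
        _ ≤ _ := by gcongr
    · calc (m : ℝ) = 1 * (m / (n + 1 : ℕ)) * 1 * (n + 1 : ℕ) := by field_simp
        _ ≤ _ := by gcongr
    · calc 24 * Real.log m = 1 * 24 * Real.log m := by ring
        _ ≤ _ := by
          gcongr
          exact le_trans (by norm_num) hρ

end Pool.Agent.Work.MP_6af739_lc.HO
end

-- merged part: Pool.Agent.Work.MP_6af739_lc.HO.CapDefs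
section
/-!
The interior-point method with a Taylor predictor of order `p`, a line search with a bounded number
of trials and a Newton corrector, for `max c·x` subject to `A x ≤ b` with `b > 0`, from `x = 0`.
-/

namespace Pool.Agent.Work.MP_6af739_lc.Cap

open Matrix Finset HO

variable {m n : ℕ} (A : Matrix (Fin m) (Fin n) ℝ) (b : Fin m → ℝ) (c : Fin n → ℝ)

open Classical in
/-- The step length: `1 / 2^k` for the least accepted `k`, if some `k ≤ 30 + ⌈log₂ (p m)⌉` is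
accepted, and `0` otherwise. -/
noncomputable def step (p : ℕ) (q : ℝ × (Fin n → ℝ)) : ℝ :=
  if ∃ k ≤ 30 + Nat.clog 2 (p * m), Fits A b c p q (1 / 2 ^ k) then
    1 / 2 ^ sInf {k : ℕ | Fits A b c p q (1 / 2 ^ k)}
  else 0

/-- Predictor step of order `p`. -/
noncomputable def advance (p : ℕ) (q : ℝ × (Fin n → ℝ)) : ℝ × (Fin n → ℝ) :=
  ((1 + step A b c p q) * q.1, point A b c p q (step A b c p q))

/-- The iterates `(λ_i, x_i)`. -/
noncomputable def run (p : ℕ) : ℕ → ℝ × (Fin n → ℝ)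
  | 0 => ((1 / 100) / ∑ j, |(A *ᵥ ((hess A b 0)⁻¹ *ᵥ c)) j / b j|, 0)
  | i + 1 => correct A b c (advance A b c p (run p i))

/-- Iteration `i` stops: the rows with the smallest slacks pass the test, or the safeguard
set `e i` passes the test, or all `n`-sets of rows have been tried. -/
def Halts (p : ℕ) (e : ℕ → Finset (Fin m)) (i : ℕ) : Prop :=
  Passes A b c (guess A b (run A b c p i).2) ∨ Passes A b c (e i) ∨ i = m.choose n

/-- The first iteration that stops. -/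
noncomputable def haltTime (p : ℕ) (e : ℕ → Finset (Fin m)) : ℕ := sInf {i | Halts A b c p e i}

open Classical in
/-- The output: an optimal point, or `none` for unbounded. -/
noncomputable def answer (p : ℕ) (e : ℕ → Finset (Fin m)) : Option (Fin n → ℝ) :=
  if Passes A b c (guess A b (run A b c p (haltTime A b c p e)).2) then
    some (candX A b (guess A b (run A b c p (haltTime A b c p e)).2))
  else if Passes A b c (e (haltTime A b c p e)) then some (candX A b (e (haltTime A b c p e)))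
  else none

end Pool.Agent.Work.MP_6af739_lc.Cap
end

-- merged part: Pool.Agent.Work.MP_6af739_lc.HO.Cap
section
/-! The bound on the number of trials of the line search does not bind on good matrices. -/

namespace Pool.Agent.Work.MP_6af739_lc.Cap

open Matrix Finset MeasureTheory ProbabilityTheory
open Pool.Agent.Work.MP_6a50bc_pr
open HO hiding step advance run Halts haltTime answer
open scoped ENNReal

section

variable {m n p : ℕ} {A : Matrix (Fin m) (Fin n) ℝ} {b : Fin m → ℝ} {c : Fin n → ℝ} {σ β τ : ℝ}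

lemma cap_cases (s : ℝ × (Fin n → ℝ)) : step A b c p s = HO.step A b c p s ∨ step A b c p s = 0 := by
  unfold step
  split_ifs
  · exact Or.inl rfl
  · exact Or.inr rfl

lemma cap_adv (hp : 1 ≤ p) (hA : Inj A) {s : ℝ × (Fin n → ℝ)} (h : Near A b c (1 / 100) s.1 s.2) :
    Near A b c (2 * (1 / 100) + 1 / 100) (advance A b c p s).1 (advance A b c p s).2 := by
  unfold advance
  rcases cap_cases (A := A) (b := b) (c := c) (p := p) s with e | e <;> rw [e]
  · obtain ⟨h1, h2⟩ := (fits_iff h.1 _).1 (fits_step (c := c) (p := p) h.1)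
    exact near_point hp hA h (fun k => (h1 k).1) zero_le_two (fun k => (h1 k).2) h2
  · obtain ⟨h1, w, h2, h3⟩ := h
    rw [show point A b c p s 0 = s.2 by simp [point], add_zero, one_mul]
    exact ⟨h1, w, h2, h3.trans (by norm_num)⟩

lemma cap_near (hp : 1 ≤ p) (hA : Inj A) (hb : ∀ j, 0 < b j) (hc : c ≠ 0) (i : ℕ) :
    Near A b c (1 / 100) (run A b c p i).1 (run A b c p i).2 ∧
      Inter A b (advance A b c p (run A b c p i)).2 := by
  have key : ∀ i, Near A b c (1 / 100) (run A b c p i).1 (run A b c p i).2 := by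
    intro i
    induction i with
    | zero => exact (near_iter hA hb hc 0).2.1
    | succ i ih =>
      obtain ⟨h2, w, h3, h4⟩ := near_correct hA (cap_adv hp hA ih) (by norm_num)
      exact ⟨h2, w, h3, h4.trans (by norm_num)⟩
  exact ⟨key i, (cap_adv hp hA (key i)).1⟩

lemma cap_inj (hσ : 0 < σ) (hA : Inj A) : Inj (σ • A) := fun z hz =>
  hA z ((smul_eq_zero.1 (by rwa [smul_mulVec] at hz)).resolve_left hσ.ne')

lemma cap_le (e : ℕ → Finset (Fin m)) : haltTime A b c p e ≤ m.choose n :=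
  Nat.sInf_le (show Halts A b c p e _ from Or.inr (Or.inr rfl))

lemma cap_correct (hσ : 0 < σ) (hβ : 0 < β) (hτ : 0 < τ) (hG : GenPos A b c) (hb : ∀ j, 0 < b j)
    {e : ℕ → Finset (Fin m)} (he : ∀ B : Finset (Fin m), B.card = n → ∃ i < m.choose n, e i = B) :
    Correct (σ • A) (β • b) (τ • c) (answer (σ • A) (β • b) (τ • c) p e) := by
  have hN : Halts (σ • A) (β • b) (τ • c) p e (haltTime (σ • A) (β • b) (τ • c) p e) :=
    Nat.sInf_mem (s := {i | Halts (σ • A) (β • b) (τ • c) p e i})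
      ⟨m.choose n, Or.inr (Or.inr rfl)⟩
  unfold answer
  split_ifs with h1 h2
  · exact passes_correct h1
  · exact passes_correct h2
  · intro M
    by_contra hM
    push Not at hM
    have h0 : 0 < τ * (β / σ) := by positivity
    obtain ⟨B, hB⟩ := exists_strict hG (fun j => (hb j).le) ⟨M / (τ * (β / σ)), fun x hx => by
      have := hM ((β / σ) • x) fun j => by
        simpa only [mulVec_scale hσ, Pi.smul_apply, smul_eq_mul, mul_le_mul_iff_right₀ hβ]
          using hx j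
      rwa [smul_dotProduct, dotProduct_smul, smul_eq_mul, smul_eq_mul, ← mul_assoc,
        ← le_div_iff₀' h0] at this⟩
    obtain ⟨i, hi, rfl⟩ := he B hB.1.2.1
    have h3 : haltTime (σ • A) (β • b) (τ • c) p e ≤ i :=
      Nat.sInf_le (show Halts (σ • A) (β • b) (τ • c) p e i from
        Or.inr (Or.inl ((passes_scale hσ hβ hτ _).2 hB.passes)))
    rcases hN with h | h | h
    · exact h1 h
    · exact h2 h
    · omega

lemma cap_ok (hp : 1 ≤ p) (hm : 0 < m) (h : Good A (44 / 100)) (hb : Box b) (hc : c ≠ 0) {μ : ℝ}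
    (hμ : 1 ≤ μ) (hμm : μ ^ (2 * p + 2) = m) (i : ℕ) :
    ∃ k ≤ 30 + Nat.clog 2 (p * m), Fits A b c p (HO.run A b c p i) (1 / 2 ^ k) := by
  have hb0 : ∀ j, 0 < b j := fun j => zero_lt_one.trans_le (hb j).1
  obtain ⟨h0, hn, -⟩ := near_run (p := p) hp (h.inj hm) hb0 hc i
  refine ⟨_, ?_, fits_step (c := c) (p := p) hn.1⟩
  have ha := step_pos (A := A) (b := b) (c := c) (p := p) (HO.run A b c p i)
  have hy := X_sol (h.dom hm hb ((HO.run A b c p i).1 • c))
  have h1 := step_low hp (h.inj hm) hb0 (fun _ => h.dom hm hb _) hn h0 le_rfl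
    (le_mul_of_one_le_left h0.le (le_add_of_nonneg_right ha.le)) hy hμ hμm
  have h2 := Ph_crude hm h hb hy.1 p
  have h3 : μ ≤ √m := Real.le_sqrt_of_sq_le (hμm ▸ pow_le_pow_right₀ hμ (by omega))
  have h4 : √(m : ℝ) * √m = m := Real.mul_self_sqrt (Nat.cast_nonneg m)
  have h5 : (1 : ℝ) ≤ p * √m := one_le_mul_of_one_le_of_one_le (Nat.one_le_cast.2 hp) (hμ.trans h3)
  have h6 : ((p * m : ℕ) : ℝ) ≤ 2 ^ Nat.clog 2 (p * m) := by
    exact_mod_cast Nat.le_pow_clog one_lt_two _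
  have h7 : μ * (1 + Ph p A b (X A b ((HO.run A b c p i).1 • c))) ≤ 5000 * (p * m : ℕ) :=
    (mul_le_mul h3 (show _ ≤ 5000 * (p * √m) by linarith)
      (add_nonneg zero_le_one (Ph_nonneg _ _ _ _)) (Real.sqrt_nonneg _)).trans_eq (by
        push_cast
        linear_combination 5000 * p * h4)
  have h8 := h1.trans (mul_le_mul_of_nonneg_left h7 ha.le)
  rw [HO.step, one_div_mul_eq_div, le_div_iff₀ (by positivity)] at h8
  refine (pow_le_pow_iff_right₀ (one_lt_two (α := ℝ))).1 ?_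
  rw [pow_add]
  have h9 : (0 : ℝ) ≤ 2 ^ Nat.clog 2 (p * m) := by positivity
  linarith

lemma cap_run (hσ : 0 < σ) (hβ : 0 < β) (hτ : 0 < τ) (hp : 1 ≤ p) (hm : 0 < m)
    (h : Good A (44 / 100)) (hb : Box b) (hc : c ≠ 0) {μ : ℝ} (hμ : 1 ≤ μ)
    (hμm : μ ^ (2 * p + 2) = m) (i : ℕ) :
    run (σ • A) (β • b) (τ • c) p i = HO.run (σ • A) (β • b) (τ • c) p i := by
  induction i with
  | zero => rfl
  | succ i ih =>
    have e : step (σ • A) (β • b) (τ • c) p (HO.run (σ • A) (β • b) (τ • c) p i) =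
        HO.step (σ • A) (β • b) (τ • c) p (HO.run (σ • A) (β • b) (τ • c) p i) := by
      refine if_pos ?_
      simp only [run_scale hσ hβ hτ, scale_fits hσ hβ hτ]
      exact cap_ok hp hm h hb hc hμ hμm i
    rw [run, HO.run, ih, advance, e, HO.advance]

lemma cap_halt (hσ : 0 < σ) (hβ : 0 < β) (hτ : 0 < τ) (hp : 1 ≤ p) (hm : 0 < m)
    (h : Good A (44 / 100)) (hb : Box b) (hc : c ≠ 0) {μ : ℝ} (hμ : 1 ≤ μ)
    (hμm : μ ^ (2 * p + 2) = m) (e : ℕ → Finset (Fin m)) :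
    haltTime (σ • A) (β • b) (τ • c) p e = HO.haltTime (σ • A) (β • b) (τ • c) p e := by
  simp only [haltTime, HO.haltTime, Halts, HO.Halts, cap_run hσ hβ hτ hp hm h hb hc hμ hμm]

end

theorem main4 : ∃ (C : ℝ) (κ : ℕ), ∀ (p m n : ℕ), 1 ≤ p → 1 ≤ n → C * n ≤ m →
    ∀ e : ℕ → Finset (Fin m), (∀ B : Finset (Fin m), B.card = n → ∃ i < m.choose n, e i = B) →
    ∀ (A₀ : Matrix (Fin m) (Fin n) ℝ) (b : Fin m → ℝ) (c₀ : Fin n → ℝ) (σ β ν : ℝ),
    0 < σ → 0 < β → (∀ j, β ≤ b j ∧ b j ≤ 3 * β) →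
    ν = (∑ j, ∑ i, A₀ j i ^ 2 + ∑ i, c₀ i ^ 2) / (σ ^ 2 * √n) →
    ∃ T : (Fin m → Fin n → ℝ) × (Fin n → ℝ) → ℝ≥0∞, Measurable T ∧
      (∀ᵐ q ∂((Measure.pi fun _ : Fin m => Measure.pi fun _ : Fin n => gaussianReal 0 1).prod
          (Measure.pi fun _ : Fin n => gaussianReal 0 1)),
        ∀ (A : Matrix (Fin m) (Fin n) ℝ) (c : Fin n → ℝ), A = A₀ + σ • Matrix.of q.1 →
          c = c₀ + σ • q.2 →
        (∀ i j, 0 < slack A b (run A b c p i).2 j ∧
          0 < slack A b (advance A b c p (run A b c p i)).2 j) ∧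
        Correct A b c (answer A b c p e) ∧ (haltTime A b c p e : ℝ≥0∞) + 1 ≤ T q) ∧
      ∫⁻ q, T q ∂((Measure.pi fun _ : Fin m => Measure.pi fun _ : Fin n => gaussianReal 0 1).prod
          (Measure.pi fun _ : Fin n => gaussianReal 0 1)) ≤
        ENNReal.ofReal (Real.exp (2 * ν ^ 2 + ν * √(Real.log m)) *
          (m : ℝ) ^ (1 / (2 * p + 2) : ℝ) * (p * ((m : ℝ) / n) * Real.log m) ^ κ) := by
  refine ⟨10 ^ 20, 6004, fun p m n hp hn hm e he A₀ b c₀ σ β ν hσ hβ hb hν => ?_⟩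
  obtain ⟨n, rfl⟩ : ∃ k, n = k + 1 := ⟨n - 1, by omega⟩
  have hm' : 10 ^ 20 * (n + 1) ≤ m := by exact_mod_cast hm
  have hm0 : 0 < m := by omega
  have hm1 : (0 : ℝ) < m := by exact_mod_cast hm0
  have hm2 : (1 : ℝ) ≤ m := by exact_mod_cast hm0
  have hn0 : (0 : ℝ) < (n + 1 : ℕ) := by positivity
  set μ : ℝ := (m : ℝ) ^ (1 / (2 * p + 2) : ℝ) with hμd
  have hμ : 1 ≤ μ := Real.one_le_rpow hm2 (by positivity)
  have hμm : μ ^ (2 * p + 2) = m := by
    rw [hμd, ← Real.rpow_natCast, ← Real.rpow_mul hm1.le]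
    push_cast
    rw [one_div_mul_cancel (by positivity), Real.rpow_one]
  set b' : Fin m → ℝ := β⁻¹ • b
  set N : Matrix (Fin (m + 1)) (Fin (n + 1)) ℝ := σ⁻¹ • Matrix.of (Fin.cons c₀ A₀) with hN
  have hb' : Box b' := fun j => by
    have h := hb j
    simp only [b', Pi.smul_apply, smul_eq_mul]
    constructor
    · rw [le_inv_mul_iff₀ hβ]; linarith only [h, h.1]
    · rw [inv_mul_le_iff₀ hβ]; linarith only [h, h.2]
  have hb0 : ∀ j, 0 < b' j := fun j => lt_of_lt_of_le one_pos (hb' j).1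
  have eb : b = β • b' := by simp [b', smul_smul, mul_inv_cancel₀ hβ.ne']
  have hT := (fin_meas_T p μ b').comp (gaux_meas_add N)
  refine ⟨fun q => fin_T p μ b' fun j i => N j i + (Fin.cons q.2 q.1 : Fin (m + 1) → _) j i,
    hT.comp mp_split.measurable, ?_, ?_⟩
  · have h := mp_split.quasiMeasurePreserving.ae
      (ae_shift N (ae_gen (m := m) hn (by omega) fun j => (hb0 j).ne'))
    filter_upwards [h] with q hq A c hA hc
    set w : Fin (m + 1) → Fin (n + 1) → ℝ :=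
      fun j i => N j i + (Fin.cons q.2 q.1 : Fin (m + 1) → _) j i with hw
    obtain ⟨h0, hG⟩ : w 0 ≠ 0 ∧ GenPos (Matrix.of (Fin.tail w)) b' (un (w 0)) := hq
    have hτ := nrm_pos h0
    have hτ0 : 0 < σ * nrm (w 0) := mul_pos hσ hτ
    have eA : A = σ • Matrix.of (Fin.tail w) := by
      rw [hA]
      ext j i
      simp [hw, hN, Fin.tail, mul_add, ← mul_assoc, mul_inv_cancel₀ hσ.ne']
    have ec : c = (σ * nrm (w 0)) • un (w 0) := by
      rw [un, smul_smul, mul_assoc, mul_inv_cancel₀ hτ.ne', mul_one, hc]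
      ext i
      simp [hw, hN, mul_add, ← mul_assoc, mul_inv_cancel₀ hσ.ne']
    rw [eA, eb, ec]
    have hn := cap_near (p := p) hp (cap_inj hσ hG.1) (b := β • b') (fun j => mul_pos hβ (hb0 j))
      (smul_ne_zero hτ0.ne' (un_ne h0))
    refine ⟨fun i j => ⟨(hn i).1.1 j, (hn i).2 j⟩, cap_correct hσ hβ hτ0 hG hb0 he, ?_⟩
    by_cases h : Good (Matrix.of (Fin.tail w)) (45 / 100)
    · rw [cap_halt hσ hβ hτ0 hp hm0 (h.mono (by norm_num)) hb' (un_ne h0) hμ hμm,
        haltTime_scale hσ hβ hτ0]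
      exact fin_halt_le hp hm0 hb' h0 hG e hμ hμm
    · show _ ≤ fin_T p μ b' w
      unfold fin_T
      rw [Set.indicator_of_mem (show w ∈ SG m (n + 1) from h)]
      refine le_trans ?_ le_add_self
      rw [Pi.one_apply, mul_one]
      gcongr
      exact_mod_cast cap_le e
  · have hρ : (10 : ℝ) ^ 20 ≤ m / (n + 1 : ℕ) := by rw [le_div_iff₀ hn0]; exact hm
    have hl : 1 ≤ Real.log m := by
      rw [Real.le_log_iff_exp_le hm1]
      have : (3 : ℝ) ≤ m := by exact_mod_cast (by omega : 3 ≤ m)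
      linarith only [hm, hn0, this, Real.exp_one_lt_d9]
    have hf : ν = fro N ^ 2 / √(n + 1 : ℕ) := by
      rw [hν, hN, fro_smul, mul_pow, sq_abs, fro_sq, ip, Fin.sum_univ_succ (n := m)]
      simp only [of_apply, Fin.cons_zero, Fin.cons_succ, ← sq]
      field_simp
      ring
    have hp1 : (1 : ℝ) ≤ p := by exact_mod_cast hp
    have hρ1 : (1 : ℝ) ≤ m / (n + 1 : ℕ) := le_trans (by norm_num) hρ
    refine (mp_split.lintegral_comp hT).trans_le (fin_T_mean hm' hb' ?_ ?_ ?_ ?_ hμ N hf)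
    · calc (10 : ℝ) ^ 20 = 1 * 10 ^ 20 * 1 := by ring
        _ ≤ _ := by gcongr
    · calc (p : ℝ) = p * 1 * 1 := by ring
        _ ≤ _ := by gcongr
    · calc (m : ℝ) = 1 * (m / (n + 1 : ℕ)) * 1 * (n + 1 : ℕ) := by field_simp
        _ ≤ _ := by gcongr
    · calc 24 * Real.log m = 1 * 24 * Real.log m := by ring
        _ ≤ _ := by
          gcongr
          exact le_trans (by norm_num) hρ

end Pool.Agent.Work.MP_6af739_lc.Cap
end

-- merged part: Pool.Agent.Work.MP_6af739_lc.HO.Bridge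
section
/-! The definitions collected in one file agree with the ones used in the proofs. -/

namespace Pool.Agent.Work.MP_6af739_lc.Stmt

variable {m n : ℕ} (A : Matrix (Fin m) (Fin n) ℝ) (b : Fin m → ℝ) (c : Fin n → ℝ)

lemma tay_eq (q : ℝ × (Fin n → ℝ)) (j : ℕ) : tay A b c q j = HO.tay A b c q j := by
  induction j using Nat.strong_induction_on with
  | _ j ih =>
    cases j with
    | zero =>
      rw [tay, HO.tay]
      rfl
    | succ j =>
      rw [tay, HO.tay]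
      refine congrArg (HO.next A b q.2) (Finset.sum_congr rfl fun i _ => ?_)
      rw [ih i i.2, ih (j - i) (Nat.lt_succ_of_le (Nat.sub_le _ _))]
      rfl

lemma point_eq : point A b c = HO.point A b c := by
  funext p q a
  simp only [point, HO.point, tay_eq]

lemma fits_eq : Fits A b c = HO.Fits A b c := by
  funext p q a
  simp only [Fits, HO.Fits, tay_eq, point_eq]
  rfl

lemma step_eq : step A b c = Cap.step A b c := by
  funext p q
  rw [step, Cap.step, fits_eq]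

lemma advance_eq : advance A b c = Cap.advance A b c := by
  funext p q
  simp only [advance, Cap.advance, step_eq, point_eq]

lemma run_eq : run A b c = Cap.run A b c := by
  funext p i
  induction i with
  | zero => rfl
  | succ i ih =>
    rw [run, Cap.run, ih, advance_eq]
    rfl

lemma halts_eq : Halts A b c = Cap.Halts A b c := by
  funext p e i
  rw [Halts, Cap.Halts, run_eq]
  rfl

lemma haltTime_eq : haltTime A b c = Cap.haltTime A b c := by
  funext p e
  rw [haltTime, Cap.haltTime, halts_eq]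

lemma answer_eq : answer A b c = Cap.answer A b c := by
  funext p e
  rw [answer, Cap.answer, haltTime_eq, run_eq]
  rfl

lemma correct_eq : Correct A b c = MP_6af739_lc.Correct A b c := by
  funext o
  cases o <;> rfl

end Pool.Agent.Work.MP_6af739_lc.Stmt
end
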