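import Pool.Agent.Work.MP_6af739_lc.Defs
import Pool.Agent.Work.MP_6af739_lc.DetF
import Pool.Agent.Work.MP_6af739_lc.Final

-- merged part: Pool.Agent.Work.MP_6af739_lc.HO.Defs
section
/-!
An interior-point method with a Taylor predictor of order `p` and a Newton corrector, for
`max c·x` subject to `A x ≤ b` with `b > 0`, started at `x = 0`.
-/

namespace Pool.Agent.Work.MP_6af739_lc.HO

open Matrix Finset

variable {m n : ℕ} (A : Matrix (Fin m) (Fin n) ℝ) (b : Fin m → ℝ) (c : Fin n → ℝ)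

/-- The relative decrease `(A z) / s` of the slacks at `x` along `z`. -/
noncomputable def rel (x z : Fin n → ℝ) : Fin m → ℝ := fun k => (A *ᵥ z) k / slack A b x k

/-- The solution `z` of `H(x) z = -Aᵀ (y / s)`. -/
noncomputable def back (x : Fin n → ℝ) (y : Fin m → ℝ) : Fin n → ℝ :=
  -((hess A b x)⁻¹ *ᵥ (Aᵀ *ᵥ fun k => y k / slack A b x k))

/-- The pair `(z, y + (A z) / s)` with `z = back x y`. -/
noncomputable def next (x : Fin n → ℝ) (y : Fin m → ℝ) : (Fin n → ℝ) × (Fin m → ℝ) :=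
  (back A b x y, y + rel A b x (back A b x y))

/-- Taylor coefficients `(z_j, f_j)` of order `j + 1` at the state `q = (λ, x)`: of the point and of
the relative change of `1 / s`. -/
noncomputable def tay (q : ℝ × (Fin n → ℝ)) : ℕ → (Fin n → ℝ) × (Fin m → ℝ)
  | 0 => (dir A b c q, rel A b q.2 (dir A b c q))
  | j + 1 => next A b q.2 (∑ i : Fin (j + 1), rel A b q.2 (tay q i).1 * (tay q (j - i)).2)

/-- The predicted point `x + ∑_{j < p} a^(j+1) z_j`. -/
noncomputable def point (p : ℕ) (q : ℝ × (Fin n → ℝ)) (a : ℝ) : Fin n → ℝ :=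
  q.2 + ∑ j ∈ range p, a ^ (j + 1) • (tay A b c q j).1

/-- The step `a` is accepted: `0 < s' ≤ 2 s` and `|(s'/s) (1 + ∑ a^(j+1) f_j) - 1|_2 ≤ 1/100`. -/
def Fits (p : ℕ) (q : ℝ × (Fin n → ℝ)) (a : ℝ) : Prop :=
  (∀ k, 0 < slack A b (point A b c p q a) k ∧
      slack A b (point A b c p q a) k ≤ 2 * slack A b q.2 k) ∧
    ∑ k, (slack A b (point A b c p q a) k / slack A b q.2 k *
      (1 + ∑ j ∈ range p, a ^ (j + 1) * (tay A b c q j).2 k) - 1) ^ 2 ≤ 1 / 10 ^ 4

/-- The step length: `1 / 2^k` for the least `k` that is accepted. -/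
noncomputable def step (p : ℕ) (q : ℝ × (Fin n → ℝ)) : ℝ :=
  1 / 2 ^ sInf {k : ℕ | Fits A b c p q (1 / 2 ^ k)}

/-- Predictor step of order `p`. -/
noncomputable def advance (p : ℕ) (q : ℝ × (Fin n → ℝ)) : ℝ × (Fin n → ℝ) :=
  ((1 + step A b c p q) * q.1, point A b c p q (step A b c p q))

/-- The iterates `(λ_i, x_i)`. -/
noncomputable def run (p : ℕ) : ℕ → ℝ × (Fin n → ℝ)
  | 0 => ((1 / 100) / ∑ j, |(A *ᵥ ((hess A b 0)⁻¹ *ᵥ c)) j / b j|, 0)
  | i + 1 => correct A b c (advance A b c p (run p i))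

/-- Iteration `i` stops: the rows with the smallest slacks pass the test, or the safeguard
set `e i` passes the test, or all `n`-sets of rows have been tried. -/
def Halts (p : ℕ) (e : ℕ → Finset (Fin m)) (i : ℕ) : Prop :=
  Passes A b c (guess A b (run A b c p i).2) ∨ Passes A b c (e i) ∨ i = m.choose n

/-- The first iteration that stops. -/
noncomputable def haltTime (p : ℕ) (e : ℕ → Finset (Fin m)) : ℕ := sInf {i | Halts A b c p e i}

open Classical in
/-- The output: an optimal point, or `none` for unbounded. -/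
noncomputable def answer (p : ℕ) (e : ℕ → Finset (Fin m)) : Option (Fin n → ℝ) :=
  if Passes A b c (guess A b (run A b c p (haltTime A b c p e)).2) then
    some (candX A b (guess A b (run A b c p (haltTime A b c p e)).2))
  else if Passes A b c (e (haltTime A b c p e)) then some (candX A b (e (haltTime A b c p e)))
  else none

end Pool.Agent.Work.MP_6af739_lc.HO
end

-- merged part: Pool.Agent.Work.MP_6af739_lc.SymFinal
section
-- merged part: Pool.Agent.Work.MP_6af739_lc.SymFlat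
section
/-!
Every matrix can be rotated on the right so that all its columns have the same length
(plane rotations, induction on the number of columns of the wrong length).
-/

namespace Pool.Agent.Work.MP_6af739_lc

open Matrix Finset MeasureTheory ProbabilityTheory
open Pool.Agent.Work.MP_6a50bc_pr
open Pool.Agent.Work.MP_5c5849_an (sg av)
open scoped ENNReal

variable {ι κ : Type*} [Fintype ι] [Fintype κ] [DecidableEq κ]

/-- Squared length of a column. -/
def cs (M : Matrix ι κ ℝ) (r : κ) : ℝ := ∑ j, M j r ^ 2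

/-- Plane rotation. -/
def giv (i k : κ) (c s : ℝ) : Matrix κ κ ℝ := Matrix.of fun l r =>
  if r = i then (if l = i then c else if l = k then s else 0)
  else if r = k then (if l = i then -s else if l = k then c else 0)
  else if l = r then 1 else 0

omit [Fintype ι] in
lemma mul_giv {i k : κ} (h : i ≠ k) (c s : ℝ) (M : Matrix ι κ ℝ) (j : ι) (r : κ) :
    (M * giv i k c s) j r = if r = i then c * M j i + s * M j k
      else if r = k then -s * M j i + c * M j k else M j r := by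
  have e : ∀ a b : ℝ, ∑ l, M j l * (if l = i then a else if l = k then b else 0) =
      a * M j i + b * M j k := fun a b => by
    rw [← sum_subset (subset_univ {i, k}), sum_pair h]
    · simp [h.symm, mul_comm]
    · intro l _ hl
      simp only [mem_insert, mem_singleton, not_or] at hl
      simp [hl.1, hl.2]
  rw [mul_apply]
  simp only [giv, of_apply]
  split_ifs
  · exact e _ _
  · exact e _ _
  · simp

lemma orth_giv {i k : κ} (h : i ≠ k) {c s : ℝ} (h1 : c ^ 2 + s ^ 2 = 1) : Orth (giv i k c s) := by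
  unfold Orth
  ext a r
  rw [mul_giv h, one_apply]
  simp only [giv, transpose_apply, of_apply, h, h.symm, if_true, if_false]
  by_cases hr : r = i
  · subst hr
    by_cases ha : a = r
    · simp only [ha, if_true]
      linarith only [h1]
    · by_cases hk : a = k
      · simp only [hk, h.symm, if_true, if_false]
        ring
      · simp [ha, hk, Ne.symm ha, Ne.symm hk]
  · by_cases hr' : r = k
    · subst hr'
      by_cases ha : a = i
      · simp only [ha, h, hr, if_true, if_false]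
        ring
      · by_cases hk : a = r
        · simp only [hk, hr, if_true, if_false]
          linarith
        · simp [ha, hk, hr, Ne.symm ha, Ne.symm hk]
    · by_cases ha : a = i
      · simp [ha, hr, hr', Ne.symm hr]
      · by_cases hk : a = k
        · simp [hk, hr, hr', h.symm, Ne.symm hr']
        · simp [ha, hk, hr, hr', eq_comm]

lemma fro_mul_orth (M : Matrix ι κ ℝ) {O : Matrix κ κ ℝ} (hO : Orth O) : fro (M * O) = fro M := by
  rw [fro, fro, ip_eq_trace', ip_eq_trace', transpose_mul, Matrix.mul_assoc,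
    ← Matrix.mul_assoc O, hO.mul_transpose, Matrix.one_mul]

omit [DecidableEq κ] in
lemma sum_cs (M : Matrix ι κ ℝ) : ∑ r, cs M r = fro M ^ 2 := by
  rw [fro_sq, ip, sum_comm]
  simp only [cs, sq]

lemma flat_step (M : Matrix ι κ ℝ) {v : ℝ} {i k : κ} (hi : v < cs M i) (hk : cs M k < v) :
    ∃ R : Matrix κ κ ℝ, Orth R ∧ cs (M * R) i = v ∧ ∀ r, r ≠ i → r ≠ k → cs (M * R) r = cs M r := by
  have h : i ≠ k := by
    rintro rfl
    linarith
  have hc : Continuous fun t : ℝ => ∑ j, (Real.cos t * M j i + Real.sin t * M j k) ^ 2 := by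
    fun_prop
  obtain ⟨t, -, ht⟩ := intermediate_value_Icc' (by positivity : (0 : ℝ) ≤ Real.pi / 2)
    hc.continuousOn (show v ∈ Set.Icc _ _ by simpa [cs] using And.intro hk.le hi.le)
  refine ⟨giv i k (Real.cos t) (Real.sin t), orth_giv h (Real.cos_sq_add_sin_sq t), ?_,
    fun r h1 h2 => ?_⟩
  · simpa [cs, mul_giv h] using ht
  · simp [cs, mul_giv h, h1, h2]

theorem exists_flat (N : Matrix ι κ ℝ) :
    ∃ O : Matrix κ κ ℝ, Orth O ∧ ∀ r, cs (N * O) r = fro N ^ 2 / Fintype.card κ := by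
  classical
  set v := fro N ^ 2 / Fintype.card κ with hv
  have key : ∀ d : ℕ, ∀ O : Matrix κ κ ℝ, Orth O → (univ.filter fun r => cs (N * O) r ≠ v).card = d →
      ∃ O : Matrix κ κ ℝ, Orth O ∧ ∀ r, cs (N * O) r = v := by
    intro d
    induction d using Nat.strong_induction_on with
    | _ d ih =>
      intro O hO hd
      by_cases h : ∀ r, cs (N * O) r = v
      · exact ⟨O, hO, h⟩
      obtain ⟨r0, h0⟩ := not_forall.1 h
      have hn : (Fintype.card κ : ℝ) ≠ 0 := by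
        have : Nonempty κ := ⟨r0⟩
        exact_mod_cast Fintype.card_ne_zero
      have hs : ∑ r, cs (N * O) r = ∑ _r : κ, v := by
        rw [sum_cs, fro_mul_orth N hO, sum_const, card_univ, nsmul_eq_mul, hv]
        field_simp
      obtain ⟨i, hi⟩ : ∃ i, v < cs (N * O) i := by
        by_contra hc
        push Not at hc
        exact h0 ((sum_eq_sum_iff_of_le fun r _ => hc r).1 hs r0 (mem_univ _))
      obtain ⟨k, hk⟩ : ∃ k, cs (N * O) k < v := by
        by_contra hc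
        push Not at hc
        exact h0 ((sum_eq_sum_iff_of_le fun r _ => hc r).1 hs.symm r0 (mem_univ _)).symm
      obtain ⟨R, hR, h1, h2⟩ := flat_step (N * O) hi hk
      refine ih _ ?_ (O * R) (hO.mul hR) rfl
      rw [← hd, ← Matrix.mul_assoc]
      refine card_lt_card ⟨fun r hr => ?_, fun hc => ?_⟩
      · simp only [mem_filter, mem_univ, true_and] at hr ⊢
        by_cases e1 : r = i
        · exact e1 ▸ hi.ne'
        by_cases e2 : r = k
        · exact e2 ▸ hk.ne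
        rwa [h2 r e1 e2] at hr
      · have := hc (show i ∈ _ by simpa using hi.ne')
        simp [h1] at this
  exact key _ 1 orth_one rfl

end Pool.Agent.Work.MP_6af739_lc
end

-- merged part: Pool.Agent.Work.MP_6af739_lc.SymShift
section
/-!
Shifted Gaussian matrices tested against functions invariant under right rotations. After a rotation all
columns of the shift have the same length; averaging over column sign changes bounds the likelihood ratio
by the exponential of a centred quadratic form.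
-/

namespace Pool.Agent.Work.MP_6af739_lc

open Matrix Finset MeasureTheory ProbabilityTheory
open Pool.Agent.Work.MP_6a50bc_pr
open Pool.Agent.Work.MP_5c5849_an (sg av)
open scoped ENNReal

variable {k n : ℕ}

/-- Invariance under right multiplication by orthogonal matrices. -/
def RInv (F : (Fin k → Fin n → ℝ) → ℝ≥0∞) : Prop :=
  ∀ O : Matrix (Fin n) (Fin n) ℝ, Orth O → ∀ z, F (rot O z) = F z

/-- The centred quadratic form. -/
noncomputable def WW (N : Matrix (Fin k) (Fin n) ℝ) (z : Fin k → Fin n → ℝ) : ℝ :=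
  ∑ r, ((∑ j, N j r * z j r) ^ 2 - cs N r) / 2

lemma WW_meas (N : Matrix (Fin k) (Fin n) ℝ) (p q : ℝ) :
    Measurable fun z => ENNReal.ofReal (Real.exp (p * WW N z - q)) := by
  unfold WW
  fun_prop

variable {F : (Fin k → Fin n → ℝ) → ℝ≥0∞}

lemma shift_rot (hF : Measurable F) (hI : RInv F) {O : Matrix (Fin n) (Fin n) ℝ} (hO : Orth O)
    (N : Matrix (Fin k) (Fin n) ℝ) :
    ∫⁻ z, F (fun j i => N j i + z j i) ∂(gm (Fin k) (Fin n)) =
      ∫⁻ z, F (fun j i => (N * O) j i + z j i) ∂(gm (Fin k) (Fin n)) := by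
  rw [← (mp_rotm hO).lintegral_comp (f := fun z => F fun j i => (N * O) j i + z j i)
    (hF.comp (gaux_meas_add (N * O)))]
  refine lintegral_congr fun z => ?_
  rw [← hI O hO]
  congr 1
  funext j i
  simp [rot, mul_apply, add_mul, sum_add_distrib]

lemma sum_exp_sg (x : Fin n → ℝ) (c : ℝ) :
    ∑ D : Fin n → Fin 2, Real.exp (∑ r, sg D r * x r - c) ≤
      2 ^ n * Real.exp (∑ r, x r ^ 2 / 2 - c) := by
  have h := prod_univ_sum (fun _ : Fin n => (univ : Finset (Fin 2)))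
    fun r d => Real.exp ((-1 : ℝ) ^ (d : ℕ) * x r)
  rw [Fintype.piFinset_univ] at h
  simp only [Real.exp_sub, Real.exp_sum, sg, ← sum_div]
  rw [← h, ← mul_div_assoc]
  refine div_le_div_of_nonneg_right ?_ (Real.exp_pos _).le
  rw [sum_div, Real.exp_sum, show (2 : ℝ) ^ n = ∏ _r : Fin n, 2 by simp, ← prod_mul_distrib]
  refine prod_le_prod (fun r _ => by positivity) fun r _ => ?_
  have := Real.cosh_le_exp_half_sq (x r)
  rw [Real.cosh_eq] at this
  simp only [Fin.sum_univ_two, Fin.val_zero, Fin.val_one, pow_zero, pow_one, one_mul, neg_mul]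
  linarith only [this]

lemma orth_sg (D : Fin n → Fin 2) : Orth (diagonal (sg D)) := by
  rw [Orth, diagonal_transpose, diagonal_mul_diagonal]
  simp only [Pool.Agent.Work.MP_5c5849_an.sg_sq, diagonal_one]

theorem sym_dens (hF : Measurable F) (hI : RInv F) (N : Matrix (Fin k) (Fin n) ℝ) :
    ∫⁻ z, F (fun j i => N j i + z j i) ∂(gm (Fin k) (Fin n)) ≤
      ∫⁻ z, F z * ENNReal.ofReal (Real.exp (1 * WW N z - 0)) ∂(gm (Fin k) (Fin n)) := by
  have h1 : ∀ D : Fin n → Fin 2, ∫⁻ z, F (fun j i => N j i + z j i) ∂(gm (Fin k) (Fin n)) =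
      ∫⁻ z, F z * ENNReal.ofReal (Real.exp (ip (N * diagonal (sg D)) (Matrix.of z) - fro N ^ 2 / 2))
        ∂(gm (Fin k) (Fin n)) := fun D => by
    rw [shift_rot hF hI (orth_sg D), lintegral_shift _ hF, fro_mul_orth _ (orth_sg D)]
  have h2 := sum_congr (s₁ := univ) rfl fun D _ => h1 D
  rw [sum_const, card_univ, nsmul_eq_mul,
    ← lintegral_finsetSum _ fun D _ => hF.fun_mul (gaux_meas_E _ _)] at h2
  have h3 : ((Fintype.card (Fin n → Fin 2) : ℕ) : ℝ≥0∞) = ENNReal.ofReal (2 ^ n) := by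
    simp [ENNReal.ofReal_pow]
  refine (ENNReal.mul_le_mul_iff_right (a := ENNReal.ofReal (2 ^ n)) (by simp) ENNReal.ofReal_ne_top).1 ?_
  rw [← h3, h2, h3, ← lintegral_const_mul _ (hF.fun_mul (WW_meas N 1 0))]
  refine lintegral_mono fun z => ?_
  rw [← mul_sum, mul_left_comm, ← ENNReal.ofReal_sum_of_nonneg fun D _ => (Real.exp_pos _).le,
    ← ENNReal.ofReal_mul (by positivity)]
  refine mul_le_mul_right (ENNReal.ofReal_le_ofReal ?_) _
  have h4 := sum_exp_sg (fun r => ∑ j, N j r * z j r) (fro N ^ 2 / 2)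
  refine le_trans (le_of_eq (sum_congr rfl fun D _ => ?_)) (h4.trans_eq ?_)
  · congr 2
    rw [ip, sum_comm]
    simp only [mul_diagonal, of_apply, mul_sum]
    exact sum_congr rfl fun r _ => sum_congr rfl fun j _ => by ring
  · congr 2
    rw [← sum_cs, WW, sum_div, ← sum_sub_distrib, one_mul, sub_zero]
    exact sum_congr rfl fun r _ => by ring

theorem sym_mgf {N : Matrix (Fin k) (Fin n) ℝ} {v p : ℝ} (hv : 0 < v) (hN : ∀ r, cs N r = v)
    (hp : 0 ≤ p) (hpv : p * v ≤ 1 / 2) (q : ℝ) :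
    ∫⁻ z, ENNReal.ofReal (Real.exp (p * WW N z - q)) ∂(gm (Fin k) (Fin n)) ≤
      ENNReal.ofReal (Real.exp (p ^ 2 * (n * v ^ 2) / 2 - q)) := by
  have hs : 0 < √v := Real.sqrt_pos.2 hv
  have hu : ∀ r, ((√v)⁻¹ • Nᵀ r) ⬝ᵥ ((√v)⁻¹ • Nᵀ r) = 1 := fun r => by
    have : Nᵀ r ⬝ᵥ Nᵀ r = √v * √v := by
      rw [Real.mul_self_sqrt hv.le, ← hN r]
      simp [cs, dotProduct, sq]
    rw [smul_dotProduct, dotProduct_smul, this, smul_eq_mul, smul_eq_mul]
    field_simp
  have hm : MeasurePreserving (fun (z : Fin k → Fin n → ℝ) (r : Fin n) =>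
      ((√v)⁻¹ • Nᵀ r) ⬝ᵥ fun j => z j r) (gm (Fin k) (Fin n)) (gv (Fin n)) :=
    (measurePreserving_pi _ _ fun r => mp_dot (hu r)).comp mp_transpose
  obtain ⟨h1, h2⟩ := exp_sum_chi (l := fun _ : Fin n => p * v / 2) fun _ => by
    rw [abs_of_nonneg (by positivity)]
    linarith only [hpv]
  have h3 := ofReal_integral_eq_lintegral_ofReal h1 (ae_of_all _ fun _ => (Real.exp_pos _).le)
  have h4 : Measurable fun g : Fin n → ℝ =>
      ENNReal.ofReal (Real.exp (∑ j, p * v / 2 * (g j ^ 2 - 1))) := by fun_prop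
  rw [← hm.lintegral_comp h4] at h3
  have h5 : ∀ z, ENNReal.ofReal (Real.exp (p * WW N z - q)) = ENNReal.ofReal (Real.exp (-q)) *
      ENNReal.ofReal (Real.exp (∑ r, p * v / 2 *
        ((((√v)⁻¹ • Nᵀ r) ⬝ᵥ fun j => z j r) ^ 2 - 1))) := fun z => by
    rw [← ENNReal.ofReal_mul (Real.exp_pos _).le, ← Real.exp_add, neg_add_eq_sub, WW, mul_sum]
    congr 3
    refine sum_congr rfl fun r _ => ?_
    rw [hN r, smul_dotProduct, smul_eq_mul, mul_pow, inv_pow, Real.sq_sqrt hv.le]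
    simp only [dotProduct, transpose_apply]
    field_simp
  simp only [h5]
  rw [lintegral_const_mul' _ _ ENNReal.ofReal_ne_top, ← h3,
    ← ENNReal.ofReal_mul (Real.exp_pos _).le]
  refine ENNReal.ofReal_le_ofReal ((mul_le_mul_of_nonneg_left h2 (Real.exp_pos _).le).trans_eq ?_)
  rw [← Real.exp_add]
  congr 1
  simp only [dotProduct, sum_const, card_univ, Fintype.card_fin, nsmul_eq_mul]
  ring

theorem sym_bdd (hF : Measurable F) (hI : RInv F) {K : ℝ≥0∞} (hK : ∀ z, F z ≤ K)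
    (N : Matrix (Fin k) (Fin n) ℝ) {s ν : ℝ} (hs : 0 < s) (hν : ν = fro N ^ 2 / √n) (h1 : ν ≤ s)
    (h2 : 4 * s ≤ √n) :
    ∫⁻ z, F (fun j i => N j i + z j i) ∂(gm (Fin k) (Fin n)) ≤
      ENNReal.ofReal (Real.exp (2 * ν ^ 2 + ν * s)) * ∫⁻ z, F z ∂(gm (Fin k) (Fin n)) +
        K * ENNReal.ofReal (Real.exp (-s ^ 2 / 2)) := by
  have hq : 0 < √(n : ℝ) := by linarith only [hs, h2]
  have hn : (0 : ℝ) < n := Real.sqrt_pos.1 hq
  have hqq : √(n : ℝ) * √n = n := Real.mul_self_sqrt hn.le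
  rcases (fro_nonneg N).eq_or_lt with h0 | h0
  · obtain rfl := fro_eq_zero.1 h0.symm
    simp [hν]
  have hν0 : 0 < ν := by rw [hν]; positivity
  obtain ⟨O, hO, hc⟩ := exists_flat N
  rw [Fintype.card_fin] at hc
  have hv : fro N ^ 2 / n = ν / √n := by rw [hν, div_div, hqq]
  rw [hv] at hc
  have hm := sym_mgf (p := 1 + s / ν) (by positivity) hc (by positivity) (by
    rw [show (1 + s / ν) * (ν / √n) = (ν + s) / √n by field_simp, div_le_iff₀ hq]
    linarith only [h1, h2]) (s / ν * (2 * ν ^ 2 + ν * s))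
  have h3 : (1 + s / ν) ^ 2 * (n * (ν / √n) ^ 2) / 2 - s / ν * (2 * ν ^ 2 + ν * s) ≤ -s ^ 2 / 2 := by
    rw [div_pow ν, Real.sq_sqrt hn.le, mul_div_cancel₀ _ hn.ne',
      show (1 + s / ν) ^ 2 * ν ^ 2 = (ν + s) ^ 2 by field_simp,
      show s / ν * (2 * ν ^ 2 + ν * s) = 2 * s * ν + s ^ 2 by field_simp]
    linarith only [hs, hν0, h1, mul_pos_of_neg_of_neg (Mathlib.Tactic.Linarith.sub_neg_of_lt hs) (Mathlib.Tactic.Linarith.sub_neg_of_lt hν0), mul_nonneg_of_nonpos_of_nonpos (Mathlib.Tactic.Linarith.sub_nonpos_of_le h1) (le_of_lt (Mathlib.Tactic.Linarith.sub_neg_of_lt hν0))]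
  rw [shift_rot hF hI hO]
  refine (sym_dens hF hI _).trans (le_trans ?_ (add_le_add_right (mul_le_mul_right
    (hm.trans (ENNReal.ofReal_le_ofReal (Real.exp_le_exp.2 h3))) K) _))
  rw [← lintegral_const_mul _ hF, ← lintegral_const_mul _ (WW_meas _ _ _),
    ← lintegral_add_left (hF.const_mul _)]
  refine lintegral_mono fun z => ?_
  by_cases hz : WW (N * O) z ≤ 2 * ν ^ 2 + ν * s
  · refine le_add_right ?_
    rw [mul_comm]
    exact mul_le_mul_left (ENNReal.ofReal_le_ofReal (Real.exp_le_exp.2 (by linarith only [hz]))) _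
  · refine le_add_left (mul_le_mul' (hK z) (ENNReal.ofReal_le_ofReal (Real.exp_le_exp.2 ?_)))
    have := mul_le_mul_of_nonneg_left (not_le.1 hz).le (by positivity : 0 ≤ s / ν)
    linarith only [this]

theorem sym_le (hn : 1 ≤ n) {S : Set (Fin k → Fin n → ℝ)} (hS : MeasurableSet S)
    (hI : ∀ O : Matrix (Fin n) (Fin n) ℝ, Orth O → ∀ z, rot O z ∈ S ↔ z ∈ S)
    (N : Matrix (Fin k) (Fin n) ℝ) {q : ℝ} (hq : 0 ≤ q)
    (h : gm (Fin k) (Fin n) S ≤ ENNReal.ofReal (q ^ 2)) :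
    gm (Fin k) (Fin n) {z | (fun j i => N j i + z j i) ∈ S} ≤
      ENNReal.ofReal (Real.exp (2 * (fro N ^ 2 / √n) ^ 2) * q) := by
  have hn0 : (0 : ℝ) < n := by exact_mod_cast hn
  rw [div_pow, Real.sq_sqrt hn0.le]
  by_cases h4 : 0 < fro N ∧ 4 * fro N ^ 2 ≤ n
  swap
  · refine (shift_le N hq h).trans (ENNReal.ofReal_le_ofReal
      (mul_le_mul_of_nonneg_right (Real.exp_le_exp.2 ?_) hq))
    rcases (fro_nonneg N).eq_or_lt with h0 | h0
    · simp [← h0]
    · have h5 : (n : ℝ) ≤ 4 * fro N ^ 2 := (not_le.1 fun h => h4 ⟨h0, h⟩).le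
      rw [← mul_div_assoc, div_le_div_iff₀ two_pos hn0]
      linarith only [h5, sq_nonneg (fro N), mul_nonneg_of_nonpos_of_nonpos (Mathlib.Tactic.Linarith.sub_nonpos_of_le (sq_nonneg (fro N))) (Mathlib.Tactic.Linarith.sub_nonpos_of_le h5)]
  have hF : Measurable (S.indicator (1 : (Fin k → Fin n → ℝ) → ℝ≥0∞)) := measurable_one.indicator hS
  have hR : RInv (S.indicator (1 : (Fin k → Fin n → ℝ) → ℝ≥0∞)) := fun O hO z => by
    by_cases hz : z ∈ S
    · simp [hz, (hI O hO z).2 hz]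
    · simp [hz, mt (hI O hO z).1 hz]
  obtain ⟨O, hO, hc⟩ := exists_flat N
  rw [Fintype.card_fin] at hc
  have h0 := h4.1
  have hm := sym_mgf (p := 2) (by positivity) hc two_pos.le (by
    rw [← mul_div_assoc, div_le_iff₀ hn0]
    linarith only [h4, h4.2]) 0
  have h1 : gm (Fin k) (Fin n) {z | (fun j i => N j i + z j i) ∈ S} =
      ∫⁻ z, S.indicator 1 (fun j i => N j i + z j i) ∂(gm (Fin k) (Fin n)) :=
    (lintegral_indicator_one (μ := gm (Fin k) (Fin n)) (gaux_meas_add N hS)).symm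
  have h2 := ENNReal.lintegral_mul_le_Lp_mul_Lq (gm (Fin k) (Fin n)) Real.HolderConjugate.two_two
    hF.aemeasurable (WW_meas (N * O) 1 0).aemeasurable
  have h3 : ∫⁻ z, S.indicator (1 : (Fin k → Fin n → ℝ) → ℝ≥0∞) z ^ (2 : ℝ) ∂(gm (Fin k) (Fin n)) ≤
      ENNReal.ofReal (q ^ 2) := by
    refine le_trans (le_of_eq ?_) h
    rw [← lintegral_indicator_one hS]
    refine lintegral_congr fun z => ?_
    by_cases hz : z ∈ S <;> simp [hz]
  have h5 : ∫⁻ z, ENNReal.ofReal (Real.exp (1 * WW (N * O) z - 0)) ^ (2 : ℝ) ∂(gm (Fin k) (Fin n)) ≤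
      ENNReal.ofReal (Real.exp (2 * ((fro N ^ 2) ^ 2 / n)) ^ 2) := by
    refine le_trans (le_of_eq (lintegral_congr fun z => ?_)) (hm.trans
      (ENNReal.ofReal_le_ofReal ?_))
    · rw [ENNReal.rpow_two, ← ENNReal.ofReal_pow (Real.exp_pos _).le, ← Real.exp_nat_mul]
      congr 2
      push_cast
      ring
    · rw [← Real.exp_nat_mul]
      refine Real.exp_le_exp.2 ?_
      rw [show (n : ℝ) * (fro N ^ 2 / n) ^ 2 = (fro N ^ 2) ^ 2 / n by field_simp]
      have : 0 ≤ (fro N ^ 2) ^ 2 / n := by positivity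
      push_cast
      linarith only [this]
  rw [h1, shift_rot hF hR hO]
  refine ((sym_dens hF hR _).trans h2).trans ?_
  rw [ENNReal.ofReal_mul (Real.exp_pos _).le, mul_comm (ENNReal.ofReal _), ← gaux_half hq,
    ← gaux_half (Real.exp_pos _).le]
  exact mul_le_mul' (ENNReal.rpow_le_rpow h3 (by norm_num)) (ENNReal.rpow_le_rpow h5 (by norm_num))

end Pool.Agent.Work.MP_6af739_lc
end

-- merged part: Pool.Agent.Work.MP_6af739_lc.SymParts
section
/-!
The pair (matrix, cost) as one matrix with the cost in row zero: measurability, invariance under right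
rotations, and bounds under the centred Gaussian law.
-/

namespace Pool.Agent.Work.MP_6af739_lc

open Matrix Finset MeasureTheory ProbabilityTheory
open Pool.Agent.Work.MP_6a50bc_pr
open Pool.Agent.Work.MP_5c5849_an (sg av)
open scoped ENNReal

variable {m n : ℕ}

/-- Normalised vector. -/
noncomputable def un (c : Fin n → ℝ) : Fin n → ℝ := (nrm c)⁻¹ • c

lemma nrm_un {c : Fin n → ℝ} (hc : c ≠ 0) : nrm (un c) = 1 := by
  have := nrm_pos hc
  rw [un, nrm_smul, abs_of_pos (inv_pos.2 this), inv_mul_cancel₀ this.ne']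

lemma un_ne {c : Fin n → ℝ} (hc : c ≠ 0) : un c ≠ 0 := fun h => by
  have := nrm_un hc
  simp [h] at this

lemma meas_un : Measurable fun z : Fin (m + 1) → Fin n → ℝ => un (z 0) :=
  (MV.smul (MV.of (measurable_pi_apply 0)).nrm.inv (MV.of (measurable_pi_apply 0))).meas

lemma meas_tail : Measurable fun z : Fin (m + 1) → Fin n → ℝ => (Fin.tail z : Fin m → Fin n → ℝ) :=
  measurable_pi_lambda _ fun _ => measurable_pi_apply _

lemma un_rot {O : Matrix (Fin n) (Fin n) ℝ} (hO : Orth O) (z : Fin (m + 1) → Fin n → ℝ) :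
    un (rot O z 0) = Oᵀ *ᵥ un (z 0) := by
  have e : rot O z 0 = Oᵀ *ᵥ z 0 := by
    rw [mulVec_transpose]
    rfl
  rw [e, un, un, hO.transpose.nrm_mulVec, mulVec_smul]

lemma tail_rot (O : Matrix (Fin n) (Fin n) ℝ) (z : Fin (m + 1) → Fin n → ℝ) :
    Matrix.of (Fin.tail (rot O z)) = Matrix.of (Fin.tail z) * O := rfl

lemma mp_split : MeasurePreserving (fun q : (Fin m → Fin n → ℝ) × (Fin n → ℝ) =>
    (Fin.cons q.2 q.1 : Fin (m + 1) → Fin n → ℝ))
    ((gm (Fin m) (Fin n)).prod (gv (Fin n))) (gm (Fin (m + 1)) (Fin n)) := by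
  have h := (measurePreserving_piFinSuccAbove (fun _ : Fin (m + 1) => gv (Fin n)) 0).symm.comp
    Measure.measurePreserving_swap
  convert h using 1
  · funext q
    simp [MeasurableEquiv.piFinSuccAbove, Fin.insertNthEquiv]
  · rfl
  · rfl

lemma null_le (hn : 1 ≤ n) {F : (Fin (m + 1) → Fin n → ℝ) → ℝ≥0∞} (hF : Measurable F) {K : ℝ≥0∞}
    (h : ∀ c : Fin n → ℝ, c ≠ 0 → ∫⁻ a, F (Fin.cons c a) ∂(gm (Fin m) (Fin n)) ≤ K) :
    ∫⁻ z, F z ∂(gm (Fin (m + 1)) (Fin n)) ≤ K := by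
  rw [← mp_split.lintegral_comp hF,
    lintegral_prod_symm (fun q : (Fin m → Fin n → ℝ) × (Fin n → ℝ) => F (Fin.cons q.2 q.1))
      (hF.comp mp_split.measurable).aemeasurable]
  have hv : (fun _ : Fin n => (1 : ℝ)) ≠ 0 := fun h => by simpa using congrFun h ⟨0, hn⟩
  refine (lintegral_mono_ae (g := fun _ => K) ?_).trans (by simp)
  filter_upwards [measure_eq_zero_iff_ae_notMem.1 (genPos_null hv 0)] with c hc
  exact h c fun h0 => hc (by simp [h0])

lemma null_set_le (hn : 1 ≤ n) {S : Set (Fin (m + 1) → Fin n → ℝ)} (hS : MeasurableSet S)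
    {K : ℝ≥0∞} (h : ∀ c : Fin n → ℝ, c ≠ 0 → gm (Fin m) (Fin n) {a | Fin.cons c a ∈ S} ≤ K) :
    gm (Fin (m + 1)) (Fin n) S ≤ K := by
  rw [← lintegral_indicator_one hS]
  refine null_le hn (measurable_one.indicator hS) fun c hc => le_trans (le_of_eq ?_) (h c hc)
  exact lintegral_indicator_one (μ := gm (Fin m) (Fin n))
    ((mp_split.measurable.comp measurable_prodMk_right) hS)

/-- The path integral on good matrices. -/
noncomputable def J1 (b : Fin m → ℝ) (z : Fin (m + 1) → Fin n → ℝ) : ℝ≥0∞ :=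
  {a | Good (Matrix.of a) (45 / 100)}.indicator (fun a => JJ (Matrix.of a) b (un (z 0))) (Fin.tail z)

/-- The bad threshold event. -/
def SB (b : Fin m → ℝ) (t : ℝ) : Set (Fin (m + 1) → Fin n → ℝ) :=
  {z | BadT (Matrix.of (Fin.tail z)) b (un (z 0)) t}

/-- The matrix part is not good. -/
def SG (m n : ℕ) : Set (Fin (m + 1) → Fin n → ℝ) := {z | ¬Good (Matrix.of (Fin.tail z)) (45 / 100)}

lemma ms_SG : MeasurableSet (SG m n) := (measurableSet_good meas_tail _).compl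

lemma J1_of {b : Fin m → ℝ} {z : Fin (m + 1) → Fin n → ℝ}
    (h : Good (Matrix.of (Fin.tail z)) (45 / 100)) :
    J1 b z = JJ (Matrix.of (Fin.tail z)) b (un (z 0)) :=
  Set.indicator_of_mem (s := {a | Good (Matrix.of a) (45 / 100)}) h _

lemma J1_not {b : Fin m → ℝ} {z : Fin (m + 1) → Fin n → ℝ}
    (h : ¬Good (Matrix.of (Fin.tail z)) (45 / 100)) : J1 b z = 0 :=
  Set.indicator_of_notMem (s := {a | Good (Matrix.of a) (45 / 100)}) h _

lemma meas_J1 (b : Fin m → ℝ) : Measurable (J1 (n := n) b) := by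
  have h : Measurable fun w : (Fin (m + 1) → Fin n → ℝ) × ℝ => ENNReal.ofReal
      (1 + 4 * n4 (qv (Matrix.of (Fin.tail w.1)) b
        (X (Matrix.of (Fin.tail w.1)) b (Real.exp w.2 • un (w.1 0))))) :=
    (measurable_const.add (((ji_meas b).comp ((meas_tail.comp measurable_fst).prodMk
      (measurable_snd.exp.smul (meas_un.comp measurable_fst)))).const_mul 4)).ennreal_ofReal
  have h1 : Measurable fun z : Fin (m + 1) → Fin n → ℝ =>
      JJ (Matrix.of (Fin.tail z)) b (un (z 0)) := h.lintegral_prod_right'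
  exact h1.indicator (measurableSet_good meas_tail (45 / 100))

lemma inv_J1 (b : Fin m → ℝ) : RInv (J1 (n := n) b) := fun O hO z => by
  by_cases h : Good (Matrix.of (Fin.tail z)) (45 / 100)
  · rw [J1_of h, J1_of (by rw [tail_rot]; exact (good_rot hO _).2 h), tail_rot, un_rot hO]
    simp only [JJ, ← mulVec_smul, X_rot hO, qv_rot hO]
  · rw [J1_not h, J1_not (by rw [tail_rot]; exact mt (good_rot hO _).1 h)]

lemma ms_SB (b : Fin m → ℝ) (t : ℝ) : MeasurableSet (SB (n := n) b t) := by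
  refine ms_and (measurableSet_good meas_tail _) ?_
  rw [Set.ofPred_exists]
  refine MeasurableSet.iUnion fun B =>
    ms_and (measurableSet_strict b meas_tail meas_un B) (MeasurableSet.union ?_ ?_)
  · refine ms_iff (MeasurableSet.iUnion fun j => ms_and (MeasurableSet.const (j ∉ B))
      (measurableSet_le (mv_slack b (MM.of meas_tail) (mv_candX b (MM.of meas_tail) B) j)
        (measurable_const (a := t)))) fun a => Set.mem_iUnion
  · refine ms_iff (MeasurableSet.iUnion fun j => ms_and (MeasurableSet.const (j ∈ B))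
      (measurableSet_le (mv_candY (MM.of meas_tail) (MV.of meas_un) B j)
        (measurable_const (a := t)))) fun a => Set.mem_iUnion

lemma inv_SB (b : Fin m → ℝ) (t : ℝ) (O : Matrix (Fin n) (Fin n) ℝ) (hO : Orth O)
    (z : Fin (m + 1) → Fin n → ℝ) : rot O z ∈ SB b t ↔ z ∈ SB b t := by
  simp only [SB, Set.mem_ofPred_eq, tail_rot, un_rot hO, BadT, good_rot hO, strict_rot hO,
    candX_rot hO, slack_rot hO, candY_rot hO]

lemma inv_SG (O : Matrix (Fin n) (Fin n) ℝ) (hO : Orth O) (z : Fin (m + 1) → Fin n → ℝ) :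
    rot O z ∈ SG m n ↔ z ∈ SG m n := by
  simp only [SG, Set.mem_ofPred_eq, tail_rot, good_rot hO]

lemma ae_gen (hn : 1 ≤ n) (hm : n ≤ m) {b : Fin m → ℝ} (hb : ∀ j, b j ≠ 0) :
    ∀ᵐ z ∂(gm (Fin (m + 1)) (Fin n)), z 0 ≠ 0 ∧ GenPos (Matrix.of (Fin.tail z)) b (un (z 0)) := by
  have hA := MM.of (meas_tail (m := m) (n := n))
  have hS : MeasurableSet {z : Fin (m + 1) → Fin n → ℝ |
      z 0 ≠ 0 ∧ GenPos (Matrix.of (Fin.tail z)) b (un (z 0))} := by
    refine ms_and ((measurable_pi_apply 0) (measurableSet_singleton 0)).compl (ms_and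
      (ms_iff (ms_ne (hA.tr.mul hA).det) fun z => ⟨inj_of_det, Inj.det_ne_zero⟩)
      (ms_all fun B => ms_imp ?_))
    refine ms_iff ((ms_ne (mm_gram hA B).det).compl.union (ms_and
      (ms_all fun j => ms_imp (q := j ∉ B) (measurableSet_eq_fun (hA.mv (mv_candX b hA B) j)
        (measurable_const (a := b j))).compl)
      (ms_all fun j => ms_imp (q := j ∈ B) (ms_ne (mv_candY hA (MV.of meas_un) B j)))))
      fun z => imp_iff_not_or.symm
  rw [ae_iff]
  refine le_zero_iff.1 (null_set_le hn hS.compl fun c hc => le_of_eq ?_)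
  refine measure_eq_zero_iff_ae_notMem.2 ?_
  filter_upwards [ae_genPos hm hb (un_ne hc)] with a ha h using h ⟨hc, ha⟩

end Pool.Agent.Work.MP_6af739_lc
end

-- merged part: Pool.Agent.Work.MP_6af739_lc.SymFinal
section
/-! Final assembly when both the matrix and the cost are perturbed. -/

namespace Pool.Agent.Work.MP_6af739_lc

open Matrix Finset MeasureTheory ProbabilityTheory
open Pool.Agent.Work.MP_6a50bc_pr
open Pool.Agent.Work.MP_5c5849_an (sg av)
open scoped ENNReal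

variable {m n : ℕ} {b : Fin m → ℝ}

lemma NB_sym (hn : 1 ≤ n) (hm : 10 ^ 20 * n ≤ m) (hb : Box b) (N : Matrix (Fin (m + 1)) (Fin n) ℝ) :
    ENNReal.ofReal (10 ^ 5 * √m) * ∫⁻ z, ∑' i : ℕ, (SB b (tt m i)).indicator 1
        (fun j i => N j i + z j i) ∂(gm (Fin (m + 1)) (Fin n)) ≤
      ENNReal.ofReal (Real.exp (2 * (fro N ^ 2 / √n) ^ 2)) := by
  have h1 := rare_m hn hm
  have h0 : (0 : ℝ) < m := by linarith only [h1]
  have hr0 : 0 < Real.exp (-1 / 4) := Real.exp_pos _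
  have hr : Real.exp (-1 / 4) ≤ 4 / 5 := by
    have := Real.add_one_le_exp (1 / 4 : ℝ)
    rw [neg_div, Real.exp_neg]
    exact inv_le_of_inv_le₀ (by norm_num) (by linarith only [this])
  set E := Real.exp (2 * (fro N ^ 2 / √n) ^ 2) with hE
  have hE0 : 0 < E := Real.exp_pos _
  have hsum := (hasSum_geometric_of_lt_one hr0.le (by linarith only [hr0, hr])).mul_left (E * (1500 / m ^ 3))
  have key : ∫⁻ z, ∑' i : ℕ, (SB b (tt m i)).indicator 1 (fun j i => N j i + z j i)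
      ∂(gm (Fin (m + 1)) (Fin n)) ≤ ENNReal.ofReal (E * (1500 / m ^ 3) * (1 - Real.exp (-1 / 4))⁻¹) := by
    rw [← hsum.tsum_eq, ENNReal.ofReal_tsum_of_nonneg (fun i => by positivity) hsum.summable]
    refine (lintegral_tsum fun i => ((measurable_one.indicator (ms_SB b (tt m i))).comp
      (gaux_meas_add N)).aemeasurable).trans_le (ENNReal.tsum_le_tsum fun i => ?_)
    rw [mul_assoc]
    refine le_trans (le_of_eq ?_) (sym_le hn (ms_SB b (tt m i)) (inv_SB b _) N (by positivity)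
      (null_set_le hn (ms_SB b _) fun c hc => rare_bad hn hm hb (nrm_un hc) i))
    exact lintegral_indicator_one (gaux_meas_add N (ms_SB b _))
  refine (mul_le_mul_right key _).trans ?_
  rw [← ENNReal.ofReal_mul (by positivity), mul_assoc E, mul_left_comm]
  refine ENNReal.ofReal_le_ofReal (mul_le_of_le_one_right hE0.le ?_)
  have h2 : (1 - Real.exp (-1 / 4))⁻¹ ≤ 5 := inv_le_of_inv_le₀ (by norm_num) (by linarith only [hr])
  have h3 : √(m : ℝ) ≤ m := Real.sqrt_le_iff.2 ⟨h0.le, by linarith only [h1, hr0, hr, mul_nonneg_of_nonpos_of_nonpos (Mathlib.Tactic.Linarith.sub_nonpos_of_le (Mathlib.Tactic.Linarith.natCast_nonneg ℝ m)) (Mathlib.Tactic.Linarith.sub_nonpos_of_le h1)]⟩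
  have h4 : 0 < 1 - Real.exp (-1 / 4) := by linarith only [hr0, hr]
  calc _ ≤ 10 ^ 5 * m * (1500 / m ^ 3 * 5 : ℝ) := by gcongr
    _ = 10 ^ 5 * 7500 / m ^ 2 := by field_simp; norm_num
    _ ≤ 1 := (div_le_one (by positivity)).2 (by linarith only [h1, mul_nonneg_of_nonpos_of_nonpos (Mathlib.Tactic.Linarith.sub_nonpos_of_le (Mathlib.Tactic.Linarith.natCast_nonneg ℝ m)) (Mathlib.Tactic.Linarith.sub_nonpos_of_le h1)])

lemma choose_sym (hn : 1 ≤ n) (hm : 10 ^ 20 * n ≤ m) (N : Matrix (Fin (m + 1)) (Fin n) ℝ) :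
    ((m.choose n : ℝ≥0∞) + 1) * gm (Fin (m + 1)) (Fin n) {z | (fun j i => N j i + z j i) ∈ SG m n} ≤
      ENNReal.ofReal (2 * Real.exp (2 * (fro N ^ 2 / √n) ^ 2)) := by
  have h1 : (10 : ℝ) ^ 20 * n ≤ m := by exact_mod_cast hm
  have h0 : (0 : ℝ) ≤ n := n.cast_nonneg
  have hq : Real.exp (-(m : ℝ) / 10 ^ 5) = Real.exp (-(m / 200000)) ^ 2 := by
    rw [← Real.exp_nat_mul]; congr 1; push_cast; ring
  have h2 := sym_le hn ms_SG inv_SG N (Real.exp_pos _).le (null_set_le hn ms_SG fun c _ =>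
    hq ▸ not_good_le hn (by omega : 10 ^ 6 * n ≤ m))
  have h3 : (m.choose n : ℝ) ≤ Real.exp (m / 200000) := by
    calc (m.choose n : ℝ) ≤ (m : ℝ) ^ n / n.factorial := Nat.choose_le_pow_div n m
      _ = (m / 400000) ^ n / n.factorial * 400000 ^ n := by rw [div_pow]; field_simp
      _ ≤ Real.exp (m / 400000) * Real.exp 400000 ^ n := by
        gcongr
        · exact Real.pow_div_factorial_le_exp _ (by positivity) n
        · linarith only [Real.add_one_le_exp 400000]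
      _ ≤ _ := by
        rw [← Real.exp_nat_mul, ← Real.exp_add]
        exact Real.exp_le_exp.2 (by linarith only [h1])
  have h4 : 1 ≤ Real.exp (m / 200000) := Real.one_le_exp (by positivity)
  refine (mul_le_mul_right h2 _).trans ?_
  rw [← ENNReal.ofReal_natCast, ← ENNReal.ofReal_one, ← ENNReal.ofReal_add (by positivity) one_pos.le,
    ← ENNReal.ofReal_mul (by positivity), mul_left_comm, mul_comm 2 (Real.exp _)]
  refine ENNReal.ofReal_le_ofReal (mul_le_mul_of_nonneg_left ?_ (Real.exp_pos _).le)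
  rw [Real.exp_neg, ← div_eq_mul_inv, div_le_iff₀ (Real.exp_pos _)]
  linarith only [h3, h4]

lemma J1_sym {n : ℕ} {b : Fin m → ℝ} (hm : 10 ^ 20 * (n + 1) ≤ m) (hb : Box b) {P M4 : ℝ}
    (hP : 10 ^ 20 ≤ P) (hrat : (m : ℝ) ≤ P * (n + 1 : ℕ)) (hlog : 24 * Real.log m ≤ P) (h4 : 0 ≤ M4)
    (h4' : M4 ^ 4 = m) (N : Matrix (Fin (m + 1)) (Fin (n + 1)) ℝ) {ν : ℝ}
    (hν : ν = fro N ^ 2 / √(n + 1 : ℕ)) :
    ∫⁻ z, J1 b (fun j i => N j i + z j i) ∂(gm (Fin (m + 1)) (Fin (n + 1))) ≤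
      ENNReal.ofReal (Real.exp (2 * ν ^ 2 + ν * √(Real.log m)) * (P ^ 94 * M4) + P ^ 2) := by
  have hm0 : 0 < m := by omega
  have hm1 : (1 : ℝ) < m := by exact_mod_cast (by omega : 1 < m)
  have hl : 0 < Real.log m := Real.log_pos hm1
  have hP1 : 1 ≤ P := le_trans (by norm_num) hP
  have hν0 : 0 ≤ ν := by rw [hν]; positivity
  have hM1 : 1 ≤ M4 := by
    refine le_of_pow_le_pow_left₀ (by norm_num : 4 ≠ 0) h4 ?_
    rw [h4', one_pow]; exact hm1.le
  have h2 : √(m : ℝ) = M4 * M4 := by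
    rw [← h4', show M4 ^ 4 = (M4 * M4) ^ 2 by ring, Real.sqrt_sq (by positivity)]
  have hK : ∀ z : Fin (m + 1) → Fin (n + 1) → ℝ, J1 b z ≤ ENNReal.ofReal (P ^ 2 * √m) := fun z => by
    by_cases h : Good (Matrix.of (Fin.tail z)) (45 / 100)
    · rw [J1_of h]
      exact JJ_le hm0 (h.mono (by norm_num)) hb _ hP hlog
    · rw [J1_not h]
      exact zero_le
  set E := Real.exp (2 * ν ^ 2 + ν * √(Real.log m)) with hE
  have hE1 : 1 ≤ E := Real.one_le_exp (by positivity)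
  by_cases hc : ν ≤ √(Real.log m) ∧ P ^ 10 ≤ (n + 1 : ℕ)
  · have h1 := sym_bdd (meas_J1 b) (inv_J1 b) hK N (Real.sqrt_pos.2 hl) hν hc.1 (by
      refine Real.le_sqrt_of_sq_le ?_
      rw [mul_pow, Real.sq_sqrt hl.le]
      have : P ≤ P ^ 10 := le_self_pow₀ hP1 (by norm_num)
      linarith only [hP, hlog, hc, this, hc.2])
    have h5 := null_le (by omega) (meas_J1 b) fun c hc =>
      JJ_mean hm hb (nrm_un hc) hP hrat hlog h4 h4'
    have h3 : Real.exp (-√(Real.log m) ^ 2 / 2) = (√(m : ℝ))⁻¹ := by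
      rw [Real.sq_sqrt hl.le, Real.sqrt_eq_rpow, Real.rpow_def_of_pos (by linarith only [hm1]),
        ← Real.exp_neg]
      congr 1; ring
    have hsq : 0 < √(m : ℝ) := Real.sqrt_pos.2 (by linarith only [hm1])
    refine h1.trans ?_
    rw [ENNReal.ofReal_add (by positivity) (by positivity),
      ← ENNReal.ofReal_mul (by positivity : 0 ≤ P ^ 2 * √(m : ℝ)), h3, mul_assoc,
      mul_inv_cancel₀ hsq.ne', mul_one, ENNReal.ofReal_mul (p := E) (by positivity)]
    gcongr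
  · refine (lintegral_mono fun z => hK _).trans ?_
    rw [lintegral_const, measure_univ, mul_one, h2]
    refine ENNReal.ofReal_le_ofReal (le_add_of_le_of_nonneg ?_ (by positivity))
    have h6 : M4 ≤ E * P ^ 92 := by
      rcases not_and_or.1 hc with h | h
      · have h7 : Real.log m ≤ ν ^ 2 := by
          rw [← Real.sq_sqrt hl.le]
          exact pow_le_pow_left₀ (Real.sqrt_nonneg _) (not_le.1 h).le 2
        have h8 : (m : ℝ) ≤ E := by
          rw [← Real.exp_log (by linarith only [hm1] : (0 : ℝ) < m)]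
          refine Real.exp_le_exp.2 ?_
          have : 0 ≤ ν * √(Real.log m) := by positivity
          linarith only [hl, h7, this]
        calc M4 ≤ M4 ^ 4 := le_self_pow₀ hM1 (by norm_num)
          _ ≤ E * 1 := by rw [h4', mul_one]; exact h8
          _ ≤ E * P ^ 92 := by gcongr; exact one_le_pow₀ hP1
      · have h1 : M4 ≤ P ^ 3 := by
          refine le_of_pow_le_pow_left₀ (by norm_num : 4 ≠ 0) (by positivity) ?_
          rw [h4', ← pow_mul]
          calc (m : ℝ) ≤ P * P ^ 10 := hrat.trans (by gcongr; exact (not_le.1 h).le)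
            _ = P ^ 11 := by ring
            _ ≤ P ^ (3 * 4) := pow_le_pow_right₀ hP1 (by norm_num)
        calc M4 ≤ 1 * P ^ 92 := by
              rw [one_mul]; exact h1.trans (pow_le_pow_right₀ hP1 (by norm_num))
          _ ≤ E * P ^ 92 := by gcongr
    calc P ^ 2 * (M4 * M4) ≤ P ^ 2 * (E * P ^ 92 * M4) := by gcongr
      _ = E * (P ^ 94 * M4) := by ring

/-- The majorant as a function of the stacked matrix. -/
noncomputable def TS (b : Fin m → ℝ) (z : Fin (m + 1) → Fin n → ℝ) : ℝ≥0∞ :=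
  2 + 20 * J1 b z + ENNReal.ofReal (10 ^ 5 * √m) * ∑' i : ℕ, (SB b (tt m i)).indicator 1 z +
    ((m.choose n : ℝ≥0∞) + 1) * (SG m n).indicator 1 z

lemma TS_eq (b : Fin m → ℝ) (z : Fin (m + 1) → Fin n → ℝ) :
    TS b z = TT b (un (z 0)) (Fin.tail z) := rfl

lemma meas_NS (b : Fin m → ℝ) : Measurable fun z : Fin (m + 1) → Fin n → ℝ =>
    ∑' i : ℕ, (SB b (tt m i)).indicator (1 : (Fin (m + 1) → Fin n → ℝ) → ℝ≥0∞) z :=
  Measurable.tsum fun _ => measurable_one.indicator (ms_SB b _)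

lemma meas_TS (b : Fin m → ℝ) : Measurable (TS (n := n) b) :=
  ((measurable_const.add ((meas_J1 b).const_mul _)).add ((meas_NS b).const_mul _)).add
    ((measurable_one.indicator ms_SG).const_mul _)

lemma TS_mean {n : ℕ} {b : Fin m → ℝ} (hm : 10 ^ 20 * (n + 1) ≤ m) (hb : Box b) {P M4 : ℝ}
    (hP : 10 ^ 20 ≤ P) (hrat : (m : ℝ) ≤ P * (n + 1 : ℕ)) (hlog : 24 * Real.log m ≤ P) (h4 : 0 ≤ M4)
    (h4' : M4 ^ 4 = m) (N : Matrix (Fin (m + 1)) (Fin (n + 1)) ℝ) {ν : ℝ}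
    (hν : ν = fro N ^ 2 / √(n + 1 : ℕ)) :
    ∫⁻ z, TS b (fun j i => N j i + z j i) ∂(gm (Fin (m + 1)) (Fin (n + 1))) ≤
      ENNReal.ofReal (Real.exp (2 * ν ^ 2 + ν * √(Real.log m)) * M4 * P ^ 96) := by
  have hm1 : (1 : ℝ) ≤ m := by exact_mod_cast (by omega : 1 ≤ m)
  have hP1 : 1 ≤ P := le_trans (by norm_num) hP
  have hν0 : 0 ≤ ν := by rw [hν]; positivity
  have hM1 : 1 ≤ M4 := by
    refine le_of_pow_le_pow_left₀ (by norm_num : 4 ≠ 0) h4 ?_
    rw [h4', one_pow]; exact hm1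
  have hs := gaux_meas_add N
  have h4a := J1_sym hm hb hP hrat hlog h4 h4' N hν
  have h5 := NB_sym (by omega) hm hb N
  have h6 := choose_sym (by omega) hm N
  rw [← hν] at h5 h6
  set E := Real.exp (2 * ν ^ 2 + ν * √(Real.log m)) with hE
  have hE0 : Real.exp (2 * ν ^ 2) ≤ E := Real.exp_le_exp.2 (le_add_of_nonneg_right (by positivity))
  have hE1 : 1 ≤ E := Real.one_le_exp (by positivity)
  have h7 : ∫⁻ z, (SG m (n + 1)).indicator (1 : (Fin (m + 1) → Fin (n + 1) → ℝ) → ℝ≥0∞)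
      (fun j i => N j i + z j i) ∂(gm (Fin (m + 1)) (Fin (n + 1))) =
      gm (Fin (m + 1)) (Fin (n + 1)) {z | (fun j i => N j i + z j i) ∈ SG m (n + 1)} :=
    lintegral_indicator_one (μ := gm (Fin (m + 1)) (Fin (n + 1))) (hs ms_SG)
  unfold TS
  rw [lintegral_add_left, lintegral_add_left, lintegral_add_left measurable_const, lintegral_const,
    measure_univ, mul_one, lintegral_const_mul' _ _ (by simp),
    lintegral_const_mul' _ _ ENNReal.ofReal_ne_top, lintegral_const_mul' _ _ (by simp), h7]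
  · refine le_trans (add_le_add (add_le_add (add_le_add le_rfl (mul_le_mul_right h4a 20)) h5)
      h6) ?_
    rw [show (2 : ℝ≥0∞) = ENNReal.ofReal 2 by simp, show (20 : ℝ≥0∞) = ENNReal.ofReal 20 by simp,
      ← ENNReal.ofReal_mul (by norm_num), ← ENNReal.ofReal_add (by norm_num) (by positivity),
      ← ENNReal.ofReal_add (by positivity) (by positivity),
      ← ENNReal.ofReal_add (by positivity) (by positivity)]
    refine ENNReal.ofReal_le_ofReal ?_
    have a1 : P ^ 2 ≤ P ^ 94 := pow_le_pow_right₀ hP1 (by norm_num)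
    have a2 : 1 ≤ P ^ 94 := one_le_pow₀ hP1
    set W := E * (P ^ 94 * M4) with hW
    have a3 : P ^ 94 ≤ W := by
      calc P ^ 94 = 1 * (P ^ 94 * 1) := by ring
        _ ≤ W := by rw [hW]; gcongr
    have a4 : E ≤ W := by
      calc E = E * (1 * 1) := by ring
        _ ≤ W := by rw [hW]; gcongr
    have a5 : 100 * W ≤ E * M4 * P ^ 96 := by
      have : (100 : ℝ) ≤ P ^ 2 := by linarith only [hP, mul_nonneg_of_nonpos_of_nonpos (Mathlib.Tactic.Linarith.sub_nonpos_of_le hP) (Mathlib.Tactic.Linarith.sub_nonpos_of_le hP)]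
      calc 100 * W ≤ P ^ 2 * W := by gcongr
        _ = E * M4 * P ^ 96 := by rw [hW]; ring
    linarith only [hE0, a1, a2, a3, a4, a5]
  · exact measurable_const.add (((meas_J1 b).comp hs).const_mul _)
  · exact (measurable_const.add (((meas_J1 b).comp hs).const_mul _)).add
      (((meas_NS b).comp hs).const_mul _)

theorem main2 : ∃ (C : ℝ) (κ : ℕ), ∀ (m n : ℕ), 1 ≤ n → C * n ≤ m →
    ∀ e : ℕ → Finset (Fin m), (∀ B : Finset (Fin m), B.card = n → ∃ i < m.choose n, e i = B) →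
    ∀ (A₀ : Matrix (Fin m) (Fin n) ℝ) (b : Fin m → ℝ) (c₀ : Fin n → ℝ) (σ β ν : ℝ),
    0 < σ → 0 < β → (∀ j, β ≤ b j ∧ b j ≤ 3 * β) →
    ν = (∑ j, ∑ i, A₀ j i ^ 2 + ∑ i, c₀ i ^ 2) / (σ ^ 2 * √n) →
    ∃ T : (Fin m → Fin n → ℝ) × (Fin n → ℝ) → ℝ≥0∞, Measurable T ∧
      (∀ᵐ q ∂((Measure.pi fun _ : Fin m => Measure.pi fun _ : Fin n => gaussianReal 0 1).prod
          (Measure.pi fun _ : Fin n => gaussianReal 0 1)),
        ∀ (A : Matrix (Fin m) (Fin n) ℝ) (c : Fin n → ℝ), A = A₀ + σ • Matrix.of q.1 →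
          c = c₀ + σ • q.2 →
        (∀ i j, 0 < slack A b (iter A b c i).2 j ∧
          0 < slack A b (predict A b c (iter A b c i)).2 j) ∧
        Correct A b c (output A b c e) ∧ (stopTime A b c e : ℝ≥0∞) + 1 ≤ T q) ∧
      ∫⁻ q, T q ∂((Measure.pi fun _ : Fin m => Measure.pi fun _ : Fin n => gaussianReal 0 1).prod
          (Measure.pi fun _ : Fin n => gaussianReal 0 1)) ≤
        ENNReal.ofReal (Real.exp (2 * ν ^ 2 + ν * √(Real.log m)) *
          (m : ℝ) ^ (1 / 4 : ℝ) * ((m : ℝ) / n * Real.log m) ^ κ) := by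
  refine ⟨10 ^ 20, 96, fun m n hn hm e he A₀ b c₀ σ β ν hσ hβ hb hν => ?_⟩
  obtain ⟨n, rfl⟩ : ∃ k, n = k + 1 := ⟨n - 1, by omega⟩
  have hm' : 10 ^ 20 * (n + 1) ≤ m := by exact_mod_cast hm
  have hm0 : 0 < m := by omega
  have hm1 : (0 : ℝ) < m := by exact_mod_cast hm0
  have hn0 : (0 : ℝ) < (n + 1 : ℕ) := by positivity
  set b' : Fin m → ℝ := β⁻¹ • b
  set N : Matrix (Fin (m + 1)) (Fin (n + 1)) ℝ := σ⁻¹ • Matrix.of (Fin.cons c₀ A₀) with hN
  have hb' : Box b' := fun j => by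
    have h := hb j
    simp only [b', Pi.smul_apply, smul_eq_mul]
    constructor
    · rw [le_inv_mul_iff₀ hβ]; linarith only [h, h.1]
    · rw [inv_mul_le_iff₀ hβ]; linarith only [h, h.2]
  have hb0 : ∀ j, 0 < b' j := fun j => lt_of_lt_of_le one_pos (hb' j).1
  have eb : b = β • b' := by simp [b', smul_smul, mul_inv_cancel₀ hβ.ne']
  have hT := (meas_TS b').comp (gaux_meas_add N)
  refine ⟨fun q => TS b' fun j i => N j i + (Fin.cons q.2 q.1 : Fin (m + 1) → _) j i,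
    hT.comp mp_split.measurable, ?_, ?_⟩
  · have h := mp_split.quasiMeasurePreserving.ae
      (ae_shift N (ae_gen (m := m) hn (by omega) fun j => (hb0 j).ne'))
    filter_upwards [h] with q hq A c hA hc
    set w : Fin (m + 1) → Fin (n + 1) → ℝ :=
      fun j i => N j i + (Fin.cons q.2 q.1 : Fin (m + 1) → _) j i with hw
    obtain ⟨h0, hG⟩ : w 0 ≠ 0 ∧ GenPos (Matrix.of (Fin.tail w)) b' (un (w 0)) := hq
    have hτ := nrm_pos h0
    have hτ0 : 0 < σ * nrm (w 0) := mul_pos hσ hτ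
    have eA : A = σ • Matrix.of (Fin.tail w) := by
      rw [hA]
      ext j i
      simp [hw, hN, Fin.tail, mul_add, ← mul_assoc, mul_inv_cancel₀ hσ.ne']
    have ec : c = (σ * nrm (w 0)) • un (w 0) := by
      rw [un, smul_smul, mul_assoc, mul_inv_cancel₀ hτ.ne', mul_one, hc]
      ext i
      simp [hw, hN, mul_add, ← mul_assoc, mul_inv_cancel₀ hσ.ne']
    rw [eA, eb, ec]
    refine ⟨fun i j => ⟨?_, ?_⟩, ?_, ?_⟩
    · exact inter_iter_scale hσ hβ hτ0 i (near_iter hG.1 hb0 (un_ne h0) i).2.1.1 j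
    · exact inter_predict_scale hσ hβ hτ0 i (near_iter hG.1 hb0 (un_ne h0) i).2.2 j
    · exact correct_scale hσ hβ hτ0 e (output_correct hG hb0 he)
    · rw [stopTime_scale hσ hβ hτ0, TS_eq]
      exact stop_le_TT hm0 hb' (nrm_un h0) hG e
  · have hρ : (10 : ℝ) ^ 20 ≤ m / (n + 1 : ℕ) := by rw [le_div_iff₀ hn0]; exact hm
    have hl : 1 ≤ Real.log m := by
      rw [Real.le_log_iff_exp_le hm1]
      have : (3 : ℝ) ≤ m := by exact_mod_cast (by omega : 3 ≤ m)
      linarith only [hm, hn0, this, Real.exp_one_lt_d9]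
    have hf : ν = fro N ^ 2 / √(n + 1 : ℕ) := by
      rw [hν, hN, fro_smul, mul_pow, sq_abs, fro_sq, ip, Fin.sum_univ_succ (n := m)]
      simp only [of_apply, Fin.cons_zero, Fin.cons_succ, ← sq]
      field_simp
      ring
    refine (mp_split.lintegral_comp hT).trans_le
      (TS_mean hm' hb' (by linarith only [hρ, hl, mul_nonneg_of_nonpos_of_nonpos (Mathlib.Tactic.Linarith.sub_nonpos_of_le hρ) (Mathlib.Tactic.Linarith.sub_nonpos_of_le hl)]) ?_ (by linarith only [hρ, hl, mul_nonneg_of_nonpos_of_nonpos (Mathlib.Tactic.Linarith.sub_nonpos_of_le hρ) (Mathlib.Tactic.Linarith.sub_nonpos_of_le hl)]) (by positivity) ?_ N hf)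
    · calc (m : ℝ) = m / (n + 1 : ℕ) * 1 * (n + 1 : ℕ) := by field_simp
        _ ≤ _ := by gcongr
    · rw [← Real.rpow_natCast, ← Real.rpow_mul hm1.le]; norm_num

end Pool.Agent.Work.MP_6af739_lc
end
end

-- merged part: Pool.Agent.Work.MP_6af739_lc.HO.Base
section
/-! Proof-level definitions. See the write-up `h45_6af739_poly.md`. -/

namespace Pool.Agent.Work.MP_6af739_lc.HO

open Matrix Finset MeasureTheory ProbabilityTheory
open Pool.Agent.Work.MP_6a50bc_pr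
open Pool.Agent.Work.MP_5c5849_an (sg av)
open scoped ENNReal Polynomial

variable {m n : ℕ}

section Taylor

variable (p : ℕ) (Q : Matrix (Fin m) (Fin m) ℝ) (q : Fin m → ℝ)

/-- The pair `(-Q y, y - Q y)`. -/
def spl (y : Fin m → ℝ) : (Fin m → ℝ) × (Fin m → ℝ) := (-(Q *ᵥ y), y - Q *ᵥ y)

/-- The abstract Taylor recursion `(g_j, f_j)`. -/
def tg : ℕ → (Fin m → ℝ) × (Fin m → ℝ)
  | 0 => (q, q)
  | j + 1 => spl Q (∑ i : Fin (j + 1), (tg i).1 * (tg (j - i)).2)

/-- The convolution `y_(j+1)`. -/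
def ty (j : ℕ) : Fin m → ℝ := ∑ i ∈ range (j + 1), (tg Q q i).1 * (tg Q q (j - i)).2

lemma tg_zero : tg Q q 0 = (q, q) := by rw [tg]

lemma tg_succ (j : ℕ) : tg Q q (j + 1) = (-(Q *ᵥ ty Q q j), ty Q q j - Q *ᵥ ty Q q j) := by
  rw [tg, ty, ← Fin.sum_univ_eq_sum_range (fun i => (tg Q q i).1 * (tg Q q (j - i)).2), spl]

/-- The growth rate of the first `p` coefficients. -/
noncomputable def Phi : ℝ :=
  ∑ j ∈ range p, (‖(tg Q q j).1‖ + ‖(tg Q q j).2‖) ^ ((j : ℝ) + 1)⁻¹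

/-- The polynomial `e`. -/
noncomputable def pe : (Fin m → ℝ)[X] := -∑ j ∈ range p, Polynomial.monomial (j + 1) (tg Q q j).1

/-- The polynomial `f`. -/
noncomputable def pf : (Fin m → ℝ)[X] := ∑ j ∈ range p, Polynomial.monomial (j + 1) (tg Q q j).2

/-- The residual polynomial. -/
noncomputable def pr : (Fin m → ℝ)[X] := (1 + pe p Q q) * (1 + pf p Q q) - 1

end Taylor

/-- The growth rate at a point of the path. -/
noncomputable def Ph (p : ℕ) (A : Matrix (Fin m) (Fin n) ℝ) (b : Fin m → ℝ) (x : Fin n → ℝ) : ℝ :=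
  Phi p (proj (sc A b x)) (qv A b x)

/-- Evaluation at a real number. -/
noncomputable def ev (a : ℝ) (U : (Fin m → ℝ)[X]) : Fin m → ℝ := U.eval fun _ => a

/-- Seminorms that are submultiplicative against the sup norm. -/
structure Sn (φ : (Fin m → ℝ) → ℝ) : Prop where
  zero : φ 0 = 0
  nonneg : ∀ x, 0 ≤ φ x
  neg : ∀ x, φ (-x) = φ x
  add : ∀ x y, φ (x + y) ≤ φ x + φ y
  mul : ∀ x y, φ (x * y) ≤ ‖x‖ * φ y

/-- Weighted coefficient norm up to degree `J - 1`. -/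
noncomputable def wn (φ : (Fin m → ℝ) → ℝ) (β : ℝ) (J : ℕ) (U : (Fin m → ℝ)[X]) : ℝ :=
  ∑ j ∈ range J, β ^ j * φ (U.coeff j)

/-- The path integral over the main range of the parameter. -/
noncomputable def JP (p : ℕ) (A : Matrix (Fin m) (Fin n) ℝ) (b : Fin m → ℝ) (c : Fin n → ℝ) : ℝ≥0∞ :=
  ∫⁻ t in Set.Ioc (Real.log (1 / 10 ^ 8)) (20 * Real.log m),
    ENNReal.ofReal (1 + Ph p A b (X A b (Real.exp t • c)))

section Cube

/-- Flip one sign. -/
def fl (k : Fin m) (d : Fin m → Fin 2) : Fin m → Fin 2 := Function.update d k (d k + 1)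

/-- Flip all signs. -/
def ng (d : Fin m → Fin 2) : Fin m → Fin 2 := fun j => d j + 1

/-- Squared discrete gradient. -/
def gam (F : (Fin m → Fin 2) → ℝ) (d : Fin m → Fin 2) : ℝ := ∑ k, (F d - F (fl k d)) ^ 2

/-- The matrix of discrete derivatives of a vector valued function. -/
def del (x : (Fin m → Fin 2) → Fin m → ℝ) (d : Fin m → Fin 2) : Matrix (Fin m) (Fin m) ℝ :=
  Matrix.of fun i k => x d i - x (fl k d) i

/-- The matrix `Z`. -/
def zm (y : (Fin m → Fin 2) → Fin m → ℝ) (d : Fin m → Fin 2) : Matrix (Fin m) (Fin m) ℝ :=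
  del y d + diagonal fun k => 2 * y (fl k d) k

/-- Column `k` without its diagonal entry. -/
def offc (M : Matrix (Fin m) (Fin m) ℝ) (k : Fin m) : Fin m → ℝ :=
  fun l => if l = k then 0 else M l k

/-- Binary trees with four kinds of leaves and two kinds of nodes. -/
inductive Tr : Type
  | leaf (i : Fin 4) : Tr
  | node (s : Bool) (l r : Tr) : Tr

/-- Which projection is applied at the root. -/
def Tr.root : Tr → Bool
  | .leaf i => decide (i = 0)
  | .node s _ _ => s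

/-- Number of inner nodes. -/
def Tr.nodes : Tr → ℕ
  | .leaf _ => 0
  | .node _ l r => l.nodes + r.nodes + 1

/-- Number of vertices. -/
def Tr.wt (τ : Tr) : ℕ := 2 * τ.nodes + 1

/-- No leaf of the last kind. -/
def Tr.pure : Tr → Prop
  | .leaf i => i ≠ 3
  | .node _ l r => l.pure ∧ r.pure

variable (P : Matrix (Fin m) (Fin m) ℝ) (cv : Fin 4 → Fin m → ℝ)

/-- `P` or `1 - P`. -/
def qm (s : Bool) : Matrix (Fin m) (Fin m) ℝ := if s then P else 1 - P

/-- The (twisted) value of a tree. -/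
def val : Tr → (Fin m → Fin 2) → Fin m → ℝ
  | .leaf i, d => qm P (decide (i = 0)) *ᵥ (sg d * cv i)
  | .node s l r, d => qm P s *ᵥ (sg d * (val l d * val r d))

/-- The vector below the root projection. -/
def inn : Tr → (Fin m → Fin 2) → Fin m → ℝ
  | .leaf i, _ => cv i
  | .node _ l r, d => val P cv l d * val P cv r d

/-- Refined sup norm. -/
noncomputable def ap (τ : Tr) (d : Fin m → Fin 2) : ℝ :=
  ‖fun i => val P cv τ d i / √(qm P τ.root i i)‖

/-- The majorant `N`. -/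
noncomputable def nt : Tr → (Fin m → Fin 2) → ℝ
  | .leaf i, d => ap P cv (.leaf i) d + 3
  | .node s l r, d => ap P cv (.node s l r) d + 3 * (nt l d * nt r d)

/-- The majorant `Nin`. -/
noncomputable def nin : Tr → (Fin m → Fin 2) → ℝ
  | .leaf _, _ => 1
  | .node _ l r, d => nt P cv l d * nt P cv r d

variable (ψ : Fin m → ℝ)

/-- The scalar `F`. -/
def ff (τ : Tr) (d : Fin m → Fin 2) : ℝ := (sg d * ψ) ⬝ᵥ val P cv τ d

/-- `∑ (1 - P_kk) |ψ_k|`. -/
def nut : ℝ := ∑ k, (1 - P k k) * |ψ k|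

/-- `Λ`. -/
noncomputable def lm : ℝ := nut P ψ + √(mpsi P ψ)

/-- `σ`. -/
noncomputable def sgm (Y : ℝ) : ℝ := min Y √(mpsi P ψ)

/-- Standing assumptions on the cube. -/
structure CH (Y : ℝ) : Prop where
  proj : IsProj P
  bdd : ∀ i, i ≠ 3 → ∀ k, |cv i k| ≤ 1
  hY : ∀ k, |ψ k| ≤ Y
  pos : 0 < mpsi P ψ
  last : cv 3 = (sgm P ψ Y)⁻¹ • ψ

/-- The good event on the cube. -/
def GoodD (p : ℕ) (K : ℝ) (d : Fin m → Fin 2) : Prop :=
  ∀ τ : Tr, τ.nodes < p → nt P cv τ d ≤ K ^ τ.wt ∧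
    (τ.pure → τ.root = false → |ff P cv ψ τ d| ≤ lm P ψ * K ^ 2 * K ^ τ.wt)

/-- The exponent used for trees of weight `w`. -/
def qq (Q0 w : ℕ) : ℕ := 4 * (Q0 / w + 1)

/-- The leaf vectors. -/
noncomputable def cvec (v0 v1 ψ : Fin m → ℝ) (U V σ : ℝ) : Fin 4 → Fin m → ℝ :=
  ![U⁻¹ • v0, V⁻¹ • v1, U⁻¹ • v0, σ⁻¹ • ψ]

/-- Representation by trees of the class `S` with at most `j` nodes, with total weight `a`. -/
def Rep (K : ℝ) (d : Fin m → Fin 2) (S : Tr → Prop) (j : ℕ) (x : Fin m → ℝ) (a : ℝ) : Prop :=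
  ∀ (φ : Seminorm ℝ (Fin m → ℝ)) (t : ℝ), 0 ≤ t →
    (∀ τ : Tr, S τ → τ.nodes ≤ j → φ (val P cv τ d) ≤ t * K ^ τ.wt) → φ x ≤ t * a

end Cube

/-- How the range of `Q` sits relative to the range of `P`. -/
def StructW (Q P : Matrix (Fin m) (Fin m) ℝ) (v0 v1 ψ : Fin m → ℝ) : Prop :=
  (∀ e, Q *ᵥ e = e → ∃ γ : ℝ, co P e = (v0 ⬝ᵥ e / (v0 ⬝ᵥ v1)) • co P v1 + γ • co P ψ) ∧
    ∀ (f : Fin m → ℝ) (t : ℝ), Q *ᵥ (f - t • v0) = 0 → P *ᵥ f = (ψ ⬝ᵥ f / (v0 ⬝ᵥ v1)) • P *ᵥ v0

/-- The good event for `p = (r, a0)`. -/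
structure EP (n : ℕ) (P lam : ℝ) (b : Fin m → ℝ) (z : ℝ × (Fin m → ℝ)) : Prop where
  adm : Adm b z
  u : ∀ k, |z.1 * z.2 k| ≤ P ^ 2 * min (al m (n + 1) lam) 1
  sinv : ∀ k, (hs b z k)⁻¹ ≤ 1 + P ^ 4 * al m (n + 1) lam
  v1 : ∀ k, |h1 b z k| ≤ P ^ 5 * al m (n + 1) lam
  psi : ∀ k, |hpsi b lam z k| ≤ P ^ 7 * |h1 b z k|
  elo : m * al m (n + 1) lam * min (al m (n + 1) lam) 1 / (8 * P) ≤ h0 b z ⬝ᵥ h1 b z
  ehi : h0 b z ⬝ᵥ h1 b z ≤ 2 * (lam * √(n + 1 : ℕ)) * z.1
  sig : hsig b lam z ≤ P ^ 4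
  rlo : min (al m (n + 1) lam) 1 / (4 * P) ≤ z.1
  rad : P ^ 2 ≤ al m (n + 1) lam → 1 ≤ 400 * Real.log P * z.1 ^ 2

/-- The mean of the Gram determinant without row `k`. -/
noncomputable def pik (n : ℕ) (b : Fin m → ℝ) (z : ℝ × (Fin m → ℝ)) (k : Fin m) : ℝ≥0∞ :=
  ∫⁻ a, ENNReal.ofReal (hXk b z (Matrix.of a) k).det ∂(gm (Fin m) (Fin n))

/-- Comparison of integrals for the measure of the master formula, radius by radius. -/
def OneP (n : ℕ) (b : Fin m → ℝ) (lam : ℝ) (ν : Measure (ℝ × (Fin m → ℝ))) : Prop :=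
  ∀ Φ Ψ : ℝ × (Fin m → ℝ) → ℝ≥0∞, Measurable Φ → Measurable Ψ →
    (∀ r, ∫⁻ a, Master_wt n b lam (r, a) * Φ (r, a) ∂(gv (Fin m)) ≤
      ∫⁻ a, Master_wt n b lam (r, a) * Ψ (r, a) ∂(gv (Fin m))) →
    ∫⁻ z, Φ z ∂ν ≤ ∫⁻ z, Ψ z ∂ν

/-- The value of `u` at which `1/(β - u) - 1/β = w`. -/
noncomputable def uu (w β : ℝ) : ℝ := w * β ^ 2 / (1 + w * β)

/-- The window for the coordinate. -/
noncomputable def win (w β r : ℝ) : Set ℝ := Set.Icc (uu w β / r) (uu (2 * w) β / r)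

/-- The left weight in the one-coordinate comparison. -/
noncomputable def wl (n : ℕ) (P lam : ℝ) (b : Fin m → ℝ) (k : Fin m) : ℝ × (Fin m → ℝ) → ℝ≥0∞ :=
  {z | EP n P lam b z}.indicator fun z =>
    ENNReal.ofReal (P ^ 12 * al m (n + 1) lam * |hpsi b lam z k| / z.1 ^ 2)

/-- The right weight in the one-coordinate comparison. -/
noncomputable def wr (lam : ℝ) (b : Fin m → ℝ) (k : Fin m) (z : ℝ × (Fin m → ℝ)) : ℝ≥0∞ :=
  ENNReal.ofReal (((hsig b lam z)⁻¹ * h1 b z k) ^ 2 / z.1 ^ 2)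

end Pool.Agent.Work.MP_6af739_lc.HO
end

-- merged part: Pool.Agent.Work.MP_6af739_lc.HO.Mom
section
/-!
Moment inequality on the cube. fl k and ng are involutions, so av is invariant (Equiv.sum_comp or
Finset.sum_bijective). poincare: parseval of Walsh.lean; the coefficient of F - F ∘ fl k at A is 2 co F A if k ∈ A and 0
otherwise (wal A (fl k d) = ± wal A d), co F ∅ = av F, and 1 ≤ card A for A ≠ ∅.
moment: Z = F - av F, m_r = av |Z|^r. For i ≤ j: gam^i ≤ g^(2i) (1 + gam^j/g^(2j)), so av gam^i ≤ 2 g^(2i).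
Strong induction on r ≤ j, claim m_(2r) ≤ 2 (4 r^2 g)^(2r). r = 1: poincare. r ≥ 2: poincare for G = |Z|^r, with
|x^r - y^r| ≤ r max(x,y)^(r-1) |x - y| (abs_pow_sub_pow_le), so (G - G')^2 ≤ r^2 (Z^(2r-2) + Z'^(2r-2)) (F - F')^2;
av_fl makes both terms equal; Z^(2r-2) gam ≤ Z^(2r)/r^2 + r^(2r-2) gam^r (case gam ≤ Z^2/r^2 or not). This gives
m_(2r) ≤ 2 m_r^2 + 2 (r g)^(2r). With r' = (r+1)/2 < r, r ≤ 2 r', 3 r' ≤ 2 r, c = 4 r'^2 g:
|Z|^r ≤ c^r (1 + Z^(2r')/c^(2r')), so m_r ≤ 3 c^r, and 18 (2/3)^8 + 2/256 ≤ 2.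
young3: if both x^A, y^B ≤ 1 trivial; otherwise M = max > 1, x ≤ M^(1/A), y ≤ M^(1/B) (Real.rpow), or
Real.geom_mean_le_arith_mean3_weighted.
-/

namespace Pool.Agent.Work.MP_6af739_lc.HO

open Matrix Finset MeasureTheory ProbabilityTheory
open Pool.Agent.Work.MP_6a50bc_pr
open Pool.Agent.Work.MP_5c5849_an (sg av)
open scoped ENNReal Polynomial

variable {m : ℕ}

theorem fl_fl (k : Fin m) (d : Fin m → Fin 2) : fl k (fl k d) = d := by
  funext j
  by_cases h : j = k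
  · subst h
    simp only [fl, Function.update_self]
    generalize d j = a
    revert a
    decide
  · simp [fl, h]

theorem sg_fl (k : Fin m) (d : Fin m → Fin 2) (j : Fin m) :
    sg (fl k d) j = if j = k then -sg d j else sg d j := by
  unfold sg fl
  split_ifs with h
  · subst h
    simp only [Function.update_self]
    generalize d j = a
    fin_cases a <;> simp
  · rw [Function.update_of_ne h]

theorem sg_ng (d : Fin m → Fin 2) : sg (ng d) = -sg d := by
  funext j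
  simp only [Pi.neg_apply, sg, ng]
  generalize d j = a
  fin_cases a <;> simp

theorem av_fl (k : Fin m) (F : (Fin m → Fin 2) → ℝ) : av (fun d => F (fl k d)) = av F := by
  unfold av
  congr 1
  exact Equiv.sum_comp (Function.Involutive.toPerm (fl k) (fl_fl k)) F

theorem mom_ng_ng (d : Fin m → Fin 2) : ng (ng d) = d := by
  funext j
  simp only [ng]
  generalize d j = a
  revert a
  decide

theorem av_ng (F : (Fin m → Fin 2) → ℝ) : av (fun d => F (ng d)) = av F := by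
  unfold av
  congr 1
  exact Equiv.sum_comp (Function.Involutive.toPerm ng mom_ng_ng) F

theorem gam_nonneg (F : (Fin m → Fin 2) → ℝ) (d : Fin m → Fin 2) : 0 ≤ gam F d :=
  sum_nonneg fun _ _ => sq_nonneg _

theorem mom_wal_fl (A : Finset (Fin m)) (k : Fin m) (d : Fin m → Fin 2) :
    MP_5c5849_an.wal A (fl k d) = (if k ∈ A then -1 else 1) * MP_5c5849_an.wal A d := by
  unfold MP_5c5849_an.wal
  have h : ∀ j, sg (fl k d) j = (if j = k then -1 else 1) * sg d j := fun j => by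
    rw [sg_fl]
    split_ifs <;> simp
  simp only [h, prod_mul_distrib, prod_ite_eq']

theorem mom_co_fl (F : (Fin m → Fin 2) → ℝ) (A : Finset (Fin m)) (k : Fin m) :
    MP_5c5849_an.co (fun d => F d - F (fl k d)) A ^ 2 =
      if k ∈ A then 4 * MP_5c5849_an.co F A ^ 2 else 0 := by
  have h : MP_5c5849_an.co (fun d => F (fl k d)) A =
      (if k ∈ A then -1 else 1) * MP_5c5849_an.co F A := by
    unfold MP_5c5849_an.co
    rw [← MP_5c5849_an.av_const_mul, ← av_fl k fun d => F (fl k d) * MP_5c5849_an.wal A d]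
    congr 1
    funext d
    rw [fl_fl, mom_wal_fl]
    ring
  rw [MP_5c5849_an.co_sub, h]
  split_ifs <;> ring

theorem poincare (F : (Fin m → Fin 2) → ℝ) :
    av (fun d => F d ^ 2) ≤ av F ^ 2 + av (gam F) / 4 := by
  have h1 : av (gam F) = ∑ A : Finset (Fin m), A.card * (4 * MP_5c5849_an.co F A ^ 2) := by
    unfold gam
    rw [MP_5c5849_an.av_sum]
    simp only [MP_5c5849_an.parseval, mom_co_fl]
    rw [sum_comm]
    refine sum_congr rfl fun A _ => ?_
    rw [sum_ite_mem, univ_inter, sum_const, nsmul_eq_mul]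
  have h2 : av F = MP_5c5849_an.co F ∅ := by simp [MP_5c5849_an.co, MP_5c5849_an.wal]
  have h3 : MP_5c5849_an.co F ∅ ^ 2 =
      ∑ A : Finset (Fin m), if A = ∅ then MP_5c5849_an.co F A ^ 2 else 0 := by simp
  rw [MP_5c5849_an.parseval, h1, h2, h3, sum_div, ← sum_add_distrib]
  refine sum_le_sum fun A _ => ?_
  have h4 := sq_nonneg (MP_5c5849_an.co F A)
  split_ifs with hA
  · subst hA
    simp
  · have h5 : (1 : ℝ) ≤ A.card := by
      exact_mod_cast card_pos.2 (nonempty_iff_ne_empty.2 hA)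
    nlinarith

theorem mom_pow_le {x c : ℝ} (hx : 0 ≤ x) (hc : 0 < c) {i j : ℕ} (hij : i ≤ j) :
    x ^ i ≤ c ^ i + c ^ i / c ^ j * x ^ j := by
  obtain ⟨t, rfl⟩ : ∃ t, x = c * t := ⟨x / c, by field_simp⟩
  have ht : 0 ≤ t := nonneg_of_mul_nonneg_right hx hc |> fun h => by
    by_contra h'
    push Not at h'
    nlinarith
  have h1 : t ^ i ≤ 1 + t ^ j := by
    rcases le_total t 1 with h | h
    · have := pow_le_one₀ (n := i) ht h
      have := pow_nonneg ht j
      linarith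
    · have := pow_le_pow_right₀ h hij
      linarith
  have h2 : c ^ i / c ^ j * (c * t) ^ j = c ^ i * t ^ j := by
    rw [mul_pow]
    field_simp
  rw [h2, mul_pow]
  have := mul_le_mul_of_nonneg_left h1 (pow_pos hc i).le
  linarith

theorem mom_av_pow {G : (Fin m → Fin 2) → ℝ} (hG : ∀ d, 0 ≤ G d) {c B : ℝ} (hc : 0 < c) {i j : ℕ}
    (hij : i ≤ j) (h : av (fun d => G d ^ j) ≤ B * c ^ j) :
    av (fun d => G d ^ i) ≤ (1 + B) * c ^ i := by
  refine (MP_5c5849_an.av_mono fun d => mom_pow_le (hG d) hc hij).trans ?_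
  rw [MP_5c5849_an.av_add, MP_5c5849_an.av_const, MP_5c5849_an.av_const_mul]
  have h1 := mul_le_mul_of_nonneg_left h (show 0 ≤ c ^ i / c ^ j by positivity)
  have h2 : c ^ i / c ^ j * (B * c ^ j) = B * c ^ i := by field_simp
  linarith

theorem mom_split {z γ ρ : ℝ} (hz : 0 ≤ z) (hγ : 0 ≤ γ) (hρ : 0 < ρ) (n : ℕ) :
    ρ * (z ^ n * γ) ≤ z ^ (n + 1) + ρ ^ (n + 1) * γ ^ (n + 1) := by
  have h1 : 0 ≤ z ^ (n + 1) := by positivity
  have h2 : 0 ≤ ρ ^ (n + 1) * γ ^ (n + 1) := by positivity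
  rcases le_total (ρ * γ) z with h | h
  · have := mul_le_mul_of_nonneg_left h (pow_nonneg hz n)
    rw [pow_succ z] at h1 ⊢
    nlinarith
  · have := mul_le_mul_of_nonneg_right (pow_le_pow_left₀ hz h n) (mul_nonneg hρ.le hγ)
    rw [← pow_succ, mul_pow] at this
    nlinarith

theorem mom_diff (x y : ℝ) (n : ℕ) : (|x| ^ (n + 1) - |y| ^ (n + 1)) ^ 2 ≤
    ((n : ℝ) + 1) ^ 2 * ((x ^ 2) ^ n * (x - y) ^ 2 + (y ^ 2) ^ n * (x - y) ^ 2) := by
  have h1 := abs_pow_sub_pow_le |x| |y| (n + 1)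
  simp only [abs_abs, Nat.add_sub_cancel, Nat.cast_add, Nat.cast_one] at h1
  have h2 : (max |x| |y| ^ n) ^ 2 ≤ (x ^ 2) ^ n + (y ^ 2) ^ n := by
    have hx : 0 ≤ (x ^ 2) ^ n := by positivity
    have hy : 0 ≤ (y ^ 2) ^ n := by positivity
    rw [← pow_mul, mul_comm, pow_mul]
    rcases max_choice |x| |y| with h | h <;> rw [h, sq_abs] <;> linarith
  have h3 : abs (|x| - |y|) ^ 2 ≤ (x - y) ^ 2 := by
    rw [← sq_abs (x - y)]
    exact pow_le_pow_left₀ (abs_nonneg _) (abs_abs_sub_abs_le_abs_sub x y) 2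
  have h4 := pow_le_pow_left₀ (abs_nonneg _) h1 2
  rw [sq_abs, mul_pow, mul_pow] at h4
  have h5 := mul_le_mul h3 h2 (sq_nonneg _) (sq_nonneg _)
  have h6 := mul_le_mul_of_nonneg_left h5 (sq_nonneg ((n : ℝ) + 1))
  nlinarith

theorem mom_step (Z : (Fin m → Fin 2) → ℝ) (n : ℕ) :
    av (fun d => |Z d| ^ (2 * (n + 1))) ≤ 2 * av (fun d => |Z d| ^ (n + 1)) ^ 2 +
      ((n : ℝ) + 1) ^ (2 * (n + 1)) * av (fun d => gam Z d ^ (n + 1)) := by
  have h1 := poincare fun d => |Z d| ^ (n + 1)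
  have h2 : av (gam fun d => |Z d| ^ (n + 1)) ≤
      2 * av (fun d => ((n : ℝ) + 1) ^ 2 * ((Z d ^ 2) ^ n * gam Z d)) := by
    unfold gam
    simp only [mul_sum, MP_5c5849_an.av_sum]
    refine sum_le_sum fun k _ => (MP_5c5849_an.av_mono fun d => mom_diff _ _ n).trans ?_
    have h3 := av_fl k fun d => (Z d ^ 2) ^ n * (Z d - Z (fl k d)) ^ 2
    simp only [fl_fl] at h3
    have h4 : (fun d => (Z (fl k d) ^ 2) ^ n * (Z d - Z (fl k d)) ^ 2) =
        fun d => (Z (fl k d) ^ 2) ^ n * (Z (fl k d) - Z d) ^ 2 := by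
      funext d
      ring
    rw [MP_5c5849_an.av_const_mul, MP_5c5849_an.av_const_mul, MP_5c5849_an.av_add, h4, h3]
    linarith
  have h5 : av (fun d => ((n : ℝ) + 1) ^ 2 * ((Z d ^ 2) ^ n * gam Z d)) ≤
      av (fun d => |Z d| ^ (2 * (n + 1))) +
        ((n : ℝ) + 1) ^ (2 * (n + 1)) * av (fun d => gam Z d ^ (n + 1)) := by
    rw [← MP_5c5849_an.av_const_mul _ fun d => gam Z d ^ (n + 1), ← MP_5c5849_an.av_add]
    refine MP_5c5849_an.av_mono fun d => ?_
    rw [pow_mul, pow_mul, sq_abs]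
    exact mom_split (sq_nonneg _) (gam_nonneg _ _) (by positivity) n
  have h6 : (fun d => (|Z d| ^ (n + 1)) ^ 2) = fun d => |Z d| ^ (2 * (n + 1)) := by
    funext d
    rw [← pow_mul, mul_comm]
  rw [h6] at h1
  linarith

theorem mom_main (Z : (Fin m → Fin 2) → ℝ) (h0 : av Z = 0) {g : ℝ} (hg : 0 < g) {j : ℕ}
    (h : av (fun d => gam Z d ^ j) ≤ g ^ (2 * j)) (r : ℕ) :
    1 ≤ r → r ≤ j → av (fun d => |Z d| ^ (2 * r)) ≤ 2 * (4 * r ^ 2 * g) ^ (2 * r) := by
  have hg' : ∀ i ≤ j, av (fun d => gam Z d ^ i) ≤ 2 * g ^ (2 * i) := fun i hi => by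
    have := mom_av_pow (gam_nonneg Z) (B := 1) (pow_pos hg 2) hi (by rwa [one_mul, ← pow_mul])
    rwa [one_add_one_eq_two, ← pow_mul] at this
  induction r using Nat.strong_induction_on with
  | _ r ih =>
    intro h1 hr
    rcases h1.eq_or_lt with rfl | h2
    · have h3 := poincare Z
      have h4 := hg' 1 hr
      simp only [pow_one, mul_one, sq_abs, Nat.cast_one, one_pow] at h4 ⊢
      rw [h0] at h3
      have h5 : av (gam Z) ≤ 2 * g ^ 2 := h4
      nlinarith [sq_nonneg g]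
    · obtain ⟨n, rfl⟩ : ∃ n, r = n + 1 := ⟨r - 1, by omega⟩
      have h3 := mom_step Z n
      have h4 := hg' _ hr
      obtain ⟨s, hs1, hs2, hs3, hs4⟩ : ∃ s, 1 ≤ s ∧ s < n + 1 ∧ n + 1 ≤ 2 * s ∧
          3 * s ≤ 2 * (n + 1) := ⟨(n + 2) / 2, by omega, by omega, by omega, by omega⟩
      have hs : (1 : ℝ) ≤ s := by exact_mod_cast hs1
      have hs' : (3 : ℝ) * s ≤ 2 * (n + 1) := by exact_mod_cast hs4
      have hn : (1 : ℝ) ≤ n := by exact_mod_cast Nat.lt_succ_iff.1 h2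
      have hc : 0 < 4 * (s : ℝ) ^ 2 * g := by positivity
      have h5 := mom_av_pow (fun d => abs_nonneg (Z d)) hc hs3 (ih s hs2 hs1 (by omega))
      have h6 := pow_le_pow_left₀ (MP_5c5849_an.av_nonneg fun d => pow_nonneg (abs_nonneg (Z d)) _)
        h5 2
      push_cast
      set D := 4 * ((n : ℝ) + 1) ^ 2 * g with hD
      have hD0 : 0 < D := by positivity
      have h7 : (4 * (s : ℝ) ^ 2 * g) ^ (2 * (n + 1)) ≤ 1 / 16 * D ^ (2 * (n + 1)) := by
        have h8 : 4 * (s : ℝ) ^ 2 * g ≤ 1 / 2 * D := by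
          have : (s : ℝ) ^ 2 ≤ 1 / 2 * (n + 1) ^ 2 := by nlinarith
          rw [hD]
          nlinarith
        refine (pow_le_pow_left₀ hc.le h8 _).trans ?_
        rw [mul_pow]
        refine mul_le_mul_of_nonneg_right ?_ (by positivity)
        exact (pow_le_pow_of_le_one (by norm_num) (by norm_num) (show 4 ≤ _ by omega)).trans
          (by norm_num)
      have h9 : (((n : ℝ) + 1) * g) ^ (2 * (n + 1)) ≤ 1 / 16 * D ^ (2 * (n + 1)) := by
        have h8 : ((n : ℝ) + 1) * g ≤ 1 / 2 * D := by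
          have : (n : ℝ) + 1 ≤ 2 * (n + 1) ^ 2 := by nlinarith
          rw [hD]
          nlinarith
        refine (pow_le_pow_left₀ (by positivity) h8 _).trans ?_
        rw [mul_pow]
        refine mul_le_mul_of_nonneg_right ?_ (by positivity)
        exact (pow_le_pow_of_le_one (by norm_num) (by norm_num) (show 4 ≤ _ by omega)).trans
          (by norm_num)
      rw [mul_pow, ← pow_mul, mul_comm (n + 1) 2] at h6
      rw [mul_pow] at h9
      have h10 := mul_le_mul_of_nonneg_left h4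
        (show 0 ≤ ((n : ℝ) + 1) ^ (2 * (n + 1)) by positivity)
      have h11 : 0 ≤ D ^ (2 * (n + 1)) := by positivity
      nlinarith

theorem moment (F : (Fin m → Fin 2) → ℝ) {g : ℝ} (hg : 0 < g) {j : ℕ} (hj : 1 ≤ j)
    (h : av (fun d => gam F d ^ j) ≤ g ^ (2 * j)) :
    av (fun d => (F d - av F) ^ (2 * j)) ≤ 2 * (4 * j ^ 2 * g) ^ (2 * j) := by
  have h1 : gam (fun d => F d - av F) = gam F := by
    funext d
    simp [gam]
  have h2 := mom_main (fun d => F d - av F)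
    (by rw [MP_5c5849_an.av_sub, MP_5c5849_an.av_const, sub_self]) hg (by rwa [h1]) j hj le_rfl
  simpa only [pow_mul, sq_abs] using h2

theorem young3 {x y : ℝ} (hx : 0 ≤ x) (hy : 0 ≤ y) {q A B : ℕ} (hA : 0 < A) (hB : 0 < B)
    (h : (q : ℝ) / A + q / B ≤ 1) : (x * y) ^ q ≤ 1 + x ^ A + y ^ B := by
  have hA' : (0 : ℝ) < A := by exact_mod_cast hA
  have hB' : (0 : ℝ) < B := by exact_mod_cast hB
  have h1 : (0 : ℝ) ≤ q / A := by positivity
  have h2 : (0 : ℝ) ≤ q / B := by positivity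
  have hx' := pow_nonneg hx A
  have hy' := pow_nonneg hy B
  have h3 := Real.geom_mean_le_arith_mean3_weighted (w₁ := 1 - (q / A + q / B)) (by linarith) h1 h2
    zero_le_one hx' hy' (by ring)
  have h4 : ∀ {z : ℝ} {C : ℕ}, 0 ≤ z → (0 : ℝ) < C → (z ^ C) ^ ((q : ℝ) / C) = z ^ q :=
    fun {z C} hz hC => by
      rw [← Real.rpow_natCast, ← Real.rpow_mul hz, ← Real.rpow_natCast]
      congr 1
      field_simp
  rw [Real.one_rpow, h4 hx hA', h4 hy hB', one_mul, ← mul_pow] at h3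
  nlinarith

open Classical in
theorem av_tail {F : (Fin m → Fin 2) → ℝ} (h0 : ∀ d, 0 ≤ F d) {t c : ℝ} (ht : 0 < t) {q : ℕ}
    (h : av (fun d => F d ^ q) ≤ c) : av (fun d => if t < F d then (1 : ℝ) else 0) ≤ c / t ^ q := by
  have ht' := pow_pos ht q
  rw [le_div_iff₀ ht', ← MP_5c5849_an.av_mul_const]
  refine (MP_5c5849_an.av_mono fun d => ?_).trans h
  split_ifs with hd
  · rw [one_mul]
    exact pow_le_pow_left₀ ht.le hd.le q
  · rw [zero_mul]
    exact pow_nonneg (h0 d) q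

end Pool.Agent.Work.MP_6af739_lc.HO
end

-- merged part: Pool.Agent.Work.MP_6af739_lc.HO.TreeD
section
/-!
Pointwise facts on trees (T0, T1, T2 of the write-up). Q = qm P s is a projection (IsProj.one_sub), Q_ii ≤ 1, and row i of
Q has squared norm Q_ii (IsProj.diag_eq); if Q_ii = 0 the row vanishes, so val i = 0.
del_val: val d - val (fl k d) = Q (D (y - y') + (D - D') y') and (D - D') y' = 2 d_k y'_k e_k (sg_fl).
opn_hadamard: entry i of (A ⊙ B) z is ≤ nrm (row i of A) * sqrt (sum_k B_ik^2 z_k^2); row norms ≤ opn A (opn_transpose,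
nrm_mulVec_le at Pi.single), column norms ≤ opn B.
tree_main, by induction on τ: with O = opn (del (val τ)) ≤ 3 nin. For a node, y = a * b,
del y = diag a * del b + del a * .. : entrywise a_i Δb_ik + Δa_ik b_i - Δa_ik Δb_ik, so
opn (del y) + ‖y‖ ≤ (‖a‖ + O_a)(‖b‖ + O_b) ≤ nin, |y (fl k d) k| ≤ ‖y‖ + opn (del y), opn zm ≤ 3 nin.
Last leaf: zm = diagonal (2 ψ/σ); if σ = Y the entries are bounded by 2; if σ = √mpsi use opn_le_fro,
sum_i Q_ik^2 = Q_kk, and for rows Q_ik^2 ≤ Q_ii Q_kk (signMom_entry).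
offc: column k of Q D Z is Q D (offc Z k) + Z_kk d_k Q e_k, offc Z = offc (del inn), and the off-diagonal part of column k
of Q has squared norm Q_kk - Q_kk^2 ≤ 1 - P_kk for both choices of Q. For a node
Δy_lk = a_l Δb_lk + Δa_lk b_l(fl k d) with |a_l| ≤ nt l, |b_l (fl k d)| ≤ nt r (abs_val_fl).
-/

namespace Pool.Agent.Work.MP_6af739_lc.HO

open Matrix Finset MeasureTheory ProbabilityTheory
open Pool.Agent.Work.MP_6a50bc_pr
open Pool.Agent.Work.MP_5c5849_an (sg av)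
open scoped ENNReal Polynomial

variable {m : ℕ} {P : Matrix (Fin m) (Fin m) ℝ} {cv : Fin 4 → Fin m → ℝ} {ψ : Fin m → ℝ} {Y : ℝ}

theorem isProj_qm (hP : IsProj P) (s : Bool) : IsProj (qm P s) := by
  cases s
  · exact hP.one_sub
  · exact hP

theorem val_eq (τ : Tr) (d : Fin m → Fin 2) :
    val P cv τ d = qm P τ.root *ᵥ (sg d * inn P cv τ d) := by
  cases τ <;> rfl

theorem nt_eq (τ : Tr) (d : Fin m → Fin 2) : nt P cv τ d = ap P cv τ d + 3 * nin P cv τ d := by
  cases τ <;> simp [nt, nin]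

theorem ap_nonneg (τ : Tr) (d : Fin m → Fin 2) : 0 ≤ ap P cv τ d := norm_nonneg _

theorem one_le_nin (τ : Tr) (d : Fin m → Fin 2) : 1 ≤ nin P cv τ d := by
  induction τ with
  | leaf i => exact le_rfl
  | node s l r hl hr =>
    have h1 := ap_nonneg (P := P) (cv := cv) l d
    have h2 := ap_nonneg (P := P) (cv := cv) r d
    rw [nin, nt_eq, nt_eq]
    exact one_le_mul_of_one_le_of_one_le (by linarith) (by linarith)

theorem val_ng (τ : Tr) (d : Fin m → Fin 2) : val P cv τ (ng d) = -val P cv τ d := by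
  induction τ with
  | leaf i => rw [val, val, sg_ng, neg_mul, mulVec_neg]
  | node s l r hl hr => rw [val, val, sg_ng, hl, hr, neg_mul_neg, neg_mul, mulVec_neg]

theorem treed_nrm_row {Q : Matrix (Fin m) (Fin m) ℝ} (hQ : IsProj Q) (i : Fin m) :
    nrm (Q i) = √(Q i i) := by
  rw [hQ.diag_eq i, nrm]
  simp only [dotProduct, sq]

theorem treed_sqrt_le {Q : Matrix (Fin m) (Fin m) ℝ} (hQ : IsProj Q) (i : Fin m) :
    √(Q i i) ≤ 1 := Real.sqrt_le_one.2 (hQ.diag_le_one i)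

theorem abs_val_le (hP : IsProj P) (τ : Tr) (d : Fin m → Fin 2) (i : Fin m) :
    |val P cv τ d i| ≤ √(qm P τ.root i i) * ap P cv τ d := by
  have hQ := isProj_qm hP τ.root
  rcases (Real.sqrt_nonneg (qm P τ.root i i)).eq_or_lt with h | h
  · have h1 : qm P τ.root i = 0 := nrm_eq_zero.1 (by rw [treed_nrm_row hQ, ← h])
    have h2 : val P cv τ d i = 0 := by
      rw [val_eq, mulVec]
      change qm P τ.root i ⬝ᵥ _ = 0
      rw [h1, zero_dotProduct]
    rw [h2, ← h]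
    simp
  · have h1 := norm_le_pi_norm (fun i => val P cv τ d i / √(qm P τ.root i i)) i
    rw [Real.norm_eq_abs, abs_div, abs_of_pos h, div_le_iff₀ h, mul_comm] at h1
    exact h1

theorem norm_val_le (hP : IsProj P) (τ : Tr) (d : Fin m → Fin 2) :
    ‖val P cv τ d‖ ≤ ap P cv τ d := by
  refine (pi_norm_le_iff_of_nonneg (ap_nonneg τ d)).2 fun i => (abs_val_le hP τ d i).trans ?_
  exact mul_le_of_le_one_left (ap_nonneg τ d) (treed_sqrt_le (isProj_qm hP τ.root) i)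

theorem del_val (τ : Tr) (d : Fin m → Fin 2) :
    del (val P cv τ) d = qm P τ.root * diagonal (sg d) * zm (inn P cv τ) d := by
  ext i k
  rw [del, of_apply, val_eq, val_eq, mul_apply]
  simp only [mulVec, dotProduct, mul_diagonal, ← sum_sub_distrib, Pi.mul_apply, sg_fl, zm, del,
    Matrix.add_apply, of_apply, diagonal_apply]
  refine sum_congr rfl fun l _ => ?_
  split_ifs with h
  · subst h
    ring
  · ring

theorem treed_nrm_single (i : Fin m) : nrm (Pi.single i (1 : ℝ) : Fin m → ℝ) = 1 := by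
  rw [nrm_eq_one_iff]
  simp

theorem treed_col_le (M : Matrix (Fin m) (Fin m) ℝ) (k : Fin m) : nrm (fun i => M i k) ≤ opn M := by
  have h := nrm_mulVec_le M (Pi.single k 1)
  rw [treed_nrm_single, mul_one] at h
  convert h using 2
  funext i
  simp

theorem treed_row_le (M : Matrix (Fin m) (Fin m) ℝ) (i : Fin m) : nrm (M i) ≤ opn M := by
  rw [← opn_transpose]
  exact treed_col_le Mᵀ i

theorem treed_abs_le (M : Matrix (Fin m) (Fin m) ℝ) (i k : Fin m) : |M i k| ≤ opn M :=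
  (abs_le_nrm (M i) k).trans (treed_row_le M i)

theorem opn_hadamard (M N : Matrix (Fin m) (Fin m) ℝ) : opn (M ⊙ N) ≤ opn M * opn N := by
  have hM := opn_nonneg M
  have hN := opn_nonneg N
  refine opn_le_of (mul_nonneg hM hN) fun z => ?_
  rw [nrm_le_iff (mul_nonneg (mul_nonneg hM hN) (nrm_nonneg z))]
  have h1 : ∀ i, ((M ⊙ N) *ᵥ z) i * ((M ⊙ N) *ᵥ z) i ≤ opn M ^ 2 * ∑ k, N i k ^ 2 * z k ^ 2 := by
    intro i
    have h2 : ((M ⊙ N) *ᵥ z) i = M i ⬝ᵥ fun k => N i k * z k := by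
      simp only [mulVec, dotProduct, hadamard_apply, mul_assoc]
    have h3 : nrm (fun k => N i k * z k) ^ 2 = ∑ k, N i k ^ 2 * z k ^ 2 := by
      rw [nrm_sq]
      exact sum_congr rfl fun k _ => by ring
    have h4 := (abs_dot_le (M i) fun k => N i k * z k).trans
      (mul_le_mul_of_nonneg_right (treed_row_le M i) (nrm_nonneg _))
    rw [h2, ← sq, ← sq_abs, ← h3, ← mul_pow]
    exact pow_le_pow_left₀ (abs_nonneg _) h4 2
  refine (sum_le_sum fun i _ => h1 i).trans ?_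
  rw [← mul_sum, sum_comm, mul_pow, mul_pow, mul_assoc, nrm_sq]
  refine mul_le_mul_of_nonneg_left ?_ (sq_nonneg _)
  rw [dotProduct, mul_sum]
  refine sum_le_sum fun k _ => ?_
  rw [← sum_mul, ← sq]
  refine mul_le_mul_of_nonneg_right ?_ (sq_nonneg _)
  have h5 := pow_le_pow_left₀ (nrm_nonneg _) (treed_col_le N k) 2
  rw [nrm_sq] at h5
  simpa only [dotProduct, sq] using h5

theorem treed_nrm_mul {v : Fin m → ℝ} {c : ℝ} (hc : 0 ≤ c) (h : ∀ k, |v k| ≤ c) (z : Fin m → ℝ) :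
    nrm (v * z) ≤ c * nrm z := by
  rw [← abs_of_nonneg hc, ← nrm_smul]
  refine nrm_mono fun i => ?_
  rw [Pi.mul_apply, Pi.smul_apply, smul_eq_mul, abs_mul, abs_mul, abs_of_nonneg hc]
  exact mul_le_mul_of_nonneg_right (h i) (abs_nonneg _)

theorem treed_opn_diag {v : Fin m → ℝ} {c : ℝ} (hc : 0 ≤ c) (h : ∀ k, |v k| ≤ c) :
    opn (diagonal v) ≤ c := by
  refine opn_le_of hc fun z => ?_
  have h1 : diagonal v *ᵥ z = v * z := by
    funext i
    rw [mulVec_diagonal, Pi.mul_apply]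
  rw [h1]
  exact treed_nrm_mul hc h z

theorem treed_opn_sg (d : Fin m → Fin 2) (Z : Matrix (Fin m) (Fin m) ℝ) :
    opn (diagonal (sg d) * Z) ≤ opn Z :=
  (opn_mul_le _ _).trans (mul_le_of_le_one_left (opn_nonneg Z)
    (treed_opn_diag zero_le_one fun k => (MP_5c5849_an.abs_sg d k).le))

theorem treed_opn_proj {Q : Matrix (Fin m) (Fin m) ℝ} (hQ : IsProj Q) (d : Fin m → Fin 2)
    (Z : Matrix (Fin m) (Fin m) ℝ) : opn (Q * diagonal (sg d) * Z) ≤ opn Z := by
  rw [Matrix.mul_assoc]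
  refine (opn_mul_le _ _).trans ((mul_le_of_le_one_left (opn_nonneg _) ?_).trans (treed_opn_sg d Z))
  exact opn_le_of zero_le_one fun v => by simpa only [one_mul] using hQ.nrm_le v

theorem treed_row_proj {Q : Matrix (Fin m) (Fin m) ℝ} (hQ : IsProj Q) (d : Fin m → Fin 2)
    (Z : Matrix (Fin m) (Fin m) ℝ) (i : Fin m) :
    nrm ((Q * diagonal (sg d) * Z) i) ≤ √(Q i i) * opn Z := by
  have h1 : (Q * diagonal (sg d) * Z) i = (diagonal (sg d) * Z)ᵀ *ᵥ Q i := by
    funext k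
    rw [Matrix.mul_assoc, mul_apply]
    simp only [mulVec, dotProduct, transpose_apply, mul_comm]
  rw [h1]
  refine (nrm_mulVec_le _ _).trans ?_
  rw [opn_transpose, treed_nrm_row hQ, mul_comm]
  exact mul_le_mul_of_nonneg_left (treed_opn_sg d Z) (Real.sqrt_nonneg _)

theorem treed_zm_const {v : Fin m → ℝ} (d : Fin m → Fin 2) :
    zm (fun _ => v) d = diagonal fun k => 2 * v k := by
  ext i k
  simp [zm, del]

theorem treed_zm_leaf {v : Fin m → ℝ} (hv : ∀ k, |v k| ≤ 1) (d : Fin m → Fin 2) :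
    opn (zm (fun _ => v) d) ≤ 3 := by
  rw [treed_zm_const]
  refine treed_opn_diag (by norm_num) fun k => ?_
  rw [abs_mul, abs_two]
  linarith [hv k]

theorem treed_zm_mul {a b : (Fin m → Fin 2) → Fin m → ℝ} {d : Fin m → Fin 2} {A B : ℝ}
    (ha : ‖a d‖ + opn (del a d) ≤ A) (hb : ‖b d‖ + opn (del b d) ≤ B) :
    opn (zm (fun e => a e * b e) d) ≤ 3 * (A * B) := by
  have h1 : del (fun e => a e * b e) d =
      diagonal (a d) * del b d + diagonal (b d) * del a d - del a d ⊙ del b d := by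
    ext i k
    simp only [del, of_apply, Pi.mul_apply, Matrix.sub_apply, Matrix.add_apply, diagonal_mul,
      hadamard_apply]
    ring
  have hn : ∀ v : Fin m → ℝ, opn (diagonal v) ≤ ‖v‖ := fun v =>
    treed_opn_diag (norm_nonneg v) fun k => norm_le_pi_norm v k
  have a0 := norm_nonneg (a d)
  have b0 := norm_nonneg (b d)
  have a1 := opn_nonneg (del a d)
  have b1 := opn_nonneg (del b d)
  have h2 : opn (del (fun e => a e * b e) d) ≤
      ‖a d‖ * opn (del b d) + ‖b d‖ * opn (del a d) + opn (del a d) * opn (del b d) := by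
    rw [h1]
    refine (opn_sub_le _ _).trans (add_le_add ((opn_add_le _ _).trans (add_le_add ?_ ?_))
      (opn_hadamard _ _))
    · exact (opn_mul_le _ _).trans (mul_le_mul_of_nonneg_right (hn _) b1)
    · exact (opn_mul_le _ _).trans (mul_le_mul_of_nonneg_right (hn _) a1)
  have h3 := mul_le_mul ha hb (add_nonneg b0 b1) ((add_nonneg a0 a1).trans ha)
  have h4 : ‖a d‖ * ‖b d‖ + opn (del (fun e => a e * b e) d) ≤ A * B := by nlinarith
  have h5 := mul_nonneg a0 b0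
  have h6 := opn_nonneg (del (fun e => a e * b e) d)
  have h7 : opn (diagonal fun k => 2 * (a (fl k d) * b (fl k d)) k) ≤ 2 * (A * B) := by
    refine treed_opn_diag (by linarith) fun k => ?_
    have h8 := treed_abs_le (del (fun e => a e * b e) d) k k
    have h9 : |(a d * b d) k| ≤ ‖a d‖ * ‖b d‖ :=
      (norm_le_pi_norm (a d * b d) k).trans (norm_mul_le _ _)
    have h10 : (a (fl k d) * b (fl k d)) k =
        (a d * b d) k - del (fun e => a e * b e) d k k := by simp [del]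
    rw [abs_mul, abs_two, h10]
    linarith [abs_sub ((a d * b d) k) (del (fun e => a e * b e) d k k)]
  refine (opn_add_le _ _).trans ?_
  linarith

theorem treed_zm_node (hP : IsProj P) (s : Bool) {l r : Tr} {d : Fin m → Fin 2}
    (hl : opn (del (val P cv l) d) ≤ 3 * nin P cv l d)
    (hr : opn (del (val P cv r) d) ≤ 3 * nin P cv r d) :
    opn (zm (inn P cv (.node s l r)) d) ≤ 3 * nin P cv (.node s l r) d :=
  treed_zm_mul (a := val P cv l) (b := val P cv r)
    (by rw [nt_eq]; linarith [norm_val_le (cv := cv) hP l d])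
    (by rw [nt_eq]; linarith [norm_val_le (cv := cv) hP r d])

theorem treed_last (h : CH P cv ψ Y) (d : Fin m → Fin 2) :
    opn (del (val P cv (.leaf 3)) d) ≤ 3 ∧
      ∀ i, nrm (del (val P cv (.leaf 3)) d i) ≤ √(qm P false i i) * 3 := by
  have hQ := isProj_qm h.proj false
  have h0 : del (val P cv (.leaf 3)) d = qm P false * diagonal (sg d) * zm (fun _ => cv 3) d :=
    del_val (.leaf 3) d
  rw [h0]
  rcases min_choice Y √(mpsi P ψ) with hs | hs
  · have h1 : opn (zm (fun _ => cv 3) d) ≤ 3 := by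
      refine treed_zm_leaf (fun k => ?_) d
      have hY : 0 ≤ Y := (abs_nonneg _).trans (h.hY k)
      rw [h.last, sgm, hs, Pi.smul_apply, smul_eq_mul, abs_mul, abs_inv, abs_of_nonneg hY]
      exact inv_mul_le_one_of_le₀ (h.hY k) hY
    exact ⟨(treed_opn_proj hQ d _).trans h1, fun i => (treed_row_proj hQ d _ i).trans
      (mul_le_mul_of_nonneg_left h1 (Real.sqrt_nonneg _))⟩
  · have h1 : ∀ i k, (qm P false * diagonal (sg d) * zm (fun _ => cv 3) d) i k *
        (qm P false * diagonal (sg d) * zm (fun _ => cv 3) d) i k =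
          qm P false i k ^ 2 * (4 * (ψ k ^ 2 / mpsi P ψ)) := by
      intro i k
      have h2 := MP_5c5849_an.sg_sq d k
      have h3 : cv 3 k ^ 2 = ψ k ^ 2 / mpsi P ψ := by
        rw [h.last, sgm, hs, Pi.smul_apply, smul_eq_mul, mul_pow, inv_pow, Real.sq_sqrt h.pos.le,
          div_eq_inv_mul]
      rw [treed_zm_const, mul_diagonal, mul_diagonal, ← h3]
      linear_combination (4 * qm P false i k ^ 2 * cv 3 k ^ 2) * h2
    have h4 : ∑ k, qm P false k k * (4 * (ψ k ^ 2 / mpsi P ψ)) = 4 := by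
      have h5 : ∀ k, qm P false k k * (4 * (ψ k ^ 2 / mpsi P ψ)) =
          4 / mpsi P ψ * ((1 - P k k) * ψ k ^ 2) := fun k => by
        have : qm P false k k = 1 - P k k := by simp [qm]
        rw [this]
        ring
      simp only [h5]
      rw [← mul_sum]
      exact div_mul_cancel₀ _ h.pos.ne'
    refine ⟨(opn_le_fro _).trans ?_, fun i => ?_⟩
    · rw [fro_le_iff (by norm_num), ip]
      simp only [h1]
      rw [sum_comm]
      have h6 : ∀ k, ∑ i, qm P false i k ^ 2 * (4 * (ψ k ^ 2 / mpsi P ψ)) =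
          qm P false k k * (4 * (ψ k ^ 2 / mpsi P ψ)) := fun k => by
        rw [← sum_mul, hQ.diag_eq k]
        simp only [hQ.apply_symm k]
      simp only [h6, h4]
      norm_num
    · rw [nrm_le_iff (by positivity), dotProduct, mul_pow, Real.sq_sqrt (hQ.diag_nonneg i)]
      simp only [h1]
      have h6 : ∀ k, qm P false i k ^ 2 * (4 * (ψ k ^ 2 / mpsi P ψ)) ≤
          qm P false i i * (qm P false k k * (4 * (ψ k ^ 2 / mpsi P ψ))) := fun k => by
        rw [← mul_assoc (qm P false i i)]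
        have := h.pos
        exact mul_le_mul_of_nonneg_right (signMom_entry hQ i k) (by positivity)
      refine (sum_le_sum fun k _ => h6 k).trans ?_
      rw [← mul_sum, h4]
      exact mul_le_mul_of_nonneg_left (by norm_num) (hQ.diag_nonneg i)

theorem treed_zm_pure (h : CH P cv ψ Y) {i : Fin 4} (hi : i ≠ 3) (d : Fin m → Fin 2) :
    opn (zm (inn P cv (.leaf i)) d) ≤ 3 * nin P cv (.leaf i) d := by
  rw [nin, mul_one]
  exact treed_zm_leaf (h.bdd i hi) d

theorem opn_del_le (h : CH P cv ψ Y) (τ : Tr) (d : Fin m → Fin 2) :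
    opn (del (val P cv τ) d) ≤ 3 * nin P cv τ d := by
  induction τ with
  | leaf i =>
    by_cases hi : i = 3
    · subst hi
      rw [nin, mul_one]
      exact (treed_last h d).1
    · rw [del_val]
      exact (treed_opn_proj (isProj_qm h.proj _) d _).trans (treed_zm_pure h hi d)
  | node s l r hl hr =>
    rw [del_val]
    exact (treed_opn_proj (isProj_qm h.proj _) d _).trans (treed_zm_node h.proj s hl hr)

theorem row_del_le (h : CH P cv ψ Y) (τ : Tr) (d : Fin m → Fin 2) (i : Fin m) :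
    nrm (del (val P cv τ) d i) ≤ √(qm P τ.root i i) * (3 * nin P cv τ d) := by
  cases τ with
  | leaf j =>
    by_cases hj : j = 3
    · subst hj
      rw [nin, mul_one]
      exact (treed_last h d).2 i
    · rw [del_val]
      exact (treed_row_proj (isProj_qm h.proj _) d _ i).trans
        (mul_le_mul_of_nonneg_left (treed_zm_pure h hj d) (Real.sqrt_nonneg _))
  | node s l r =>
    rw [del_val]
    exact (treed_row_proj (isProj_qm h.proj _) d _ i).trans (mul_le_mul_of_nonneg_left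
      (treed_zm_node h.proj s (opn_del_le h l d) (opn_del_le h r d)) (Real.sqrt_nonneg _))

theorem opn_zm_le (h : CH P cv ψ Y) {τ : Tr} (hτ : τ.pure) (d : Fin m → Fin 2) :
    opn (zm (inn P cv τ) d) ≤ 3 * nin P cv τ d := by
  cases τ with
  | leaf j => exact treed_zm_pure h hτ d
  | node s l r => exact treed_zm_node h.proj s (opn_del_le h l d) (opn_del_le h r d)

theorem abs_val_fl (h : CH P cv ψ Y) (τ : Tr) (d : Fin m → Fin 2) (k i : Fin m) :
    |val P cv τ (fl k d) i| ≤ √(qm P τ.root i i) * nt P cv τ d := by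
  have h1 : val P cv τ (fl k d) i = val P cv τ d i - del (val P cv τ) d i k := by simp [del]
  have h2 := (abs_le_nrm _ k).trans (row_del_le h τ d i)
  have h3 := abs_val_le (cv := cv) h.proj τ d i
  rw [h1, nt_eq, mul_add]
  exact (abs_sub _ _).trans (add_le_add h3 h2)

theorem treed_entry (Q Z : Matrix (Fin m) (Fin m) ℝ) (d : Fin m → Fin 2) (l k : Fin m) :
    (Q * diagonal (sg d) * Z) l k =
      (Q *ᵥ (sg d * offc Z k)) l + Q l k * (sg d k * Z k k) := by
  have h : ∀ j, Q l j * sg d j * Z j k = Q l j * (sg d j * if j = k then 0 else Z j k) +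
      if j = k then Q l k * (sg d k * Z k k) else 0 := fun j => by
    split_ifs with hj
    · subst hj
      ring
    · ring
  rw [mul_apply]
  simp only [mul_diagonal, h, sum_add_distrib, sum_ite_eq', mem_univ, if_true, mulVec, dotProduct,
    Pi.mul_apply, offc]

theorem treed_offc_zm (y : (Fin m → Fin 2) → Fin m → ℝ) (d : Fin m → Fin 2) (k : Fin m) :
    offc (zm y d) k = offc (del y d) k := by
  funext l
  simp only [offc, zm, Matrix.add_apply, diagonal_apply]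
  split_ifs with h
  · rfl
  · rw [add_zero]

theorem treed_offc_qm (hP : IsProj P) (s : Bool) (k : Fin m) :
    nrm (offc (qm P s) k) ≤ √(1 - P k k) := by
  have hQ := isProj_qm hP s
  refine Real.sqrt_le_sqrt ?_
  have h1 : ∀ l, offc (qm P s) k l * offc (qm P s) k l =
      qm P s k l ^ 2 - if l = k then qm P s k k ^ 2 else 0 := fun l => by
    simp only [offc]
    split_ifs with hl
    · subst hl
      ring
    · rw [hQ.apply_symm l k]
      ring
  have h2 := hP.diag_nonneg k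
  have h3 := hP.diag_le_one k
  simp only [dotProduct, h1, sum_sub_distrib, sum_ite_eq', mem_univ, if_true, ← hQ.diag_eq k]
  cases s
  · have : qm P false k k = 1 - P k k := by simp [qm]
    rw [this]
    nlinarith
  · have : qm P true k k = P k k := by simp [qm]
    rw [this]
    nlinarith

theorem treed_nrm_sg (d : Fin m → Fin 2) (z : Fin m → ℝ) : nrm (sg d * z) ≤ nrm z := by
  simpa only [one_mul] using
    treed_nrm_mul zero_le_one (fun k => (MP_5c5849_an.abs_sg d k).le) z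

theorem treed_offc_val (h : CH P cv ψ Y) {τ : Tr} (hτ : τ.pure) (d : Fin m → Fin 2) (k : Fin m)
    (h0 : nrm (offc (del (inn P cv τ) d) k) ≤ √(1 - P k k) * (2 * τ.nodes * nin P cv τ d)) :
    nrm (offc (del (val P cv τ) d) k) ≤ √(1 - P k k) * ((2 * τ.nodes + 1) * nt P cv τ d) := by
  have hQ := isProj_qm h.proj τ.root
  set Z := zm (inn P cv τ) d with hZ
  have h1 : offc (del (val P cv τ) d) k =
      (fun l => if l = k then 0 else (qm P τ.root *ᵥ (sg d * offc Z k)) l) +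
        (sg d k * Z k k) • offc (qm P τ.root) k := by
    funext l
    simp only [offc, Pi.add_apply, Pi.smul_apply, smul_eq_mul]
    split_ifs with hl
    · ring
    · rw [del_val, treed_entry, mul_comm (qm P τ.root l k)]
  have h2 : nrm (fun l => if l = k then 0 else (qm P τ.root *ᵥ (sg d * offc Z k)) l) ≤
      √(1 - P k k) * (2 * τ.nodes * nin P cv τ d) := by
    refine (nrm_mono (w := qm P τ.root *ᵥ (sg d * offc Z k)) fun l => ?_).trans
      ((hQ.nrm_le _).trans ((treed_nrm_sg d _).trans ?_))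
    · split_ifs
      · simp
      · exact le_rfl
    · rwa [hZ, treed_offc_zm]
  have h3 : nrm ((sg d k * Z k k) • offc (qm P τ.root) k) ≤ 3 * nin P cv τ d * √(1 - P k k) := by
    rw [nrm_smul, abs_mul, MP_5c5849_an.abs_sg, one_mul]
    have h4 := (treed_abs_le Z k k).trans (opn_zm_le h hτ d)
    exact mul_le_mul h4 (treed_offc_qm h.proj _ k) (nrm_nonneg _) ((abs_nonneg _).trans h4)
  rw [h1]
  refine (nrm_add_le _ _).trans ((add_le_add h2 h3).trans ?_)
  rw [mul_comm (3 * _), ← mul_add]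
  refine mul_le_mul_of_nonneg_left ?_ (Real.sqrt_nonneg _)
  have h5 := ap_nonneg (P := P) (cv := cv) τ d
  have h6 := one_le_nin (P := P) (cv := cv) τ d
  have h7 : (0 : ℝ) ≤ τ.nodes := Nat.cast_nonneg _
  rw [nt_eq]
  nlinarith [mul_nonneg h7 h5, mul_nonneg h7 (zero_le_one.trans h6)]

theorem offc_inn_le (h : CH P cv ψ Y) {τ : Tr} (hτ : τ.pure) (d : Fin m → Fin 2) (k : Fin m) :
    nrm (offc (del (inn P cv τ) d) k) ≤ √(1 - P k k) * (2 * τ.nodes * nin P cv τ d) := by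
  induction τ with
  | leaf i =>
    have h1 : offc (del (inn P cv (.leaf i)) d) k = 0 := by
      funext l
      simp [offc, del, inn]
    simp [h1, Tr.nodes]
  | node s l r hl hr =>
    have a1 := treed_offc_val h hτ.1 d k (hl hτ.1)
    have b1 := treed_offc_val h hτ.2 d k (hr hτ.2)
    have hnt : ∀ t : Tr, 0 ≤ nt P cv t d := fun t => by
      rw [nt_eq]
      linarith [ap_nonneg (P := P) (cv := cv) t d, one_le_nin (P := P) (cv := cv) t d]
    have a2 : ∀ j, |val P cv l d j| ≤ nt P cv l d := fun j => by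
      have := (norm_le_pi_norm (val P cv l d) j).trans (norm_val_le h.proj l d)
      rw [Real.norm_eq_abs] at this
      rw [nt_eq]
      linarith [one_le_nin (P := P) (cv := cv) l d]
    have b2 : ∀ j, |val P cv r (fl k d) j| ≤ nt P cv r d := fun j =>
      (abs_val_fl h r d k j).trans
        (mul_le_of_le_one_left (hnt r) (treed_sqrt_le (isProj_qm h.proj _) j))
    have h1 : offc (del (inn P cv (.node s l r)) d) k =
        val P cv l d * offc (del (val P cv r) d) k +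
          val P cv r (fl k d) * offc (del (val P cv l) d) k := by
      funext j
      simp only [offc, del, inn, of_apply, Pi.add_apply, Pi.mul_apply]
      split_ifs <;> ring
    have h2 := (treed_nrm_mul (hnt l) a2 _).trans (mul_le_mul_of_nonneg_left b1 (hnt l))
    have h3 := (treed_nrm_mul (hnt r) b2 _).trans (mul_le_mul_of_nonneg_left a1 (hnt r))
    rw [h1]
    refine (nrm_add_le _ _).trans ((add_le_add h2 h3).trans (le_of_eq ?_))
    rw [nin, Tr.nodes]
    push_cast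
    ring

theorem abs_del_diag (h : CH P cv ψ Y) {τ : Tr} (hτ : τ.pure) (hr : τ.root = false)
    (d : Fin m → Fin 2) (k : Fin m) :
    |del (val P cv τ) d k k| ≤ (1 - P k k) * ((τ.wt + 2) * nin P cv τ d) := by
  have hQ := isProj_qm h.proj false
  have hk : qm P false k k = 1 - P k k := by simp [qm]
  have h0 : 0 ≤ 1 - P k k := hk ▸ hQ.diag_nonneg k
  set Z := zm (inn P cv τ) d with hZ
  have h1 : (qm P false *ᵥ (sg d * offc Z k)) k = offc (qm P false) k ⬝ᵥ (sg d * offc Z k) := by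
    simp only [mulVec, dotProduct, offc, Pi.mul_apply]
    refine sum_congr rfl fun j _ => ?_
    split_ifs
    · ring
    · rw [hQ.apply_symm k j]
  have h2 : |(qm P false *ᵥ (sg d * offc Z k)) k| ≤
      (1 - P k k) * (2 * τ.nodes * nin P cv τ d) := by
    have h3 : nrm (sg d * offc Z k) ≤ √(1 - P k k) * (2 * τ.nodes * nin P cv τ d) := by
      refine (treed_nrm_sg d _).trans ?_
      rw [hZ, treed_offc_zm]
      exact offc_inn_le h hτ d k
    rw [h1]
    refine (abs_dot_le _ _).trans ((mul_le_mul (treed_offc_qm h.proj false k) h3 (nrm_nonneg _)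
      (Real.sqrt_nonneg _)).trans (le_of_eq ?_))
    rw [← mul_assoc, Real.mul_self_sqrt h0]
  have h4 : |qm P false k k * (sg d k * Z k k)| ≤ (1 - P k k) * (3 * nin P cv τ d) := by
    rw [abs_mul, abs_mul, MP_5c5849_an.abs_sg, one_mul, hk, abs_of_nonneg h0]
    exact mul_le_mul_of_nonneg_left ((treed_abs_le Z k k).trans (opn_zm_le h hτ d)) h0
  rw [del_val, hr, treed_entry]
  refine (abs_add_le _ _).trans ((add_le_add h2 h4).trans (le_of_eq ?_))
  rw [Tr.wt]
  push_cast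
  ring

end Pool.Agent.Work.MP_6af739_lc.HO
end

-- merged part: Pool.Agent.Work.MP_6af739_lc.HO.Wn
section
/-!
Weighted coefficient norms of polynomials over the ring Fin m → ℝ, and the stability lemma.

wn_mul: Polynomial.coeff_mul, Finset.Nat.sum_antidiagonal_eq_sum_range_succ_mk, Sn.mul, β^j = β^a β^(j-a), and
sum over a + b < J of u_a v_b ≤ (sum u)(sum v) (Finset.sum_sigma', or induction on J, or range_diag_flip).
wn_mul_shift: the terms with a = 0 vanish, so b < J. ev_le: eval_eq_sum_range', Sn.mul with the constant function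
of norm ≤ |a|^j. wn_comp: comp = sum of C (coeff i) * τ^i (Polynomial.comp_eq_sum_left, sum_over_range'),
write τ^i * C a, wn_mul, wn of C a ≤ φ a, and wn norm of τ^i ≤ (wn norm τ)^i by induction (norm of 1 is ≤ 1).
stab: D = E - e, D' = F - f + C w. Ring identity (1+E)(1+F) - (1+e)(1+f) = D (1+F) + (1+e)(D' - C w).
With r = (1+e)(1+f) - 1: D + D' = R - r + (1+e) C w - D F - e D'. N_J = wn nrm β J (D + D'); by orthogonality
nrm D_j, nrm D'_j ≤ nrm (D_j + D'_j), so wn nrm J D, wn nrm J D' ≤ N_J, and wn norm J e ≤ 0.014 + N_J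
(norm ≤ nrm). For J ≤ p (coefficients of r vanish up to degree p): N_(J+1) ≤ 0.0012 + (1.014 + N_(J+1)) 0.01
+ 0.014 N_(J+1) + (0.014 + N_(J+1)) N_J (for D F use F * D), N_0 = 0, so N_J ≤ 0.02 for J ≤ p + 1, and for all J
because D, D' have degree ≤ p. For degrees above p the coefficient of r is the one of R - F D - e D'.
-/

namespace Pool.Agent.Work.MP_6af739_lc.HO

open Matrix Finset MeasureTheory ProbabilityTheory
open Pool.Agent.Work.MP_6a50bc_pr
open Pool.Agent.Work.MP_5c5849_an (sg av)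
open scoped ENNReal Polynomial

variable {m : ℕ} {φ : (Fin m → ℝ) → ℝ} {β : ℝ}

theorem sn_nrm : Sn (m := m) nrm := by
  refine ⟨nrm_zero, nrm_nonneg, nrm_neg, nrm_add_le, fun x y => ?_⟩
  have h : nrm (x * y) ≤ nrm (‖x‖ • y) := nrm_mono fun i => by
    simp only [Pi.mul_apply, Pi.smul_apply, smul_eq_mul, abs_mul, abs_norm]
    exact mul_le_mul_of_nonneg_right (norm_le_pi_norm x i) (abs_nonneg _)
  rwa [nrm_smul, abs_norm] at h

theorem sn_norm : Sn (m := m) fun v => ‖v‖ := by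
  exact ⟨norm_zero, norm_nonneg, norm_neg, norm_add_le, norm_mul_le⟩

theorem norm_le_nrm (v : Fin m → ℝ) : ‖v‖ ≤ nrm v := by
  exact (pi_norm_le_iff_of_nonneg (nrm_nonneg v)).mpr fun i => abs_le_nrm v i

theorem nrm_le_sqrt_mul_norm (v : Fin m → ℝ) : nrm v ≤ √m * ‖v‖ := by
  simpa using nrm_le_of_abs_le (norm_nonneg v) fun i => norm_le_pi_norm v i

theorem wn_nonneg (h : Sn φ) (hβ : 0 ≤ β) (J : ℕ) (U : (Fin m → ℝ)[X]) : 0 ≤ wn φ β J U := by
  exact sum_nonneg fun j _ => mul_nonneg (pow_nonneg hβ j) (h.nonneg _)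

theorem wn_add (h : Sn φ) (hβ : 0 ≤ β) (J : ℕ) (U V : (Fin m → ℝ)[X]) :
    wn φ β J (U + V) ≤ wn φ β J U + wn φ β J V := by
  unfold wn
  rw [← sum_add_distrib]
  refine sum_le_sum fun j _ => ?_
  rw [← mul_add, Polynomial.coeff_add]
  exact mul_le_mul_of_nonneg_left (h.add _ _) (pow_nonneg hβ j)

lemma wn_neg (h : Sn φ) (β : ℝ) (J : ℕ) (U : (Fin m → ℝ)[X]) : wn φ β J (-U) = wn φ β J U := by
  unfold wn
  refine sum_congr rfl fun j _ => ?_
  rw [Polynomial.coeff_neg, h.neg]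

theorem wn_sub (h : Sn φ) (hβ : 0 ≤ β) (J : ℕ) (U V : (Fin m → ℝ)[X]) :
    wn φ β J (U - V) ≤ wn φ β J U + wn φ β J V := by
  rw [sub_eq_add_neg, ← wn_neg h β J V]
  exact wn_add h hβ J U (-V)

theorem wn_C (h : Sn φ) (β : ℝ) (J : ℕ) (w : Fin m → ℝ) : wn φ β J (Polynomial.C w) ≤ φ w := by
  unfold wn
  cases J with
  | zero => simpa using h.nonneg w
  | succ J =>
    rw [sum_range_succ']
    simp [Polynomial.coeff_C, h.zero]

lemma wn_sn_sum (h : Sn φ) {ι : Type*} (s : Finset ι) (g : ι → Fin m → ℝ) :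
    φ (∑ i ∈ s, g i) ≤ ∑ i ∈ s, φ (g i) :=
  le_sum_of_subadditive φ h.zero.le h.add s g

lemma wn_zero (h : Sn φ) (β : ℝ) (J : ℕ) : wn φ β J 0 = 0 := by
  simp [wn, h.zero]

lemma wn_sum (h : Sn φ) (hβ : 0 ≤ β) (J : ℕ) {ι : Type*} (s : Finset ι)
    (g : ι → (Fin m → ℝ)[X]) : wn φ β J (∑ i ∈ s, g i) ≤ ∑ i ∈ s, wn φ β J (g i) :=
  le_sum_of_subadditive (wn φ β J) (wn_zero h β J).le (wn_add h hβ J) s g

lemma wn_conv (h : Sn φ) (hβ : 0 ≤ β) (J : ℕ) (U V : (Fin m → ℝ)[X]) :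
    wn φ β J (U * V) ≤
      ∑ a ∈ range J, β ^ a * ‖U.coeff a‖ * ∑ b ∈ range (J - a), β ^ b * φ (V.coeff b) := by
  simp only [mul_sum]
  rw [← sum_range_diag_flip J
    fun a b => β ^ a * ‖U.coeff a‖ * (β ^ b * φ (V.coeff b))]
  unfold wn
  refine sum_le_sum fun j _ => ?_
  rw [Polynomial.coeff_mul, Finset.Nat.sum_antidiagonal_eq_sum_range_succ_mk]
  refine (mul_le_mul_of_nonneg_left (wn_sn_sum h _ _) (pow_nonneg hβ j)).trans ?_
  rw [mul_sum]
  refine sum_le_sum fun a ha => ?_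
  have ha' : a ≤ j := Nat.lt_succ_iff.mp (mem_range.mp ha)
  calc β ^ j * φ (U.coeff a * V.coeff (j - a))
      ≤ β ^ j * (‖U.coeff a‖ * φ (V.coeff (j - a))) :=
        mul_le_mul_of_nonneg_left (h.mul _ _) (pow_nonneg hβ j)
    _ = β ^ a * ‖U.coeff a‖ * (β ^ (j - a) * φ (V.coeff (j - a))) := by
        have : β ^ j = β ^ a * β ^ (j - a) := by rw [← pow_add, Nat.add_sub_cancel' ha']
        rw [this]; ring

lemma wn_mono (h : Sn φ) (hβ : 0 ≤ β) {J K : ℕ} (hJ : J ≤ K) (U : (Fin m → ℝ)[X]) :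
    wn φ β J U ≤ wn φ β K U :=
  sum_le_sum_of_subset_of_nonneg (range_mono hJ)
    fun j _ _ => mul_nonneg (pow_nonneg hβ j) (h.nonneg _)

theorem wn_mul (h : Sn φ) (hβ : 0 ≤ β) (J : ℕ) (U V : (Fin m → ℝ)[X]) :
    wn φ β J (U * V) ≤ wn (fun v => ‖v‖) β J U * wn φ β J V := by
  refine (wn_conv h hβ J U V).trans ?_
  rw [wn, sum_mul]
  refine sum_le_sum fun a _ => ?_
  exact mul_le_mul_of_nonneg_left (wn_mono h hβ (Nat.sub_le J a) V)
    (mul_nonneg (pow_nonneg hβ a) (norm_nonneg _))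

theorem wn_mul_shift (h : Sn φ) (hβ : 0 ≤ β) (J : ℕ) {U : (Fin m → ℝ)[X]} (hU : U.coeff 0 = 0)
    (V : (Fin m → ℝ)[X]) :
    wn φ β (J + 1) (U * V) ≤ wn (fun v => ‖v‖) β (J + 1) U * wn φ β J V := by
  refine (wn_conv h hβ (J + 1) U V).trans ?_
  rw [wn, sum_mul]
  refine sum_le_sum fun a _ => ?_
  rcases Nat.eq_zero_or_pos a with rfl | ha
  · simp [hU]
  · exact mul_le_mul_of_nonneg_left (wn_mono h hβ (by omega : J + 1 - a ≤ J) V)
      (mul_nonneg (pow_nonneg hβ a) (norm_nonneg _))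

theorem ev_le (h : Sn φ) {a : ℝ} (ha : |a| ≤ β) {J : ℕ} {U : (Fin m → ℝ)[X]}
    (hU : U.natDegree < J) : φ (ev a U) ≤ wn φ β J U := by
  unfold ev wn
  rw [Polynomial.eval_eq_sum_range' hU]
  refine (wn_sn_sum h _ _).trans (sum_le_sum fun j _ => ?_)
  rw [mul_comm]
  refine (h.mul _ _).trans (mul_le_mul_of_nonneg_right ?_ (h.nonneg _))
  refine (pi_norm_le_iff_of_nonneg (pow_nonneg ((abs_nonneg a).trans ha) j)).mpr fun i => ?_
  rw [Pi.pow_apply, Real.norm_eq_abs, abs_pow]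
  exact pow_le_pow_left₀ (abs_nonneg a) ha j

lemma wn_one (β : ℝ) (J : ℕ) : wn (m := m) (fun v => ‖v‖) β J 1 ≤ 1 := by
  rw [← Polynomial.C_1]
  refine (wn_C sn_norm β J 1).trans ?_
  exact (pi_norm_le_iff_of_nonneg zero_le_one).mpr fun i => by simp

lemma wn_pow (hβ : 0 ≤ β) (J : ℕ) (τ : (Fin m → ℝ)[X]) {θ : ℝ}
    (hτ : wn (fun v => ‖v‖) β J τ ≤ θ) (i : ℕ) : wn (fun v => ‖v‖) β J (τ ^ i) ≤ θ ^ i := by
  induction i with
  | zero => simpa using wn_one β J
  | succ i ih =>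
    rw [pow_succ', pow_succ']
    exact (wn_mul sn_norm hβ J τ _).trans
      (mul_le_mul hτ ih (wn_nonneg sn_norm hβ J _) ((wn_nonneg sn_norm hβ J τ).trans hτ))

theorem wn_comp (h : Sn φ) (hβ : 0 ≤ β) (J : ℕ) {I : ℕ} {U : (Fin m → ℝ)[X]}
    (hU : U.natDegree < I) (τ : (Fin m → ℝ)[X]) {θ : ℝ} (hτ : wn (fun v => ‖v‖) β J τ ≤ θ) :
    wn φ β J (U.comp τ) ≤ wn φ θ I U := by
  have hθ : 0 ≤ θ := (wn_nonneg sn_norm hβ J τ).trans hτ
  rw [Polynomial.comp, Polynomial.eval₂_eq_sum_range' Polynomial.C hU τ]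
  refine (wn_sum h hβ J _ _).trans (sum_le_sum fun i _ => ?_)
  rw [mul_comm]
  exact (wn_mul h hβ J _ _).trans
    (mul_le_mul (wn_pow hβ J τ hτ i) (wn_C h β J _) (wn_nonneg h hβ J _) (pow_nonneg hθ i))

lemma wn_orth {u v : Fin m → ℝ} (h : u ⬝ᵥ v = 0) : nrm u ≤ nrm (u + v) := by
  refine Real.sqrt_le_sqrt ?_
  rw [add_dotProduct, dotProduct_add, dotProduct_add, dotProduct_comm v u, h]
  have := dot_self_nonneg v
  linarith

lemma wn_le_of_coeff {ψ : (Fin m → ℝ) → ℝ} (hβ : 0 ≤ β) {J : ℕ} {U V : (Fin m → ℝ)[X]}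
    (h : ∀ j < J, φ (U.coeff j) ≤ ψ (V.coeff j)) : wn φ β J U ≤ wn ψ β J V :=
  sum_le_sum fun j hj => mul_le_mul_of_nonneg_left (h j (mem_range.mp hj)) (pow_nonneg hβ j)

lemma wn_le_of_deg (h : Sn φ) (hβ : 0 ≤ β) {p : ℕ} {U : (Fin m → ℝ)[X]} (hU : U.natDegree ≤ p)
    (J : ℕ) : wn φ β J U ≤ wn φ β (p + 1) U := by
  rcases le_total J (p + 1) with hJ | hJ
  · exact wn_mono h hβ hJ U
  · refine (sum_subset (range_mono hJ) fun j _ hj => ?_).ge
    have : U.natDegree < j := by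
      rw [mem_range] at hj; omega
    rw [Polynomial.coeff_eq_zero_of_natDegree_lt this, h.zero, mul_zero]

theorem stab (hβ : 0 ≤ β) {p : ℕ} {E F e f R : (Fin m → ℝ)[X]} {w : Fin m → ℝ}
    (h1 : (1 + E) * (1 + F) = 1 + R) (h2 : ∀ j ≤ p, ((1 + e) * (1 + f) - 1).coeff j = 0)
    (dE : E.natDegree ≤ p) (dF : F.natDegree ≤ p) (de : e.natDegree ≤ p) (df : f.natDegree ≤ p)
    (h0 : e.coeff 0 = 0)
    (ho : ∀ j, (E - e).coeff j ⬝ᵥ (F - f + Polynomial.C w).coeff j = 0)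
    (hE : wn (fun v => ‖v‖) β (2 * p + 1) E ≤ 14 / 1000)
    (hF : wn (fun v => ‖v‖) β (2 * p + 1) F ≤ 14 / 1000)
    (hR : wn nrm β (2 * p + 1) R ≤ 12 / 10000) (hw : nrm w ≤ 1 / 100) :
    wn (fun v => ‖v‖) β (2 * p + 1) e ≤ 34 / 1000 ∧
      wn nrm β (2 * p + 1) ((1 + e) * (1 + f) - 1) ≤ 1 / 100 := by
  set D : (Fin m → ℝ)[X] := E - e with hD
  set D' : (Fin m → ℝ)[X] := F - f + Polynomial.C w with hD'
  set r : (Fin m → ℝ)[X] := (1 + e) * (1 + f) - 1 with hr
  have hRe : R = (1 + E) * (1 + F) - 1 := by rw [h1]; ring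
  have key : D + D' + r = R + (1 + e) * Polynomial.C w - F * D - e * D' := by
    rw [hRe, hD, hD', hr]; ring
  have dD : D.natDegree ≤ p := (Polynomial.natDegree_sub_le _ _).trans (max_le dE de)
  have dD' : D'.natDegree ≤ p := (Polynomial.natDegree_add_le _ _).trans
    (max_le ((Polynomial.natDegree_sub_le _ _).trans (max_le dF df)) (by simp))
  have dS : (D + D').natDegree ≤ p := (Polynomial.natDegree_add_le _ _).trans (max_le dD dD')
  have dW : ((1 + e) * Polynomial.C w).natDegree ≤ p :=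
    (Polynomial.natDegree_mul_C_le _ _).trans
      ((Polynomial.natDegree_add_le _ _).trans (max_le (by simp) de))
  have oD : ∀ J, wn nrm β J D ≤ wn nrm β J (D + D') := fun J =>
    wn_le_of_coeff hβ fun j _ => by rw [Polynomial.coeff_add D D']; exact wn_orth (ho j)
  have oD' : ∀ J, wn nrm β J D' ≤ wn nrm β J (D + D') := fun J =>
    wn_le_of_coeff hβ fun j _ => by
      rw [Polynomial.coeff_add D D', add_comm (D.coeff j)]
      exact wn_orth (by rw [dotProduct_comm]; exact ho j)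
  have he : ∀ J ≤ 2 * p + 1, wn (fun v => ‖v‖) β J e ≤ 14 / 1000 + wn nrm β J (D + D') := by
    intro J hJ
    have h3 : e = E - D := by rw [hD]; ring
    have h4 : wn (fun v => ‖v‖) β J D ≤ wn nrm β J D :=
      wn_le_of_coeff hβ fun j _ => norm_le_nrm _
    have h5 := wn_sub sn_norm hβ J E D
    have h6 := wn_mono sn_norm hβ hJ E
    have h7 := oD J
    rw [← h3] at h5
    linarith
  have hN : ∀ J ≤ p + 1, wn nrm β J (D + D') ≤ 2 / 100 := by
    intro J
    induction J with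
    | zero => intro _; simp [wn]; norm_num
    | succ J ih =>
      intro hJ
      have ih' := ih (by omega)
      have a0 : wn nrm β (J + 1) (D + D') ≤ wn nrm β (J + 1) (D + D' + r) :=
        wn_le_of_coeff hβ fun j hj => by
          rw [Polynomial.coeff_add (D + D') r, h2 j (by omega), add_zero]
      rw [key] at a0
      have a1 := wn_sub sn_nrm hβ (J + 1) (R + (1 + e) * Polynomial.C w - F * D) (e * D')
      have a2 := wn_sub sn_nrm hβ (J + 1) (R + (1 + e) * Polynomial.C w) (F * D)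
      have a3 := wn_add sn_nrm hβ (J + 1) R ((1 + e) * Polynomial.C w)
      have a4 := wn_mono sn_nrm hβ (by omega : J + 1 ≤ 2 * p + 1) R
      have n1 := wn_nonneg sn_nrm hβ (J + 1) (D + D')
      have e1 := he (J + 1) (by omega)
      have b1 : wn nrm β (J + 1) ((1 + e) * Polynomial.C w) ≤
          (1 + (14 / 1000 + wn nrm β (J + 1) (D + D'))) * (1 / 100) := by
        refine (wn_mul sn_nrm hβ _ _ _).trans (mul_le_mul ?_ ((wn_C sn_nrm β _ w).trans hw)
          (wn_nonneg sn_nrm hβ _ _) (by linarith))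
        exact (wn_add sn_norm hβ _ _ _).trans (add_le_add (wn_one β _) e1)
      have b2 : wn nrm β (J + 1) (F * D) ≤ 14 / 1000 * wn nrm β (J + 1) (D + D') :=
        (wn_mul sn_nrm hβ _ _ _).trans (mul_le_mul
          ((wn_mono sn_norm hβ (by omega : J + 1 ≤ 2 * p + 1) F).trans hF) (oD _)
          (wn_nonneg sn_nrm hβ _ _) (by norm_num))
      have b3 : wn nrm β (J + 1) (e * D') ≤
          (14 / 1000 + wn nrm β (J + 1) (D + D')) * (2 / 100) :=
        (wn_mul_shift sn_nrm hβ J h0 D').trans (mul_le_mul e1 ((oD' J).trans ih')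
          (wn_nonneg sn_nrm hβ _ _) (by linarith))
      linarith
  have hN' : wn nrm β (2 * p + 1) (D + D') ≤ 2 / 100 :=
    (wn_le_of_deg sn_nrm hβ dS _).trans (hN _ le_rfl)
  have e2 : wn (fun v => ‖v‖) β (2 * p + 1) e ≤ 34 / 1000 := by
    have := he _ le_rfl
    linarith
  refine ⟨e2, ?_⟩
  have a0 : wn nrm β (2 * p + 1) r ≤ wn nrm β (2 * p + 1) (R - F * D - e * D') :=
    wn_le_of_coeff hβ fun j _ => by
      rcases le_or_gt j p with hj | hj
      · rw [h2 j hj, nrm_zero]; exact nrm_nonneg _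
      · have h3 : r = R - F * D - e * D' + ((1 + e) * Polynomial.C w - (D + D')) := by
          linear_combination key
        rw [h3, Polynomial.coeff_add, Polynomial.coeff_sub ((1 + e) * Polynomial.C w),
          Polynomial.coeff_eq_zero_of_natDegree_lt (dW.trans_lt hj),
          Polynomial.coeff_eq_zero_of_natDegree_lt (dS.trans_lt hj), sub_zero, add_zero]
  have a1 := wn_sub sn_nrm hβ (2 * p + 1) (R - F * D) (e * D')
  have a2 := wn_sub sn_nrm hβ (2 * p + 1) R (F * D)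
  have b2 : wn nrm β (2 * p + 1) (F * D) ≤ 14 / 1000 * (2 / 100) :=
    (wn_mul sn_nrm hβ _ _ _).trans (mul_le_mul hF ((oD _).trans hN')
      (wn_nonneg sn_nrm hβ _ _) (by norm_num))
  have b3 : wn nrm β (2 * p + 1) (e * D') ≤ 34 / 1000 * (2 / 100) :=
    (wn_mul sn_nrm hβ _ _ _).trans (mul_le_mul e2 ((oD' _).trans hN')
      (wn_nonneg sn_nrm hβ _ _) (by norm_num))
  linarith

end Pool.Agent.Work.MP_6af739_lc.HO
end

-- merged part: Pool.Agent.Work.MP_6af739_lc.HO.TG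
section
/-!
The abstract Taylor recursion. tg_crude: strong induction, tg_succ, nrm (Q y) ≤ nrm y and nrm (y - Q y) ≤ nrm y
(IsProj.nrm_le, IsProj.one_sub), nrm (g * f) ≤ nrm g * nrm f (Sn.mul, norm_le_nrm), catalan_succ.
catalan_le: catalan_eq_centralBinom_div, Nat.choose_le_two_pow. Phi_crude: Phi_le with ρ = 4 nrm q
(2 * 4^j ≤ 4^(j+1)). le_Phi_pow: single_le_sum and Real.rpow_inv_natCast_pow (cast of j + 1).
pr_coeff_low: coefficient j + 1 of (1 + e)(1 + f) is -g_j + f_j - sum over a + b = j - 1 of g_a f_b, which is zero by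
tg_zero, tg_succ. pr_coeff_le: coefficient i of e * f is a sum of i + 1 terms of sup norm ≤ ρ^i, i + 1 ≤ 2^i; for i > p
the linear terms vanish. wn_pe, wn_pf: geometric sum. wn_pr: the terms i ≤ p vanish, for i ≥ p + 1:
θ^i √m (2ρ)^i ≤ (2 θ0)^i √m/μ^i ≤ (2 θ0)^i since √m = μ^(p+1), and the sum over i ≥ 1 is ≤ 4 θ0.
Measurability: strong induction with the MM, MV helpers of GenPosAE.lean. Ph_rot: sc (A * O) b (Oᵀ x) = sc A b x * O
(slack_rot), proj_rot, qv_rot. Ph_crude: as in Good.n4_qv_le, nrm qv ≤ nrm vz ≤ nrm (A x) ≤ 8 √m 150.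
-/

namespace Pool.Agent.Work.MP_6af739_lc.HO

open Matrix Finset MeasureTheory ProbabilityTheory
open Pool.Agent.Work.MP_6a50bc_pr
open Pool.Agent.Work.MP_5c5849_an (sg av)
open scoped ENNReal Polynomial

variable {m n p : ℕ} {Q : Matrix (Fin m) (Fin m) ℝ} {q : Fin m → ℝ}

theorem catalan_le (j : ℕ) : (catalan j : ℝ) ≤ 4 ^ j := by
  have h1 : catalan j ≤ 4 ^ j := by
    rw [catalan_eq_centralBinom_div, Nat.centralBinom_eq_two_mul_choose]
    refine (Nat.div_le_self _ _).trans ((Nat.choose_le_two_pow _ _).trans_eq ?_)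
    rw [pow_mul]
    norm_num
  exact_mod_cast h1

theorem catalan_rec (j : ℕ) :
    (catalan (j + 1) : ℝ) = ∑ i ∈ range (j + 1), (catalan i : ℝ) * catalan (j - i) := by
  rw [catalan_succ, Fin.sum_univ_eq_sum_range (fun i => catalan i * catalan (j - i))]
  push_cast
  rfl

lemma tg_nrm_sum (s : Finset ℕ) (f : ℕ → Fin m → ℝ) : nrm (∑ i ∈ s, f i) ≤ ∑ i ∈ s, nrm (f i) := by
  induction s using Finset.induction_on with
  | empty => simp
  | insert a s ha ih =>
    rw [sum_insert ha, sum_insert ha]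
    exact (nrm_add_le _ _).trans (by linarith only [ih])

theorem tg_crude (hQ : IsProj Q) (q : Fin m → ℝ) (j : ℕ) :
    nrm (tg Q q j).1 ≤ catalan j * nrm q ^ (j + 1) ∧
      nrm (tg Q q j).2 ≤ catalan j * nrm q ^ (j + 1) := by
  induction j using Nat.strong_induction_on with
  | _ j ih =>
    rcases j with _ | j
    · simp [tg_zero]
    have h0 := nrm_nonneg q
    have hy : nrm (ty Q q j) ≤ catalan (j + 1) * nrm q ^ (j + 1 + 1) := by
      rw [ty, catalan_rec, sum_mul]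
      refine (tg_nrm_sum _ _).trans (sum_le_sum fun i hi => ?_)
      have hi' : i ≤ j := Nat.lt_succ_iff.1 (mem_range.1 hi)
      have h1 := (ih i (by omega)).1
      have h2 := (ih (j - i) (by omega)).2
      have h3 : nrm q ^ (j + 1 + 1) = nrm q ^ (i + 1) * nrm q ^ (j - i + 1) := by
        rw [← pow_add]
        congr 1
        omega
      refine (sn_nrm.mul _ _).trans ?_
      refine (mul_le_mul ((norm_le_nrm _).trans h1) h2 (nrm_nonneg _) (by positivity)).trans_eq ?_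
      rw [h3]
      ring
    rw [tg_succ]
    refine ⟨?_, ?_⟩
    · rw [nrm_neg]
      exact (hQ.nrm_le _).trans hy
    · have h := hQ.one_sub.nrm_le (ty Q q j)
      rw [sub_mulVec, one_mulVec] at h
      exact h.trans hy

theorem Phi_nonneg (p : ℕ) (Q : Matrix (Fin m) (Fin m) ℝ) (q : Fin m → ℝ) : 0 ≤ Phi p Q q := by
  exact sum_nonneg fun j _ => Real.rpow_nonneg (by positivity) _

theorem Phi_le {ρ : ℝ} (hρ : 0 ≤ ρ)
    (h : ∀ j < p, ‖(tg Q q j).1‖ + ‖(tg Q q j).2‖ ≤ ρ ^ (j + 1)) : Phi p Q q ≤ p * ρ := by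
  have h1 : ∀ j ∈ range p, (‖(tg Q q j).1‖ + ‖(tg Q q j).2‖) ^ ((j : ℝ) + 1)⁻¹ ≤ ρ := fun j hj => by
    refine (Real.rpow_le_rpow (by positivity) (h j (mem_range.1 hj)) (by positivity)).trans_eq ?_
    have h2 := Real.pow_rpow_inv_natCast hρ (Nat.succ_ne_zero j)
    rwa [Nat.cast_succ] at h2
  have h2 := sum_le_card_nsmul _ _ _ h1
  rwa [card_range, nsmul_eq_mul] at h2

theorem Phi_crude (hQ : IsProj Q) (p : ℕ) (q : Fin m → ℝ) : Phi p Q q ≤ 4 * p * nrm q := by
  have h0 := nrm_nonneg q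
  refine (Phi_le (ρ := 4 * nrm q) (by positivity) fun j _ => ?_).trans_eq (by ring)
  have h1 := tg_crude hQ q j
  have h2 := mul_le_mul_of_nonneg_right (catalan_le j) (pow_nonneg h0 (j + 1))
  have h3 := norm_le_nrm (tg Q q j).1
  have h4 := norm_le_nrm (tg Q q j).2
  have h5 : (0 : ℝ) ≤ 4 ^ j * nrm q ^ (j + 1) := by positivity
  have h6 : (4 * nrm q) ^ (j + 1) = 4 * (4 ^ j * nrm q ^ (j + 1)) := by rw [mul_pow]; ring
  linarith only [h1.1, h1.2, h2, h3, h4, h5, h6]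

theorem le_Phi_pow {j : ℕ} (hj : j < p) :
    ‖(tg Q q j).1‖ + ‖(tg Q q j).2‖ ≤ (1 + Phi p Q q) ^ (j + 1) := by
  have h0 : 0 ≤ ‖(tg Q q j).1‖ + ‖(tg Q q j).2‖ := by positivity
  have h1 : (‖(tg Q q j).1‖ + ‖(tg Q q j).2‖) ^ ((j : ℝ) + 1)⁻¹ ≤ Phi p Q q :=
    single_le_sum (f := fun j : ℕ => (‖(tg Q q j).1‖ + ‖(tg Q q j).2‖) ^ ((j : ℝ) + 1)⁻¹)
      (fun j _ => Real.rpow_nonneg (by positivity) _) (mem_range.2 hj)
  have h2 := Real.rpow_inv_natCast_pow h0 (Nat.succ_ne_zero j)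
  rw [Nat.cast_succ] at h2
  rw [← h2]
  exact pow_le_pow_left₀ (Real.rpow_nonneg h0 _) (by linarith only [h1]) _

lemma tg_coeff (g : ℕ → Fin m → ℝ) (j : ℕ) :
    (∑ i ∈ range p, Polynomial.monomial (i + 1) (g i)).coeff (j + 1) = if j < p then g j else 0 := by
  simp only [Polynomial.finsetSum_coeff, Polynomial.coeff_monomial, Nat.add_right_cancel_iff,
    sum_ite_eq', mem_range]

lemma tg_coeff0 (g : ℕ → Fin m → ℝ) :
    (∑ i ∈ range p, Polynomial.monomial (i + 1) (g i)).coeff 0 = 0 := by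
  simp [Polynomial.coeff_monomial]

theorem pe_coeff (j : ℕ) : (pe p Q q).coeff (j + 1) = if j < p then -(tg Q q j).1 else 0 := by
  rw [pe, Polynomial.coeff_neg, tg_coeff]
  split_ifs <;> simp

theorem pf_coeff (j : ℕ) : (pf p Q q).coeff (j + 1) = if j < p then (tg Q q j).2 else 0 := by
  rw [pf, tg_coeff]

theorem pe_coeff_zero : (pe p Q q).coeff 0 = 0 := by
  rw [pe, Polynomial.coeff_neg, tg_coeff0, neg_zero]

theorem pf_coeff_zero : (pf p Q q).coeff 0 = 0 := by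
  rw [pf, tg_coeff0]

theorem pe_deg : (pe p Q q).natDegree ≤ p := by
  refine Polynomial.natDegree_le_iff_coeff_eq_zero.2 fun N hN => ?_
  obtain ⟨j, rfl⟩ : ∃ j, N = j + 1 := ⟨N - 1, by omega⟩
  rw [pe_coeff, if_neg (by omega)]

theorem pf_deg : (pf p Q q).natDegree ≤ p := by
  refine Polynomial.natDegree_le_iff_coeff_eq_zero.2 fun N hN => ?_
  obtain ⟨j, rfl⟩ : ∃ j, N = j + 1 := ⟨N - 1, by omega⟩
  rw [pf_coeff, if_neg (by omega)]

lemma tg_pr : pr p Q q = pe p Q q + pf p Q q + pe p Q q * pf p Q q := by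
  rw [pr]
  ring

theorem pr_deg : (pr p Q q).natDegree ≤ 2 * p := by
  have h1 := pe_deg (p := p) (Q := Q) (q := q)
  have h2 := pf_deg (p := p) (Q := Q) (q := q)
  have h3 := Polynomial.natDegree_mul_le (p := pe p Q q) (q := pf p Q q)
  rw [tg_pr]
  refine (Polynomial.natDegree_add_le _ _).trans (max_le ?_ (by omega))
  exact (Polynomial.natDegree_add_le _ _).trans (max_le (by omega) (by omega))

lemma tg_ev (g : ℕ → Fin m → ℝ) (a : ℝ) :
    ev a (∑ i ∈ range p, Polynomial.monomial (i + 1) (g i)) = ∑ j ∈ range p, a ^ (j + 1) • g j := by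
  rw [ev, Polynomial.eval_finsetSum]
  refine sum_congr rfl fun j _ => ?_
  rw [Polynomial.eval_monomial]
  funext k
  simp [mul_comm]

theorem ev_pe (a : ℝ) : ev a (pe p Q q) = -∑ j ∈ range p, a ^ (j + 1) • (tg Q q j).1 := by
  rw [pe, ← tg_ev, ev, ev, Polynomial.eval_neg]

theorem ev_pf (a : ℝ) : ev a (pf p Q q) = ∑ j ∈ range p, a ^ (j + 1) • (tg Q q j).2 := by
  rw [pf, tg_ev]

theorem pr_coeff_low {j : ℕ} (hj : j ≤ p) : (pr p Q q).coeff j = 0 := by
  rw [tg_pr, Polynomial.coeff_add, Polynomial.coeff_add]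
  rcases j with _ | j
  · rw [Polynomial.mul_coeff_zero, pe_coeff_zero, pf_coeff_zero]
    simp
  rw [pe_coeff, pf_coeff, if_pos (by omega), if_pos (by omega), Polynomial.coeff_mul,
    Finset.Nat.sum_antidiagonal_succ, pe_coeff_zero, zero_mul, zero_add]
  rcases j with _ | j
  · simp [tg_zero, pf_coeff_zero]
  rw [Finset.Nat.sum_antidiagonal_succ', pf_coeff_zero, mul_zero, zero_add,
    Finset.Nat.sum_antidiagonal_eq_sum_range_succ_mk]
  have h : ∑ i ∈ range (j + 1), (pe p Q q).coeff (i + 1) * (pf p Q q).coeff (j - i + 1) =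
      -ty Q q j := by
    rw [ty, ← sum_neg_distrib]
    refine sum_congr rfl fun i hi => ?_
    have hi' := mem_range.1 hi
    rw [pe_coeff, pf_coeff, if_pos (by omega), if_pos (by omega), neg_mul]
  rw [tg_succ]
  dsimp only
  rw [h]
  abel

lemma tg_pe_le {ρ : ℝ} (hρ : 0 ≤ ρ)
    (h : ∀ j < p, ‖(tg Q q j).1‖ + ‖(tg Q q j).2‖ ≤ ρ ^ (j + 1)) (i : ℕ) :
    ‖(pe p Q q).coeff i‖ ≤ ρ ^ i := by
  rcases i with _ | i
  · rw [pe_coeff_zero, norm_zero]
    positivity
  rw [pe_coeff]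
  split_ifs with hi
  · rw [norm_neg]
    linarith only [h i hi, norm_nonneg (tg Q q i).2]
  · rw [norm_zero]
    positivity

lemma tg_pf_le {ρ : ℝ} (hρ : 0 ≤ ρ)
    (h : ∀ j < p, ‖(tg Q q j).1‖ + ‖(tg Q q j).2‖ ≤ ρ ^ (j + 1)) (i : ℕ) :
    ‖(pf p Q q).coeff i‖ ≤ ρ ^ i := by
  rcases i with _ | i
  · rw [pf_coeff_zero, norm_zero]
    positivity
  rw [pf_coeff]
  split_ifs with hi
  · linarith only [h i hi, norm_nonneg (tg Q q i).1]
  · rw [norm_zero]
    positivity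

theorem pr_coeff_le {ρ : ℝ} (hρ : 0 ≤ ρ)
    (h : ∀ j < p, ‖(tg Q q j).1‖ + ‖(tg Q q j).2‖ ≤ ρ ^ (j + 1)) (i : ℕ) :
    ‖(pr p Q q).coeff i‖ ≤ (2 * ρ) ^ i := by
  rcases le_or_gt i p with hi | hi
  · rw [pr_coeff_low hi, norm_zero]
    positivity
  rw [tg_pr, Polynomial.coeff_add, Polynomial.coeff_add,
    Polynomial.coeff_eq_zero_of_natDegree_lt (pe_deg.trans_lt hi),
    Polynomial.coeff_eq_zero_of_natDegree_lt (pf_deg.trans_lt hi), zero_add, zero_add,
    Polynomial.coeff_mul]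
  have h1 : ∀ x ∈ antidiagonal i, ‖(pe p Q q).coeff x.1 * (pf p Q q).coeff x.2‖ ≤ ρ ^ i :=
    fun x hx => by
      rw [← mem_antidiagonal.1 hx, pow_add]
      exact (norm_mul_le _ _).trans (mul_le_mul (tg_pe_le hρ h _) (tg_pf_le hρ h _) (norm_nonneg _)
        (by positivity))
  have h2 := sum_le_card_nsmul _ _ _ h1
  rw [Finset.Nat.card_antidiagonal, nsmul_eq_mul] at h2
  have h3 : ((i + 1 : ℕ) : ℝ) ≤ 2 ^ i := by exact_mod_cast Nat.lt_two_pow_self
  refine (norm_sum_le _ _).trans (h2.trans ?_)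
  rw [mul_pow]
  exact mul_le_mul_of_nonneg_right h3 (by positivity)

lemma tg_geom {x : ℝ} (hx : 0 ≤ x) (h1 : x ≤ 1 / 2) {u : ℕ → ℝ} (h0 : u 0 ≤ 0)
    (hu : ∀ j, u j ≤ x ^ j) (I : ℕ) : ∑ j ∈ range I, u j ≤ 2 * x := by
  have h : ∀ J, ∑ j ∈ range (J + 1), u j ≤ 2 * x - 2 * x ^ (J + 1) := fun J => by
    induction J with
    | zero => simpa using h0
    | succ J ih =>
      rw [sum_range_succ, pow_succ x (J + 1)]
      have h2 := mul_le_mul_of_nonneg_left h1 (pow_nonneg hx (J + 1))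
      linarith only [ih, hu (J + 1), h2]
  rcases I with _ | I
  · simpa using hx
  · linarith only [h I, pow_nonneg hx (I + 1)]

theorem wn_pe {ρ θ : ℝ} (hρ : 0 ≤ ρ) (hθ : 0 ≤ θ) (h1 : ρ * θ ≤ 1 / 2)
    (h : ∀ j < p, ‖(tg Q q j).1‖ + ‖(tg Q q j).2‖ ≤ ρ ^ (j + 1)) (I : ℕ) :
    wn (fun v => ‖v‖) θ I (pe p Q q) ≤ 2 * (ρ * θ) := by
  refine tg_geom (by positivity) h1 ?_ (fun j => ?_) I
  · simp [pe_coeff_zero]
  · rw [mul_pow, mul_comm]
    exact mul_le_mul_of_nonneg_right (tg_pe_le hρ h j) (by positivity)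

theorem wn_pf {ρ θ : ℝ} (hρ : 0 ≤ ρ) (hθ : 0 ≤ θ) (h1 : ρ * θ ≤ 1 / 2)
    (h : ∀ j < p, ‖(tg Q q j).1‖ + ‖(tg Q q j).2‖ ≤ ρ ^ (j + 1)) (I : ℕ) :
    wn (fun v => ‖v‖) θ I (pf p Q q) ≤ 2 * (ρ * θ) := by
  refine tg_geom (by positivity) h1 ?_ (fun j => ?_) I
  · simp [pf_coeff_zero]
  · rw [mul_pow, mul_comm]
    exact mul_le_mul_of_nonneg_right (tg_pf_le hρ h j) (by positivity)

theorem wn_pr {ρ θ μ θ0 : ℝ} (hρ : 0 ≤ ρ) (hθ : 0 ≤ θ) (hμ : 1 ≤ μ) (hm : μ ^ (2 * p + 2) = m)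
    (h0 : θ0 ≤ 1 / 4) (h1 : ρ * θ * μ ≤ θ0)
    (h : ∀ j < p, ‖(tg Q q j).1‖ + ‖(tg Q q j).2‖ ≤ ρ ^ (j + 1)) (I : ℕ) :
    wn nrm θ I (pr p Q q) ≤ 4 * θ0 := by
  have hμ0 : 0 ≤ μ := zero_le_one.trans hμ
  have h2 : 0 ≤ ρ * θ * μ := by positivity
  have h3 : 0 ≤ 2 * θ0 := by linarith only [h1, h2]
  have h4 : √(m : ℝ) = μ ^ (p + 1) := by
    rw [← hm, show 2 * p + 2 = (p + 1) * 2 by ring, pow_mul, Real.sqrt_sq (by positivity)]
  refine (tg_geom h3 (by linarith only [h0]) ?_ (fun j => ?_) I).trans_eq (by ring)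
  · simp [pr_coeff_low (Nat.zero_le p)]
  rcases le_or_gt j p with hj | hj
  · rw [pr_coeff_low hj, nrm_zero, mul_zero]
    positivity
  have h5 : nrm ((pr p Q q).coeff j) ≤ μ ^ j * (2 * ρ) ^ j :=
    (nrm_le_sqrt_mul_norm _).trans (mul_le_mul (h4.trans_le (pow_le_pow_right₀ hμ hj))
      (pr_coeff_le hρ h j) (norm_nonneg _) (by positivity))
  refine (mul_le_mul_of_nonneg_left h5 (by positivity)).trans ?_
  rw [← mul_pow, ← mul_pow]
  exact pow_le_pow_left₀ (by positivity) (by linarith only [h1]) _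

theorem Ph_nonneg (p : ℕ) (A : Matrix (Fin m) (Fin n) ℝ) (b : Fin m → ℝ) (x : Fin n → ℝ) :
    0 ≤ Ph p A b x := Phi_nonneg _ _ _

lemma tg_meas {α : Type*} [MeasurableSpace α] {Qf : α → Matrix (Fin m) (Fin m) ℝ}
    {qf : α → Fin m → ℝ} (hQ : MM Qf) (hq : MV qf) (j : ℕ) :
    (MV fun a => (tg (Qf a) (qf a) j).1) ∧ MV fun a => (tg (Qf a) (qf a) j).2 := by
  induction j using Nat.strong_induction_on with
  | _ j ih =>
    rcases j with _ | j
    · simp only [tg_zero]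
      exact ⟨hq, hq⟩
    have hy : MV fun a => ty (Qf a) (qf a) j := fun k => by
      simp only [ty, Finset.sum_apply, Pi.mul_apply]
      exact Finset.measurable_sum _ fun i hi =>
        ((ih i (mem_range.1 hi)).1 k).mul ((ih (j - i) (by omega)).2 k)
    simp only [tg_succ]
    exact ⟨fun k => (hQ.mv hy k).neg, hy.sub (hQ.mv hy)⟩

theorem measurable_Ph {α : Type*} [MeasurableSpace α] {Af : α → Fin m → Fin n → ℝ}
    {xf : α → Fin n → ℝ} (p : ℕ) (b : Fin m → ℝ) (hA : Measurable Af) (hx : Measurable xf) :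
    Measurable fun a => Ph p (Matrix.of (Af a)) b (xf a) := by
  have h := tg_meas (mm_sc b (MM.of hA) (MV.of hx)).proj (MV.of (measurable_qv b hA hx))
  unfold Ph Phi
  exact Finset.measurable_sum _ fun j _ => ((h j).1.meas.norm.add (h j).2.meas.norm).pow_const _

theorem Ph_rot {A : Matrix (Fin m) (Fin n) ℝ} {b : Fin m → ℝ} {O : Matrix (Fin n) (Fin n) ℝ}
    (hO : Orth O) (p : ℕ) (x : Fin n → ℝ) : Ph p (A * O) b (Oᵀ *ᵥ x) = Ph p A b x := by
  rw [Ph, Inv_sc hO, proj_rot hO, qv_rot hO, Ph]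

theorem Ph_crude {A : Matrix (Fin m) (Fin n) ℝ} {b : Fin m → ℝ} (hm : 0 < m)
    (h : Good A (44 / 100)) (hb : Box b) {x : Fin n → ℝ} (hx : Inter A b x) (p : ℕ) :
    Ph p A b x ≤ 4800 * p * √m := by
  have h1 : nrm (vz A b x) ≤ nrm (A *ᵥ x) := nrm_mono fun j => by
    rw [vz, abs_div, abs_of_nonneg (zero_le_one.trans (hb j).1)]
    exact div_le_self (abs_nonneg _) (hb j).1
  have h2 := mul_le_mul_of_nonneg_left (h.rad hm hb (g1_feas hx))
    (by positivity : 0 ≤ 8 * √(m : ℝ))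
  have h3 := (isProj_proj (sc A b x)).nrm_le (vz A b x)
  have h5 := h.op x
  rw [← qv] at h3
  have h6 : nrm (qv A b x) ≤ 1200 * √m := by linarith only [h1, h2, h3, h5]
  refine (Phi_crude (isProj_proj _) p _).trans
    ((mul_le_mul_of_nonneg_left h6 (by positivity)).trans_eq (by ring))

end Pool.Agent.Work.MP_6af739_lc.HO
end

-- merged part: Pool.Agent.Work.MP_6af739_lc.HO.TMom
section
/-!
Moments of the majorant (T3). Induction on τ. q = qq Q0 w = 2 j with j = 2 (Q0/w + 1) ≤ 2 (Q0 + 1). For a node with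
weights wa + wb + 1 = w: nin/K^(w-1) = x y with x = nt l/K^wa, y = nt r/K^wb; young3 applies since
4 Q0 ≤ wa * qq Q0 wa (Nat.lt_div_mul_add or Nat.lt_mul_div_succ), qq Q0 w ≤ 4 (Q0/w + 1) and w (w - 1) ≤ Q0; qq is antitone in
the weight, so the hypotheses pass to subtrees. Hence av (nin/K^(w-1))^q ≤ 3 ≤ 2^q (leaf: it is 1), av (3 nin)^q ≤ g^q,
g = 6 K^(w-1). For F = val i/√Q_ii: av F = 0 (val_ng, av_ng), gam F ≤ (3 nin)^2 (row_del_le; F = 0 if Q_ii = 0), moment gives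
av F^q ≤ 2 (4 j^2 g)^q. ap^q ≤ sum_i F_i^q (q even; the sup norm is attained or m = 0), nt^q ≤ 2^q (ap^q + (3 nin)^q),
2 m + 1 ≤ 3 m or m = 0, 3 m ≤ 2^q, 96 j^2 ≤ K.
-/

namespace Pool.Agent.Work.MP_6af739_lc.HO

open Matrix Finset MeasureTheory ProbabilityTheory
open Pool.Agent.Work.MP_6a50bc_pr
open Pool.Agent.Work.MP_5c5849_an (sg av av_add av_const_mul av_const av_mono av_sum)
open scoped ENNReal Polynomial

variable {m : ℕ} {P : Matrix (Fin m) (Fin m) ℝ} {cv : Fin 4 → Fin m → ℝ} {ψ : Fin m → ℝ} {Y : ℝ}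

theorem tmom_ap_pow (τ : Tr) (d : Fin m → Fin 2) {j : ℕ} (hj : 1 ≤ j) :
    ap P cv τ d ^ (2 * j) ≤ ∑ i, (val P cv τ d i / √(qm P τ.root i i)) ^ (2 * j) := by
  have h0 : ∀ i, 0 ≤ (val P cv τ d i / √(qm P τ.root i i)) ^ (2 * j) := fun i =>
    (even_two_mul j).pow_nonneg _
  rcases isEmpty_or_nonempty (Fin m) with hm | hm
  · have : ap P cv τ d = 0 := by
      unfold ap
      rw [norm_eq_zero]
      exact Subsingleton.elim _ _
    rw [this, zero_pow (by omega)]
    exact sum_nonneg fun i _ => h0 i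
  · obtain ⟨i, hi⟩ := Finite.exists_max fun i => |val P cv τ d i / √(qm P τ.root i i)|
    have h1 : ap P cv τ d ≤ |val P cv τ d i / √(qm P τ.root i i)| :=
      (pi_norm_le_iff_of_nonneg (abs_nonneg _)).2 hi
    calc ap P cv τ d ^ (2 * j) ≤ |val P cv τ d i / √(qm P τ.root i i)| ^ (2 * j) :=
          pow_le_pow_left₀ (ap_nonneg τ d) h1 _
      _ = (val P cv τ d i / √(qm P τ.root i i)) ^ (2 * j) := (even_two_mul j).pow_abs _
      _ ≤ _ := single_le_sum (f := fun i => (val P cv τ d i / √(qm P τ.root i i)) ^ (2 * j))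
          (fun i _ => h0 i) (mem_univ i)

theorem tmom_gam (h : CH P cv ψ Y) (τ : Tr) (i : Fin m) (d : Fin m → Fin 2) :
    gam (fun d => val P cv τ d i / √(qm P τ.root i i)) d ≤ (3 * nin P cv τ d) ^ 2 := by
  have h1 := row_del_le h τ d i
  have h2 : gam (fun d => val P cv τ d i / √(qm P τ.root i i)) d =
      (nrm (del (val P cv τ) d i) / √(qm P τ.root i i)) ^ 2 := by
    rw [div_pow, nrm_sq, gam, dotProduct, sum_div]
    refine sum_congr rfl fun k _ => ?_
    rw [← sub_div, div_pow, sq (val P cv τ d i - _)]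
    rfl
  have h3 := one_le_nin (P := P) (cv := cv) τ d
  rw [h2]
  refine pow_le_pow_left₀ (div_nonneg (nrm_nonneg _) (Real.sqrt_nonneg _)) ?_ 2
  exact div_le_of_le_mul₀ (Real.sqrt_nonneg _) (by linarith) (by rw [mul_comm]; exact h1)

theorem tmom_av0 (τ : Tr) (i : Fin m) :
    av (fun d => val P cv τ d i / √(qm P τ.root i i)) = 0 := by
  have h1 := av_ng fun d => val P cv τ d i / √(qm P τ.root i i)
  have h2 : (fun d => val P cv τ (ng d) i / √(qm P τ.root i i)) =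
      fun d => (-1) * (val P cv τ d i / √(qm P τ.root i i)) := by
    funext d
    rw [val_ng, Pi.neg_apply]
    ring
  rw [h2, av_const_mul] at h1
  linarith

theorem tmom_add_pow {a b : ℝ} (ha : 0 ≤ a) (hb : 0 ≤ b) (q : ℕ) :
    (a + b) ^ q ≤ 2 ^ q * (a ^ q + b ^ q) := by
  have ha' := pow_nonneg ha q
  have hb' := pow_nonneg hb q
  have h2 : (0 : ℝ) ≤ 2 ^ q := by positivity
  rcases le_total a b with h | h
  · calc (a + b) ^ q ≤ (2 * b) ^ q := pow_le_pow_left₀ (by linarith) (by linarith) q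
      _ ≤ _ := by rw [mul_pow]; exact mul_le_mul_of_nonneg_left (by linarith) h2
  · calc (a + b) ^ q ≤ (2 * a) ^ q := pow_le_pow_left₀ (by linarith) (by linarith) q
      _ ≤ _ := by rw [mul_pow]; exact mul_le_mul_of_nonneg_left (by linarith) h2

theorem tmom_step (h : CH P cv ψ Y) (τ : Tr) {G K : ℝ} (hG : 0 < G) {j : ℕ} (hj : 1 ≤ j)
    (hK : 96 * (j : ℝ) ^ 2 ≤ K) (hm : 3 * m ≤ 2 ^ (2 * j))
    (H : av (fun d => (nin P cv τ d / G) ^ (2 * j)) ≤ 3) :
    av (fun d => (nt P cv τ d / (G * K)) ^ (2 * j)) ≤ 1 := by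
  have hj1 : (1 : ℝ) ≤ j := by exact_mod_cast hj
  have hK0 : 0 < K := by nlinarith
  have h4 : (3 : ℝ) ≤ 2 ^ (2 * j) := by
    calc (3 : ℝ) ≤ 2 ^ 2 := by norm_num
      _ ≤ _ := pow_le_pow_right₀ (by norm_num) (by omega)
  have h1 : av (fun d => (3 * nin P cv τ d) ^ (2 * j)) ≤ (6 * G) ^ (2 * j) := by
    have e : (fun d => (3 * nin P cv τ d) ^ (2 * j)) =
        fun d => (3 * G) ^ (2 * j) * (nin P cv τ d / G) ^ (2 * j) := by
      funext d
      rw [← mul_pow]
      congr 1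
      field_simp
    rw [e, av_const_mul, show 6 * G = 3 * G * 2 by ring, mul_pow (3 * G)]
    exact mul_le_mul_of_nonneg_left (H.trans h4) (by positivity)
  have h2 : ∀ i, av (fun d => (val P cv τ d i / √(qm P τ.root i i)) ^ (2 * j)) ≤
      2 * (4 * j ^ 2 * (6 * G)) ^ (2 * j) := fun i => by
    have := moment (fun d => val P cv τ d i / √(qm P τ.root i i)) (g := 6 * G) (by positivity) hj
      ((av_mono fun d => by
        rw [pow_mul]
        exact pow_le_pow_left₀ (gam_nonneg _ _) (tmom_gam h τ i d) j).trans h1)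
    simpa only [tmom_av0, sub_zero] using this
  have h3 : av (fun d => ap P cv τ d ^ (2 * j)) ≤
      m * (2 * (4 * j ^ 2 * (6 * G)) ^ (2 * j)) := by
    refine (av_mono fun d => tmom_ap_pow τ d hj).trans ?_
    rw [av_sum]
    refine (sum_le_sum fun i _ => h2 i).trans ?_
    rw [sum_const, card_univ, Fintype.card_fin, nsmul_eq_mul]
  have h5 : (6 * G) ^ (2 * j) ≤ (4 * j ^ 2 * (6 * G)) ^ (2 * j) :=
    pow_le_pow_left₀ (by positivity) (le_mul_of_one_le_left (by positivity) (by nlinarith)) _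
  have h6 : 2 * (m : ℝ) + 1 ≤ 2 ^ (2 * j) := by
    rcases Nat.eq_zero_or_pos m with e | e
    · have : (m : ℝ) = 0 := by exact_mod_cast e
      linarith
    · have e1 : (1 : ℝ) ≤ m := by exact_mod_cast e
      have e2 : 3 * (m : ℝ) ≤ 2 ^ (2 * j) := by exact_mod_cast hm
      linarith
  have h7 : av (fun d => nt P cv τ d ^ (2 * j)) ≤ (G * K) ^ (2 * j) := by
    have hT : (0 : ℝ) ≤ (4 * j ^ 2 * (6 * G)) ^ (2 * j) := by positivity
    have h20 : (0 : ℝ) ≤ 2 ^ (2 * j) := by positivity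
    calc av (fun d => nt P cv τ d ^ (2 * j))
        ≤ av (fun d => 2 ^ (2 * j) * (ap P cv τ d ^ (2 * j) + (3 * nin P cv τ d) ^ (2 * j))) :=
          av_mono fun d => by
            have := one_le_nin (P := P) (cv := cv) τ d
            rw [nt_eq]
            exact tmom_add_pow (ap_nonneg τ d) (by linarith) _
      _ ≤ 2 ^ (2 * j) * (2 ^ (2 * j) * (4 * j ^ 2 * (6 * G)) ^ (2 * j)) := by
          rw [av_const_mul, av_add]
          refine mul_le_mul_of_nonneg_left ?_ h20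
          have := mul_le_mul_of_nonneg_right h6 hT
          linarith
      _ = (G * (96 * j ^ 2)) ^ (2 * j) := by
          rw [← mul_pow, ← mul_pow]
          congr 1
          ring
      _ ≤ _ := pow_le_pow_left₀ (by positivity) (mul_le_mul_of_nonneg_left hK hG.le) _
  have e : (fun d => (nt P cv τ d / (G * K)) ^ (2 * j)) =
      fun d => ((G * K) ^ (2 * j))⁻¹ * nt P cv τ d ^ (2 * j) := by
    funext d
    rw [div_pow, div_eq_inv_mul]
  rw [e, av_const_mul, inv_mul_le_iff₀ (by positivity), mul_one]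
  exact h7

theorem tmom_hold {Q a b : ℕ} (ha : 0 < a) (hb : 0 < b) (h : (a + b + 1) ^ 2 ≤ Q) :
    (qq Q (a + b + 1) : ℝ) / qq Q a + (qq Q (a + b + 1) : ℝ) / qq Q b ≤ 1 := by
  have hQ : 0 < Q := lt_of_lt_of_le (by positivity) h
  have k : ∀ {x : ℕ}, 0 < x → ∀ c : ℝ, 0 ≤ c → c / qq Q x ≤ c * x / (4 * Q) := fun {x} hx c hc => by
    have h1 : Q ≤ x * (Q / x + 1) := (Nat.lt_mul_div_succ Q hx).le
    have h2 : (4 * Q : ℝ) ≤ x * qq Q x := by
      have : 4 * Q ≤ x * qq Q x := by unfold qq; nlinarith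
      exact_mod_cast this
    have h3 : (0 : ℝ) < qq Q x := by unfold qq; positivity
    rw [div_le_div_iff₀ h3 (by positivity), mul_assoc]
    exact mul_le_mul_of_nonneg_left h2 hc
  have h1 : qq Q (a + b + 1) * (a + b) ≤ 4 * Q := by
    have h2 : (a + b + 1) * (Q / (a + b + 1)) ≤ Q := Nat.mul_div_le _ _
    have h3 : a + b ≤ Q / (a + b + 1) := (Nat.le_div_iff_mul_le (by omega)).2 (by nlinarith)
    unfold qq
    nlinarith
  have h2 : (qq Q (a + b + 1) : ℝ) * (a + b) ≤ 4 * Q := by exact_mod_cast h1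
  refine (add_le_add (k ha _ (Nat.cast_nonneg _)) (k hb _ (Nat.cast_nonneg _))).trans ?_
  rw [← add_div, ← mul_add, div_le_one (by positivity)]
  exact h2

theorem nt_moment (h : CH P cv ψ Y) {Q0 : ℕ} {K : ℝ} (hK : 384 * ((Q0 : ℝ) + 1) ^ 2 ≤ K) (τ : Tr)
    (hw : τ.wt ^ 2 ≤ Q0) (hm : 3 * m ≤ 2 ^ qq Q0 τ.wt) :
    av (fun d => (nt P cv τ d / K ^ τ.wt) ^ qq Q0 τ.wt) ≤ 1 := by
  have hK0 : 0 < K := lt_of_lt_of_le (by positivity) hK
  have hj : ∀ w : ℕ, 96 * ((2 * (Q0 / w + 1) : ℕ) : ℝ) ^ 2 ≤ K := fun w => by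
    have h1 : ((Q0 / w : ℕ) : ℝ) ≤ Q0 := by exact_mod_cast Nat.div_le_self _ _
    have h2 : (0 : ℝ) ≤ ((Q0 / w : ℕ) : ℝ) := Nat.cast_nonneg _
    rw [Nat.cast_mul, Nat.cast_add, Nat.cast_one, Nat.cast_two]
    nlinarith
  have hq : ∀ w : ℕ, qq Q0 w = 2 * (2 * (Q0 / w + 1)) := fun w => by unfold qq; ring
  have hp : ∀ w : ℕ, 1 ≤ 2 * (Q0 / w + 1) := fun w => Nat.mul_pos two_pos (Nat.succ_pos _)
  have hp' : ∀ w : ℕ, 0 < qq Q0 w := fun w => Nat.mul_pos four_pos (Nat.succ_pos _)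
  induction τ with
  | leaf i =>
    rw [hq] at hm ⊢
    have := tmom_step h (.leaf i) one_pos (hp _) (hj (Tr.leaf i).wt) hm (by
      simp only [nin, div_one, one_pow, av_const]
      norm_num)
    simpa only [one_mul, Tr.wt, Tr.nodes, mul_zero, zero_add, pow_one] using this
  | node s l r ihl ihr =>
    have e : (Tr.node s l r).wt = l.wt + r.wt + 1 := by
      simp only [Tr.wt, Tr.nodes]
      ring
    have hl : 0 < l.wt := Nat.succ_pos _
    have hr : 0 < r.wt := Nat.succ_pos _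
    have sub : ∀ x : ℕ, 0 < x → x ≤ (Tr.node s l r).wt →
        x ^ 2 ≤ Q0 ∧ 3 * m ≤ 2 ^ qq Q0 x := fun x h0 hx =>
      ⟨(Nat.pow_le_pow_left hx 2).trans hw, hm.trans (Nat.pow_le_pow_right (by norm_num)
        (Nat.mul_le_mul_left 4 (Nat.succ_le_succ (Nat.div_le_div_left hx h0))))⟩
    have il := ihl (sub _ hl (by omega)).1 (sub _ hl (by omega)).2
    have ir := ihr (sub _ hr (by omega)).1 (sub _ hr (by omega)).2
    have n0 : ∀ (σ : Tr) d, 0 ≤ nt P cv σ d / K ^ σ.wt := fun σ d => by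
      have h1 := one_le_nin (P := P) (cv := cv) σ d
      have h2 := ap_nonneg (P := P) (cv := cv) σ d
      rw [nt_eq]
      exact div_nonneg (by linarith) (by positivity)
    have H : av (fun d => (nin P cv (.node s l r) d / (K ^ l.wt * K ^ r.wt)) ^
        qq Q0 (Tr.node s l r).wt) ≤ 3 := by
      refine (av_mono (g := fun d => 1 + (nt P cv l d / K ^ l.wt) ^ qq Q0 l.wt +
        (nt P cv r d / K ^ r.wt) ^ qq Q0 r.wt) fun d => ?_).trans ?_
      · rw [nin, mul_div_mul_comm, e]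
        exact young3 (n0 l d) (n0 r d) (hp' _) (hp' _)
          (tmom_hold hl hr (e ▸ hw))
      · rw [av_add, av_add, av_const]
        linarith
    rw [hq] at hm H ⊢
    have := tmom_step h (.node s l r) (by positivity) (hp _) (hj _) hm H
    rwa [← pow_add, ← pow_succ, ← e] at this

end Pool.Agent.Work.MP_6af739_lc.HO
end

-- merged part: Pool.Agent.Work.MP_6af739_lc.HO.FMom
section
/-!
The scalar F (T4). hh d = (1 - P) (sg d * ψ), Mp = mpsi P ψ. gam_ff: F d - F (fl k d) = ((del val)ᵀ (D ψ))_k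
+ 2 d_k ψ_k val (fl k d) k; (del val)ᵀ (D ψ) = zmᵀ D hh (del_val) has nrm ≤ 3 nin nrm hh (opn_zm_le, opn_transpose); the second
vector has nrm ≤ 2 √Mp nt (abs_val_fl); 3 nin ≤ nt. H = nrm hh/√Mp: |H d - H (fl k d)| ≤ 2 √(1-P_kk) |ψ_k|/√Mp so gam H ≤ 4,
av H^2 = 1 (av_bil, flip), av H ≤ 1; moment with g = 2. With q = qq = 2 j, j = 2 j', j' = Q0/w + 1:
av ((H + 2)/K)^q ≤ 1 (H + 2 ≤ 3 + |H - av H|, 32 j^2 ≤ K), gam F^j' ≤ (√Mp K^(w+1))^j (x y)^j, x = nt/K^w, y = (H+2)/K,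
(x y)^j ≤ (x^q + y^q)/2. moment at j' and av_tail with t = 16 j'^2 √Mp K^(w+1) ≤ √Mp K^(w+2): probability ≤ 2/4^j ≤ 1/2^j.
mean: av (d_i val_i) = av (d_i del_ii)/2 (av_fl, sg_fl), abs_del_diag, 3 nin ≤ nt, av (nt/K^w) ≤ 2 (x ≤ 1 + x^q), w ≤ K.
-/

namespace Pool.Agent.Work.MP_6af739_lc.HO

open Matrix Finset MeasureTheory ProbabilityTheory
open Pool.Agent.Work.MP_6a50bc_pr
open Pool.Agent.Work.MP_5c5849_an (sg av)
open scoped ENNReal Polynomial

variable {m : ℕ} {P : Matrix (Fin m) (Fin m) ℝ} {cv : Fin 4 → Fin m → ℝ} {ψ : Fin m → ℝ} {Y : ℝ}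

theorem fmom_three_nin (τ : Tr) (d : Fin m → Fin 2) : 3 * nin P cv τ d ≤ nt P cv τ d := by
  rw [nt_eq]
  linarith [ap_nonneg (P := P) (cv := cv) τ d]

theorem fmom_nt_nonneg (τ : Tr) (d : Fin m → Fin 2) : 0 ≤ nt P cv τ d := by
  linarith [fmom_three_nin (P := P) (cv := cv) τ d, one_le_nin (P := P) (cv := cv) τ d]

theorem fmom_gam_eq (F : (Fin m → Fin 2) → ℝ) (d : Fin m → Fin 2) :
    gam F d = nrm (fun k => F d - F (fl k d)) ^ 2 := by
  rw [nrm_sq, gam, dotProduct]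
  exact sum_congr rfl fun k _ => sq _

theorem fmom_nrm_sg (d : Fin m → Fin 2) (v : Fin m → ℝ) : nrm (diagonal (sg d) *ᵥ v) = nrm v := by
  unfold nrm
  congr 1
  unfold dotProduct
  refine sum_congr rfl fun k _ => ?_
  rw [mulVec_diagonal]
  have := Pool.Agent.Work.MP_5c5849_an.sg_sq d k
  calc sg d k * v k * (sg d k * v k) = (sg d k * sg d k) * (v k * v k) := by ring
    _ = v k * v k := by rw [this, one_mul]

theorem fmom_qm {τ : Tr} (hr : τ.root = false) : qm P τ.root = 1 - P := by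
  rw [hr]
  rfl

theorem fmom_diff (τ : Tr) (d : Fin m → Fin 2) (k : Fin m) :
    ff P cv ψ τ d - ff P cv ψ τ (fl k d) =
      ((del (val P cv τ) d)ᵀ *ᵥ (sg d * ψ)) k + 2 * (sg d k * ψ k) * val P cv τ (fl k d) k := by
  have e : 2 * (sg d k * ψ k) * val P cv τ (fl k d) k =
      ∑ i, if i = k then 2 * (sg d i * ψ i) * val P cv τ (fl k d) i else 0 := by
    rw [sum_ite_eq']
    simp
  rw [e, ff, ff, dotProduct, dotProduct, mulVec, dotProduct, ← sum_sub_distrib, ← sum_add_distrib]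
  refine sum_congr rfl fun i _ => ?_
  simp only [Pi.mul_apply, transpose_apply, del, of_apply, sg_fl]
  split_ifs <;> ring

theorem fmom_mpsi_nonneg (h : CH P cv ψ Y) : 0 < √(mpsi P ψ) := Real.sqrt_pos.2 h.pos

theorem gam_ff (h : CH P cv ψ Y) {τ : Tr} (hτ : τ.pure) (hr : τ.root = false) (d : Fin m → Fin 2) :
    gam (ff P cv ψ τ) d ≤
      (nt P cv τ d * (nrm ((1 - P) *ᵥ (sg d * ψ)) + 2 * √(mpsi P ψ))) ^ 2 := by
  have hN := fmom_nt_nonneg (P := P) (cv := cv) τ d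
  have hM := fmom_mpsi_nonneg h
  rw [fmom_gam_eq]
  refine pow_le_pow_left₀ (nrm_nonneg _) ?_ 2
  have e : (fun k => ff P cv ψ τ d - ff P cv ψ τ (fl k d)) =
      (del (val P cv τ) d)ᵀ *ᵥ (sg d * ψ) +
        fun k => 2 * (sg d k * ψ k) * val P cv τ (fl k d) k := by
    funext k
    exact fmom_diff τ d k
  rw [e]
  refine (nrm_add_le _ _).trans ?_
  have h1 : nrm ((del (val P cv τ) d)ᵀ *ᵥ (sg d * ψ)) ≤
      nt P cv τ d * nrm ((1 - P) *ᵥ (sg d * ψ)) := by
    rw [del_val, fmom_qm hr, transpose_mul, transpose_mul, h.proj.one_sub.symm, diagonal_transpose,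
      ← mulVec_mulVec, ← mulVec_mulVec]
    refine (nrm_mulVec_le _ _).trans ?_
    rw [opn_transpose, fmom_nrm_sg]
    exact mul_le_mul_of_nonneg_right ((opn_zm_le h hτ d).trans (fmom_three_nin τ d)) (nrm_nonneg _)
  have h2 : nrm (fun k => 2 * (sg d k * ψ k) * val P cv τ (fl k d) k) ≤
      nt P cv τ d * (2 * √(mpsi P ψ)) := by
    rw [nrm_le_iff (mul_nonneg hN (by linarith)), mul_pow, mul_pow, Real.sq_sqrt h.pos.le, mpsi,
      mul_sum, mul_sum, dotProduct]
    refine sum_le_sum fun k _ => ?_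
    have a1 := abs_val_fl h τ d k k
    rw [fmom_qm hr] at a1
    have a0 : 0 ≤ (1 - P) k k := h.proj.one_sub.diag_nonneg k
    have a2 : val P cv τ (fl k d) k ^ 2 ≤ (1 - P k k) * nt P cv τ d ^ 2 := by
      have := pow_le_pow_left₀ (abs_nonneg _) a1 2
      rw [sq_abs, mul_pow, Real.sq_sqrt a0] at this
      simpa using this
    have a3 := Pool.Agent.Work.MP_5c5849_an.sg_sq d k
    calc 2 * (sg d k * ψ k) * val P cv τ (fl k d) k * (2 * (sg d k * ψ k) * val P cv τ (fl k d) k)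
        = 4 * ψ k ^ 2 * val P cv τ (fl k d) k ^ 2 * (sg d k * sg d k) := by ring
      _ = 4 * ψ k ^ 2 * val P cv τ (fl k d) k ^ 2 := by rw [a3, mul_one]
      _ ≤ 4 * ψ k ^ 2 * ((1 - P k k) * nt P cv τ d ^ 2) :=
          mul_le_mul_of_nonneg_left a2 (mul_nonneg (by norm_num) (sq_nonneg _))
      _ = nt P cv τ d ^ 2 * (2 ^ 2 * ((1 - P k k) * ψ k ^ 2)) := by ring
  linarith [mul_add (nt P cv τ d) (nrm ((1 - P) *ᵥ (sg d * ψ))) (2 * √(mpsi P ψ))]

theorem fmom_gam_hh (h : CH P cv ψ Y) (d : Fin m → Fin 2) :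
    gam (fun d => nrm ((1 - P) *ᵥ (sg d * ψ)) / √(mpsi P ψ)) d ≤ 4 := by
  have hQ := h.proj.one_sub
  have hM := fmom_mpsi_nonneg h
  have key : ∀ k, (nrm ((1 - P) *ᵥ (sg d * ψ)) / √(mpsi P ψ) -
      nrm ((1 - P) *ᵥ (sg (fl k d) * ψ)) / √(mpsi P ψ)) ^ 2 ≤
        4 * ((1 - P k k) * ψ k ^ 2) / mpsi P ψ := by
    intro k
    rw [← sub_div, div_pow, Real.sq_sqrt h.pos.le]
    refine div_le_div_of_nonneg_right ?_ h.pos.le
    have a1 := abs_nrm_sub_le ((1 - P) *ᵥ (sg d * ψ)) ((1 - P) *ᵥ (sg (fl k d) * ψ))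
    have a2 := pow_le_pow_left₀ (abs_nonneg _) a1 2
    rw [sq_abs, ← mulVec_sub, nrm_sq, ← hQ.dot_eq] at a2
    refine a2.trans (le_of_eq ?_)
    have e : sg d * ψ - sg (fl k d) * ψ = Pi.single k (2 * (sg d k * ψ k)) := by
      funext i
      by_cases hi : i = k
      · subst hi
        simp only [Pi.sub_apply, Pi.mul_apply, sg_fl, if_true, Pi.single_eq_same]
        ring
      · simp only [Pi.sub_apply, Pi.mul_apply, sg_fl, if_neg hi, Pi.single_eq_of_ne hi, sub_self]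
    have a3 := Pool.Agent.Work.MP_5c5849_an.sg_sq d k
    rw [e, single_dotProduct, mulVec, dotProduct_single]
    have a4 : (1 - P) k k = 1 - P k k := by simp
    rw [a4]
    calc 2 * (sg d k * ψ k) * ((1 - P k k) * (2 * (sg d k * ψ k)))
        = 4 * ((1 - P k k) * ψ k ^ 2) * (sg d k * sg d k) := by ring
      _ = 4 * ((1 - P k k) * ψ k ^ 2) := by rw [a3, mul_one]
  refine (sum_le_sum fun k _ => key k).trans (le_of_eq ?_)
  rw [← sum_div, ← mul_sum]
  exact mul_div_cancel_right₀ _ h.pos.ne'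

theorem fmom_av_hh (h : CH P cv ψ Y) :
    av (fun d => nrm ((1 - P) *ᵥ (sg d * ψ)) / √(mpsi P ψ)) ≤ 1 := by
  have hQ := h.proj.one_sub
  refine Pool.Agent.Work.MP_5c5849_an.av_le_of_sq _ zero_le_one (le_of_eq ?_)
  have e : (fun d : Fin m → Fin 2 => (nrm ((1 - P) *ᵥ (sg d * ψ)) / √(mpsi P ψ)) ^ 2) =
      fun d => (ψ ⬝ᵥ flip d (1 - P) *ᵥ ψ) * (mpsi P ψ)⁻¹ := by
    funext d
    rw [div_pow, Real.sq_sqrt h.pos.le, nrm_sq, ← hQ.dot_eq, div_eq_mul_inv]
    congr 1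
    simp only [dotProduct, mulVec, flip_apply, Pi.mul_apply, mul_sum]
    exact sum_congr rfl fun i _ => sum_congr rfl fun k _ => by ring
  rw [e, Pool.Agent.Work.MP_5c5849_an.av_mul_const, av_bil]
  have e2 : ∑ k, (1 - P) k k * (ψ k * ψ k) = mpsi P ψ := by
    rw [mpsi]
    exact sum_congr rfl fun k _ => by simp [sq]
  rw [e2, mul_inv_cancel₀ h.pos.ne', one_pow]

theorem fmom_add_pow {a b : ℝ} (ha : 0 ≤ a) (hb : 0 ≤ b) (n : ℕ) :
    (a + b) ^ n ≤ 2 ^ n * (a ^ n + b ^ n) := by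
  have h2 : (0 : ℝ) ≤ 2 ^ n := by positivity
  rcases le_total a b with hab | hab
  · calc (a + b) ^ n ≤ (2 * b) ^ n := pow_le_pow_left₀ (add_nonneg ha hb) (by linarith) n
      _ = 2 ^ n * b ^ n := mul_pow _ _ _
      _ ≤ _ := mul_le_mul_of_nonneg_left (by linarith [pow_nonneg ha n]) h2
  · calc (a + b) ^ n ≤ (2 * a) ^ n := pow_le_pow_left₀ (add_nonneg ha hb) (by linarith) n
      _ = 2 ^ n * a ^ n := mul_pow _ _ _
      _ ≤ _ := mul_le_mul_of_nonneg_left (by linarith [pow_nonneg hb n]) h2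

theorem hh_moment (h : CH P cv ψ Y) {j : ℕ} (hj : 1 ≤ j) {K : ℝ} (hK : 32 * (j : ℝ) ^ 2 ≤ K) :
    av (fun d => ((nrm ((1 - P) *ᵥ (sg d * ψ)) / √(mpsi P ψ) + 2) / K) ^ (2 * j)) ≤ 1 := by
  obtain ⟨H, hH⟩ : ∃ H : (Fin m → Fin 2) → ℝ,
    H = fun d => nrm ((1 - P) *ᵥ (sg d * ψ)) / √(mpsi P ψ) := ⟨_, rfl⟩
  have g4 : ∀ d, gam H d ≤ 4 := by rw [hH]; exact fmom_gam_hh h
  have a1 : av H ≤ 1 := by rw [hH]; exact fmom_av_hh h
  have H0 : ∀ d, 0 ≤ H d := by
    rw [hH]; exact fun d => div_nonneg (nrm_nonneg _) (Real.sqrt_nonneg _)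
  have e : (fun d : Fin m → Fin 2 =>
      ((nrm ((1 - P) *ᵥ (sg d * ψ)) / √(mpsi P ψ) + 2) / K) ^ (2 * j)) =
      fun d => ((H d + 2) / K) ^ (2 * j) := by rw [hH]
  rw [e]
  have hj' : (1 : ℝ) ≤ j := by exact_mod_cast hj
  have hj2 : (1 : ℝ) ≤ (j : ℝ) ^ 2 := one_le_pow₀ hj'
  have hmo := moment H (g := 2) (by norm_num) hj (by
    refine (Pool.Agent.Work.MP_5c5849_an.av_mono (g := fun _ => (2 : ℝ) ^ (2 * j)) fun d => ?_).trans
      (Pool.Agent.Work.MP_5c5849_an.av_const _).le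
    rw [pow_mul]
    exact pow_le_pow_left₀ (gam_nonneg _ _) (by linarith [g4 d]) j)
  obtain ⟨c, hc⟩ : ∃ c : ℝ, c = 4 * (j : ℝ) ^ 2 * 2 := ⟨_, rfl⟩
  rw [← hc] at hmo
  have c3 : 3 ≤ c := by rw [hc]; linarith
  have cK : 4 * c ≤ K := by rw [hc]; linarith
  have K0 : 0 < K := by linarith
  have hp : ∀ d, ((H d + 2) / K) ^ (2 * j) ≤
      (2 ^ (2 * j) / K ^ (2 * j)) * ((H d - av H) ^ (2 * j) + c ^ (2 * j)) := by
    intro d
    rw [div_pow, div_mul_eq_mul_div]
    refine div_le_div_of_nonneg_right ?_ (pow_pos K0 _).le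
    have b1 : H d + 2 ≤ |H d - av H| + c := by linarith [le_abs_self (H d - av H)]
    refine (pow_le_pow_left₀ (by linarith [H0 d]) b1 _).trans ?_
    refine (fmom_add_pow (abs_nonneg _) (by linarith) _).trans (le_of_eq ?_)
    rw [(even_two_mul j).pow_abs]
  refine (Pool.Agent.Work.MP_5c5849_an.av_mono hp).trans ?_
  rw [Pool.Agent.Work.MP_5c5849_an.av_const_mul, Pool.Agent.Work.MP_5c5849_an.av_add,
    Pool.Agent.Work.MP_5c5849_an.av_const, div_mul_eq_mul_div, div_le_one (pow_pos K0 _)]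
  have b2 : (4 * c) ^ (2 * j) ≤ K ^ (2 * j) := pow_le_pow_left₀ (by linarith) cK _
  have b3 : (4 * c) ^ (2 * j) = 2 ^ (2 * j) * (2 ^ (2 * j) * c ^ (2 * j)) := by
    rw [← mul_pow, ← mul_pow]
    congr 1
    ring
  have b4 : (2 : ℝ) ^ 2 ≤ 2 ^ (2 * j) := pow_le_pow_right₀ (by norm_num) (by omega)
  have b5 : 0 ≤ c ^ (2 * j) := pow_nonneg (by linarith) _
  have b6 : 2 ^ 2 * c ^ (2 * j) ≤ 2 ^ (2 * j) * c ^ (2 * j) := mul_le_mul_of_nonneg_right b4 b5
  refine le_trans ?_ b2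
  rw [b3]
  exact mul_le_mul_of_nonneg_left (by linarith) (by linarith)

theorem fmom_abs_av (f g : (Fin m → Fin 2) → ℝ) (h : ∀ d, |f d| ≤ g d) : |av f| ≤ av g := by
  refine abs_le.2 ⟨?_, Pool.Agent.Work.MP_5c5849_an.av_mono fun d => (abs_le.1 (h d)).2⟩
  have h1 : av (fun d => -1 * g d) ≤ av f :=
    Pool.Agent.Work.MP_5c5849_an.av_mono fun d => by linarith [(abs_le.1 (h d)).1]
  rw [Pool.Agent.Work.MP_5c5849_an.av_const_mul] at h1
  linarith

theorem fmom_wt_pos (τ : Tr) : 1 ≤ τ.wt := by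
  unfold Tr.wt
  omega

theorem abs_av_ff (h : CH P cv ψ Y) {τ : Tr} (hτ : τ.pure) (hr : τ.root = false) :
    |av (ff P cv ψ τ)| ≤ nut P ψ * (τ.wt / 2 * av (nt P cv τ)) := by
  have hw : (1 : ℝ) ≤ τ.wt := by exact_mod_cast fmom_wt_pos τ
  have key : ∀ i, |av (fun d => sg d i * val P cv τ d i)| ≤
      (1 - P i i) * (τ.wt / 2 * av (nt P cv τ)) := by
    intro i
    have a1 := av_fl i (fun d => sg d i * val P cv τ d i)
    have a2 : av (fun d => sg d i * del (val P cv τ) d i i) =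
        2 * av (fun d => sg d i * val P cv τ d i) := by
      rw [two_mul]
      nth_rewrite 2 [← a1]
      rw [← Pool.Agent.Work.MP_5c5849_an.av_add]
      congr 1
      funext d
      simp only [del, of_apply, sg_fl, if_true]
      ring
    have p0 : 0 ≤ 1 - P i i := by linarith [h.proj.diag_le_one i]
    have a3 : |av (fun d => sg d i * del (val P cv τ) d i i)| ≤
        av (fun d => ((1 - P i i) * τ.wt) * nt P cv τ d) := by
      refine fmom_abs_av _ _ fun d => ?_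
      rw [abs_mul, Pool.Agent.Work.MP_5c5849_an.abs_sg, one_mul, mul_assoc]
      refine (abs_del_diag h hτ hr d i).trans (mul_le_mul_of_nonneg_left ?_ p0)
      have b1 := fmom_three_nin (P := P) (cv := cv) τ d
      have b2 := one_le_nin (P := P) (cv := cv) τ d
      calc ((τ.wt : ℝ) + 2) * nin P cv τ d ≤ (3 * τ.wt) * nin P cv τ d :=
            mul_le_mul_of_nonneg_right (by linarith) (by linarith)
        _ = τ.wt * (3 * nin P cv τ d) := by ring
        _ ≤ τ.wt * nt P cv τ d := mul_le_mul_of_nonneg_left b1 (by linarith)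
    rw [a2, Pool.Agent.Work.MP_5c5849_an.av_const_mul, abs_mul, abs_two] at a3
    linarith
  have e : ff P cv ψ τ = fun d => ∑ i, ψ i * (sg d i * val P cv τ d i) := by
    funext d
    rw [ff, dotProduct]
    exact sum_congr rfl fun i _ => by rw [Pi.mul_apply]; ring
  rw [e, Pool.Agent.Work.MP_5c5849_an.av_sum, nut, sum_mul]
  refine (abs_sum_le_sum_abs _ _).trans (sum_le_sum fun i _ => ?_)
  rw [Pool.Agent.Work.MP_5c5849_an.av_const_mul, abs_mul]
  calc |ψ i| * |av fun d => sg d i * val P cv τ d i|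
      ≤ |ψ i| * ((1 - P i i) * (τ.wt / 2 * av (nt P cv τ))) :=
        mul_le_mul_of_nonneg_left (key i) (abs_nonneg _)
    _ = _ := by ring

theorem fmom_le_one_add {x : ℝ} (hx : 0 ≤ x) {q : ℕ} (hq : q ≠ 0) : x ≤ 1 + x ^ q := by
  rcases le_total x 1 with h1 | h1
  · linarith [pow_nonneg hx q]
  · linarith [le_self_pow₀ h1 hq]

open Classical in
theorem ff_tail (h : CH P cv ψ Y) {Q0 : ℕ} {K : ℝ} (hK : 384 * ((Q0 : ℝ) + 1) ^ 2 ≤ K) {τ : Tr}
    (hτ : τ.pure) (hr : τ.root = false) (hw : τ.wt ^ 2 ≤ Q0) (hm : 3 * m ≤ 2 ^ qq Q0 τ.wt) :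
    av (fun d => if lm P ψ * K ^ (τ.wt + 2) < |ff P cv ψ τ d| then (1 : ℝ) else 0) ≤
      1 / 2 ^ (2 * (Q0 / τ.wt + 1)) := by
  have hN := nt_moment h hK τ hw hm
  have hmean := abs_av_ff h hτ hr
  have hgam := gam_ff h hτ hr
  have hN0 := fmom_nt_nonneg (P := P) (cv := cv) τ
  have hM := fmom_mpsi_nonneg h
  have w1 := fmom_wt_pos τ
  have nu0 : 0 ≤ nut P ψ :=
    sum_nonneg fun k _ => mul_nonneg (by linarith [h.proj.diag_le_one k]) (abs_nonneg _)
  obtain ⟨j, hj⟩ : ∃ j : ℕ, j = Q0 / τ.wt + 1 := ⟨_, rfl⟩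
  have j1 : 1 ≤ j := by rw [hj]; exact Nat.le_add_left _ _
  have jQ : (j : ℝ) ≤ (Q0 : ℝ) + 1 := by
    have : j ≤ Q0 + 1 := by rw [hj]; exact Nat.succ_le_succ (Nat.div_le_self _ _)
    exact_mod_cast this
  have hq : qq Q0 τ.wt = 2 * (2 * j) := by rw [qq, ← hj]; ring
  have j0 : (0 : ℝ) ≤ j := Nat.cast_nonneg _
  have Q00 : (0 : ℝ) ≤ Q0 := Nat.cast_nonneg _
  have jK : 384 * (j : ℝ) ^ 2 ≤ K := by linarith [pow_le_pow_left₀ j0 jQ 2]
  have QK : (Q0 : ℝ) + 1 ≤ K := by nlinarith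
  have K1 : 1 ≤ K := by linarith
  have K0 : 0 < K := by linarith
  have wK : (τ.wt : ℝ) ≤ K := by
    have : τ.wt ≤ Q0 := le_trans (Nat.le_self_pow two_ne_zero _) hw
    have : (τ.wt : ℝ) ≤ Q0 := by exact_mod_cast this
    linarith
  have hH := hh_moment h (j := 2 * j) (by omega) (K := K) (by
    push_cast
    linarith [sq_nonneg (j : ℝ)])
  rw [hq] at hN
  rw [← hj]
  unfold lm
  generalize √(mpsi P ψ) = M at *
  generalize τ.wt = w at *
  generalize ff P cv ψ τ = F at *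
  generalize nt P cv τ = N at *
  have Kw : 0 < K ^ w := pow_pos K0 _
  have g0 : 0 < M * (K ^ w * K) := mul_pos hM (mul_pos Kw K0)
  have hmo := moment F g0 j1 (by
    have hp : ∀ d, gam F d ^ j ≤ ((M * (K ^ w * K)) ^ (2 * j) / 2) *
        ((N d / K ^ w) ^ (2 * (2 * j)) +
          ((nrm ((1 - P) *ᵥ (sg d * ψ)) / M + 2) / K) ^ (2 * (2 * j))) := by
      intro d
      refine (pow_le_pow_left₀ (gam_nonneg _ _) (hgam d) j).trans ?_
      have e : N d * (nrm ((1 - P) *ᵥ (sg d * ψ)) + 2 * M) =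
          (M * (K ^ w * K)) * ((N d / K ^ w) * ((nrm ((1 - P) *ᵥ (sg d * ψ)) / M + 2) / K)) := by
        field_simp
      rw [← pow_mul, e]
      generalize N d / K ^ w = x
      generalize (nrm ((1 - P) *ᵥ (sg d * ψ)) / M + 2) / K = y
      rw [mul_pow _ (x * y), mul_pow x y, mul_comm 2 (2 * j), pow_mul x (2 * j) 2, pow_mul y (2 * j) 2,
        div_mul_eq_mul_div, mul_div_assoc]
      refine mul_le_mul_of_nonneg_left ?_ (pow_pos g0 _).le
      linarith [two_mul_le_add_sq (x ^ (2 * j)) (y ^ (2 * j))]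
    refine (Pool.Agent.Work.MP_5c5849_an.av_mono hp).trans ?_
    rw [Pool.Agent.Work.MP_5c5849_an.av_const_mul, Pool.Agent.Work.MP_5c5849_an.av_add]
    have b1 : 0 ≤ (M * (K ^ w * K)) ^ (2 * j) / 2 := div_nonneg (pow_pos g0 _).le (by norm_num)
    refine (mul_le_mul_of_nonneg_left (add_le_add hN hH) b1).trans (le_of_eq ?_)
    ring)
  have avN : av N ≤ 2 * K ^ w := by
    have b1 : av (fun d => N d / K ^ w) ≤ av (fun d => 1 + (N d / K ^ w) ^ (2 * (2 * j))) :=
      Pool.Agent.Work.MP_5c5849_an.av_mono fun d =>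
        fmom_le_one_add (div_nonneg (hN0 d) Kw.le) (by omega)
    rw [Pool.Agent.Work.MP_5c5849_an.av_add, Pool.Agent.Work.MP_5c5849_an.av_const] at b1
    simp only [div_eq_mul_inv] at b1 hN
    rw [Pool.Agent.Work.MP_5c5849_an.av_mul_const, ← div_eq_mul_inv] at b1
    exact (div_le_iff₀ Kw).1 (by linarith)
  have mean : |av F| ≤ nut P ψ * K ^ (w + 2) := by
    refine hmean.trans (mul_le_mul_of_nonneg_left ?_ nu0)
    have w0 : (0 : ℝ) ≤ (w : ℝ) / 2 := div_nonneg (Nat.cast_nonneg _) (by norm_num)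
    calc (w : ℝ) / 2 * av N ≤ (w : ℝ) / 2 * (2 * K ^ w) := mul_le_mul_of_nonneg_left avN w0
      _ = w * K ^ w := by ring
      _ ≤ K * K ^ w := mul_le_mul_of_nonneg_right wK Kw.le
      _ = K ^ (w + 1) := by ring
      _ ≤ K ^ (w + 2) := pow_le_pow_right₀ K1 (by omega)
  have t0 : 0 < M * (K ^ w * K) * K := mul_pos g0 K0
  have htail := av_tail (F := fun d => |F d - av F|) (fun d => abs_nonneg _) t0 (q := 2 * j)
    (c := 2 * (4 * j ^ 2 * (M * (K ^ w * K))) ^ (2 * j)) (by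
      simp only [(even_two_mul j).pow_abs]
      exact hmo)
  refine le_trans (Pool.Agent.Work.MP_5c5849_an.av_mono fun d => ?_) (htail.trans ?_)
  · by_cases hd : (nut P ψ + M) * K ^ (w + 2) < |F d|
    · have b1 : |F d| ≤ |F d - av F| + |av F| := by
        have := abs_add_le (F d - av F) (av F)
        rwa [sub_add_cancel] at this
      have b2 : (nut P ψ + M) * K ^ (w + 2) = nut P ψ * K ^ (w + 2) + M * (K ^ w * K) * K := by ring
      rw [if_pos hd, if_pos (by linarith)]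
    · rw [if_neg hd]
      split_ifs <;> norm_num
  · rw [mul_div_assoc, ← div_pow]
    have b1 : 4 * (j : ℝ) ^ 2 * (M * (K ^ w * K)) / (M * (K ^ w * K) * K) ≤ 1 / 2 * (1 / 2) := by
      rw [div_le_iff₀ t0]
      have : 4 * (j : ℝ) ^ 2 ≤ 1 / 4 * K := by linarith [sq_nonneg (j : ℝ)]
      calc 4 * (j : ℝ) ^ 2 * (M * (K ^ w * K)) ≤ 1 / 4 * K * (M * (K ^ w * K)) :=
            mul_le_mul_of_nonneg_right this g0.le
        _ = _ := by ring
    have b0 : 0 ≤ 4 * (j : ℝ) ^ 2 * (M * (K ^ w * K)) / (M * (K ^ w * K) * K) :=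
      div_nonneg (mul_nonneg (mul_nonneg (by norm_num) (sq_nonneg _)) g0.le) t0.le
    have b2 := pow_le_pow_left₀ b0 b1 (2 * j)
    rw [mul_pow] at b2
    have b3 : ((1 : ℝ) / 2) ^ (2 * j) ≤ (1 / 2) ^ 1 :=
      pow_le_pow_of_le_one (by norm_num) (by norm_num) (by omega)
    have b4 : (0 : ℝ) ≤ (1 / 2) ^ (2 * j) := pow_nonneg (by norm_num) _
    have b5 := mul_le_mul_of_nonneg_right b3 b4
    rw [← _root_.one_div_pow]
    linarith

end Pool.Agent.Work.MP_6af739_lc.HO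
end

-- merged part: Pool.Agent.Work.MP_6af739_lc.HO.Union
section
/-!
Union bound over trees (T5). trs j: finite set of the trees with j nodes, by strong recursion (leaves: image of univ;
nodes: biUnion over i : Fin (j+1), s : Bool of image₂ (Tr.node s) (trs i) (trs (j-i))); card ≤ 4^(2j+1) catalan j ≤ 64^(j+1)
(catalan_rec, catalan_le). L = ⌈10 R⌉₊, Q0 = p L, K0 = R^5 ≥ 384 (Q0+1)^2, K = R^6 ≥ 2 K0. For nodes τ < p: w ≤ 2p - 1,
w^2 ≤ 4 p^2 ≤ Q0, 2 (Q0/w + 1) ≥ L (w L ≤ 2 Q0). nt_moment and av_tail with t = 2 give probability ≤ 1/2^L for nt > K^w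
(2 K0^w ≤ K^w); ff_tail gives ≤ 1/2^L. Total ≤ p 64^p 2/2^L ≤ 2 * 2^(7p)/2^L and 6 m 2^(7p) ≤ 2^L
(m ≤ exp (R/24) or m = 0, 2^(3R) ≥ exp (2R)). If m = 0 then mpsi = 0, contradiction with CH.pos.
-/

namespace Pool.Agent.Work.MP_6af739_lc.HO

open Matrix Finset MeasureTheory ProbabilityTheory
open Pool.Agent.Work.MP_6a50bc_pr
open Pool.Agent.Work.MP_5c5849_an (sg av)
open scoped ENNReal Polynomial

variable {m : ℕ} {P : Matrix (Fin m) (Fin m) ℝ} {cv : Fin 4 → Fin m → ℝ} {ψ : Fin m → ℝ} {Y : ℝ}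

lemma union_trees (j : ℕ) :
    ∃ s : Finset Tr, (s.card : ℝ) ≤ 4 * 8 ^ j * catalan j ∧ ∀ τ : Tr, τ.nodes = j → τ ∈ s := by
  classical
  induction j using Nat.strong_induction_on with
  | _ j ih =>
  cases j with
  | zero =>
    refine ⟨univ.image Tr.leaf, ?_, ?_⟩
    · have h1 : (univ.image Tr.leaf).card ≤ 4 := card_image_le.trans (by simp)
      have h2 : ((univ.image Tr.leaf).card : ℝ) ≤ 4 := by exact_mod_cast h1
      simpa using h2
    · intro τ hτ
      cases τ with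
      | leaf i => exact mem_image_of_mem _ (mem_univ i)
      | node s l r => simp [Tr.nodes] at hτ
  | succ j =>
    have ih' : ∀ i : ℕ, ∃ s : Finset Tr, i ≤ j →
        (s.card : ℝ) ≤ 4 * 8 ^ i * catalan i ∧ ∀ τ : Tr, τ.nodes = i → τ ∈ s := by
      intro i
      by_cases hi : i ≤ j
      · obtain ⟨s, hs⟩ := ih i (by omega)
        exact ⟨s, fun _ => hs⟩
      · exact ⟨∅, fun h => absurd h hi⟩
    choose f hf using ih'
    refine ⟨(range (j + 1)).biUnion fun i => (univ : Finset Bool).biUnion fun b =>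
      image₂ (Tr.node b) (f i) (f (j - i)), ?_, ?_⟩
    · have h1 : ((range (j + 1)).biUnion fun i => (univ : Finset Bool).biUnion fun b =>
          image₂ (Tr.node b) (f i) (f (j - i))).card ≤
          ∑ i ∈ range (j + 1), 2 * ((f i).card * (f (j - i)).card) := by
        refine card_biUnion_le.trans (sum_le_sum fun i _ => ?_)
        refine card_biUnion_le.trans ?_
        calc ∑ b : Bool, (image₂ (Tr.node b) (f i) (f (j - i))).card
            ≤ ∑ _b : Bool, (f i).card * (f (j - i)).card :=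
              sum_le_sum fun b _ => card_image₂_le _ _ _
          _ = 2 * ((f i).card * (f (j - i)).card) := by simp
      have h2 : (((range (j + 1)).biUnion fun i => (univ : Finset Bool).biUnion fun b =>
          image₂ (Tr.node b) (f i) (f (j - i))).card : ℝ) ≤
          ∑ i ∈ range (j + 1), 2 * (((f i).card : ℝ) * ((f (j - i)).card : ℝ)) := by
        exact_mod_cast h1
      refine h2.trans ?_
      rw [catalan_rec, mul_sum]
      refine sum_le_sum fun i hi => ?_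
      have hi' : i ≤ j := by
        have := mem_range.1 hi
        omega
      have e1 := (hf i hi').1
      have e2 := (hf (j - i) (by omega)).1
      have e3 : (8 : ℝ) ^ i * 8 ^ (j - i) = 8 ^ j := by
        rw [← pow_add]
        congr 1
        omega
      calc 2 * (((f i).card : ℝ) * ((f (j - i)).card : ℝ))
          ≤ 2 * ((4 * 8 ^ i * catalan i) * (4 * 8 ^ (j - i) * catalan (j - i))) := by
            gcongr
        _ = 32 * (8 ^ i * 8 ^ (j - i)) * ((catalan i : ℝ) * catalan (j - i)) := by ring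
        _ = 4 * 8 ^ (j + 1) * ((catalan i : ℝ) * catalan (j - i)) := by
            rw [e3]
            ring
    · intro τ hτ
      cases τ with
      | leaf i => simp [Tr.nodes] at hτ
      | node s l r =>
        have hlr : l.nodes + r.nodes = j := by
          simp only [Tr.nodes] at hτ
          omega
        refine mem_biUnion.2 ⟨l.nodes, mem_range.2 (by omega), mem_biUnion.2 ⟨s, mem_univ _, ?_⟩⟩
        exact mem_image₂_of_mem ((hf _ (by omega)).2 l rfl)
          ((hf _ (by omega)).2 r (by omega))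

theorem exists_trees (j : ℕ) :
    ∃ s : Finset Tr, (s.card : ℝ) ≤ 64 ^ (j + 1) ∧ ∀ τ : Tr, τ.nodes = j → τ ∈ s := by
  obtain ⟨s, h1, h2⟩ := union_trees j
  refine ⟨s, h1.trans ?_, h2⟩
  have h3 := catalan_le j
  calc (4 : ℝ) * 8 ^ j * catalan j ≤ 4 * 8 ^ j * 4 ^ j := by gcongr
    _ = 4 * 32 ^ j := by
      rw [mul_assoc, ← mul_pow]
      norm_num
    _ ≤ 64 * 64 ^ j := by
      gcongr
      · norm_num
      · norm_num
    _ = 64 ^ (j + 1) := by ring

lemma union_key {p L : ℕ} {R : ℝ} (hR : 10 ^ 20 ≤ R) (hp : (p : ℝ) ≤ R) (hL : 10 * R ≤ L)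
    (hm1 : 1 ≤ m) (hm : (m : ℝ) ^ 24 ≤ Real.exp R) : 6 * (m : ℝ) * 2 ^ (7 * p) ≤ 2 ^ L := by
  have h1 : (1 : ℝ) ≤ m := by exact_mod_cast hm1
  have h2 : (m : ℝ) ≤ Real.exp R := (le_self_pow₀ h1 (by norm_num)).trans hm
  have h3 : (6 : ℝ) ≤ Real.exp R := by
    have := Real.add_one_le_exp R
    linarith
  have h4 : ∀ k : ℕ, (2 : ℝ) ^ k = Real.exp (k * Real.log 2) := fun k => by
    rw [Real.exp_nat_mul, Real.exp_log (by norm_num)]
  have h5 := Real.log_two_gt_d9
  rw [h4, h4]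
  calc 6 * (m : ℝ) * Real.exp ((7 * p : ℕ) * Real.log 2)
      ≤ Real.exp R * Real.exp R * Real.exp ((7 * p : ℕ) * Real.log 2) := by gcongr
    _ = Real.exp (R + R + (7 * p : ℕ) * Real.log 2) := by rw [Real.exp_add, Real.exp_add]
    _ ≤ Real.exp (L * Real.log 2) := by
      refine Real.exp_le_exp.2 ?_
      push_cast
      have h6 : 3 * R ≤ (L : ℝ) - 7 * p := by linarith
      have h7 : 3 * R * Real.log 2 ≤ ((L : ℝ) - 7 * p) * Real.log 2 := by
        gcongr
      have h8 : 3 * R * 0.69 ≤ 3 * R * Real.log 2 := by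
        gcongr
        linarith
      nlinarith

lemma union_lm_nonneg (h : CH P cv ψ Y) : 0 ≤ lm P ψ := by
  unfold lm nut
  refine add_nonneg (sum_nonneg fun k _ => mul_nonneg ?_ (abs_nonneg _)) (Real.sqrt_nonneg _)
  exact sub_nonneg.2 (h.proj.diag_le_one k)

lemma union_nt_nonneg (τ : Tr) (d : Fin m → Fin 2) : 0 ≤ nt P cv τ d := by
  rw [nt_eq]
  have h1 := ap_nonneg (P := P) (cv := cv) τ d
  have h2 := one_le_nin (P := P) (cv := cv) τ d
  linarith

open Classical in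
/-- The bad event of one tree. -/
noncomputable def union_bad (P : Matrix (Fin m) (Fin m) ℝ) (cv : Fin 4 → Fin m → ℝ)
    (ψ : Fin m → ℝ) (K : ℝ) (τ : Tr) (d : Fin m → Fin 2) : ℝ :=
  (if 2 < nt P cv τ d / K ^ τ.wt then 1 else 0) +
    (if τ.pure ∧ τ.root = false then 1 else 0) *
      (if lm P ψ * K ^ (τ.wt + 2) < |ff P cv ψ τ d| then 1 else 0)

lemma union_bad_nonneg (K : ℝ) (τ : Tr) (d : Fin m → Fin 2) : 0 ≤ union_bad P cv ψ K τ d := by
  unfold union_bad
  split_ifs <;> norm_num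

lemma union_av_bad (h : CH P cv ψ Y) {Q0 L : ℕ} {K : ℝ} (hK : 384 * ((Q0 : ℝ) + 1) ^ 2 ≤ K)
    (τ : Tr) (hw : τ.wt ^ 2 ≤ Q0) (hL : L ≤ 2 * (Q0 / τ.wt + 1)) (hm : 3 * m ≤ 2 ^ L) :
    av (union_bad P cv ψ K τ) ≤ 2 / 2 ^ L := by
  classical
  have hK0 : 0 < K := lt_of_lt_of_le (by positivity) hK
  have hq : L ≤ qq Q0 τ.wt := by
    unfold qq
    omega
  have hm' : 3 * m ≤ 2 ^ qq Q0 τ.wt := hm.trans (Nat.pow_le_pow_right (by norm_num) hq)
  have h1 := av_tail (F := fun d => nt P cv τ d / K ^ τ.wt)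
    (fun d => div_nonneg (union_nt_nonneg τ d) (by positivity)) (t := 2) (by norm_num)
    (nt_moment h hK τ hw hm')
  have h2 : (1 : ℝ) / 2 ^ qq Q0 τ.wt ≤ 1 / 2 ^ L := by
    gcongr
    norm_num
  have h3 : (1 : ℝ) / 2 ^ (2 * (Q0 / τ.wt + 1)) ≤ 1 / 2 ^ L := by
    gcongr
    norm_num
  unfold union_bad
  rw [Pool.Agent.Work.MP_5c5849_an.av_add, Pool.Agent.Work.MP_5c5849_an.av_const_mul]
  have h4 : (if τ.pure ∧ τ.root = false then (1 : ℝ) else 0) *
      av (fun d => if lm P ψ * K ^ (τ.wt + 2) < |ff P cv ψ τ d| then (1 : ℝ) else 0) ≤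
      1 / 2 ^ L := by
    split_ifs with hc
    · rw [one_mul]
      exact (ff_tail h hK hc.1 hc.2 hw hm').trans h3
    · rw [zero_mul]
      positivity
  have h5 : (2 : ℝ) / 2 ^ L = 1 / 2 ^ L + 1 / 2 ^ L := by ring
  rw [h5]
  exact add_le_add (h1.trans h2) h4

lemma union_one_le (h : CH P cv ψ Y) {R : ℝ} (hR : 2 ≤ R) {τ : Tr} {d : Fin m → Fin 2}
    (hb : ¬(nt P cv τ d ≤ (R ^ 6) ^ τ.wt ∧ (τ.pure → τ.root = false →
      |ff P cv ψ τ d| ≤ lm P ψ * (R ^ 6) ^ 2 * (R ^ 6) ^ τ.wt))) :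
    1 ≤ union_bad P cv ψ (R ^ 5) τ d := by
  classical
  have hR0 : 0 < R := by linarith
  have hR1 : 1 ≤ R := by linarith
  have hl := union_lm_nonneg h
  have e1 : 2 * (R ^ 5) ^ τ.wt ≤ (R ^ 6) ^ τ.wt := by
    have : (2 : ℝ) ≤ R ^ τ.wt := hR.trans (le_self_pow₀ hR1 (by unfold Tr.wt; omega))
    calc 2 * (R ^ 5) ^ τ.wt ≤ R ^ τ.wt * (R ^ 5) ^ τ.wt := by gcongr
      _ = (R ^ 6) ^ τ.wt := by
        rw [← mul_pow]
        congr 1
        ring
  have e2 : lm P ψ * (R ^ 5) ^ (τ.wt + 2) ≤ lm P ψ * (R ^ 6) ^ 2 * (R ^ 6) ^ τ.wt := by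
    rw [mul_assoc, ← pow_add, add_comm 2]
    have : R ^ 5 ≤ R ^ 6 := pow_le_pow_right₀ hR1 (by norm_num)
    gcongr
  unfold union_bad
  by_cases c1 : 2 < nt P cv τ d / (R ^ 5) ^ τ.wt
  · rw [if_pos c1]
    split_ifs <;> norm_num
  · have c2 : nt P cv τ d ≤ (R ^ 6) ^ τ.wt := by
      have := (div_le_iff₀ (by positivity)).1 (not_lt.1 c1)
      linarith
    have c3 : τ.pure ∧ τ.root = false ∧
        lm P ψ * (R ^ 6) ^ 2 * (R ^ 6) ^ τ.wt < |ff P cv ψ τ d| := by
      by_contra hc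
      refine hb ⟨c2, fun a b => ?_⟩
      by_contra hd
      exact hc ⟨a, b, not_le.1 hd⟩
    rw [if_neg c1, if_pos ⟨c3.1, c3.2.1⟩, if_pos (e2.trans_lt c3.2.2)]
    norm_num

open Classical in
theorem cube_bad (h : CH P cv ψ Y) {p : ℕ} {R : ℝ} (hR : 10 ^ 20 ≤ R) (hp : (p : ℝ) ≤ R)
    (hm : (m : ℝ) ^ 24 ≤ Real.exp R) :
    av (fun d => if GoodD P cv ψ p (R ^ 6) d then (0 : ℝ) else 1) ≤ 1 / (3 * m) := by
  have hm1 : 1 ≤ m := by
    rcases Nat.eq_zero_or_pos m with h0 | h0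
    · subst h0
      have := h.pos
      simp [mpsi] at this
    · exact h0
  have hR0 : (0 : ℝ) < R := lt_of_lt_of_le (by norm_num) hR
  obtain ⟨L, hL1, hL2⟩ : ∃ L : ℕ, 10 * R ≤ L ∧ (L : ℝ) ≤ 10 * R + 1 :=
    ⟨⌈10 * R⌉₊, Nat.le_ceil _, (Nat.ceil_lt_add_one (by positivity)).le⟩
  have key := union_key hR hp hL1 hm1 hm
  have hm0 : (0 : ℝ) < m := by exact_mod_cast hm1
  have hmL : 3 * m ≤ 2 ^ L := by
    have h1 : (1 : ℝ) ≤ 2 ^ (7 * p) := one_le_pow₀ (by norm_num)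
    have h2 : 3 * (m : ℝ) ≤ 2 ^ L := by nlinarith
    exact_mod_cast h2
  have hpL : 10 * p ≤ L := by
    have : (10 * p : ℝ) ≤ L := by linarith
    exact_mod_cast this
  have hK : 384 * (((p * L : ℕ) : ℝ) + 1) ^ 2 ≤ R ^ 5 := by
    have h1 : ((p * L : ℕ) : ℝ) ≤ R * (10 * R + 1) := by
      push_cast
      gcongr
    have h2 : ((p * L : ℕ) : ℝ) + 1 ≤ 12 * R ^ 2 := by nlinarith
    calc 384 * (((p * L : ℕ) : ℝ) + 1) ^ 2 ≤ 384 * (12 * R ^ 2) ^ 2 := by gcongr
      _ = 55296 * R ^ 4 := by ring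
      _ ≤ R * R ^ 4 := by
        gcongr
        linarith
      _ = R ^ 5 := by ring
  choose f hf1 hf2 using exists_trees
  have hpt : ∀ d, (if GoodD P cv ψ p (R ^ 6) d then (0 : ℝ) else 1) ≤
      ∑ j ∈ range p, ∑ τ ∈ (f j).filter (fun τ => τ.nodes = j),
        union_bad P cv ψ (R ^ 5) τ d := by
    intro d
    split_ifs with hg
    · exact sum_nonneg fun j _ => sum_nonneg fun τ _ => union_bad_nonneg _ _ _
    · unfold GoodD at hg
      obtain ⟨τ, hτ⟩ := not_forall.1 hg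
      obtain ⟨hτ1, hτ2⟩ := Classical.not_imp.1 hτ
      have h1 := union_one_le h (by linarith) hτ2
      refine h1.trans (le_trans ?_ (single_le_sum (f := fun j => ∑ τ ∈ (f j).filter
        (fun τ => τ.nodes = j), union_bad P cv ψ (R ^ 5) τ d)
        (fun j _ => sum_nonneg fun τ _ => union_bad_nonneg _ _ _) (mem_range.2 hτ1)))
      exact single_le_sum (f := fun τ => union_bad P cv ψ (R ^ 5) τ d)
        (fun τ _ => union_bad_nonneg _ _ _) (mem_filter.2 ⟨hf2 _ τ rfl, rfl⟩)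
  refine (Pool.Agent.Work.MP_5c5849_an.av_mono hpt).trans ?_
  rw [Pool.Agent.Work.MP_5c5849_an.av_sum (range p) (fun j d => ∑ τ ∈ (f j).filter
    (fun τ => τ.nodes = j), union_bad P cv ψ (R ^ 5) τ d)]
  have hj : ∀ j ∈ range p, av (fun d => ∑ τ ∈ (f j).filter (fun τ => τ.nodes = j),
      union_bad P cv ψ (R ^ 5) τ d) ≤ 64 ^ p * (2 / 2 ^ L) := by
    intro j hj
    have hjp := mem_range.1 hj
    rw [Pool.Agent.Work.MP_5c5849_an.av_sum]
    have h1 : ∀ τ ∈ (f j).filter (fun τ => τ.nodes = j),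
        av (union_bad P cv ψ (R ^ 5) τ) ≤ 2 / 2 ^ L := by
      intro τ hτ
      have hn := (mem_filter.1 hτ).2
      have hw1 : τ.wt ≤ 2 * p := by
        unfold Tr.wt
        omega
      have hw0 : 0 < τ.wt := by
        unfold Tr.wt
        omega
      refine union_av_bad h hK τ ?_ ?_ hmL
      · calc τ.wt ^ 2 ≤ (2 * p) ^ 2 := Nat.pow_le_pow_left hw1 2
          _ ≤ p * (10 * p) := by nlinarith
          _ ≤ p * L := Nat.mul_le_mul_left _ hpL
      · have h2 : p * L < τ.wt * (p * L / τ.wt + 1) := Nat.lt_mul_div_succ _ hw0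
        have h3 : p * L < p * (2 * (p * L / τ.wt + 1)) := by
          calc p * L < τ.wt * (p * L / τ.wt + 1) := h2
            _ ≤ 2 * p * (p * L / τ.wt + 1) := Nat.mul_le_mul_right _ hw1
            _ = p * (2 * (p * L / τ.wt + 1)) := by ring
        exact (Nat.lt_of_mul_lt_mul_left h3).le
    refine (sum_le_card_nsmul _ _ _ h1).trans ?_
    rw [nsmul_eq_mul]
    have h2 : (((f j).filter (fun τ => τ.nodes = j)).card : ℝ) ≤ (f j).card := by
      exact_mod_cast card_filter_le _ _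
    have h3 : (64 : ℝ) ^ (j + 1) ≤ 64 ^ p := pow_le_pow_right₀ (by norm_num) hjp
    gcongr
    exact h2.trans ((hf1 j).trans h3)
  refine (sum_le_card_nsmul _ _ _ hj).trans ?_
  rw [nsmul_eq_mul, card_range]
  have h1 : (p : ℝ) ≤ 2 ^ p := by exact_mod_cast (Nat.lt_two_pow_self (n := p)).le
  have h2 : (2 : ℝ) ^ p * 64 ^ p = 2 ^ (7 * p) := by
    rw [← mul_pow, pow_mul]
    norm_num
  calc (p : ℝ) * (64 ^ p * (2 / 2 ^ L)) ≤ 2 ^ p * (64 ^ p * (2 / 2 ^ L)) := by gcongr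
    _ = 2 * 2 ^ (7 * p) / 2 ^ L := by
      rw [← h2]
      ring
    _ ≤ 1 / (3 * m) := by
      rw [div_le_div_iff₀ (by positivity) (by positivity)]
      linarith

end Pool.Agent.Work.MP_6af739_lc.HO
end

-- merged part: Pool.Agent.Work.MP_6af739_lc.HO.Struct
section
/-!
Algebra around M = mM. structW_mM (i): Q e = e gives e = M z (proj_mulVec_eq), z = Fin.cons t z' (Fin.cons_self_tail),
mM_mulVec, co P (Gt z') = 0 (proj_mulVec), θ v2 = (ψ - ε v1)/E1, gam = -(v0·Gt z')/E1, QF_psi_dot.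
(ii): Mᵀ (f - t v0) = Mᵀ Q (f - t v0) = 0 (transpose_mulVec_proj), mM_transpose_mulVec, then apply Gt (GtᵀGt)⁻¹.
rho_le: |b01| ≤ nrm v0 nrm v1, |nu| ≤ nrm h nrm v0, aa ≤ v0·v0, co P v1 · co P v1 ≤ v1·v1.
det_mul_diag: Mᵀ M = (zr M k)ᵀ (zr M k) + row rowᵀ. If det (Mᵀ M) ≠ 0 use the matrix determinant lemma (DetF_rank or
Matrix.det_add_replicateCol_mul_replicateRow); otherwise both sides vanish (inj_of_det, Inj.of_zr, Inj.det_ne_zero).
-/

namespace Pool.Agent.Work.MP_6af739_lc.HO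

open Matrix Finset MeasureTheory ProbabilityTheory
open Pool.Agent.Work.MP_6a50bc_pr
open Pool.Agent.Work.MP_5c5849_an (sg av)
open scoped ENNReal Polynomial

variable {m n : ℕ}

lemma struct_cs (v w : Fin m → ℝ) : (v ⬝ᵥ w) ^ 2 ≤ (v ⬝ᵥ v) * (w ⬝ᵥ w) := by
  rw [← nrm_sq, ← nrm_sq, ← mul_pow, ← sq_abs]
  exact pow_le_pow_left₀ (abs_nonneg _) (abs_dot_le v w) 2

theorem structW_mM {r θ ε : ℝ} {Gt : Matrix (Fin m) (Fin n) ℝ} {v0 v1 v2 : Fin m → ℝ}
    (hr : r ≠ 0) (hG : (Gtᵀ * Gt).det ≠ 0) (hθ : θ * (v0 ⬝ᵥ v2) + ε = 1) (hE : v0 ⬝ᵥ v1 ≠ 0)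
    (hM : ((mM r θ Gt v0 v1 v2)ᵀ * mM r θ Gt v0 v1 v2).det ≠ 0) :
    StructW (proj (mM r θ Gt v0 v1 v2)) (proj Gt) v0 v1 (ε • v1 + (θ * (v0 ⬝ᵥ v1)) • v2) := by
  refine ⟨fun e he => ?_, fun f t hf => ?_⟩
  · obtain ⟨z, hz⟩ : ∃ z, mM r θ Gt v0 v1 v2 *ᵥ z = e := ⟨_, (proj_mulVec_eq _ e).symm.trans he⟩
    rw [← Fin.cons_self_tail z, mM_mulVec] at hz
    have hg := proj_mulVec hG (Fin.tail z)
    generalize Gt *ᵥ Fin.tail z = g at hz hg
    generalize z 0 / r = u at hz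
    refine ⟨-(v0 ⬝ᵥ g) / (v0 ⬝ᵥ v1), ?_⟩
    have h1 : v0 ⬝ᵥ e / (v0 ⬝ᵥ v1) = u + (v0 ⬝ᵥ g) * ε / (v0 ⬝ᵥ v1) := by
      rw [← hz, dotProduct_sub, dotProduct_add, dotProduct_smul, dotProduct_smul, smul_eq_mul,
        smul_eq_mul]
      field_simp
      linear_combination (-(v0 ⬝ᵥ g)) * hθ
    have h2 : -(v0 ⬝ᵥ g) / (v0 ⬝ᵥ v1) * (θ * (v0 ⬝ᵥ v1)) = -(θ * (v0 ⬝ᵥ g)) := by field_simp
    have h3 : co (proj Gt) (ε • v1 + (θ * (v0 ⬝ᵥ v1)) • v2) =
        ε • co (proj Gt) v1 + (θ * (v0 ⬝ᵥ v1)) • co (proj Gt) v2 := by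
      rw [co, co, co, mulVec_add, mulVec_smul, mulVec_smul]
      module
    have h4 : co (proj Gt) e = u • co (proj Gt) v1 - (θ * (v0 ⬝ᵥ g)) • co (proj Gt) v2 := by
      rw [← hz, co, co, co, mulVec_sub, mulVec_add, mulVec_smul, mulVec_smul, hg]
      module
    rw [h1, h3, h4, smul_add, smul_smul, smul_smul, h2]
    module
  · obtain ⟨w, hw⟩ : ∃ w, w = f - t • v0 := ⟨_, rfl⟩
    have hf' : f = w + t • v0 := by rw [hw, sub_add_cancel]
    rw [← hw] at hf
    have h1 := transpose_mulVec_proj hM w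
    rw [hf, mulVec_zero, mM_transpose_mulVec] at h1
    have h2 : v1 ⬝ᵥ w = 0 := by
      have := congrFun h1 0
      rw [Fin.cons_zero, Pi.zero_apply, eq_comm, div_eq_zero_iff] at this
      exact this.resolve_right hr
    have h3 : Gtᵀ *ᵥ w = (θ * (v2 ⬝ᵥ w)) • Gtᵀ *ᵥ v0 :=
      sub_eq_zero.1 (funext fun i => (congrFun h1 i.succ).symm)
    have h4 : proj Gt *ᵥ w = (θ * (v2 ⬝ᵥ w)) • proj Gt *ᵥ v0 := by
      rw [proj_mulVec_eq, proj_mulVec_eq, h3, mulVec_smul, mulVec_smul]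
    have h5 : (ε • v1 + (θ * (v0 ⬝ᵥ v1)) • v2) ⬝ᵥ f / (v0 ⬝ᵥ v1) = θ * (v2 ⬝ᵥ w) + t := by
      rw [hf', dotProduct_add, dotProduct_smul, QF_psi_dot hθ, add_dotProduct, smul_dotProduct,
        smul_dotProduct, h2, smul_eq_mul, smul_eq_mul, smul_eq_mul]
      field_simp
      ring
    rw [h5, hf', mulVec_add, mulVec_smul, h4, add_smul]

theorem rho_le {P : Matrix (Fin m) (Fin m) ℝ} (hP : IsProj P) (v0 v1 ψ : Fin m → ℝ) :
    rho P v0 v1 ψ ≤ 5 * (co P ψ ⬝ᵥ co P ψ) * ((v0 ⬝ᵥ v0) * (v1 ⬝ᵥ v1)) := by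
  have ha : aa P v0 ≤ v0 ⬝ᵥ v0 := by
    rw [aa, hP.dot_eq]
    exact hP.dot_self_le v0
  have ha0 : 0 ≤ aa P v0 := by
    rw [aa, hP.dot_eq]
    exact dot_self_nonneg _
  have hb : b01 P v0 v1 ^ 2 ≤ (v1 ⬝ᵥ v1) * (v0 ⬝ᵥ v0) :=
    (struct_cs v1 (P *ᵥ v0)).trans
      (mul_le_mul_of_nonneg_left (hP.dot_self_le v0) (dot_self_nonneg _))
  have hn : nu P v0 ψ ^ 2 ≤ (co P ψ ⬝ᵥ co P ψ) * (v0 ⬝ᵥ v0) := struct_cs _ _
  have hf := hP.co_dot_self_le v1
  have hd := dot_self_nonneg (b01 P v0 v1 • co P ψ - nu P v0 ψ • co P v1)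
  have h0 := dot_self_nonneg v0
  have h1 := dot_self_nonneg v1
  have hh := dot_self_nonneg (co P ψ)
  have hf0 := dot_self_nonneg (co P v1)
  rw [rho]
  simp only [add_dotProduct, dotProduct_add, sub_dotProduct, dotProduct_sub, smul_dotProduct,
    dotProduct_smul, smul_eq_mul, dotProduct_comm (co P ψ) (co P v1)] at hd ⊢
  generalize co P v1 ⬝ᵥ co P ψ = x at hd ⊢
  generalize co P ψ ⬝ᵥ co P ψ = H at hd hh hn ⊢
  generalize co P v1 ⬝ᵥ co P v1 = F at hd hf hf0 ⊢
  generalize b01 P v0 v1 = b at hd hb ⊢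
  generalize nu P v0 ψ = ν at hd hn ⊢
  generalize aa P v0 = a at ha ha0 ⊢
  generalize v0 ⬝ᵥ v0 = U at ha hb hn h0 ⊢
  generalize v1 ⬝ᵥ v1 = V at hb hf h1 ⊢
  have e1 : b ^ 2 * H ≤ V * U * H := mul_le_mul_of_nonneg_right hb hh
  have e2 : ν ^ 2 * F ≤ H * U * V := mul_le_mul hn hf hf0 (mul_nonneg hh h0)
  have e3 : a * (F * H) ≤ U * (V * H) :=
    mul_le_mul ha (mul_le_mul_of_nonneg_right hf hh) (mul_nonneg hf0 hh) h0
  have e4 : 0 ≤ a * x ^ 2 := mul_nonneg ha0 (sq_nonneg x)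
  linarith

theorem det_mul_diag (M : Matrix (Fin m) (Fin n) ℝ) (k : Fin m) :
    (Mᵀ * M).det * (1 - proj M k k) = ((zr M k)ᵀ * zr M k).det := by
  by_cases h : (Mᵀ * M).det = 0
  · rw [h, zero_mul]
    by_contra h'
    exact (inj_of_det (Ne.symm h')).of_zr.det_ne_zero h
  have h1 : ∀ x, ((zr M k)ᵀ * zr M k) *ᵥ x = (Mᵀ * M) *ᵥ x - (M k ⬝ᵥ x) • M k := fun x => by
    rw [← mulVec_mulVec, ← mulVec_mulVec]
    funext i
    change ∑ j, zr M k j i * (zr M k *ᵥ x) j = ∑ j, M j i * (M *ᵥ x) j - (M *ᵥ x) k * M k i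
    rw [← add_sum_erase _ _ (mem_univ k), ← add_sum_erase _ (fun j => M j i * (M *ᵥ x) j)
      (mem_univ k), p1_zr_self, sum_congr rfl (g := fun j => M j i * (M *ᵥ x) j) fun j hj => by
        rw [p1_zr_ne (ne_of_mem_erase hj), zr, updateRow_ne (ne_of_mem_erase hj)]]
    ring
  have h2 := DetF_rank ((zr M k)ᵀ * zr M k) (Mᵀ * M) (fun _ : Unit => -((Mᵀ * M)⁻¹ *ᵥ M k))
    (fun _ => M k) fun x => by
      rw [h1, Fintype.sum_unique, mulVec_add, mulVec_smul, mulVec_neg, mulVec_mulVec,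
        mul_nonsing_inv _ (Ne.isUnit h), one_mulVec, smul_neg, sub_eq_add_neg]
  have h3 : proj M k k = M k ⬝ᵥ (Mᵀ * M)⁻¹ *ᵥ M k := by
    rw [dotProduct_mulVec]
    rfl
  rw [h2, h3, det_unique (n := Unit), Matrix.add_apply, one_apply_eq, of_apply, dotProduct_neg,
    sub_eq_add_neg]

end Pool.Agent.Work.MP_6af739_lc.HO
end

-- merged part: Pool.Agent.Work.MP_6af739_lc.HO.Pred
section
/-!
The predictor. M = sc A b x, Q = proj M, qd = M (dir). rel A b x z = M z (sc_mulVec). tay_eq: strong induction;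
rel (back x y) = -(Q y) by hess_eq, sc_transpose_mulVec, proj_mulVec_eq. tr_tg: Mᵀ f_0 = lam c (newton_dir),
Mᵀ (y - Q y) = 0 (transpose_mulVec_proj). slack_point: slack (x + z) = s (1 - M z), ev_pe.
near_point: s' = s (1 + e), r = (1 + e)(1 + f) - 1, 1/s' = (1 + f - r/(1 + e))/s, Mᵀ f = a lam c (uses 1 ≤ p), so
Aᵀ om' - (1 + a) lam c = Mᵀ (w - r/(1 + e)) = M'ᵀ ((1 + e) w - r) (model: near_predict in DetF.lean).
fits_iff: the sum of squares is nrm (ev a pr)^2 (eval is a ring hom). exists_fits: continuity at a = 0 and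
1/2^k → 0. near_run: model near_iter; run p 0 = iter 0 by rfl; Near 0.03 then near_correct.
-/

namespace Pool.Agent.Work.MP_6af739_lc.HO

open Matrix Finset MeasureTheory ProbabilityTheory
open Pool.Agent.Work.MP_6a50bc_pr
open Pool.Agent.Work.MP_5c5849_an (sg av)
open scoped ENNReal Polynomial

variable {m n p : ℕ} {A : Matrix (Fin m) (Fin n) ℝ} {b : Fin m → ℝ} {c : Fin n → ℝ}

theorem rel_eq (x z : Fin n → ℝ) : rel A b x z = sc A b x *ᵥ z := by
  funext k
  rw [rel, sc_mulVec]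

theorem pred_back (x : Fin n → ℝ) (y : Fin m → ℝ) :
    sc A b x *ᵥ back A b x y = -(proj (sc A b x) *ᵥ y) := by
  rw [back, mulVec_neg, proj_mulVec_eq, hess_eq, sc_transpose_mulVec]

theorem tay_eq (s : ℝ × (Fin n → ℝ)) (j : ℕ) :
    sc A b s.2 *ᵥ (tay A b c s j).1 =
        (tg (proj (sc A b s.2)) (sc A b s.2 *ᵥ dir A b c s) j).1 ∧
      (tay A b c s j).2 = (tg (proj (sc A b s.2)) (sc A b s.2 *ᵥ dir A b c s) j).2 := by
  induction j using Nat.strong_induction_on with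
  | _ j ih =>
    rcases j with _ | j
    · rw [tay, tg_zero]
      exact ⟨rfl, rel_eq _ _⟩
    · have h1 : ∑ i : Fin (j + 1), rel A b s.2 (tay A b c s i).1 * (tay A b c s (j - i)).2 =
          ∑ i : Fin (j + 1), (tg (proj (sc A b s.2)) (sc A b s.2 *ᵥ dir A b c s) i).1 *
            (tg (proj (sc A b s.2)) (sc A b s.2 *ᵥ dir A b c s) (j - i)).2 :=
        sum_congr rfl fun i _ => by rw [rel_eq, (ih i i.2).1, (ih (j - i) (by omega)).2]
      rw [tay, tg, h1, next, spl]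
      exact ⟨pred_back _ _, by rw [rel_eq, pred_back, sub_eq_add_neg]⟩

theorem tr_tg (hA : Inj A) {s : ℝ × (Fin n → ℝ)} (hx : Inter A b s.2) (j : ℕ) :
    (sc A b s.2)ᵀ *ᵥ (tg (proj (sc A b s.2)) (sc A b s.2 *ᵥ dir A b c s) j).2 =
      if j = 0 then s.1 • c else 0 := by
  rcases j with _ | j
  · rw [tg_zero, if_pos rfl]
    exact newton_dir hA hx _
  · rw [tg_succ, if_neg (Nat.succ_ne_zero j), mulVec_sub,
      transpose_mulVec_proj (hA.sc hx).det_ne_zero, sub_self]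

theorem slack_point {s : ℝ × (Fin n → ℝ)} (hx : Inter A b s.2) (a : ℝ) (k : Fin m) :
    slack A b (point A b c p s a) k = slack A b s.2 k *
      (1 + ev a (pe p (proj (sc A b s.2)) (sc A b s.2 *ᵥ dir A b c s)) k) := by
  have h := newton_slack s.2 (∑ j ∈ range p, a ^ (j + 1) • (tay A b c s j).1) hx 1 k
  rw [one_smul, one_mul, mulVec_sum] at h
  rw [point, h, ev_pe, Pi.neg_apply, ← sub_eq_add_neg]
  simp only [mulVec_smul, (tay_eq s _).1]

theorem pred_ev_pr (a : ℝ) (Q : Matrix (Fin m) (Fin m) ℝ) (q : Fin m → ℝ) :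
    ev a (pr p Q q) = (1 + ev a (pe p Q q)) * (1 + ev a (pf p Q q)) - 1 := by
  simp only [ev, pr, Polynomial.eval_sub, Polynomial.eval_mul, Polynomial.eval_add,
    Polynomial.eval_one]

theorem near_point (hp : 1 ≤ p) (hA : Inj A) {s : ℝ × (Fin n → ℝ)} {δ a η ρ : ℝ}
    (h : Near A b c δ s.1 s.2) (h0 : Inter A b (point A b c p s a)) (hη : 0 ≤ η)
    (h1 : ∀ k, slack A b (point A b c p s a) k ≤ η * slack A b s.2 k)
    (h2 : nrm (ev a (pr p (proj (sc A b s.2)) (sc A b s.2 *ᵥ dir A b c s))) ≤ ρ) :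
    Near A b c (η * δ + ρ) ((1 + a) * s.1) (point A b c p s a) := by
  obtain ⟨hx, w, h3, h4⟩ := h
  have h5 := slack_point (c := c) (p := p) hx a
  have h6 : (sc A b s.2)ᵀ *ᵥ ev a (pf p (proj (sc A b s.2)) (sc A b s.2 *ᵥ dir A b c s)) =
      a • s.1 • c := by
    rw [ev_pf, mulVec_sum, sum_eq_single 0]
    · rw [mulVec_smul, tr_tg hA hx, if_pos rfl, zero_add, pow_one]
    · intro j _ hj
      rw [mulVec_smul, tr_tg hA hx, if_neg hj, smul_zero]
    · exact fun h => absurd (mem_range.2 hp) h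
  rw [pred_ev_pr] at h2
  generalize ev a (pe p (proj (sc A b s.2)) (sc A b s.2 *ᵥ dir A b c s)) = e at h2 h5
  generalize ev a (pf p (proj (sc A b s.2)) (sc A b s.2 *ᵥ dir A b c s)) = f at h2 h6
  have h7 : ∀ k, 0 < 1 + e k := fun k => pos_of_mul_pos_right (h5 k ▸ h0 k) (hx k).le
  have h8 : ∀ k, 1 + e k ≤ η := fun k =>
    le_of_mul_le_mul_left (by rw [← h5, mul_comm]; exact h1 k) (hx k)
  refine ⟨h0, (fun k => (1 + e k) * w k) - ((1 + e) * (1 + f) - 1), ?_,
    (nrm_sub_le _ _).trans (add_le_add ?_ h2)⟩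
  · rw [newton_om s.2, add_mul, one_mul, add_smul, add_sub_add_comm, h3, mul_smul, ← h6,
      sc_transpose_mulVec, sc_transpose_mulVec, sc_transpose_mulVec, ← mulVec_sub, ← mulVec_add]
    refine congrArg _ (funext fun j => ?_)
    have := (hx j).ne'
    have := (h7 j).ne'
    simp only [Pi.add_apply, Pi.sub_apply, Pi.mul_apply, Pi.one_apply, h5]
    field_simp
    ring
  · have h9 : (nrm fun k => (1 + e k) * w k) ≤ nrm (η • w) := nrm_mono fun j => by
      rw [Pi.smul_apply, smul_eq_mul, abs_mul, abs_mul, abs_of_pos (h7 j), abs_of_nonneg hη]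
      exact mul_le_mul_of_nonneg_right (h8 j) (abs_nonneg _)
    rw [nrm_smul, abs_of_nonneg hη] at h9
    exact h9.trans (mul_le_mul_of_nonneg_left h4 hη)

theorem fits_iff {s : ℝ × (Fin n → ℝ)} (hx : Inter A b s.2) (a : ℝ) :
    Fits A b c p s a ↔ (∀ k, 0 < slack A b (point A b c p s a) k ∧
        slack A b (point A b c p s a) k ≤ 2 * slack A b s.2 k) ∧
      nrm (ev a (pr p (proj (sc A b s.2)) (sc A b s.2 *ᵥ dir A b c s))) ≤ 1 / 100 := by
  refine and_congr Iff.rfl ?_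
  rw [nrm_le_iff (by norm_num), show ((1 : ℝ) / 100) ^ 2 = 1 / 10 ^ 4 by norm_num, dotProduct]
  refine Eq.to_iff (congrArg (· ≤ _) (sum_congr rfl fun k _ => ?_))
  rw [← sq, pred_ev_pr, slack_point hx, mul_div_cancel_left₀ _ (hx k).ne', ev_pf]
  simp only [Pi.add_apply, Pi.sub_apply, Pi.mul_apply, Pi.one_apply, Finset.sum_apply,
    Pi.smul_apply, smul_eq_mul, (tay_eq s _).2]

theorem exists_fits {s : ℝ × (Fin n → ℝ)} (hx : Inter A b s.2) :
    ∃ k : ℕ, Fits A b c p s (1 / 2 ^ k) := by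
  have hc : ∀ k, Continuous fun a : ℝ => slack A b (point A b c p s a) k := fun k => by
    simp only [slack_apply, point, mulVec, dotProduct, Pi.add_apply, Finset.sum_apply,
      Pi.smul_apply, smul_eq_mul]
    fun_prop
  have h0 : point A b c p s 0 = s.2 := by simp [point]
  have h1 : ∀ᶠ a in nhds (0 : ℝ), ∀ k, 0 < slack A b (point A b c p s a) k ∧
      slack A b (point A b c p s a) k ≤ 2 * slack A b s.2 k :=
    Filter.eventually_all.2 fun k => by
      have h2 := (hc k).tendsto 0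
      rw [h0] at h2
      exact (h2.eventually (lt_mem_nhds (hx k))).and
        (h2.eventually (ge_mem_nhds (by linarith only [hx k])))
  have h3 : Continuous fun a : ℝ => ∑ k, (slack A b (point A b c p s a) k / slack A b s.2 k *
      (1 + ∑ j ∈ range p, a ^ (j + 1) * (tay A b c s j).2 k) - 1) ^ 2 := by fun_prop
  have h4 := h3.tendsto 0
  have h5 : ∑ k, (slack A b (point A b c p s 0) k / slack A b s.2 k *
      (1 + ∑ j ∈ range p, (0 : ℝ) ^ (j + 1) * (tay A b c s j).2 k) - 1) ^ 2 = 0 :=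
    sum_eq_zero fun k _ => by simp [h0, div_self (hx k).ne']
  rw [h5] at h4
  have h6 : ∀ᶠ a in nhds (0 : ℝ), Fits A b c p s a :=
    h1.and (h4.eventually (ge_mem_nhds (by norm_num)))
  have h7 : Filter.Tendsto (fun k : ℕ => (1 : ℝ) / 2 ^ k) Filter.atTop (nhds 0) := by
    simpa only [_root_.one_div_pow] using tendsto_pow_atTop_nhds_zero_of_lt_one
      (show (0 : ℝ) ≤ 1 / 2 by norm_num) (by norm_num)
  exact (h7.eventually h6).exists

theorem step_pos (s : ℝ × (Fin n → ℝ)) : 0 < step A b c p s := by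
  unfold step
  positivity

theorem step_le_one (s : ℝ × (Fin n → ℝ)) : step A b c p s ≤ 1 := by
  exact div_le_self zero_le_one (one_le_pow₀ one_le_two)

theorem fits_step {s : ℝ × (Fin n → ℝ)} (hx : Inter A b s.2) : Fits A b c p s (step A b c p s) := by
  exact Nat.sInf_mem (s := {k : ℕ | Fits A b c p s (1 / 2 ^ k)}) (exists_fits hx)

theorem not_fits_double {s : ℝ × (Fin n → ℝ)} (h : step A b c p s < 1) :
    ¬Fits A b c p s (2 * step A b c p s) := by
  unfold step at h ⊢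
  rcases hk : sInf {k : ℕ | Fits A b c p s (1 / 2 ^ k)} with _ | k
  · rw [hk] at h
    norm_num at h
  · have h1 : (2 : ℝ) * (1 / 2 ^ (k + 1)) = 1 / 2 ^ k := by
      rw [pow_succ]
      field_simp
    rw [h1]
    exact Nat.notMem_of_lt_sInf (s := {k : ℕ | Fits A b c p s (1 / 2 ^ k)}) (by omega)

theorem near_run (hp : 1 ≤ p) (hA : Inj A) (hb : ∀ j, 0 < b j) (hc : c ≠ 0) (i : ℕ) :
    0 < (run A b c p i).1 ∧ Near A b c (1 / 100) (run A b c p i).1 (run A b c p i).2 ∧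
      Inter A b (advance A b c p (run A b c p i)).2 := by
  have adv : ∀ {s : ℝ × (Fin n → ℝ)}, Near A b c (1 / 100) s.1 s.2 →
      Near A b c (2 * (1 / 100) + 1 / 100) (advance A b c p s).1 (advance A b c p s).2 := by
    intro s h
    obtain ⟨h1, h2⟩ := (fits_iff h.1 _).1 (fits_step (c := c) (p := p) h.1)
    exact near_point hp hA h (fun k => (h1 k).1) zero_le_two (fun k => (h1 k).2) h2
  have key : ∀ i, 0 < (run A b c p i).1 ∧
      Near A b c (1 / 100) (run A b c p i).1 (run A b c p i).2 := by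
    intro i
    induction i with
    | zero => exact ⟨(near_iter hA hb hc 0).1, (near_iter hA hb hc 0).2.1⟩
    | succ i ih =>
      have h1 := step_pos (A := A) (b := b) (c := c) (p := p) (run A b c p i)
      obtain ⟨h2, w, h3, h4⟩ := near_correct hA (adv ih.2) (by norm_num)
      exact ⟨mul_pos (by linarith) ih.1, h2, w, h3, h4.trans (by norm_num)⟩
  exact ⟨(key i).1, (key i).2, (adv (key i).2).1⟩

end Pool.Agent.Work.MP_6af739_lc.HO
end
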